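import Pool.Agent.helper32.DF.Defs

/-!
# A1 : positive definite matrices and Gaussian sums

PROOF. `posdef_lower`: the continuous function `x ↦ x ⬝ᵥ Y *ᵥ x` has a positive minimum on the compact
set `∑ x i ^ 2 = 1` (if `ι` is empty everything is `0`); homogeneity.
`posdef_lower_nhds`: let `c0` be from `posdef_lower` for `Y0 = im τ0`; if all entries differ by at most
`δ = c0 / (2 (card ι + 1))` then `|x·(Y - Y0) x| ≤ δ (∑ |x i|)² ≤ δ card ι ∑ x i ^ 2 ≤ (c0/2) ∑ x i ^2`.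
`gauss_summable`: the term is the product over `i` of `exp (-c (n i + a i)^2 + R |n i + a i|)`, the
one variable series converge, products of summable functions on `ι → ℤ`: induction or
`Summable.of_...`; e.g. `summable_prod`/`(Fintype.piFinset)`: for nonnegative terms partial sums over
`Fintype.piFinset s` are products of partial sums (`Finset.prod_univ_sum`), bounded.
`gauss_bound`: the same product formula; in one variable
`∑_n exp (-c (n + a)^2) ≤ C1` uniformly in `a` (periodic in `a`, so `0 ≤ a < 1`; or compare: for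
`k = n + ⌊a⌋`, `|n + a| ≥ |k| - 1`, so `(n+a)^2 ≥ k^2/2 - 1`).
-/

namespace DF
open Matrix
variable {ι : Type} [Fintype ι] [DecidableEq ι]

theorem posdef_lower (Y : Matrix ι ι ℝ) (hY : Y.PosDef) :
    ∃ c > 0, ∀ x : ι → ℝ, c * ∑ i, x i ^ 2 ≤ x ⬝ᵥ (Y *ᵥ x) := by
  have hpos : ∀ x : ι → ℝ, x ≠ 0 → 0 < x ⬝ᵥ (Y *ᵥ x) := by
    intro x hx
    have := hY.dotProduct_mulVec_pos hx
    simpa using this
  set S : Set (ι → ℝ) := {x | ∑ i, x i ^ 2 = 1} with hS
  have hcont : Continuous fun x : ι → ℝ => x ⬝ᵥ (Y *ᵥ x) := by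
    simp only [dotProduct, mulVec]
    fun_prop
  have hSc : IsCompact S := by
    apply Metric.isCompact_of_isClosed_isBounded
    · exact isClosed_eq (by fun_prop) continuous_const
    · rw [Metric.isBounded_iff_subset_closedBall 0]
      refine ⟨1, fun x hx => ?_⟩
      rw [mem_closedBall_zero_iff, pi_norm_le_iff_of_nonneg zero_le_one]
      intro i
      have hx' : ∑ i, x i ^ 2 = 1 := hx
      have h1 : x i ^ 2 ≤ 1 := by
        rw [← hx']
        exact Finset.single_le_sum (f := fun i => x i ^ 2) (fun i _ => sq_nonneg _)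
          (Finset.mem_univ i)
      rw [Real.norm_eq_abs]
      exact (sq_le_one_iff_abs_le_one _).1 h1
  -- reduction to the sphere
  have hred : ∀ c : ℝ, (∀ x ∈ S, c ≤ x ⬝ᵥ (Y *ᵥ x)) →
      ∀ x : ι → ℝ, c * ∑ i, x i ^ 2 ≤ x ⬝ᵥ (Y *ᵥ x) := by
    intro c hc x
    have hs0 : 0 ≤ ∑ i, x i ^ 2 := Finset.sum_nonneg fun i _ => sq_nonneg _
    rcases hs0.eq_or_lt with h | h
    · have hx0 : x = 0 := by
        funext i
        have := (Finset.sum_eq_zero_iff_of_nonneg (fun i _ => sq_nonneg (x i))).1 h.symm i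
          (Finset.mem_univ i)
        simpa using this
      subst hx0
      simp
    · set s : ℝ := Real.sqrt (∑ i, x i ^ 2) with hs
      have hspos : 0 < s := Real.sqrt_pos.2 h
      have hs2 : s ^ 2 = ∑ i, x i ^ 2 := Real.sq_sqrt hs0
      have hmem : s⁻¹ • x ∈ S := by
        change ∑ i, (s⁻¹ • x) i ^ 2 = 1
        simp only [Pi.smul_apply, smul_eq_mul, mul_pow]
        rw [← Finset.mul_sum, ← hs2]
        field_simp
      have h1 := hc _ hmem
      rw [mulVec_smul, dotProduct_smul, smul_dotProduct, smul_eq_mul, smul_eq_mul] at h1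
      rw [← hs2]
      have h2 : s⁻¹ * (s⁻¹ * (x ⬝ᵥ (Y *ᵥ x))) = (x ⬝ᵥ (Y *ᵥ x)) / s ^ 2 := by
        field_simp
      rw [h2, le_div_iff₀ (by positivity)] at h1
      exact h1
  by_cases hne : S.Nonempty
  · obtain ⟨x0, hx0, hmin⟩ := hSc.exists_isMinOn hne hcont.continuousOn
    have hx0ne : x0 ≠ 0 := by
      rintro rfl
      have : ∑ i : ι, (0 : ι → ℝ) i ^ 2 = 1 := hx0
      simp at this
    exact ⟨_, hpos x0 hx0ne, hred _ fun x hx => hmin hx⟩
  · rw [Set.not_nonempty_iff_eq_empty] at hne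
    refine ⟨1, one_pos, hred 1 fun x hx => ?_⟩
    rw [hne] at hx
    exact absurd hx (Set.notMem_empty x)

theorem posdef_lower_nhds (τ0 : Matrix ι ι ℂ) (h : (τ0.map Complex.im).PosDef) :
    ∃ c > 0, ∃ δ > 0, ∀ τ : Matrix ι ι ℂ, (∀ i j, ‖τ i j - τ0 i j‖ ≤ δ) →
      ∀ x : ι → ℝ, c * ∑ i, x i ^ 2 ≤ x ⬝ᵥ ((τ.map Complex.im) *ᵥ x) := by
  obtain ⟨c0, hc0, hc⟩ := posdef_lower _ h
  set n : ℝ := ((Fintype.card ι : ℕ) : ℝ) with hn
  have hn0 : 0 ≤ n := by positivity
  refine ⟨c0 / 2, by positivity, c0 / (2 * (n + 1)), by positivity, fun τ hτ x => ?_⟩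
  have h1 := hc x
  have h2 : x ⬝ᵥ ((τ.map Complex.im) *ᵥ x) = x ⬝ᵥ ((τ0.map Complex.im) *ᵥ x) +
      ∑ i, ∑ j, x i * ((τ i j - τ0 i j).im * x j) := by
    simp only [dotProduct, mulVec, map_apply]
    rw [← Finset.sum_add_distrib]
    apply Finset.sum_congr rfl
    intro i _
    rw [Finset.mul_sum, Finset.mul_sum, ← Finset.sum_add_distrib]
    apply Finset.sum_congr rfl
    intro j _
    rw [Complex.sub_im]
    ring
  have h3 : -(c0 / (2 * (n + 1)) * (∑ i, |x i|) ^ 2) ≤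
      ∑ i, ∑ j, x i * ((τ i j - τ0 i j).im * x j) := by
    have h4 : (∑ i, |x i|) ^ 2 = ∑ i, ∑ j, |x i| * |x j| := by
      rw [sq, Finset.sum_mul_sum]
    rw [h4, Finset.mul_sum, ← Finset.sum_neg_distrib]
    apply Finset.sum_le_sum
    intro i _
    rw [Finset.mul_sum, ← Finset.sum_neg_distrib]
    apply Finset.sum_le_sum
    intro j _
    have h5 : |(τ i j - τ0 i j).im| ≤ c0 / (2 * (n + 1)) :=
      (Complex.abs_im_le_norm _).trans (hτ i j)
    have h6 : |x i * ((τ i j - τ0 i j).im * x j)| ≤ c0 / (2 * (n + 1)) * (|x i| * |x j|) := by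
      rw [abs_mul, abs_mul]
      calc |x i| * (|(τ i j - τ0 i j).im| * |x j|)
          = |(τ i j - τ0 i j).im| * (|x i| * |x j|) := by ring
        _ ≤ _ := mul_le_mul_of_nonneg_right h5 (by positivity)
    exact (abs_le.1 h6).1
  have h7 : (∑ i, |x i|) ^ 2 ≤ n * ∑ i, x i ^ 2 := by
    have := sq_sum_le_card_mul_sum_sq (s := (Finset.univ : Finset ι)) (f := fun i => |x i|)
    simpa [hn, sq_abs] using this
  have hs0 : 0 ≤ ∑ i, x i ^ 2 := Finset.sum_nonneg fun i _ => sq_nonneg _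
  have h8 : c0 / (2 * (n + 1)) * (∑ i, |x i|) ^ 2 ≤ c0 / 2 * ∑ i, x i ^ 2 := by
    calc c0 / (2 * (n + 1)) * (∑ i, |x i|) ^ 2
        ≤ c0 / (2 * (n + 1)) * (n * ∑ i, x i ^ 2) :=
          mul_le_mul_of_nonneg_left h7 (by positivity)
      _ = (c0 / 2 * ∑ i, x i ^ 2) * (n / (n + 1)) := by
          field_simp
      _ ≤ (c0 / 2 * ∑ i, x i ^ 2) * 1 := by
          apply mul_le_mul_of_nonneg_left _ (by positivity)
          rw [div_le_one (by positivity)]
          linarith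
      _ = _ := mul_one _
  rw [h2]
  linarith

/-- partial sums of products -/
theorem a1_sum_prod_le {g : ι → ℤ → ℝ} (hg : ∀ i k, 0 ≤ g i k) (hs : ∀ i, Summable (g i))
    (u : Finset (ι → ℤ)) : ∑ n ∈ u, ∏ i, g i (n i) ≤ ∏ i, ∑' k, g i k := by
  have h1 : u ⊆ Fintype.piFinset fun i => u.image fun n => n i := by
    intro n hn
    rw [Fintype.mem_piFinset]
    intro i
    exact Finset.mem_image_of_mem _ hn
  calc ∑ n ∈ u, ∏ i, g i (n i)
      ≤ ∑ n ∈ Fintype.piFinset (fun i => u.image fun n => n i), ∏ i, g i (n i) :=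
        Finset.sum_le_sum_of_subset_of_nonneg h1 fun n _ _ => Finset.prod_nonneg fun i _ => hg _ _
    _ = ∏ i, ∑ k ∈ u.image (fun n => n i), g i k := (Finset.prod_univ_sum _ _).symm
    _ ≤ ∏ i, ∑' k, g i k := by
        apply Finset.prod_le_prod
        · intro i _
          exact Finset.sum_nonneg fun k _ => hg _ _
        · intro i _
          exact (hs i).sum_le_tsum _ fun k _ => hg _ _

theorem a1_summable_sq {b : ℝ} (hb : 0 < b) : Summable fun k : ℤ => Real.exp (-b * (k : ℝ) ^ 2) := by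
  have h1 : Summable fun n : ℕ => Real.exp (-b * (n : ℝ) ^ 2) := by
    have h2 : Summable fun n : ℕ => Real.exp (-b) ^ n :=
      summable_geometric_of_lt_one (Real.exp_pos _).le (by
        rw [Real.exp_lt_one_iff]; linarith)
    refine Summable.of_nonneg_of_le (fun n => (Real.exp_pos _).le) (fun n => ?_) h2
    rw [← Real.exp_nat_mul]
    apply Real.exp_le_exp.2
    have h3 : (n : ℝ) ≤ (n : ℝ) ^ 2 := by
      rcases Nat.eq_zero_or_pos n with rfl | hn
      · simp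
      · have : (1 : ℝ) ≤ n := by exact_mod_cast hn
        nlinarith
    nlinarith
  apply Summable.of_nat_of_neg
  · simpa using h1
  · simpa using h1

theorem a1_summable_one {c : ℝ} (hc : 0 < c) (a R : ℝ) :
    Summable fun k : ℤ => Real.exp (-c * ((k : ℝ) + a) ^ 2 + R * |(k : ℝ) + a|) := by
  have h1 : Summable fun k : ℤ => Real.exp (c / 2 * a ^ 2 + R ^ 2 / (2 * c)) *
      Real.exp (-(c / 4) * (k : ℝ) ^ 2) := (a1_summable_sq (by positivity)).mul_left _
  refine Summable.of_nonneg_of_le (fun n => (Real.exp_pos _).le) (fun k => ?_) h1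
  rw [← Real.exp_add]
  apply Real.exp_le_exp.2
  set t : ℝ := (k : ℝ) + a with ht
  have h2 : R * |t| ≤ c / 2 * t ^ 2 + R ^ 2 / (2 * c) := by
    have h3 : c / 2 * t ^ 2 + R ^ 2 / (2 * c) - R * |t| = (c * |t| - R) ^ 2 / (2 * c) := by
      rw [← sq_abs t]
      field_simp
      ring
    have h4 : 0 ≤ (c * |t| - R) ^ 2 / (2 * c) := by positivity
    linarith
  have h5 : (k : ℝ) ^ 2 / 2 - a ^ 2 ≤ t ^ 2 := by
    rw [ht]
    nlinarith [sq_nonneg ((k : ℝ) / 2 + a), sq_nonneg ((k : ℝ) + 2 * a)]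
  nlinarith

theorem a1_prod_eq (c : ℝ) (a : ι → ℝ) (R : ℝ) (n : ι → ℤ) :
    Real.exp (-c * ∑ i, ((n i : ℝ) + a i) ^ 2 + R * ∑ i, |(n i : ℝ) + a i|) =
      ∏ i, Real.exp (-c * ((n i : ℝ) + a i) ^ 2 + R * |(n i : ℝ) + a i|) := by
  rw [← Real.exp_sum, Finset.sum_add_distrib, Finset.mul_sum, Finset.mul_sum]

theorem gauss_summable (c : ℝ) (hc : 0 < c) (a : ι → ℝ) (R : ℝ) :
    Summable (fun n : ι → ℤ => Real.exp (-c * ∑ i, ((n i : ℝ) + a i) ^ 2 +
      R * ∑ i, |(n i : ℝ) + a i|)) := by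
  simp only [a1_prod_eq]
  exact summable_of_sum_le (fun n => Finset.prod_nonneg fun i _ => (Real.exp_pos _).le)
    (a1_sum_prod_le (g := fun i k => Real.exp (-c * ((k : ℝ) + a i) ^ 2 + R * |(k : ℝ) + a i|))
      (fun i k => (Real.exp_pos _).le) fun i => a1_summable_one hc (a i) R)

theorem a1_bound_one {c : ℝ} (hc : 0 < c) (a : ℝ) :
    ∑' k : ℤ, Real.exp (-c * ((k : ℝ) + a) ^ 2 + 0 * |(k : ℝ) + a|) ≤
      Real.exp c * ∑' k : ℤ, Real.exp (-(c / 2) * (k : ℝ) ^ 2) := by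
  have h0 : Summable fun k : ℤ => Real.exp (-c * ((k : ℝ) + a) ^ 2 + 0 * |(k : ℝ) + a|) :=
    a1_summable_one hc a 0
  rw [← tsum_mul_left, ← (Equiv.subRight ⌊a⌋).tsum_eq
    (fun k : ℤ => Real.exp (-c * ((k : ℝ) + a) ^ 2 + 0 * |(k : ℝ) + a|))]
  apply Summable.tsum_le_tsum
  · intro k
    rw [← Real.exp_add]
    apply Real.exp_le_exp.2
    have h1 := Int.floor_le a
    have h2 := Int.lt_floor_add_one a
    simp only [Equiv.subRight_apply, Int.cast_sub]
    set r : ℝ := a - ⌊a⌋ with hr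
    have h3 : (k : ℝ) - (⌊a⌋ : ℝ) + a = k + r := by rw [hr]; ring
    rw [h3]
    have h4 : 0 ≤ r := by rw [hr]; linarith
    have h5 : r ≤ 1 := by rw [hr]; linarith
    have h6 : (k : ℝ) ^ 2 / 2 - 1 ≤ ((k : ℝ) + r) ^ 2 := by
      nlinarith [sq_nonneg ((k : ℝ) / 2 + r), sq_nonneg ((k : ℝ) + 2 * r)]
    nlinarith
  · exact (Equiv.subRight ⌊a⌋).summable_iff.2 h0
  · exact (a1_summable_sq (by positivity)).mul_left _

theorem gauss_bound (c : ℝ) (hc : 0 < c) :
    ∃ C : ℝ, 0 < C ∧ ∀ a : ι → ℝ,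
      ∑' n : ι → ℤ, Real.exp (-c * ∑ i, ((n i : ℝ) + a i) ^ 2) ≤ C := by
  set C1 : ℝ := Real.exp c * ∑' k : ℤ, Real.exp (-(c / 2) * (k : ℝ) ^ 2) with hC1
  have hpos : 0 < C1 := by
    have h1 : 0 < ∑' k : ℤ, Real.exp (-(c / 2) * (k : ℝ) ^ 2) :=
      (a1_summable_sq (by positivity)).tsum_pos (fun k => (Real.exp_pos _).le) 0 (Real.exp_pos _)
    positivity
  refine ⟨C1 ^ Fintype.card ι, by positivity, fun a => ?_⟩
  have h1 : ∀ n : ι → ℤ, Real.exp (-c * ∑ i, ((n i : ℝ) + a i) ^ 2) =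
      ∏ i, Real.exp (-c * ((n i : ℝ) + a i) ^ 2 + 0 * |(n i : ℝ) + a i|) := by
    intro n
    rw [← a1_prod_eq]
    simp
  simp only [h1]
  apply Real.tsum_le_of_sum_le (fun n => Finset.prod_nonneg fun i _ => (Real.exp_pos _).le)
  intro u
  refine (a1_sum_prod_le (g := fun i k => Real.exp (-c * ((k : ℝ) + a i) ^ 2 +
    0 * |(k : ℝ) + a i|)) (fun i k => (Real.exp_pos _).le)
    (fun i => a1_summable_one hc (a i) 0) u).trans ?_
  calc ∏ i, ∑' k : ℤ, Real.exp (-c * ((k : ℝ) + a i) ^ 2 + 0 * |(k : ℝ) + a i|)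
      ≤ ∏ _i : ι, C1 := by
        apply Finset.prod_le_prod
        · intro i _
          exact tsum_nonneg fun k => (Real.exp_pos _).le
        · intro i _
          exact a1_bound_one hc (a i)
    _ = C1 ^ Fintype.card ι := by simp

end DF
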