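import Pool.Agent.helper32.DF.A1

/-!
# A2 : the theta function is entire; growth

PROOF. For real `x`, `im (qf τ x) = x ⬝ᵥ (im τ) *ᵥ x`, so the norm of the term of `theta τ z` is
`exp (-π n·Y n - 2π ∑ n i im (z i)) ≤ exp (-π c ∑ n i^2 + 2π R ∑ |n i|)` if all `|im (z i)| ≤ R`
(`posdef_lower`), summable by `gauss_summable` (`a = 0`).  `differentiable_tsum`-type theorem on balls:
`hasFDerivAt_tsum_of_isPreconnected` needs derivative bounds; simpler: uniform convergence on compact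
sets of the (entire) terms, then the limit is differentiable: for `E → ℂ` with `E = ι → ℂ` Mathlib has
the locally uniform limit theorem only in one variable, so use `hasFDerivAt_tsum_of_isPreconnected` /
`differentiable_tsum'` with derivative bounds: the derivative of the term at `z` is the term times
`v ↦ 2πi ∑ n i v i`, norm `≤ 2π (∑ |n i|) exp(...) ≤ 2π exp (-π c ∑ n i^2 + (2π R + 1) ∑ |n i|)`.
Work on the ball `‖z‖ < R` for each `R`.
`theta_growth`: let `y = im z`, `q = Y⁻¹ y` (`Y = im τ`, symmetric positive definite).  Completing the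
square: `-π n·Y n - 2π n·y = π y·Y⁻¹ y - π (n+q)·Y (n+q)`, so
`‖theta τ z‖ ≤ exp (π y·Y⁻¹y) ∑ exp (-π c ∑ (n i + q i)^2) ≤ C exp (π y·Y⁻¹ y)` (`gauss_bound`).
-/

namespace DF
open Matrix Complex
variable {ι : Type} [Fintype ι] [DecidableEq ι]

theorem im_qf (τ : Matrix ι ι ℂ) (x : ι → ℝ) :
    (qf τ (fun i => (x i : ℂ))).im = x ⬝ᵥ ((τ.map Complex.im) *ᵥ x) := by
  simp only [qf, dotProduct, mulVec, Complex.im_sum, Complex.im_ofReal_mul, Complex.im_mul_ofReal,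
    Matrix.map_apply]

theorem A2_norm (τ : Matrix ι ι ℂ) (z : ι → ℂ) (n : ι → ℤ) :
    ‖cexp (Real.pi * I * qf τ (fun i => (n i : ℂ)) +
      2 * Real.pi * I * ∑ i, (n i : ℂ) * z i)‖ =
    Real.exp (-Real.pi * ((fun i => (n i : ℝ)) ⬝ᵥ ((τ.map Complex.im) *ᵥ (fun i => (n i : ℝ)))) -
      2 * Real.pi * ∑ i, (n i : ℝ) * (z i).im) := by
  rw [Complex.norm_exp]
  congr 1
  have h1 : qf τ (fun i => (n i : ℂ)) = qf τ (fun i => (((n i : ℝ)) : ℂ)) := by
    congr 1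
  have h2 : (qf τ (fun i => (n i : ℂ))).im =
      (fun i => (n i : ℝ)) ⬝ᵥ ((τ.map Complex.im) *ᵥ (fun i => (n i : ℝ))) := by
    rw [h1]
    exact im_qf τ _
  have h3 : (∑ i, (n i : ℂ) * z i).im = ∑ i, (n i : ℝ) * (z i).im := by
    rw [Complex.im_sum]
    refine Finset.sum_congr rfl fun i _ => ?_
    rw [← Complex.ofReal_intCast, Complex.im_ofReal_mul]
  have h4 : ∀ w : ℂ, (Real.pi * I * w).re = -Real.pi * w.im := by
    intro w
    simp [Complex.mul_re, Complex.mul_im]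
  have h5 : ∀ w : ℂ, (2 * Real.pi * I * w).re = -(2 * Real.pi * w.im) := by
    intro w
    simp [Complex.mul_re, Complex.mul_im]
  rw [Complex.add_re, h4, h5, h2, h3]
  ring

theorem A2_bound {τ : Matrix ι ι ℂ} {c : ℝ}
    (hc : ∀ x : ι → ℝ, c * ∑ i, x i ^ 2 ≤ x ⬝ᵥ ((τ.map Complex.im) *ᵥ x)) {R : ℝ} {z : ι → ℂ}
    (hz : ∀ i, |(z i).im| ≤ R) (n : ι → ℤ) :
    ‖cexp (Real.pi * I * qf τ (fun i => (n i : ℂ)) +
      2 * Real.pi * I * ∑ i, (n i : ℂ) * z i)‖ ≤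
    Real.exp (-(Real.pi * c) * ∑ i, ((n i : ℝ) + 0) ^ 2 + 2 * Real.pi * R * ∑ i, |(n i : ℝ) + 0|) := by
  rw [A2_norm]
  apply Real.exp_le_exp.2
  have h1 := hc (fun i => (n i : ℝ))
  have h2 : -(∑ i, (n i : ℝ) * (z i).im) ≤ R * ∑ i, |(n i : ℝ)| := by
    rw [← Finset.sum_neg_distrib, Finset.mul_sum]
    refine Finset.sum_le_sum fun i _ => ?_
    calc -((n i : ℝ) * (z i).im) ≤ |(n i : ℝ) * (z i).im| := neg_le_abs _
      _ = |(z i).im| * |(n i : ℝ)| := by rw [abs_mul, mul_comm]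
      _ ≤ R * |(n i : ℝ)| := mul_le_mul_of_nonneg_right (hz i) (abs_nonneg _)
  have hpi := Real.pi_pos
  simp only [add_zero]
  nlinarith

theorem theta_summable (τ : Matrix ι ι ℂ) (h : (τ.map Complex.im).PosDef) (z : ι → ℂ) :
    Summable (fun n : ι → ℤ => cexp (Real.pi * I * qf τ (fun i => (n i : ℂ)) +
      2 * Real.pi * I * ∑ i, (n i : ℂ) * z i)) := by
  obtain ⟨c, hc, hY⟩ := posdef_lower _ h
  have hz : ∀ i, |(z i).im| ≤ ∑ j, |(z j).im| := fun i =>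
    Finset.single_le_sum (f := fun j => |(z j).im|) (fun j _ => abs_nonneg _) (Finset.mem_univ i)
  exact Summable.of_norm_bounded
    (gauss_summable (Real.pi * c) (mul_pos Real.pi_pos hc) (fun _ => 0)
      (2 * Real.pi * ∑ j, |(z j).im|)) (fun n => A2_bound hY hz n)

theorem theta_differentiable (τ : Matrix ι ι ℂ) (h : (τ.map Complex.im).PosDef) :
    Differentiable ℂ (theta τ) := by
  obtain ⟨c, hc, hY⟩ := posdef_lower _ h
  intro z0
  obtain ⟨R, hR⟩ : ∃ R : ℝ, R = 1 + ∑ j, |(z0 j).im| := ⟨_, rfl⟩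
  have hzR : ∀ z ∈ Metric.ball z0 1, ∀ i, |(z i).im| ≤ R := by
    intro z hz i
    have h1 : |(z0 i).im| ≤ ∑ j, |(z0 j).im| :=
      Finset.single_le_sum (f := fun j => |(z0 j).im|) (fun j _ => abs_nonneg _) (Finset.mem_univ i)
    have h2 : |(z i - z0 i).im| ≤ 1 := by
      refine (Complex.abs_im_le_norm _).trans ?_
      have h3 : ‖(z - z0) i‖ ≤ ‖z - z0‖ := norm_le_pi_norm _ i
      rw [Metric.mem_ball, dist_eq_norm] at hz
      exact h3.trans hz.le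
    have h3 : (z i).im = (z0 i).im + (z i - z0 i).im := by simp
    rw [h3, hR]
    exact (abs_add_le _ _).trans (by linarith)
  have hL : ∀ n : ι → ℤ, ‖(2 * Real.pi * I : ℂ) • ∑ i, (n i : ℂ) •
      (ContinuousLinearMap.proj i : (ι → ℂ) →L[ℂ] ℂ)‖ ≤
      2 * Real.pi * ∑ i, |(n i : ℝ)| := by
    intro n
    rw [norm_smul]
    have h1 : ‖(2 * Real.pi * I : ℂ)‖ = 2 * Real.pi := by
      simp [abs_of_pos Real.pi_pos]
    rw [h1]
    refine mul_le_mul_of_nonneg_left ?_ (by positivity)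
    refine (norm_sum_le _ _).trans (Finset.sum_le_sum fun i _ => ?_)
    rw [norm_smul]
    have h2 : ‖(ContinuousLinearMap.proj i : (ι → ℂ) →L[ℂ] ℂ)‖ ≤ 1 :=
      ContinuousLinearMap.opNorm_le_bound _ zero_le_one fun z => by
        rw [one_mul]; exact norm_le_pi_norm z i
    calc ‖(n i : ℂ)‖ * ‖(ContinuousLinearMap.proj i : (ι → ℂ) →L[ℂ] ℂ)‖ ≤ ‖(n i : ℂ)‖ * 1 :=
          mul_le_mul_of_nonneg_left h2 (norm_nonneg _)
      _ = |(n i : ℝ)| := by rw [mul_one, Complex.norm_intCast]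
  have key := hasFDerivAt_tsum_of_isPreconnected (𝕜 := ℂ)
    (u := fun n : ι → ℤ => 2 * Real.pi * Real.exp (-(Real.pi * c) * ∑ i, ((n i : ℝ) + 0) ^ 2 +
      (2 * Real.pi * R + 1) * ∑ i, |(n i : ℝ) + 0|))
    (f := fun (n : ι → ℤ) (z : ι → ℂ) => cexp (Real.pi * I * qf τ (fun i => (n i : ℂ)) +
      2 * Real.pi * I * ∑ i, (n i : ℂ) * z i))
    (f' := fun (n : ι → ℤ) (z : ι → ℂ) => cexp (Real.pi * I * qf τ (fun i => (n i : ℂ)) +
      2 * Real.pi * I * ∑ i, (n i : ℂ) * z i) • ((2 * Real.pi * I : ℂ) • ∑ i, (n i : ℂ) •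
      (ContinuousLinearMap.proj i : (ι → ℂ) →L[ℂ] ℂ)))
    (s := Metric.ball z0 1) (x₀ := z0) (x := z0)
    ((gauss_summable (Real.pi * c) (mul_pos Real.pi_pos hc) (fun _ => 0)
      (2 * Real.pi * R + 1)).mul_left _) Metric.isOpen_ball
    (convex_ball z0 1).isPreconnected ?_ ?_ (Metric.mem_ball_self one_pos)
    (theta_summable τ h z0) (Metric.mem_ball_self one_pos)
  · exact key.differentiableAt
  · intro n z _
    have h1 : HasFDerivAt (fun z : ι → ℂ => ∑ i, (n i : ℂ) * z i)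
        (∑ i, (n i : ℂ) • (ContinuousLinearMap.proj i : (ι → ℂ) →L[ℂ] ℂ)) z := by
      apply HasFDerivAt.fun_sum
      intro i _
      exact (ContinuousLinearMap.proj i : (ι → ℂ) →L[ℂ] ℂ).hasFDerivAt.const_mul _
    exact ((h1.const_mul (2 * Real.pi * I : ℂ)).const_add _).cexp
  · intro n z hz
    rw [norm_smul]
    have h1 := A2_bound hY (hzR z hz) n
    have h2 := hL n
    have h3 : ∑ i, |(n i : ℝ)| ≤ Real.exp (∑ i, |(n i : ℝ) + 0|) := by
      simp only [add_zero]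
      have := Real.add_one_le_exp (∑ i, |(n i : ℝ)|)
      linarith
    calc _ ≤ Real.exp (-(Real.pi * c) * ∑ i, ((n i : ℝ) + 0) ^ 2 +
          2 * Real.pi * R * ∑ i, |(n i : ℝ) + 0|) *
          (2 * Real.pi * Real.exp (∑ i, |(n i : ℝ) + 0|)) := by
          refine mul_le_mul h1 (h2.trans ?_) (norm_nonneg _) (Real.exp_pos _).le
          exact mul_le_mul_of_nonneg_left h3 (by positivity)
      _ = _ := by
          have h4 : -(Real.pi * c) * ∑ i, ((n i : ℝ) + 0) ^ 2 +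
            (2 * Real.pi * R + 1) * ∑ i, |(n i : ℝ) + 0| = (-(Real.pi * c) * ∑ i, ((n i : ℝ) + 0) ^ 2 +
            2 * Real.pi * R * ∑ i, |(n i : ℝ) + 0|) + ∑ i, |(n i : ℝ) + 0| := by ring
          have h5 : Real.exp (-(Real.pi * c) * ∑ i, ((n i : ℝ) + 0) ^ 2 +
            (2 * Real.pi * R + 1) * ∑ i, |(n i : ℝ) + 0|) =
            Real.exp (-(Real.pi * c) * ∑ i, ((n i : ℝ) + 0) ^ 2 +
            2 * Real.pi * R * ∑ i, |(n i : ℝ) + 0|) * Real.exp (∑ i, |(n i : ℝ) + 0|) :=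
            (congrArg Real.exp h4).trans (Real.exp_add _ _)
          rw [h5]
          ring

theorem theta_growth (τ : Matrix ι ι ℂ) (hτ : τ ∈ Hg ι) :
    ∃ C : ℝ, 0 < C ∧ ∀ z : ι → ℂ, ‖theta τ z‖ ≤ C * Real.exp (Real.pi *
      ((fun i => (z i).im) ⬝ᵥ ((τ.map Complex.im)⁻¹ *ᵥ (fun i => (z i).im)))) := by
  obtain ⟨hsymm, hpos⟩ := hτ
  obtain ⟨c, hc, hY⟩ := posdef_lower _ hpos
  obtain ⟨C, hC, hCb⟩ := gauss_bound (ι := ι) (Real.pi * c) (mul_pos Real.pi_pos hc)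
  refine ⟨C, hC, fun z => ?_⟩
  have hsy : (τ.map Complex.im)ᵀ = τ.map Complex.im := by
    rw [← Matrix.transpose_map, hsymm.eq]
  have hdet : IsUnit (τ.map Complex.im).det := (Matrix.isUnit_iff_isUnit_det _).1 hpos.isUnit
  obtain ⟨y, hy⟩ : ∃ y : ι → ℝ, y = fun i => (z i).im := ⟨_, rfl⟩
  rw [← hy]
  obtain ⟨q, hq⟩ : ∃ q : ι → ℝ, q = (τ.map Complex.im)⁻¹ *ᵥ y := ⟨_, rfl⟩
  have hYq : (τ.map Complex.im) *ᵥ q = y := by
    rw [hq, Matrix.mulVec_mulVec, Matrix.mul_nonsing_inv _ hdet, Matrix.one_mulVec]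
  have hnorm : ∀ n : ι → ℤ, ‖cexp (Real.pi * I * qf τ (fun i => (n i : ℂ)) +
      2 * Real.pi * I * ∑ i, (n i : ℂ) * z i)‖ ≤
      Real.exp (Real.pi * (y ⬝ᵥ ((τ.map Complex.im)⁻¹ *ᵥ y))) *
      Real.exp (-(Real.pi * c) * ∑ i, ((n i : ℝ) + q i) ^ 2) := by
    intro n
    rw [A2_norm, ← Real.exp_add]
    apply Real.exp_le_exp.2
    rw [← hq]
    have h1 := hY ((fun i => (n i : ℝ)) + q)
    have h2 : ((fun i => (n i : ℝ)) + q) ⬝ᵥ ((τ.map Complex.im) *ᵥ ((fun i => (n i : ℝ)) + q)) =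
        (fun i => (n i : ℝ)) ⬝ᵥ ((τ.map Complex.im) *ᵥ (fun i => (n i : ℝ))) +
        2 * ((fun i => (n i : ℝ)) ⬝ᵥ y) + y ⬝ᵥ q := by
      rw [Matrix.mulVec_add, hYq, add_dotProduct, dotProduct_add, dotProduct_add]
      have h3 : q ⬝ᵥ ((τ.map Complex.im) *ᵥ (fun i => (n i : ℝ))) = (fun i => (n i : ℝ)) ⬝ᵥ y := by
        rw [Matrix.dotProduct_mulVec, ← Matrix.mulVec_transpose, hsy, hYq, dotProduct_comm]
      rw [h3, dotProduct_comm q y]
      ring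
    have h4 : (fun i => (n i : ℝ)) ⬝ᵥ y = ∑ i, (n i : ℝ) * (z i).im := by
      rw [hy]; rfl
    rw [h2, h4] at h1
    simp only [Pi.add_apply] at h1
    have hpi := Real.pi_pos
    nlinarith
  have hs1 := gauss_summable (Real.pi * c) (mul_pos Real.pi_pos hc) q 0
  simp only [zero_mul, add_zero] at hs1
  have hs2 := hs1.mul_left (Real.exp (Real.pi * (y ⬝ᵥ ((τ.map Complex.im)⁻¹ *ᵥ y))))
  have hs3 : Summable fun n : ι → ℤ => ‖cexp (Real.pi * I * qf τ (fun i => (n i : ℂ)) +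
      2 * Real.pi * I * ∑ i, (n i : ℂ) * z i)‖ :=
    Summable.of_nonneg_of_le (fun _ => norm_nonneg _) hnorm hs2
  unfold theta
  refine (norm_tsum_le_tsum_norm hs3).trans ((hs3.tsum_le_tsum hnorm hs2).trans ?_)
  rw [tsum_mul_left, mul_comm]
  exact mul_le_mul_of_nonneg_right (hCb q) (Real.exp_pos _).le

end DF
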