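import Pool.Agent.helper32.DF.A2

/-!
# A3 : theta constants are holomorphic in `τ`
-/

namespace DF
open Matrix Complex
variable {ι : Type} [Fintype ι] [DecidableEq ι]

/-- the real point `n + a` -/
noncomputable def A3x (a : ι → ℝ) (n : ι → ℤ) : ι → ℝ := fun i => (n i : ℝ) + a i

theorem A3_term_norm (a b : ι → ℝ) (n : ι → ℤ) (τ : Matrix ι ι ℂ) :
    ‖cexp (Real.pi * I * qf τ (fun i => (n i : ℂ) + a i) +
      2 * Real.pi * I * ∑ i, ((n i : ℂ) + a i) * b i)‖ =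
    Real.exp (-Real.pi * (A3x a n ⬝ᵥ ((τ.map Complex.im) *ᵥ A3x a n))) := by
  rw [Complex.norm_exp]
  congr 1
  have h1 : (fun i => (n i : ℂ) + a i) = fun i => ((A3x a n i : ℝ) : ℂ) := by
    funext i
    simp [A3x]
  have h2 : (∑ i, ((n i : ℂ) + a i) * b i) = ((∑ i, A3x a n i * b i : ℝ) : ℂ) := by
    push_cast
    refine Finset.sum_congr rfl fun i _ => ?_
    simp [A3x]
  rw [h2, h1, ← im_qf τ (A3x a n)]
  have h3 : ((Real.pi : ℂ) * I * qf τ (fun i => ((A3x a n i : ℝ) : ℂ))).re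
      = -Real.pi * (qf τ (fun i => ((A3x a n i : ℝ) : ℂ))).im := by
    simp [Complex.mul_re, Complex.mul_im]
  have h4 : (2 * (Real.pi : ℂ) * I * ((∑ i, A3x a n i * b i : ℝ) : ℂ)).re = 0 := by
    have : 2 * (Real.pi : ℂ) * I * ((∑ i, A3x a n i * b i : ℝ) : ℂ)
        = ((2 * Real.pi * (∑ i, A3x a n i * b i) : ℝ) : ℂ) * I := by
      push_cast
      ring
    rw [this, Complex.re_ofReal_mul]
    simp
  rw [Complex.add_re, h3, h4, add_zero]

theorem A3_gauss (c : ℝ) (hc : 0 < c) (a : ι → ℝ) :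
    Summable (fun n : ι → ℤ => Real.exp (-(Real.pi * c) * ∑ i, A3x a n i ^ 2 +
      1 * ∑ i, |A3x a n i|)) :=
  gauss_summable (Real.pi * c) (by positivity) a 1

theorem A3_bound {c : ℝ} {τ : Matrix ι ι ℂ}
    (h : ∀ x : ι → ℝ, c * ∑ i, x i ^ 2 ≤ x ⬝ᵥ ((τ.map Complex.im) *ᵥ x))
    (a b : ι → ℝ) (n : ι → ℤ) :
    ‖cexp (Real.pi * I * qf τ (fun i => (n i : ℂ) + a i) +
      2 * Real.pi * I * ∑ i, ((n i : ℂ) + a i) * b i)‖ ≤
    Real.exp (-(Real.pi * c) * ∑ i, A3x a n i ^ 2) := by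
  rw [A3_term_norm]
  apply Real.exp_le_exp.2
  have := mul_le_mul_of_nonneg_left (h (A3x a n)) Real.pi_pos.le
  linarith

theorem thc_summable (a b : ι → ℝ) (τ : Matrix ι ι ℂ) (h : (τ.map Complex.im).PosDef) :
    Summable (fun n : ι → ℤ => cexp (Real.pi * I * qf τ (fun i => (n i : ℂ) + a i) +
      2 * Real.pi * I * ∑ i, ((n i : ℂ) + a i) * b i)) := by
  obtain ⟨c, hc, hl⟩ := posdef_lower _ h
  refine Summable.of_norm_bounded (A3_gauss c hc a) fun n => ?_
  refine (A3_bound hl a b n).trans ?_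
  apply Real.exp_le_exp.2
  have : 0 ≤ ∑ i, |A3x a n i| := Finset.sum_nonneg fun i _ => abs_nonneg _
  linarith

/-- the linear form `H ↦ x · H x` -/
noncomputable def A3L (x : ι → ℂ) : (ι → ι → ℂ) →L[ℂ] ℂ :=
  ∑ i, ∑ j, (x i * x j) • ((ContinuousLinearMap.proj (R := ℂ) (φ := fun _ : ι => ℂ) j).comp
    (ContinuousLinearMap.proj (R := ℂ) (φ := fun _ : ι => ι → ℂ) i))

theorem A3L_apply (x : ι → ℂ) (M : ι → ι → ℂ) : A3L x M = qf (Matrix.of M) x := by
  simp only [A3L, qf, dotProduct, Matrix.mulVec, Matrix.of_apply]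
  rw [_root_.sum_apply]
  refine Finset.sum_congr rfl fun i _ => ?_
  rw [_root_.sum_apply, Finset.mul_sum]
  refine Finset.sum_congr rfl fun j _ => ?_
  simp
  ring

theorem A3L_norm (x : ι → ℂ) : ‖A3L x‖ ≤ (∑ i, ‖x i‖) ^ 2 := by
  refine ContinuousLinearMap.opNorm_le_bound _ (by positivity) fun M => ?_
  rw [A3L_apply]
  simp only [qf, dotProduct, Matrix.mulVec, Matrix.of_apply]
  calc ‖∑ i, x i * ∑ j, M i j * x j‖ ≤ ∑ i, ‖x i * ∑ j, M i j * x j‖ := norm_sum_le _ _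
    _ ≤ ∑ i, ‖x i‖ * (‖M‖ * ∑ j, ‖x j‖) := by
        refine Finset.sum_le_sum fun i _ => ?_
        rw [norm_mul]
        refine mul_le_mul_of_nonneg_left ?_ (norm_nonneg _)
        refine (norm_sum_le _ _).trans ?_
        rw [Finset.mul_sum]
        refine Finset.sum_le_sum fun j _ => ?_
        rw [norm_mul]
        refine mul_le_mul_of_nonneg_right ?_ (norm_nonneg _)
        exact (norm_le_pi_norm (M i) j).trans (norm_le_pi_norm M i)
    _ = (∑ i, ‖x i‖) ^ 2 * ‖M‖ := by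
        rw [← Finset.sum_mul]
        ring

theorem sq_le_two_exp {s : ℝ} (hs : 0 ≤ s) : s ^ 2 ≤ 2 * Real.exp s := by
  have := Real.quadratic_le_exp_of_nonneg hs
  nlinarith

theorem thc_differentiableAt (a b : ι → ℝ) (M0 : ι → ι → ℂ)
    (h : ((Matrix.of M0).map Complex.im).PosDef) :
    DifferentiableAt ℂ (fun M : ι → ι → ℂ => thc a b (Matrix.of M)) M0 := by
  obtain ⟨c, hc, δ, hδ, hl⟩ := posdef_lower_nhds _ h
  have hball : ∀ M ∈ Metric.ball M0 δ, ∀ x : ι → ℝ,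
      c * ∑ i, x i ^ 2 ≤ x ⬝ᵥ (((Matrix.of M).map Complex.im) *ᵥ x) := by
    intro M hM
    refine hl _ fun i j => ?_
    simp only [Matrix.of_apply]
    have h1 : ‖M - M0‖ < δ := by
      rw [← dist_eq_norm]
      exact hM
    have h2 : ‖(M - M0) i j‖ ≤ ‖M - M0‖ :=
      (norm_le_pi_norm ((M - M0) i) j).trans (norm_le_pi_norm (M - M0) i)
    exact (h2.trans h1.le)
  have key := hasFDerivAt_tsum_of_isPreconnected (𝕜 := ℂ)
    (f := fun (n : ι → ℤ) (M : ι → ι → ℂ) =>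
      cexp (Real.pi * I * qf (Matrix.of M) (fun i => (n i : ℂ) + a i) +
        2 * Real.pi * I * ∑ i, ((n i : ℂ) + a i) * b i))
    (f' := fun (n : ι → ℤ) (M : ι → ι → ℂ) =>
      (cexp (Real.pi * I * qf (Matrix.of M) (fun i => (n i : ℂ) + a i) +
        2 * Real.pi * I * ∑ i, ((n i : ℂ) + a i) * b i)) •
        ((Real.pi * I : ℂ) • A3L (fun i => (n i : ℂ) + a i)))
    (u := fun n : ι → ℤ => (2 * Real.pi) * Real.exp (-(Real.pi * c) * ∑ i, A3x a n i ^ 2 +
      1 * ∑ i, |A3x a n i|))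
    (s := Metric.ball M0 δ) (x₀ := M0) (x := M0)
    ((A3_gauss c hc a).mul_left _) Metric.isOpen_ball
    (convex_ball M0 δ).isPreconnected ?_ ?_ (Metric.mem_ball_self hδ) ?_
    (Metric.mem_ball_self hδ)
  · exact key.differentiableAt
  · intro n M _
    have h1 : HasFDerivAt (fun M : ι → ι → ℂ => A3L (fun i => (n i : ℂ) + a i) M)
        (A3L (fun i => (n i : ℂ) + a i)) M := (A3L (fun i => (n i : ℂ) + a i)).hasFDerivAt
    have h2 := ((h1.const_mul (Real.pi * I : ℂ)).add_const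
      (2 * Real.pi * I * ∑ i, ((n i : ℂ) + a i) * b i)).cexp
    simp only [A3L_apply] at h2
    exact h2
  · intro n M hM
    rw [norm_smul, norm_smul]
    have h1 := A3_bound (hball M hM) a b n
    have h2 := A3L_norm (fun i => (n i : ℂ) + (a i : ℂ))
    have h3 : (∑ i, ‖(n i : ℂ) + (a i : ℂ)‖) = ∑ i, |A3x a n i| := by
      refine Finset.sum_congr rfl fun i _ => ?_
      have : (n i : ℂ) + (a i : ℂ) = ((A3x a n i : ℝ) : ℂ) := by simp [A3x]
      rw [this, Complex.norm_real, Real.norm_eq_abs]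
    rw [h3] at h2
    have hs : 0 ≤ ∑ i, |A3x a n i| := Finset.sum_nonneg fun i _ => abs_nonneg _
    have h4 : ‖(Real.pi * I : ℂ)‖ = Real.pi := by
      rw [norm_mul, Complex.norm_I, mul_one, Complex.norm_real, Real.norm_eq_abs,
        abs_of_pos Real.pi_pos]
    rw [h4, Real.exp_add, one_mul]
    have h5 : ‖A3L (fun i => (n i : ℂ) + (a i : ℂ))‖ ≤ 2 * Real.exp (∑ i, |A3x a n i|) :=
      h2.trans (sq_le_two_exp hs)
    calc _ ≤ Real.exp (-(Real.pi * c) * ∑ i, A3x a n i ^ 2) *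
          (Real.pi * (2 * Real.exp (∑ i, |A3x a n i|))) := by
          refine mul_le_mul h1 ?_ (by positivity) (Real.exp_pos _).le
          exact mul_le_mul_of_nonneg_left h5 Real.pi_pos.le
      _ = _ := by ring
  · exact thc_summable a b _ h

theorem thc_differentiableOn (a b : ι → ℝ) :
    DifferentiableOn ℂ (fun M : ι → ι → ℂ => thc a b (Matrix.of M))
      {M | Matrix.of M ∈ Hg ι} :=
  fun M hM => (thc_differentiableAt a b M hM.2).differentiableWithinAt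

end DF
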