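import Pool.Agent.helper32.DF.Defs

/-!
# A4 : formal identities

All three are termwise identities (plus a shift of the summation index by an equivalence,
`Equiv.tsum_eq`, and `tsum_mul_left`, which holds without summability).
`thc_eq`: `(n+a)·τ(n+a) = n·τn + 2 n·τa + a·τa` (τ symmetric), `(n+a)·b = n·b + a·b`,
and `(lat τ (Sum.elim a b)) i = ∑ τ i j a j + b i`.
`theta_quasi`: with `m = x ∘ inl`, `l = x ∘ inr`:
`θ(z + τ m + l) = ∑_k e(½ kτk + k·z + k·τm)` (`k·l` integer)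
`= ∑_k e(½ (k+m)τ(k+m) + (k+m)·z) · e(-½ mτm - m·z)`, shift `k → k - m`.
`thc_shift`: `∑_k e(½ (k+a+m)τ(k+a+m) + (k+a+m)·(b+n))`, shift `k → k - m`, `k·n` integer.
-/

namespace DF
open Matrix Complex
variable {ι : Type} [Fintype ι] [DecidableEq ι]

theorem A4_symm {τ : Matrix ι ι ℂ} (hs : τ.IsSymm) (x y : ι → ℂ) :
    y ⬝ᵥ (τ *ᵥ x) = x ⬝ᵥ (τ *ᵥ y) := by
  rw [Matrix.dotProduct_mulVec, ← Matrix.mulVec_transpose, hs.eq, dotProduct_comm]

theorem A4_qf_add {τ : Matrix ι ι ℂ} (hs : τ.IsSymm) (x y : ι → ℂ) :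
    qf τ (fun i => x i + y i) = qf τ x + 2 * (x ⬝ᵥ (τ *ᵥ y)) + qf τ y := by
  have h : (fun i => x i + y i) = x + y := rfl
  rw [h]
  unfold qf
  rw [Matrix.mulVec_add, add_dotProduct, dotProduct_add, dotProduct_add, A4_symm hs x y]
  ring

theorem A4_exp_int (k : ℤ) : cexp (2 * Real.pi * I * k) = 1 := by
  rw [show (2 * Real.pi * I * k : ℂ) = k * (2 * Real.pi * I) by ring]
  exact exp_int_mul_two_pi_mul_I k

theorem thc_eq (τ : Matrix ι ι ℂ) (hs : τ.IsSymm) (a b : ι → ℝ) :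
    thc a b τ = cexp (Real.pi * I * qf τ (fun i => (a i : ℂ)) +
      2 * Real.pi * I * ∑ i, (a i : ℂ) * b i) * theta τ (lat τ (Sum.elim a b)) := by
  unfold thc theta
  rw [← tsum_mul_left]
  congr 1
  ext n
  rw [← Complex.exp_add]
  congr 1
  rw [A4_qf_add hs (fun i => (n i : ℂ)) (fun i => (a i : ℂ))]
  have h1 : ∑ i, (n i : ℂ) * lat τ (Sum.elim a b) i =
      (fun i => (n i : ℂ)) ⬝ᵥ (τ *ᵥ fun i => (a i : ℂ)) + ∑ i, (n i : ℂ) * b i := by
    simp only [lat, dotProduct, mulVec, Sum.elim_inl, Sum.elim_inr, mul_add,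
      Finset.sum_add_distrib]
  have h2 : ∑ i, ((n i : ℂ) + a i) * b i = ∑ i, (n i : ℂ) * b i + ∑ i, (a i : ℂ) * b i := by
    rw [← Finset.sum_add_distrib]
    exact Finset.sum_congr rfl fun i _ => by ring
  rw [h1, h2]
  ring

theorem theta_quasi (τ : Matrix ι ι ℂ) (hs : τ.IsSymm) (x : ι ⊕ ι → ℤ) (z : ι → ℂ) :
    theta τ (z + lat τ (zr x)) = cexp (-(Real.pi * I * qf τ (fun i => (x (Sum.inl i) : ℂ))) -
      2 * Real.pi * I * ∑ i, (x (Sum.inl i) : ℂ) * z i) * theta τ z := by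
  unfold theta
  rw [← (Equiv.addRight (fun i => x (Sum.inl i))).tsum_eq (fun n : ι → ℤ =>
    cexp (Real.pi * I * qf τ (fun i => (n i : ℂ)) + 2 * Real.pi * I * ∑ i, (n i : ℂ) * z i)),
    ← tsum_mul_left]
  congr 1
  ext n
  rw [← Complex.exp_add]
  have h0 : cexp (2 * Real.pi * I * ((∑ i, n i * x (Sum.inr i) : ℤ) : ℂ)) = 1 := A4_exp_int _
  have h1 : ∑ i, (n i : ℂ) * (z + lat τ (zr x)) i =
      ∑ i, (n i : ℂ) * z i + ((fun i => (n i : ℂ)) ⬝ᵥ (τ *ᵥ fun i => (x (Sum.inl i) : ℂ)) +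
        ((∑ i, n i * x (Sum.inr i) : ℤ) : ℂ)) := by
    push_cast
    simp only [Pi.add_apply, lat, zr, dotProduct, mulVec, mul_add, Finset.sum_add_distrib,
      Complex.ofReal_intCast]
  have h2 : qf τ (fun i => ((Equiv.addRight (fun i => x (Sum.inl i)) n) i : ℂ)) =
      qf τ (fun i => (n i : ℂ)) +
        2 * ((fun i => (n i : ℂ)) ⬝ᵥ (τ *ᵥ fun i => (x (Sum.inl i) : ℂ))) +
        qf τ (fun i => (x (Sum.inl i) : ℂ)) := by
    rw [← A4_qf_add hs]
    congr 1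
    ext i
    simp
  have h3 : ∑ i, ((Equiv.addRight (fun i => x (Sum.inl i)) n) i : ℂ) * z i =
      ∑ i, (n i : ℂ) * z i + ∑ i, (x (Sum.inl i) : ℂ) * z i := by
    rw [← Finset.sum_add_distrib]
    refine Finset.sum_congr rfl fun i _ => ?_
    simp [add_mul]
  rw [h1, h2, h3]
  have h4 : ∀ w : ℂ, cexp w = cexp (w + 2 * Real.pi * I * ((∑ i, n i * x (Sum.inr i) : ℤ) : ℂ)) := by
    intro w
    rw [Complex.exp_add, h0, mul_one]
  conv_rhs => rw [h4]
  congr 1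
  ring

theorem thc_shift (τ : Matrix ι ι ℂ) (a b : ι → ℝ) (m n : ι → ℤ) :
    thc (fun i => a i + m i) (fun i => b i + n i) τ =
      cexp (2 * Real.pi * I * ∑ i, (a i : ℂ) * n i) * thc a b τ := by
  unfold thc
  rw [← (Equiv.addRight m).tsum_eq (fun k : ι → ℤ =>
    cexp (Real.pi * I * qf τ (fun i => (k i : ℂ) + a i) + 2 * Real.pi * I *
      ∑ i, ((k i : ℂ) + a i) * b i)), ← tsum_mul_left]
  congr 1
  ext k
  rw [← Complex.exp_add]
  have h0 : cexp (2 * Real.pi * I * ((∑ i, (k i + m i) * n i : ℤ) : ℂ)) = 1 := A4_exp_int _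
  have h1 : (fun i => (k i : ℂ) + ((a i + m i : ℝ) : ℂ)) =
      fun i => (((Equiv.addRight m) k i : ℤ) : ℂ) + a i := by
    ext i
    simp
    ring
  have h2 : ∑ i, ((k i : ℂ) + ((a i + m i : ℝ) : ℂ)) * ((b i + n i : ℝ) : ℂ) =
      ∑ i, ((((Equiv.addRight m) k i : ℤ) : ℂ) + a i) * b i + (∑ i, (a i : ℂ) * n i +
        ((∑ i, (k i + m i) * n i : ℤ) : ℂ)) := by
    push_cast
    rw [← Finset.sum_add_distrib, ← Finset.sum_add_distrib]
    refine Finset.sum_congr rfl fun i _ => ?_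
    simp
    ring
  rw [h1, h2]
  have h4 : ∀ w : ℂ, cexp w = cexp (w + 2 * Real.pi * I * ((∑ i, (k i + m i) * n i : ℤ) : ℂ)) := by
    intro w
    rw [Complex.exp_add, h0, mul_one]
  conv_rhs => rw [h4]
  congr 1
  ring

/-- the theta function in one variable is odd around the point of order two -/
theorem thc_half_zero (τ : Matrix Unit Unit ℂ) : thc (fun _ => 1 / 2) (fun _ => 1 / 2) τ = 0 := by
  -- the substitution `n → -n-1` maps the term to its negative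
  have key : thc (fun _ : Unit => (1 / 2 : ℝ)) (fun _ => 1 / 2) τ =
      - thc (fun _ : Unit => (1 / 2 : ℝ)) (fun _ => 1 / 2) τ := by
    unfold thc
    conv_lhs => rw [← (Equiv.subLeft (fun _ : Unit => (-1 : ℤ))).tsum_eq]
    rw [← tsum_neg]
    congr 1
    ext n
    have h0 : cexp (2 * Real.pi * I * ((-1 - n () : ℤ) : ℂ)) = 1 := A4_exp_int _
    have h1 : cexp (Real.pi * I) = -1 := Complex.exp_pi_mul_I
    have h2 : (fun i : Unit => (((Equiv.subLeft (fun _ : Unit => (-1 : ℤ))) n i : ℤ) : ℂ) +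
        ((1 / 2 : ℝ) : ℂ)) = fun i => -((n i : ℂ) + ((1 / 2 : ℝ) : ℂ)) := by
      ext i
      simp
      ring
    have h3 : ∀ y : Unit → ℂ, qf τ (fun i => - y i) = qf τ y := by
      intro y
      have : (fun i => - y i) = -y := rfl
      rw [this]
      unfold qf
      rw [Matrix.mulVec_neg, neg_dotProduct, dotProduct_neg, neg_neg]
    rw [h2, h3 (fun i => (n i : ℂ) + ((1 / 2 : ℝ) : ℂ))]
    simp only [Finset.univ_unique, Finset.sum_singleton, PUnit.default_eq_unit]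
    have h5 : ∀ w : ℂ, -cexp w = cexp (w + Real.pi * I + 2 * Real.pi * I * ((-1 - n () : ℤ) : ℂ)) := by
      intro w
      rw [Complex.exp_add, Complex.exp_add, h0, h1]
      ring
    rw [h5]
    congr 1
    have h6 : (((Equiv.subLeft (fun _ : Unit => (-1 : ℤ))) n () : ℤ) : ℂ) = -1 - (n () : ℂ) := by
      simp
    rw [h6]
    push_cast
    ring
  have h : (2 : ℂ) * thc (fun _ : Unit => (1 / 2 : ℝ)) (fun _ => 1 / 2) τ = 0 := by
    rw [two_mul]
    nth_rewrite 1 [key]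
    ring
  simpa using h

end DF
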