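import Pool.Agent.helper32.DF.A2

/-!
# A5 : the theta function is not identically zero

PROOF. Suppose `theta τ z = 0` for all `z`.  Let `N ≥ 1` and average over `z = k/N`,
`k ∈ (Fin N)^ι`: `0 = N^{-h} ∑_k theta τ (k/N) = ∑_{n} e(½ n·τn) (N^{-h} ∑_k e(n·k/N))
= ∑_{n ∈ (Nℤ)^ι} e(½ n·τ n)` (product of geometric sums; finite sum of convergent series).
So `1 = ‖∑_{n ∈ (Nℤ)^ι, n ≠ 0} e(½ n·τn)‖ ≤ ∑_{n ≠ 0, n ∈ (N ℤ)^ι} exp(-π c ∑ n i^2)`, which tends to `0`
as `N → ∞` (tail of a summable series: every `n ≠ 0` in `(Nℤ)^ι` has some `|n i| ≥ N`).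
Alternative: `c(n) := coefficient` via `UnitAddTorus.mFourierCoeff` in Mathlib
(Mathlib/Analysis/Fourier/AddCircleMulti.lean): a function given by an absolutely convergent Fourier
series has these Fourier coefficients.
-/

namespace DF
open Matrix Complex
variable {ι : Type} [Fintype ι] [DecidableEq ι]

section a5
open UnitAddTorus MeasureTheory

noncomputable local instance a5_ms : MeasureSpace UnitAddCircle := ⟨AddCircle.haarAddCircle⟩

local instance a5_haar : Measure.IsAddHaarMeasure (volume : Measure UnitAddCircle) :=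
  inferInstanceAs (Measure.IsAddHaarMeasure AddCircle.haarAddCircle)

local instance a5_prob : IsProbabilityMeasure (volume : Measure UnitAddCircle) :=
  inferInstanceAs (IsProbabilityMeasure AddCircle.haarAddCircle)

theorem a5_coeff (c : (ι → ℤ) → ℂ) (h : HasSum (fun n => c n • mFourier (d := ι) n) 0) (m : ι → ℤ) :
    c m = 0 := by
  have h4 := (ContinuousMap.toLp (E := ℂ) 2 (volume : Measure (UnitAddTorus ι)) ℂ).hasSum h
  have h5 := (innerSL ℂ (mFourierLp (d := ι) 2 m)).hasSum h4
  simp only [map_zero, map_smul] at h5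
  have h6 : ∀ n, (innerSL ℂ (mFourierLp (d := ι) 2 m)) (mFourierLp (d := ι) 2 n) = if m = n then 1 else 0 := by
    intro n
    exact (orthonormal_iff_ite.1 (orthonormal_mFourier (d := ι))) m n
  have h7 : HasSum (fun n => c n • (if m = n then (1 : ℂ) else 0)) 0 := by
    have e : (fun n => c n • (if m = n then (1 : ℂ) else 0)) = (fun b => c b • ((innerSL ℂ)
        (mFourierLp (d := ι) 2 m)) ((ContinuousMap.toLp (E := ℂ) 2 (volume : Measure (UnitAddTorus ι)) ℂ)
          (mFourier b))) := by
      funext n
      rw [← h6 n]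
    rw [e]
    exact h5
  have h8 : HasSum (fun n => c n • (if m = n then (1 : ℂ) else 0)) (c m) := by
    have := hasSum_single (f := fun n => c n • (if m = n then (1 : ℂ) else 0)) m (by
      intro n hn
      simp [hn.symm])
    simpa using this
  exact h8.unique h7

end a5

open UnitAddTorus in
theorem theta_ne (τ : Matrix ι ι ℂ) (hτ : τ ∈ Hg ι) : ∃ z, theta τ z ≠ 0 := by
  by_contra hcon
  push Not at hcon
  set c : (ι → ℤ) → ℂ := fun n => cexp (Real.pi * I * qf τ (fun i => (n i : ℂ))) with hc
  have hsum : Summable (fun n => ‖c n‖) := by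
    have := (theta_summable τ hτ.2 0).norm
    simpa [hc] using this
  have hS : Summable (fun n : ι → ℤ => c n • mFourier (d := ι) n) := by
    refine Summable.of_norm ?_
    simpa [norm_smul, mFourier_norm] using hsum
  have hF0 : (∑' n, c n • mFourier (d := ι) n) = 0 := by
    ext x
    have h1 : HasSum (fun n => (c n • mFourier (d := ι) n) x) ((∑' n, c n • mFourier (d := ι) n) x) :=
      (ContinuousMap.evalCLM ℂ x).hasSum hS.hasSum
    have hy : ∀ i, ∃ y : ℝ, (y : UnitAddCircle) = x i := fun i => QuotientAddGroup.mk_surjective (x i)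
    choose y hy using hy
    have h2 : theta τ (fun i => (y i : ℂ)) = ∑' n, (c n • mFourier (d := ι) n) x := by
      unfold theta
      refine tsum_congr fun n => ?_
      rw [Complex.exp_add]
      have h3 : mFourier (d := ι) n x = cexp (2 * Real.pi * I * ∑ i, (n i : ℂ) * (y i : ℂ)) := by
        rw [mFourier]
        simp only [ContinuousMap.coe_mk]
        rw [Finset.mul_sum, Complex.exp_sum]
        refine Finset.prod_congr rfl fun i _ => ?_
        rw [← hy i, fourier_coe_apply]
        congr 1
        push_cast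
        ring
      simp only [ContinuousMap.coe_smul, Pi.smul_apply, smul_eq_mul, hc]
      rw [h3]
    rw [← h1.tsum_eq, ← h2, hcon]
    simp
  have h4 := a5_coeff c (hF0 ▸ hS.hasSum) 0
  simp [hc, qf] at h4

end DF
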