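import Pool.Agent.helper32.DF.A3

/-!
# A6 : decay at the cusps

PROOF. `thc_cusp`: with `τ_l = τ + l i v vᵀ` the term has norm
`exp (-π (n+a)·Y(n+a)) exp (-π l (v·(n+a))²)`, and `v·(n+a) = v·a + integer`, so
`(v·(n+a))² ≥ dZ (v·a)²`; `C = ∑ exp(-π (n+a)·Y(n+a))`.  (`tsum_of_norm_bounded` or
`norm_tsum_le_tsum_norm`; summability from `thc_summable` for the norms.)
`dZ_phi`: `∑ v i (x i).val / N` is congruent to `k / N`, `k = (∑ v i x i).val`, modulo integers; for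
`0 ≤ k < N` the distance of `k/N` to the nearest integer is `min k (N-k) / N`.
-/

namespace DF
open Matrix Complex
variable {ι : Type} [Fintype ι] [DecidableEq ι]

/-- distance to the nearest integer -/
noncomputable def dZ (x : ℝ) : ℝ := |x - round x|

theorem A6_norm_term (τ : Matrix ι ι ℂ) (a b : ι → ℝ) (n : ι → ℤ) :
    ‖cexp (Real.pi * I * qf τ (fun i => (n i : ℂ) + a i) +
      2 * Real.pi * I * ∑ i, ((n i : ℂ) + a i) * b i)‖ =
    Real.exp (-Real.pi * ((fun i => (n i : ℝ) + a i) ⬝ᵥ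
      ((τ.map Complex.im) *ᵥ (fun i => (n i : ℝ) + a i)))) := by
  rw [Complex.norm_exp]
  congr 1
  have e1 : (fun i => (n i : ℂ) + (a i : ℂ)) = (fun i => (((n i : ℝ) + a i : ℝ) : ℂ)) := by
    funext i
    push_cast
    rfl
  have e2 : (∑ i, ((n i : ℂ) + a i) * b i : ℂ) = ((∑ i, ((n i : ℝ) + a i) * b i : ℝ) : ℂ) := by
    push_cast
    rfl
  rw [e2, e1, ← im_qf]
  set q : ℂ := qf τ (fun i => (((n i : ℝ) + a i : ℝ) : ℂ)) with hq
  simp only [Complex.add_re, Complex.mul_re, Complex.mul_im, Complex.ofReal_re, Complex.ofReal_im,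
    Complex.I_re, Complex.I_im, Complex.re_ofNat, Complex.im_ofNat]
  ring

theorem A6_quad (τ : Matrix ι ι ℂ) (v : ι → ℤ) (l : ℝ) (y : ι → ℝ) :
    y ⬝ᵥ (((τ + ((l : ℂ) * I) • Matrix.of (fun i j => (v i : ℂ) * v j)).map Complex.im) *ᵥ y) =
      y ⬝ᵥ ((τ.map Complex.im) *ᵥ y) + l * (∑ i, (v i : ℝ) * y i) ^ 2 := by
  have e : ((τ + ((l : ℂ) * I) • Matrix.of (fun i j => (v i : ℂ) * v j)).map Complex.im) =
      τ.map Complex.im + l • Matrix.of (fun i j => (v i : ℝ) * v j) := by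
    ext i j
    have : ((v i : ℂ) * (v j : ℂ)) = (((v i : ℝ) * (v j : ℝ) : ℝ) : ℂ) := by push_cast; rfl
    simp only [Matrix.map_apply, Matrix.add_apply, Matrix.smul_apply, Matrix.of_apply, smul_eq_mul,
      this, Complex.add_im, Complex.mul_im, Complex.mul_re, Complex.ofReal_re, Complex.ofReal_im,
      Complex.I_re, Complex.I_im]
    ring
  rw [e, Matrix.add_mulVec, dotProduct_add, Matrix.smul_mulVec, dotProduct_smul, smul_eq_mul]
  congr 2
  simp only [dotProduct, Matrix.mulVec, Matrix.of_apply]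
  rw [sq, Finset.sum_mul_sum]
  refine Finset.sum_congr rfl fun i _ => ?_
  rw [Finset.mul_sum]
  refine Finset.sum_congr rfl fun j _ => ?_
  ring

theorem A6_dZ_le (x : ℝ) (m : ℤ) : dZ x ^ 2 ≤ ((m : ℝ) + x) ^ 2 := by
  have h := round_le x (-m)
  rw [Int.cast_neg, sub_neg_eq_add] at h
  rw [← sq_abs ((m : ℝ) + x), add_comm (m : ℝ) x]
  exact pow_le_pow_left₀ (abs_nonneg _) h 2

theorem thc_cusp (τ : Matrix ι ι ℂ) (hτ : τ ∈ Hg ι) (a b : ι → ℝ) (v : ι → ℤ) :
    ∃ C : ℝ, 0 < C ∧ ∀ l : ℝ, 0 ≤ l →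
      ‖thc a b (τ + ((l : ℂ) * I) • Matrix.of (fun i j => (v i : ℂ) * v j))‖ ≤
        C * Real.exp (-Real.pi * l * dZ (∑ i, (v i : ℝ) * a i) ^ 2) := by
  have hs := (thc_summable a b τ hτ.2).norm
  refine ⟨(∑' n : ι → ℤ, ‖cexp (Real.pi * I * qf τ (fun i => (n i : ℂ) + a i) +
      2 * Real.pi * I * ∑ i, ((n i : ℂ) + a i) * b i)‖) + 1, ?_, ?_⟩
  · have : 0 ≤ ∑' n : ι → ℤ, ‖cexp (Real.pi * I * qf τ (fun i => (n i : ℂ) + a i) +
      2 * Real.pi * I * ∑ i, ((n i : ℂ) + a i) * b i)‖ := tsum_nonneg fun n => norm_nonneg _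
    linarith
  intro l hl
  set d : ℝ := dZ (∑ i, (v i : ℝ) * a i) ^ 2 with hd
  set E : ℝ := Real.exp (-Real.pi * l * d) with hE
  have hE0 : 0 < E := Real.exp_pos _
  set τl : Matrix ι ι ℂ := τ + ((l : ℂ) * I) • Matrix.of (fun i j => (v i : ℂ) * v j) with hτl
  have hterm : ∀ n : ι → ℤ, ‖cexp (Real.pi * I * qf τl (fun i => (n i : ℂ) + a i) +
      2 * Real.pi * I * ∑ i, ((n i : ℂ) + a i) * b i)‖ ≤
      ‖cexp (Real.pi * I * qf τ (fun i => (n i : ℂ) + a i) +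
      2 * Real.pi * I * ∑ i, ((n i : ℂ) + a i) * b i)‖ * E := by
    intro n
    rw [A6_norm_term, A6_norm_term, hE, ← Real.exp_add, Real.exp_le_exp, hτl, A6_quad]
    have h1 : d ≤ (∑ i, (v i : ℝ) * ((n i : ℝ) + a i)) ^ 2 := by
      have h2 := A6_dZ_le (∑ i, (v i : ℝ) * a i) (∑ i, v i * n i)
      have h3 : ((∑ i, v i * n i : ℤ) : ℝ) + ∑ i, (v i : ℝ) * a i =
          ∑ i, (v i : ℝ) * ((n i : ℝ) + a i) := by
        push_cast
        rw [← Finset.sum_add_distrib]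
        exact Finset.sum_congr rfl fun i _ => by ring
      rw [h3] at h2
      exact h2
    have h4 : Real.pi * l * d ≤ Real.pi * l * (∑ i, (v i : ℝ) * ((n i : ℝ) + a i)) ^ 2 :=
      mul_le_mul_of_nonneg_left h1 (mul_nonneg Real.pi_pos.le hl)
    nlinarith
  have hs' : Summable (fun n : ι → ℤ => ‖cexp (Real.pi * I * qf τl (fun i => (n i : ℂ) + a i) +
      2 * Real.pi * I * ∑ i, ((n i : ℂ) + a i) * b i)‖) :=
    Summable.of_nonneg_of_le (fun n => norm_nonneg _) hterm (hs.mul_right E)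
  calc ‖thc a b τl‖ ≤ ∑' n : ι → ℤ, ‖cexp (Real.pi * I * qf τl (fun i => (n i : ℂ) + a i) +
      2 * Real.pi * I * ∑ i, ((n i : ℂ) + a i) * b i)‖ := norm_tsum_le_tsum_norm hs'
    _ ≤ ∑' n : ι → ℤ, ‖cexp (Real.pi * I * qf τ (fun i => (n i : ℂ) + a i) +
      2 * Real.pi * I * ∑ i, ((n i : ℂ) + a i) * b i)‖ * E := hs'.tsum_le_tsum hterm (hs.mul_right E)
    _ = (∑' n : ι → ℤ, ‖cexp (Real.pi * I * qf τ (fun i => (n i : ℂ) + a i) +
      2 * Real.pi * I * ∑ i, ((n i : ℂ) + a i) * b i)‖) * E := tsum_mul_right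
    _ ≤ _ := by
      apply mul_le_mul_of_nonneg_right _ hE0.le
      linarith

theorem A6_dZ_add (x : ℝ) (m : ℤ) : dZ (x + m) = dZ x := by
  unfold dZ
  rw [round_add_intCast]
  push_cast
  congr 1
  ring

theorem A6_dZ_frac (N k : ℕ) (hN : 0 < N) (hk : k < N) :
    dZ ((k : ℝ) / N) = ((min k (N - k) : ℕ) : ℝ) / N := by
  have hN' : (0 : ℝ) < N := by exact_mod_cast hN
  have hk0 : (0 : ℝ) ≤ (k : ℝ) / N := by positivity
  have hk1 : (k : ℝ) / N < 1 := by
    rw [div_lt_one hN']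
    exact_mod_cast hk
  unfold dZ
  by_cases h : 2 * k < N
  · have h1 : (k : ℝ) / N < 1 / 2 := by
      rw [div_lt_div_iff₀ hN' two_pos]
      have : ((2 * k : ℕ) : ℝ) < N := by exact_mod_cast h
      push_cast at this
      linarith
    have h2 : round ((k : ℝ) / N) = 0 := by
      rw [round_eq, Int.floor_eq_iff]
      constructor
      · push_cast
        linarith
      · push_cast
        linarith
    have h3 : min k (N - k) = k := by omega
    rw [h2, h3, Int.cast_zero, sub_zero, abs_of_nonneg hk0]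
  · have h1 : 1 / 2 ≤ (k : ℝ) / N := by
      rw [div_le_div_iff₀ two_pos hN']
      have : ((N : ℕ) : ℝ) ≤ ((2 * k : ℕ) : ℝ) := by exact_mod_cast not_lt.mp h
      push_cast at this
      linarith
    have h2 : round ((k : ℝ) / N) = 1 := by
      rw [round_eq, Int.floor_eq_iff]
      constructor
      · push_cast
        linarith
      · push_cast
        linarith
    have h3 : min k (N - k) = N - k := by omega
    rw [h2, h3, Int.cast_one, abs_of_nonpos (by linarith), Nat.cast_sub hk.le]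
    field_simp
    ring

theorem dZ_phi (N : ℕ) (hN : 0 < N) (x : Ch N ι) (v : ι → ℤ) :
    dZ (∑ i, (v i : ℝ) * (((x.1 i).val : ℝ) / N)) ^ 2 = phiN N (ell N (v, 0) x) + 1 / 12 := by
  haveI : NeZero N := ⟨hN.ne'⟩
  have hN' : (N : ℝ) ≠ 0 := by exact_mod_cast hN.ne'
  set k : ZMod N := ell N (v, 0) x with hk
  have hke : k = ∑ i, (v i : ZMod N) * x.1 i := by
    rw [hk, ell]
    refine Finset.sum_congr rfl fun i _ => ?_
    simp
  have hc : ((∑ i, v i * ((x.1 i).val : ℤ) : ℤ) : ZMod N) = ((k.val : ℤ) : ZMod N) := by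
    push_cast
    rw [ZMod.natCast_zmod_val, hke]
    refine Finset.sum_congr rfl fun i _ => ?_
    rw [ZMod.natCast_zmod_val]
  rw [ZMod.intCast_eq_intCast_iff_dvd_sub] at hc
  obtain ⟨m, hm⟩ := hc
  have hsum : (∑ i, (v i : ℝ) * (((x.1 i).val : ℝ) / N)) = (k.val : ℝ) / N + ((-m : ℤ) : ℝ) := by
    have h1 : ((k.val : ℤ) : ℝ) - ((∑ i, v i * ((x.1 i).val : ℤ) : ℤ) : ℝ) = (N : ℝ) * (m : ℝ) := by
      have := congrArg (Int.cast : ℤ → ℝ) hm
      push_cast at this ⊢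
      linarith
    have h2 : (∑ i, (v i : ℝ) * (((x.1 i).val : ℝ) / N)) =
        ((∑ i, v i * ((x.1 i).val : ℤ) : ℤ) : ℝ) / N := by
      push_cast
      rw [Finset.sum_div]
      exact Finset.sum_congr rfl fun i _ => by ring
    rw [h2]
    push_cast at h1 ⊢
    field_simp
    linarith
  rw [hsum, A6_dZ_add, A6_dZ_frac N k.val hN (ZMod.val_lt k)]
  unfold phiN
  ring

end DF
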