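import Pool.Agent.helper32.DF.A3

/-!
# A7 : the product formula

PROOF. `τ i0 j = τ j i0 = 0` for `j ≠ i0` (symmetric).  For `x : ι → ℂ`:
`qf τ x = x i0 * τ i0 i0 * x i0 + qf (τ restricted) (x restricted)`.  Sum over `n : ι → ℤ` =
sum over `(n i0, n restricted)`: the equivalence `(ι → ℤ) ≃ (Unit → ℤ) × ({j // j ≠ i0} → ℤ)`
(e.g. `Equiv.piEquivPiSubtypeProd`, `Equiv.funUnique`), and `tsum_mul_tsum_of_summable_norm`.
`Hg_unit`, `Hg_rest`: positive definite forms restrict to positive definite forms (extend a vector by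
zero); `(im τ) i0 i0 > 0`.
-/

namespace DF
open Matrix Complex
variable {ι : Type} [Fintype ι] [DecidableEq ι]

theorem Hg_unit (i0 : ι) (τ : Matrix ι ι ℂ) (hτ : τ ∈ Hg ι) :
    (Matrix.of fun _ _ => τ i0 i0 : Matrix Unit Unit ℂ) ∈ Hg Unit := by
  refine ⟨?_, ?_⟩
  · ext i j
    rfl
  · have h := hτ.2.submatrix (e := fun _ : Unit => i0) (fun _ _ _ => rfl)
    exact h

theorem Hg_rest (i0 : ι) (τ : Matrix ι ι ℂ) (hτ : τ ∈ Hg ι) :
    (τ.submatrix Subtype.val Subtype.val : Matrix {j // j ≠ i0} {j // j ≠ i0} ℂ) ∈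
      Hg {j // j ≠ i0} := by
  refine ⟨?_, ?_⟩
  · ext i j
    exact hτ.1.apply i.1 j.1
  · exact hτ.2.submatrix Subtype.val_injective

theorem A7_split {M : Type} [AddCommMonoid M] (i0 : ι) (f : ι → M) :
    ∑ i, f i = f i0 + ∑ j : {j // j ≠ i0}, f j.1 := by
  rw [← Finset.add_sum_erase _ _ (Finset.mem_univ i0)]
  congr 1
  refine Finset.sum_subtype _ (fun x => ?_) f
  simp

theorem A7_qf (i0 : ι) (τ : Matrix ι ι ℂ) (hs : τ.IsSymm) (h0 : ∀ j, j ≠ i0 → τ i0 j = 0)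
    (x : ι → ℂ) :
    qf τ x = qf (Matrix.of fun _ _ => τ i0 i0 : Matrix Unit Unit ℂ) (fun _ => x i0) +
      qf (τ.submatrix Subtype.val Subtype.val : Matrix {j // j ≠ i0} {j // j ≠ i0} ℂ)
        (fun j => x j.1) := by
  simp only [qf, dotProduct, Matrix.mulVec, Matrix.of_apply, Matrix.submatrix_apply,
    Finset.univ_unique, Finset.sum_singleton]
  rw [A7_split i0]
  congr 1
  · rw [A7_split i0]
    have : ∑ j : {j // j ≠ i0}, τ i0 j.1 * x j.1 = 0 := by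
      refine Finset.sum_eq_zero fun j _ => ?_
      rw [h0 j.1 j.2, zero_mul]
    rw [this, add_zero]
  · refine Finset.sum_congr rfl fun i _ => ?_
    rw [A7_split i0]
    have : τ i.1 i0 = 0 := by
      rw [← hs.apply, h0 i.1 i.2]
    rw [this, zero_mul, zero_add]

theorem A7_term (i0 : ι) (τ : Matrix ι ι ℂ) (hs : τ.IsSymm) (h0 : ∀ j, j ≠ i0 → τ i0 j = 0)
    (a b : ι → ℝ) (n : ι → ℤ) :
    cexp (Real.pi * I * qf τ (fun i => (n i : ℂ) + a i) +
      2 * Real.pi * I * ∑ i, ((n i : ℂ) + a i) * b i) =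
    cexp (Real.pi * I * qf (Matrix.of fun _ _ => τ i0 i0 : Matrix Unit Unit ℂ)
        (fun _ => (n i0 : ℂ) + a i0) +
      2 * Real.pi * I * ∑ _i : Unit, ((n i0 : ℂ) + a i0) * b i0) *
    cexp (Real.pi * I *
        qf (τ.submatrix Subtype.val Subtype.val : Matrix {j // j ≠ i0} {j // j ≠ i0} ℂ)
        (fun j => (n j.1 : ℂ) + a j.1) +
      2 * Real.pi * I * ∑ j : {j // j ≠ i0}, ((n j.1 : ℂ) + a j.1) * b j.1) := by
  rw [← Complex.exp_add, A7_qf i0 τ hs h0, A7_split i0 (fun i => ((n i : ℂ) + a i) * b i)]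
  congr 1
  simp only [Finset.univ_unique, Finset.sum_singleton]
  ring

/-- splitting of the summation variable -/
def A7_e (i0 : ι) : (Unit → ℤ) × ({j // j ≠ i0} → ℤ) ≃ (ι → ℤ) :=
  ((Equiv.funUnique Unit ℤ).prodCongr (Equiv.refl _)).trans (Equiv.funSplitAt i0 ℤ).symm

theorem A7_e_self (i0 : ι) (p : (Unit → ℤ) × ({j // j ≠ i0} → ℤ)) :
    A7_e i0 p i0 = p.1 () := by
  simp [A7_e, Equiv.funSplitAt, Equiv.piSplitAt]

theorem A7_e_ne (i0 : ι) (p : (Unit → ℤ) × ({j // j ≠ i0} → ℤ)) (j : {j // j ≠ i0}) :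
    A7_e i0 p j.1 = p.2 j := by
  simp [A7_e, Equiv.funSplitAt, Equiv.piSplitAt, j.2]

theorem thc_prod (i0 : ι) (τ : Matrix ι ι ℂ) (hτ : τ ∈ Hg ι) (h0 : ∀ j, j ≠ i0 → τ i0 j = 0)
    (a b : ι → ℝ) :
    thc a b τ = thc (ι := Unit) (fun _ => a i0) (fun _ => b i0) (Matrix.of fun _ _ => τ i0 i0) *
      thc (ι := {j // j ≠ i0}) (fun j => a j.1) (fun j => b j.1)
        (τ.submatrix Subtype.val Subtype.val) := by
  have s1 := (thc_summable (ι := Unit) (fun _ => a i0) (fun _ => b i0) _ (Hg_unit i0 τ hτ).2).norm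
  have s2 := (thc_summable (ι := {j // j ≠ i0}) (fun j => a j.1) (fun j => b j.1) _
    (Hg_rest i0 τ hτ).2).norm
  unfold thc
  rw [tsum_mul_tsum_of_summable_norm s1 s2, ← (A7_e i0).tsum_eq]
  refine tsum_congr fun p => ?_
  rw [A7_term i0 τ hτ.1 h0 a b (A7_e i0 p)]
  simp only [A7_e_self, A7_e_ne]

/-- version for characteristics of level `N` -/
theorem thN_prod (N : ℕ) (i0 : ι) (τ : Matrix ι ι ℂ) (hτ : τ ∈ Hg ι)
    (h0 : ∀ j, j ≠ i0 → τ i0 j = 0) (x : Ch N ι) :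
    thN N x τ = thN (ι := Unit) N (fun _ => x.1 i0, fun _ => x.2 i0)
        (Matrix.of fun _ _ => τ i0 i0) *
      thN (ι := {j // j ≠ i0}) N (fun j => x.1 j.1, fun j => x.2 j.1)
        (τ.submatrix Subtype.val Subtype.val) := by
  exact thc_prod i0 τ hτ h0 _ _

end DF
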