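import Pool.Agent.helper32.DF.Defs

/-!
# J2 : a lower bound for the logarithmic sum over a shifted lattice

PROOF. Let `A = |im (conj ω1 * ω2)| > 0`, `d = ‖ω1‖ + ‖ω2‖`.  The points `s + m ω1 + n ω2` with norm
`< R` form a finite set `Z` (discreteness).
COUNTING: for `r ≥ d` the number `n(r)` of lattice points with norm `< r` is at least
`π (r - d)²/A`: the cells cover the disc of radius `r - d`.
SUMMATION: `log (R/‖t‖) ≥ ∫_d^R 1_{‖t‖<r} dr / r`.
-/

namespace DF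

open MeasureTheory Set

noncomputable section

/-- the lattice point -/
def lp (ω1 ω2 s : ℂ) (p : ℤ × ℤ) : ℂ := s + p.1 * ω1 + p.2 * ω2

/-- the linear map -/
def lmap (ω1 ω2 : ℂ) : ℂ →ₗ[ℝ] ℂ where
  toFun z := z.re * ω1 + z.im * ω2
  map_add' x y := by simp only [Complex.add_re, Complex.add_im]; push_cast; ring
  map_smul' c x := by
    simp only [Complex.real_smul, Complex.mul_re, Complex.mul_im, Complex.ofReal_re,
      Complex.ofReal_im, RingHom.id_apply]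
    push_cast; ring

theorem lmap_apply (ω1 ω2 z : ℂ) : lmap ω1 ω2 z = z.re * ω1 + z.im * ω2 := rfl

theorem im_conj_mul (ω1 ω2 : ℂ) :
    ((starRingEnd ℂ) ω1 * ω2).im = ω1.re * ω2.im - ω1.im * ω2.re := by
  simp only [Complex.mul_im, Complex.conj_re, Complex.conj_im]
  ring

theorem det_lmap (ω1 ω2 : ℂ) : LinearMap.det (lmap ω1 ω2) = ((starRingEnd ℂ) ω1 * ω2).im := by
  rw [← LinearMap.det_toMatrix Complex.basisOneI, Matrix.det_fin_two, im_conj_mul]
  simp only [LinearMap.toMatrix_apply, Complex.coe_basisOneI_repr, Complex.coe_basisOneI,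
    lmap_apply]
  simp
  ring

/-- the unit square -/
def usq : Set ℂ := Complex.re ⁻¹' (Ico 0 1) ∩ Complex.im ⁻¹' (Ico 0 1)

theorem volume_usq : volume usq = 1 := by
  have h : usq = Complex.measurableEquivRealProd ⁻¹' ((Ico 0 1 : Set ℝ) ×ˢ (Ico 0 1 : Set ℝ)) := by
    ext z
    simp [usq, Complex.measurableEquivRealProd_apply]
  rw [h, Complex.volume_preserving_equiv_real_prod.measure_preimage
    (measurableSet_Ico.prod measurableSet_Ico).nullMeasurableSet,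
    Measure.volume_eq_prod, Measure.prod_prod]
  simp

/-- the cell -/
def cell (ω1 ω2 : ℂ) (c : ℂ) : Set ℂ := (fun z => c + z) '' (lmap ω1 ω2 '' usq)

theorem volume_cell (ω1 ω2 c : ℂ) :
    volume (cell ω1 ω2 c) = ENNReal.ofReal |((starRingEnd ℂ) ω1 * ω2).im| := by
  rw [cell, image_add_left, measure_preimage_add, Measure.addHaar_image_linearMap, det_lmap,
    volume_usq, mul_one]

theorem lattice_coords (ω1 ω2 : ℂ) (hω : ((starRingEnd ℂ) ω1 * ω2).im ≠ 0) (z : ℂ) :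
    ∃ x y : ℝ, z = x * ω1 + y * ω2 ∧
      |x| * |((starRingEnd ℂ) ω1 * ω2).im| ≤ ‖ω2‖ * ‖z‖ ∧
      |y| * |((starRingEnd ℂ) ω1 * ω2).im| ≤ ‖ω1‖ * ‖z‖ := by
  have hD : ω1.re * ω2.im - ω1.im * ω2.re ≠ 0 := by rwa [im_conj_mul] at hω
  refine ⟨(z.re * ω2.im - z.im * ω2.re) / (ω1.re * ω2.im - ω1.im * ω2.re),
    (ω1.re * z.im - ω1.im * z.re) / (ω1.re * ω2.im - ω1.im * ω2.re), ?_, ?_, ?_⟩
  · apply Complex.ext
    · simp only [Complex.add_re, Complex.re_ofReal_mul]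
      rw [div_mul_eq_mul_div, div_mul_eq_mul_div, ← add_div, eq_div_iff hD]
      ring
    · simp only [Complex.add_im, Complex.im_ofReal_mul]
      rw [div_mul_eq_mul_div, div_mul_eq_mul_div, ← add_div, eq_div_iff hD]
      ring
  · rw [im_conj_mul, ← abs_mul, div_mul_cancel₀ _ hD]
    have h1 : z.re * ω2.im - z.im * ω2.re = ((starRingEnd ℂ) z * ω2).im := by
      rw [im_conj_mul]
    rw [h1]
    refine (Complex.abs_im_le_norm _).trans ?_
    rw [norm_mul, Complex.norm_conj, mul_comm]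
  · rw [im_conj_mul, ← abs_mul, div_mul_cancel₀ _ hD]
    have h1 : ω1.re * z.im - ω1.im * z.re = ((starRingEnd ℂ) ω1 * z).im := by
      rw [im_conj_mul]
    rw [h1]
    refine (Complex.abs_im_le_norm _).trans ?_
    rw [norm_mul, Complex.norm_conj]

theorem lattice_unique (ω1 ω2 : ℂ) (hω : ((starRingEnd ℂ) ω1 * ω2).im ≠ 0) (x y x' y' : ℝ)
    (h : (x : ℂ) * ω1 + y * ω2 = x' * ω1 + y' * ω2) : x = x' ∧ y = y' := by
  have hD : ω1.re * ω2.im - ω1.im * ω2.re ≠ 0 := by rwa [im_conj_mul] at hω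
  have h1 := congrArg Complex.re h
  have h2 := congrArg Complex.im h
  simp only [Complex.add_re, Complex.re_ofReal_mul, Complex.add_im, Complex.im_ofReal_mul] at h1 h2
  constructor
  · have : (x - x') * (ω1.re * ω2.im - ω1.im * ω2.re) = 0 := by
      linear_combination ω2.im * h1 - ω2.re * h2
    rcases mul_eq_zero.mp this with h | h
    · linarith
    · exact absurd h hD
  · have : (y - y') * (ω1.re * ω2.im - ω1.im * ω2.re) = 0 := by
      linear_combination ω1.re * h2 - ω1.im * h1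
    rcases mul_eq_zero.mp this with h | h
    · linarith
    · exact absurd h hD

theorem lp_injective (ω1 ω2 s : ℂ) (hω : ((starRingEnd ℂ) ω1 * ω2).im ≠ 0) :
    Function.Injective (lp ω1 ω2 s) := by
  rintro ⟨m, n⟩ ⟨m', n'⟩ h
  simp only [lp] at h
  have h' : ((m : ℝ) : ℂ) * ω1 + ((n : ℝ) : ℂ) * ω2 = ((m' : ℝ) : ℂ) * ω1 + ((n' : ℝ) : ℂ) * ω2 := by
    push_cast
    linear_combination h
  obtain ⟨h1, h2⟩ := lattice_unique ω1 ω2 hω _ _ _ _ h'
  have h3 : m = m' := by exact_mod_cast h1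
  have h4 : n = n' := by exact_mod_cast h2
  rw [h3, h4]

theorem lp_finite (ω1 ω2 s : ℂ) (hω : ((starRingEnd ℂ) ω1 * ω2).im ≠ 0) (R : ℝ) :
    {p : ℤ × ℤ | ‖lp ω1 ω2 s p‖ < R}.Finite := by
  set A := |((starRingEnd ℂ) ω1 * ω2).im| with hA
  have hA0 : 0 < A := abs_pos.mpr hω
  set N1 : ℤ := ⌈‖ω2‖ * (R + ‖s‖) / A⌉ with hN1
  set N2 : ℤ := ⌈‖ω1‖ * (R + ‖s‖) / A⌉ with hN2
  refine Set.Finite.subset ((Set.finite_Icc (-N1) N1).prod (Set.finite_Icc (-N2) N2)) ?_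
  rintro ⟨m, n⟩ hp
  simp only [mem_ofPred_eq] at hp
  obtain ⟨x, y, hxy, hx, hy⟩ := lattice_coords ω1 ω2 hω (lp ω1 ω2 s (m, n) - s)
  have h0 : ((x : ℝ) : ℂ) * ω1 + ((y : ℝ) : ℂ) * ω2 = ((m : ℝ) : ℂ) * ω1 + ((n : ℝ) : ℂ) * ω2 := by
    rw [← hxy]
    simp only [lp]
    push_cast
    ring
  obtain ⟨h1, h2⟩ := lattice_unique ω1 ω2 hω _ _ _ _ h0
  subst h1 h2
  have h3 : ‖lp ω1 ω2 s (m, n) - s‖ ≤ R + ‖s‖ := by
    refine (norm_sub_le _ _).trans ?_
    linarith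
  have h4 : |(m : ℝ)| ≤ ‖ω2‖ * (R + ‖s‖) / A := by
    rw [le_div_iff₀ hA0]
    exact hx.trans (mul_le_mul_of_nonneg_left h3 (norm_nonneg _))
  have h5 : |(n : ℝ)| ≤ ‖ω1‖ * (R + ‖s‖) / A := by
    rw [le_div_iff₀ hA0]
    exact hy.trans (mul_le_mul_of_nonneg_left h3 (norm_nonneg _))
  have h6 : |m| ≤ N1 := by
    have : (|m| : ℝ) ≤ (N1 : ℝ) := h4.trans (Int.le_ceil _)
    exact_mod_cast this
  have h7 : |n| ≤ N2 := by
    have : (|n| : ℝ) ≤ (N2 : ℝ) := h5.trans (Int.le_ceil _)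
    exact_mod_cast this
  exact ⟨abs_le.mp h6, abs_le.mp h7⟩

/-- the index set -/
def ix (ω1 ω2 s : ℂ) (hω : ((starRingEnd ℂ) ω1 * ω2).im ≠ 0) (R : ℝ) : Finset (ℤ × ℤ) :=
  (lp_finite ω1 ω2 s hω R).toFinset

theorem mem_ix (ω1 ω2 s : ℂ) (hω : ((starRingEnd ℂ) ω1 * ω2).im ≠ 0) (R : ℝ) (p : ℤ × ℤ) :
    p ∈ ix ω1 ω2 s hω R ↔ ‖lp ω1 ω2 s p‖ < R := by
  simp [ix]

theorem ball_subset_cells (ω1 ω2 s : ℂ) (hω : ((starRingEnd ℂ) ω1 * ω2).im ≠ 0) (r : ℝ) :
    Metric.ball (0 : ℂ) (r - (‖ω1‖ + ‖ω2‖)) ⊆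
      ⋃ p ∈ ix ω1 ω2 s hω r, cell ω1 ω2 (lp ω1 ω2 s p) := by
  intro z hz
  rw [mem_ball_zero_iff] at hz
  obtain ⟨x, y, hxy, -, -⟩ := lattice_coords ω1 ω2 hω (z - s)
  have hz' : z = lp ω1 ω2 s (⌊x⌋, ⌊y⌋) + (((Int.fract x : ℝ) : ℂ) * ω1 + ((Int.fract y : ℝ) : ℂ) * ω2) := by
    have h1 : (x : ℂ) = (⌊x⌋ : ℂ) + ((Int.fract x : ℝ) : ℂ) := by
      rw [← Complex.ofReal_intCast, ← Complex.ofReal_add, Int.floor_add_fract]
    have h2 : (y : ℂ) = (⌊y⌋ : ℂ) + ((Int.fract y : ℝ) : ℂ) := by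
      rw [← Complex.ofReal_intCast, ← Complex.ofReal_add, Int.floor_add_fract]
    simp only [lp]
    rw [h1, h2] at hxy
    linear_combination hxy
  have hf : ‖((Int.fract x : ℝ) : ℂ) * ω1 + ((Int.fract y : ℝ) : ℂ) * ω2‖ ≤ ‖ω1‖ + ‖ω2‖ := by
    refine (norm_add_le _ _).trans (add_le_add ?_ ?_)
    · rw [norm_mul, Complex.norm_real, Real.norm_eq_abs, abs_of_nonneg (Int.fract_nonneg x)]
      exact mul_le_of_le_one_left (norm_nonneg _) (Int.fract_lt_one x).le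
    · rw [norm_mul, Complex.norm_real, Real.norm_eq_abs, abs_of_nonneg (Int.fract_nonneg y)]
      exact mul_le_of_le_one_left (norm_nonneg _) (Int.fract_lt_one y).le
  rw [mem_iUnion₂]
  refine ⟨(⌊x⌋, ⌊y⌋), ?_, ?_⟩
  · rw [mem_ix]
    have h3 : lp ω1 ω2 s (⌊x⌋, ⌊y⌋) =
        z - (((Int.fract x : ℝ) : ℂ) * ω1 + ((Int.fract y : ℝ) : ℂ) * ω2) := by
      rw [eq_sub_iff_add_eq]; exact hz'.symm
    rw [h3]
    refine (norm_sub_le _ _).trans_lt ?_
    linarith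
  · refine ⟨((Int.fract x : ℝ) : ℂ) * ω1 + ((Int.fract y : ℝ) : ℂ) * ω2,
      ⟨⟨Int.fract x, Int.fract y⟩, ?_, ?_⟩, hz'.symm⟩
    · exact ⟨⟨Int.fract_nonneg x, Int.fract_lt_one x⟩, ⟨Int.fract_nonneg y, Int.fract_lt_one y⟩⟩
    · rw [lmap_apply]

theorem count_lower (ω1 ω2 s : ℂ) (hω : ((starRingEnd ℂ) ω1 * ω2).im ≠ 0) (r : ℝ)
    (hr : ‖ω1‖ + ‖ω2‖ ≤ r) :
    Real.pi * (r - (‖ω1‖ + ‖ω2‖)) ^ 2 ≤
      (ix ω1 ω2 s hω r).card * |((starRingEnd ℂ) ω1 * ω2).im| := by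
  have h1 : volume (Metric.ball (0 : ℂ) (r - (‖ω1‖ + ‖ω2‖))) ≤
      ∑ p ∈ ix ω1 ω2 s hω r, volume (cell ω1 ω2 (lp ω1 ω2 s p)) :=
    (measure_mono (ball_subset_cells ω1 ω2 s hω r)).trans (measure_biUnion_finset_le _ _)
  simp only [volume_cell, Finset.sum_const, nsmul_eq_mul] at h1
  rw [Complex.volume_ball] at h1
  have h0 : 0 ≤ r - (‖ω1‖ + ‖ω2‖) := sub_nonneg.mpr hr
  have h2 : ENNReal.ofReal (r - (‖ω1‖ + ‖ω2‖)) ^ 2 * (NNReal.pi : ENNReal) =
      ENNReal.ofReal (Real.pi * (r - (‖ω1‖ + ‖ω2‖)) ^ 2) := by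
    rw [ENNReal.ofReal_mul Real.pi_pos.le, ENNReal.ofReal_pow h0, mul_comm]
    congr 1
    rw [← NNReal.coe_real_pi, ENNReal.ofReal_coe_nnreal]
  have h3 : ((ix ω1 ω2 s hω r).card : ENNReal) * ENNReal.ofReal |((starRingEnd ℂ) ω1 * ω2).im| =
      ENNReal.ofReal ((ix ω1 ω2 s hω r).card * |((starRingEnd ℂ) ω1 * ω2).im|) := by
    rw [ENNReal.ofReal_mul (Nat.cast_nonneg _), ENNReal.ofReal_natCast]
  rw [h2, h3] at h1
  exact (ENNReal.ofReal_le_ofReal_iff (by positivity)).1 h1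

theorem log_ge_integral (d R t : ℝ) (hd : 0 < d) (hdR : d ≤ R) (ht : 0 < t) (htR : t < R) :
    ∫ r in Ioc d R, (Ioi t).indicator (fun r : ℝ => r⁻¹) r ≤ Real.log (R / t) := by
  have hR : 0 < R := hd.trans_le hdR
  have h1 : ∫ r in Ioc d R, (Ioi t).indicator (fun r : ℝ => r⁻¹) r =
      ∫ r in Ioc (max d t) R, r⁻¹ := by
    rw [setIntegral_indicator measurableSet_Ioi]
    congr 2
    ext r
    simp only [mem_inter_iff, mem_Ioc, mem_Ioi, max_lt_iff]
    tauto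
  have hm : max d t ≤ R := max_le hdR htR.le
  have hm0 : 0 < max d t := lt_max_of_lt_left hd
  rw [h1, ← intervalIntegral.integral_of_le hm, integral_inv_of_pos hm0 hR]
  apply Real.log_le_log (div_pos hR hm0)
  exact div_le_div_of_nonneg_left hR.le ht (le_max_right _ _)

theorem lattice_log_sum (ω1 ω2 : ℂ) (hω : ((starRingEnd ℂ) ω1 * ω2).im ≠ 0) (s : ℂ)
    (hs : ∀ m n : ℤ, s + m * ω1 + n * ω2 ≠ 0) :
    ∃ C' : ℝ, 0 ≤ C' ∧ ∀ R : ℝ, 1 ≤ R → ∃ Z : Finset ℂ,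
      (∀ t ∈ Z, ‖t‖ < R ∧ ∃ m n : ℤ, t = s + m * ω1 + n * ω2) ∧
      Real.pi * R ^ 2 / (2 * |((starRingEnd ℂ) ω1 * ω2).im|) - C' * R ≤
        ∑ t ∈ Z, Real.log (R / ‖t‖) := by
  classical
  set A := |((starRingEnd ℂ) ω1 * ω2).im| with hA
  have hA0 : 0 < A := abs_pos.mpr hω
  set d : ℝ := ‖ω1‖ + ‖ω2‖ with hd
  have hω1 : ω1 ≠ 0 := by
    rintro rfl
    simp at hω
  have hd0 : 0 < d := by
    have := norm_pos_iff.mpr hω1
    have := norm_nonneg ω2
    linarith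
  refine ⟨2 * Real.pi * d / A, by positivity, ?_⟩
  intro R hR
  have hR0 : 0 < R := by linarith
  by_cases hdR : R ≤ d
  · refine ⟨∅, by simp, ?_⟩
    rw [Finset.sum_empty]
    have h1 : Real.pi * R ^ 2 / (2 * A) - 2 * Real.pi * d / A * R =
        Real.pi * R / A * (R / 2 - 2 * d) := by
      field_simp
    rw [h1]
    apply mul_nonpos_of_nonneg_of_nonpos (by positivity)
    linarith
  · push Not at hdR
    refine ⟨(ix ω1 ω2 s hω R).image (lp ω1 ω2 s), ?_, ?_⟩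
    · intro t ht
      rw [Finset.mem_image] at ht
      obtain ⟨p, hp, rfl⟩ := ht
      exact ⟨(mem_ix _ _ _ _ _ _).1 hp, p.1, p.2, rfl⟩
    · rw [Finset.sum_image (fun p _ q _ h => lp_injective ω1 ω2 s hω h)]
      have hlp : ∀ p, 0 < ‖lp ω1 ω2 s p‖ := fun p => norm_pos_iff.mpr (hs p.1 p.2)
      have hint : ∀ t : ℝ, IntegrableOn ((Ioi t).indicator (fun r : ℝ => r⁻¹)) (Ioc d R) := by
        intro t
        refine IntegrableOn.indicator ?_ measurableSet_Ioi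
        have : ContinuousOn (fun r : ℝ => r⁻¹) (Icc d R) :=
          ContinuousOn.inv₀ continuousOn_id (fun r hr => (hd0.trans_le hr.1).ne')
        exact (this.integrableOn_Icc).mono_set Ioc_subset_Icc_self
      have step1 : ∫ r in Ioc d R, ∑ p ∈ ix ω1 ω2 s hω R,
          (Ioi ‖lp ω1 ω2 s p‖).indicator (fun r : ℝ => r⁻¹) r ≤
          ∑ p ∈ ix ω1 ω2 s hω R, Real.log (R / ‖lp ω1 ω2 s p‖) := by
        rw [integral_finsetSum _ (fun p _ => hint _)]
        apply Finset.sum_le_sum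
        intro p hp
        exact log_ge_integral d R _ hd0 hdR.le (hlp p) ((mem_ix _ _ _ _ _ _).1 hp)
      have step2 : ∫ r in Ioc d R, Real.pi / A * (r - 2 * d) ≤
          ∫ r in Ioc d R, ∑ p ∈ ix ω1 ω2 s hω R,
          (Ioi ‖lp ω1 ω2 s p‖).indicator (fun r : ℝ => r⁻¹) r := by
        apply setIntegral_mono_on
        · apply Continuous.integrableOn_Ioc
          fun_prop
        · exact integrable_finsetSum _ (fun p _ => hint _)
        · exact measurableSet_Ioc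
        · intro r hr
          have hr0 : 0 < r := hd0.trans hr.1
          have h1 : ∑ p ∈ ix ω1 ω2 s hω R,
              (Ioi ‖lp ω1 ω2 s p‖).indicator (fun r : ℝ => r⁻¹) r =
              (ix ω1 ω2 s hω r).card * r⁻¹ := by
            have h2 : ix ω1 ω2 s hω r = (ix ω1 ω2 s hω R).filter (fun p => ‖lp ω1 ω2 s p‖ < r) := by
              ext p
              rw [Finset.mem_filter, mem_ix, mem_ix]
              constructor
              · intro h
                exact ⟨h.trans_le hr.2, h⟩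
              · intro h
                exact h.2
            rw [h2, Finset.card_filter]
            push_cast
            rw [Finset.sum_mul]
            apply Finset.sum_congr rfl
            intro p _
            by_cases hp : ‖lp ω1 ω2 s p‖ < r
            · rw [indicator_of_mem (by exact hp)]
              simp [hp]
            · rw [indicator_of_notMem (by exact hp)]
              simp [hp]
          rw [h1]
          have h3 := count_lower ω1 ω2 s hω r hr.1.le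
          rw [← hA, ← hd] at h3
          rw [← div_eq_mul_inv, le_div_iff₀ hr0, div_mul_eq_mul_div, div_mul_eq_mul_div,
            div_le_iff₀ hA0]
          refine le_trans ?_ h3
          nlinarith [Real.pi_pos, sq_nonneg d, mul_pos Real.pi_pos (mul_pos hd0 hd0)]
      refine le_trans ?_ (step2.trans step1)
      rw [← intervalIntegral.integral_of_le hdR.le, intervalIntegral.integral_const_mul]
      have h4 : ∫ r in d..R, (r - 2 * d) = (R ^ 2 - d ^ 2) / 2 - 2 * d * (R - d) := by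
        rw [intervalIntegral.integral_sub (by simp) (by simp)]
        rw [integral_id, intervalIntegral.integral_const]
        simp only [smul_eq_mul]
        ring
      rw [h4]
      have h5 : Real.pi / A * ((R ^ 2 - d ^ 2) / 2 - 2 * d * (R - d)) -
          (Real.pi * R ^ 2 / (2 * A) - 2 * Real.pi * d / A * R) = Real.pi / A * (3 * d ^ 2 / 2) := by
        field_simp
        ring
      have h6 : 0 ≤ Real.pi / A * (3 * d ^ 2 / 2) := by positivity
      linarith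

end

end DF
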