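import Pool.Agent.helper32.DF.J1
import Pool.Agent.helper32.DF.J2

/-!
# J3 : Jensen density

PROOF. Choose `t0` with `g t0 ≠ 0`, `C > 0` (clear), and let
`h t = g (t + t0) * exp (-π κ conj(t0) t)`.  `‖h t‖ ≤ C exp((π/2) κ ‖t + t0‖² - π κ re (conj t0 * t)) =
C exp((π/2) κ (‖t‖² + ‖t0‖²)) = C1 exp ((π/2) κ ‖t‖²)`, `h 0 ≠ 0`, and `h` vanishes on
`(s i - t0) + ℤ ω1 + ℤ ω2`, `i : Fin k`: none of these points is `0`, and the `k` shifted lattices are
pairwise disjoint.  For `R ≥ 1` take the finite sets `Z_i` of `lattice_log_sum`, and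
`Z = ⋃ Z_i` (disjoint).  `jensen_ineq` with `M = C1 exp((π/2) κ R²)`:
`k (π R²/(2A) - C' R) ≤ log C1 + (π/2) κ R² - log ‖h 0‖` (`C'` the maximum).  Divide by `(π/2) R²` and let
`R → ∞`: `k / A ≤ κ`.
-/

namespace DF

theorem quad_lin (a b c : ℝ) (h : ∀ R : ℝ, 1 ≤ R → a * R ^ 2 ≤ b * R + c) : a ≤ 0 := by
  by_contra ha
  push Not at ha
  set R : ℝ := 1 + (|b| + |c|) / a with hR
  have hR1 : 1 ≤ R := by
    have : 0 ≤ (|b| + |c|) / a := by positivity
    linarith
  have h1 := h R hR1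
  have h2 : a * R = a + |b| + |c| := by
    rw [hR]
    field_simp
    ring
  have h3 : a * R ^ 2 = (a + |b| + |c|) * R := by
    rw [← h2]
    ring
  have h4 : b * R ≤ |b| * R := mul_le_mul_of_nonneg_right (le_abs_self b) (by linarith)
  have h5 : c ≤ |c| * R := by
    have := mul_le_mul_of_nonneg_left hR1 (abs_nonneg c)
    have := le_abs_self c
    linarith
  have h6 : 0 < a * R := by positivity
  nlinarith

theorem jensen_density (g : ℂ → ℂ) (hg : Differentiable ℂ g) (hne : ∃ t, g t ≠ 0) (C κ : ℝ)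
    (hgrow : ∀ t : ℂ, ‖g t‖ ≤ C * Real.exp (Real.pi / 2 * κ * ‖t‖ ^ 2))
    (ω1 ω2 : ℂ) (hω : ((starRingEnd ℂ) ω1 * ω2).im ≠ 0) (k : ℕ) (s : Fin k → ℂ)
    (hdist : ∀ i j, i ≠ j → ∀ m n : ℤ, s i - s j ≠ m * ω1 + n * ω2)
    (hz : ∀ i, ∀ m n : ℤ, g (s i + m * ω1 + n * ω2) = 0) :
    (k : ℝ) ≤ κ * |((starRingEnd ℂ) ω1 * ω2).im| := by
  classical
  set A := |((starRingEnd ℂ) ω1 * ω2).im| with hA
  have hA0 : 0 < A := abs_pos.mpr hω
  obtain ⟨t0, ht0⟩ := hne
  have hC : 0 < C := by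
    have h1 := hgrow t0
    have h2 : 0 < ‖g t0‖ := norm_pos_iff.mpr ht0
    have h3 : 0 < Real.exp (Real.pi / 2 * κ * ‖t0‖ ^ 2) := Real.exp_pos _
    by_contra hC
    push Not at hC
    have := mul_nonpos_of_nonpos_of_nonneg hC h3.le
    linarith
  set h : ℂ → ℂ := fun t => g (t + t0) * Complex.exp (-(Real.pi * κ * (starRingEnd ℂ) t0 * t)) with hh
  have hhd : Differentiable ℂ h := by
    intro t
    have h1 : DifferentiableAt ℂ (fun t => g (t + t0)) t :=
      (hg (t + t0)).comp t (differentiableAt_id.add_const t0)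
    simp only [hh]
    exact h1.mul (by fun_prop)
  have hh0 : h 0 ≠ 0 := by
    simp only [hh, zero_add]
    exact mul_ne_zero ht0 (Complex.exp_ne_zero _)
  set C1 := C * Real.exp (Real.pi / 2 * κ * ‖t0‖ ^ 2) with hC1
  have hC1pos : 0 < C1 := by positivity
  have hhgrow : ∀ t : ℂ, ‖h t‖ ≤ C1 * Real.exp (Real.pi / 2 * κ * ‖t‖ ^ 2) := by
    intro t
    simp only [hh]
    rw [norm_mul, Complex.norm_exp]
    have h1 : (-(Real.pi * κ * (starRingEnd ℂ) t0 * t)).re = -(Real.pi * κ * ((starRingEnd ℂ) t0 * t).re) := by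
      have : (-(Real.pi * κ * (starRingEnd ℂ) t0 * t) : ℂ) =
          ((-(Real.pi * κ) : ℝ) : ℂ) * ((starRingEnd ℂ) t0 * t) := by
        push_cast
        ring
      rw [this, Complex.re_ofReal_mul]
      ring
    have h2 : ‖t + t0‖ ^ 2 = ‖t‖ ^ 2 + ‖t0‖ ^ 2 + 2 * ((starRingEnd ℂ) t0 * t).re := by
      rw [← Complex.normSq_eq_norm_sq, ← Complex.normSq_eq_norm_sq, ← Complex.normSq_eq_norm_sq,
        Complex.normSq_add]
      congr 2
      rw [mul_comm]
    calc ‖g (t + t0)‖ * Real.exp ((-(Real.pi * κ * (starRingEnd ℂ) t0 * t)).re)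
        ≤ (C * Real.exp (Real.pi / 2 * κ * ‖t + t0‖ ^ 2)) *
          Real.exp ((-(Real.pi * κ * (starRingEnd ℂ) t0 * t)).re) :=
          mul_le_mul_of_nonneg_right (hgrow _) (Real.exp_pos _).le
      _ = C1 * Real.exp (Real.pi / 2 * κ * ‖t‖ ^ 2) := by
          rw [h1, h2, hC1, mul_assoc C, mul_assoc C, ← Real.exp_add, ← Real.exp_add]
          congr 2
          ring
  -- the shifted lattices
  have hs0 : ∀ i, ∀ m n : ℤ, (s i - t0) + m * ω1 + n * ω2 ≠ 0 := by
    intro i m n h0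
    apply ht0
    have h1 : t0 = s i + m * ω1 + n * ω2 := by linear_combination -h0
    rw [h1]
    exact hz i m n
  choose C' hC'0 hC' using fun i => lattice_log_sum ω1 ω2 hω (s i - t0) (hs0 i)
  have key : ∀ R : ℝ, 1 ≤ R →
      ∑ i, (Real.pi * R ^ 2 / (2 * A) - C' i * R) ≤
        Real.log C1 + Real.pi / 2 * κ * R ^ 2 - Real.log ‖h 0‖ := by
    intro R hR
    have hR0 : 0 < R := by linarith
    choose Z hZ1 hZ2 using fun i => hC' i R hR
    have hdisj : ((Finset.univ : Finset (Fin k)) : Set (Fin k)).PairwiseDisjoint Z := by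
      intro i _ j _ hij
      rw [Function.onFun, Finset.disjoint_left]
      intro t hti htj
      obtain ⟨m, n, h1⟩ := (hZ1 i t hti).2
      obtain ⟨m', n', h2⟩ := (hZ1 j t htj).2
      apply hdist i j hij (m' - m) (n' - n)
      push_cast
      linear_combination h2 - h1
    have h1 := jensen_ineq h hhd hh0 R (C1 * Real.exp (Real.pi / 2 * κ * R ^ 2)) hR0
      (fun t ht => by rw [← ht]; exact hhgrow t) (Finset.univ.biUnion Z) (by
        intro t ht
        rw [Finset.mem_biUnion] at ht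
        obtain ⟨i, -, hti⟩ := ht
        refine ⟨(hZ1 i t hti).1, ?_⟩
        obtain ⟨m, n, h1⟩ := (hZ1 i t hti).2
        simp only [hh]
        have h2 : t + t0 = s i + m * ω1 + n * ω2 := by
          rw [h1]
          ring
        rw [h2, hz i m n, zero_mul])
    rw [Finset.sum_biUnion hdisj, Real.log_mul hC1pos.ne' (Real.exp_pos _).ne', Real.log_exp] at h1
    exact (Finset.sum_le_sum (fun i _ => hZ2 i)).trans h1
  have h7 := quad_lin (Real.pi / 2 * (k / A - κ)) (∑ i, C' i) (Real.log C1 - Real.log ‖h 0‖) (by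
    intro R hR
    have := key R hR
    rw [Finset.sum_sub_distrib, Finset.sum_const, Finset.card_univ, Fintype.card_fin, nsmul_eq_mul,
      ← Finset.sum_mul] at this
    have h8 : Real.pi / 2 * (k / A - κ) * R ^ 2 =
        k * (Real.pi * R ^ 2 / (2 * A)) - Real.pi / 2 * κ * R ^ 2 := by
      field_simp
    rw [h8]
    linarith)
  have h9 : (k : ℝ) / A - κ ≤ 0 := by
    by_contra h
    push Not at h
    have := mul_pos (half_pos Real.pi_pos) h
    linarith
  rw [sub_nonpos, div_le_iff₀ hA0] at h9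
  exact h9

end DF
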