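import Pool.Agent.helper32.DF.A2
import Pool.Agent.helper32.DF.A4
import Pool.Agent.helper32.DF.A5
import Pool.Agent.helper32.DF.J3

/-!
# A8 : in one variable the theta function has only one zero modulo the lattice

PROOF. Let `τ ∈ Hg Unit`, `t0 = τ () ()`, `Y = im t0 > 0`.  Put `θ(z) = theta τ (fun _ => z)`, entire, not
identically zero (`theta_ne`).  By `theta_growth`, `‖θ(z)‖ ≤ C exp(π (im z)²/Y)` (the inverse of a
`1×1` matrix), and `(im z)² = (‖z‖² - re (z²))/2`, so `g(z) = θ(z) exp((π/(2Y)) z²)` has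
`‖g(z)‖ ≤ C exp((π/2) (1/Y) ‖z‖²)`.  By `theta_quasi` the zero set of `θ`, hence of `g`, is invariant
under `ω1 = 1` and `ω2 = t0`; `|im (conj 1 * t0)| = Y`.
`s 0 = t0/2 + 1/2` is a zero (`thc_half_zero`, `thc_eq`), `s 1 = t0 a + b` is a zero (`thc_eq`).  If
`(a, b) - (1/2, 1/2)` is not integral then `s 1 - s 0` is not in `ℤ + ℤ t0` (real and imaginary parts),
and `jensen_density` with `k = 2` gives `2 ≤ (1/Y) Y = 1`, a contradiction.
-/

namespace DF
open Matrix Complex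

theorem A8_pos (τ : Matrix Unit Unit ℂ) (hτ : τ ∈ Hg Unit) : 0 < (τ () ()).im := by
  have h := hτ.2.diag_pos (i := ())
  simpa using h

theorem A8_lat (τ : Matrix Unit Unit ℂ) (m n : ℤ) (z : ℂ) :
    (fun _ => z : Unit → ℂ) + lat τ (zr (Sum.elim (fun _ => n) (fun _ => m))) =
      fun _ => z + m * 1 + n * τ () () := by
  funext i
  simp [lat, zr]
  ring

theorem A8_zero_shift (τ : Matrix Unit Unit ℂ) (hτ : τ ∈ Hg Unit) (z : ℂ)
    (hz : theta τ (fun _ => z) = 0) (m n : ℤ) :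
    theta τ (fun _ => z + m * 1 + n * τ () ()) = 0 := by
  rw [← A8_lat, theta_quasi τ hτ.1, hz, mul_zero]

theorem A8_zero_of_thc (τ : Matrix Unit Unit ℂ) (hτ : τ ∈ Hg Unit) (a b : Unit → ℝ)
    (h : thc a b τ = 0) : theta τ (fun _ => τ () () * a () + b ()) = 0 := by
  rw [thc_eq τ hτ.1] at h
  have h1 := (mul_eq_zero.1 h).resolve_left (Complex.exp_ne_zero _)
  have h2 : lat τ (Sum.elim a b) = fun _ => τ () () * a () + b () := by
    funext i
    simp [lat]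
  rwa [h2] at h1

theorem A8_growth (τ : Matrix Unit Unit ℂ) (hτ : τ ∈ Hg Unit) :
    ∃ C : ℝ, 0 < C ∧ ∀ z : ℂ, ‖theta τ (fun _ => z) *
      cexp ((Real.pi / (2 * (τ () ()).im) : ℝ) * z ^ 2)‖ ≤
      C * Real.exp (Real.pi / 2 * (1 / (τ () ()).im) * ‖z‖ ^ 2) := by
  obtain ⟨C, hC, h⟩ := theta_growth τ hτ
  have hY := A8_pos τ hτ
  refine ⟨C, hC, fun z => ?_⟩
  have h1 := h (fun _ => z)
  have h2 : ((fun i => ((fun _ => z : Unit → ℂ) i).im) ⬝ᵥ ((τ.map Complex.im)⁻¹ *ᵥ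
      (fun i => ((fun _ => z : Unit → ℂ) i).im))) = z.im ^ 2 / (τ () ()).im := by
    rw [Matrix.inv_subsingleton]
    simp [Matrix.mulVec, dotProduct]
    ring
  rw [h2] at h1
  rw [norm_mul, Complex.norm_exp, Complex.re_ofReal_mul]
  have h3 : ‖z‖ ^ 2 = z.re ^ 2 + z.im ^ 2 := by
    rw [Complex.sq_norm, Complex.normSq_apply]; ring
  have h4 : (z ^ 2).re = z.re ^ 2 - z.im ^ 2 := by
    rw [pow_two, Complex.mul_re]; ring
  calc ‖theta τ (fun _ => z)‖ * Real.exp (Real.pi / (2 * (τ () ()).im) * (z ^ 2).re) ≤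
      C * Real.exp (Real.pi * (z.im ^ 2 / (τ () ()).im)) *
        Real.exp (Real.pi / (2 * (τ () ()).im) * (z ^ 2).re) :=
        mul_le_mul_of_nonneg_right h1 (Real.exp_nonneg _)
    _ = C * Real.exp (Real.pi / 2 * (1 / (τ () ()).im) * ‖z‖ ^ 2) := by
        rw [mul_assoc, ← Real.exp_add, h3, h4]
        congr 2
        field_simp
        ring

theorem thc_unit_zero (τ : Matrix Unit Unit ℂ) (hτ : τ ∈ Hg Unit) (a b : Unit → ℝ)
    (h : thc a b τ = 0) : ∃ m n : ℤ, a () = 1 / 2 + m ∧ b () = 1 / 2 + n := by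
  by_contra hcon
  have hY := A8_pos τ hτ
  obtain ⟨C, hC, hgrow⟩ := A8_growth τ hτ
  set t0 : ℂ := τ () () with ht0
  have hdiff : Differentiable ℂ (fun z : ℂ => theta τ (fun _ => z) *
      cexp ((Real.pi / (2 * t0.im) : ℝ) * z ^ 2)) := by
    have h1 : Differentiable ℂ (fun z : ℂ => theta τ (fun _ : Unit => z)) :=
      (theta_differentiable τ hτ.2).comp (differentiable_pi.2 fun _ => differentiable_id)
    exact h1.mul (by fun_prop)
  have hne : ∃ t : ℂ, theta τ (fun _ => t) * cexp ((Real.pi / (2 * t0.im) : ℝ) * t ^ 2) ≠ 0 := by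
    obtain ⟨z, hz⟩ := theta_ne τ hτ
    refine ⟨z (), mul_ne_zero ?_ (Complex.exp_ne_zero _)⟩
    exact hz
  have him : ((starRingEnd ℂ) (1 : ℂ) * t0).im = t0.im := by simp
  have z0 : theta τ (fun _ => t0 * ((1 / 2 : ℝ) : ℂ) + ((1 / 2 : ℝ) : ℂ)) = 0 :=
    A8_zero_of_thc τ hτ (fun _ => 1 / 2) (fun _ => 1 / 2) (thc_half_zero τ)
  have z1 : theta τ (fun _ => t0 * (a () : ℂ) + (b () : ℂ)) = 0 := A8_zero_of_thc τ hτ a b h
  -- the two shifted lattices are different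
  have key : ∀ m n : ℤ, (t0 * ((1 / 2 : ℝ) : ℂ) + ((1 / 2 : ℝ) : ℂ)) -
      (t0 * (a () : ℂ) + (b () : ℂ)) ≠ m * 1 + n * t0 := by
    intro m n hmn
    apply hcon
    have h1 := congrArg Complex.im hmn
    have h2 := congrArg Complex.re hmn
    simp only [Complex.sub_im, Complex.add_im, Complex.mul_im, Complex.ofReal_re,
      Complex.ofReal_im, Complex.intCast_re, Complex.intCast_im, Complex.one_im, Complex.one_re,
      Complex.sub_re, Complex.add_re, Complex.mul_re, mul_zero, zero_mul, add_zero, zero_add,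
      sub_zero] at h1 h2
    have h3 : t0.im * (a () - (1 / 2 + (-n : ℤ))) = 0 := by
      push_cast
      linarith
    have h4 : a () = 1 / 2 + (-n : ℤ) := by
      have := (mul_eq_zero.1 h3).resolve_left hY.ne'
      linarith
    refine ⟨-n, -m, h4, ?_⟩
    rw [h4] at h2
    push_cast at h2 ⊢
    linarith
  have hj := jensen_density (fun z : ℂ => theta τ (fun _ => z) *
      cexp ((Real.pi / (2 * t0.im) : ℝ) * z ^ 2)) hdiff hne C (1 / t0.im) hgrow 1 t0
    (by rw [him]; exact hY.ne') 2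
    ![t0 * ((1 / 2 : ℝ) : ℂ) + ((1 / 2 : ℝ) : ℂ), t0 * (a () : ℂ) + (b () : ℂ)] ?_ ?_
  · rw [him, abs_of_pos hY, one_div, inv_mul_cancel₀ hY.ne'] at hj
    norm_num at hj
  · intro i j hij m n
    fin_cases i <;> fin_cases j
    · exact absurd rfl hij
    · exact key m n
    · intro hmn
      apply key (-m) (-n)
      have hmn' : (t0 * (a () : ℂ) + (b () : ℂ)) - (t0 * ((1 / 2 : ℝ) : ℂ) + ((1 / 2 : ℝ) : ℂ)) =
        m * 1 + n * t0 := hmn
      push_cast
      push_cast at hmn'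
      linear_combination -hmn'
    · exact absurd rfl hij
  · intro i m n
    fin_cases i
    · exact mul_eq_zero_of_left (A8_zero_shift τ hτ _ z0 m n) _
    · exact mul_eq_zero_of_left (A8_zero_shift τ hτ _ z1 m n) _

theorem A8_val (k : ℕ) (x : ZMod (2 ^ (k + 1))) (m : ℤ)
    (h : (x.val : ℝ) / ((2 ^ (k + 1) : ℕ) : ℝ) = 1 / 2 + m) :
    x = ((2 ^ (k + 1) / 2 : ℕ) : ZMod (2 ^ (k + 1))) := by
  have : NeZero (2 ^ (k + 1)) := ⟨by positivity⟩
  have hlt := ZMod.val_lt x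
  have hpos : (0 : ℝ) < ((2 ^ (k + 1) : ℕ) : ℝ) := by positivity
  rw [div_eq_iff hpos.ne'] at h
  have h1 : (x.val : ℝ) = 2 ^ k + m * 2 ^ (k + 1) := by
    rw [h]; push_cast; ring
  have h2 : (x.val : ℤ) = 2 ^ k + m * 2 ^ (k + 1) := by exact_mod_cast h1
  have hk : (0 : ℤ) < 2 ^ k := by positivity
  have hlt' : (x.val : ℤ) < 2 ^ (k + 1) := by exact_mod_cast hlt
  have hge : (0 : ℤ) ≤ x.val := Int.natCast_nonneg _
  have hm : m = 0 := by
    rw [h2, pow_succ] at hlt' hge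
    have h3 : m < 1 := by nlinarith
    have h4 : -1 < m := by nlinarith
    omega
  rw [hm, zero_mul, add_zero] at h2
  have h5 : x.val = 2 ^ k := by exact_mod_cast h2
  have h6 : 2 ^ (k + 1) / 2 = 2 ^ k := by rw [pow_succ]; simp
  rw [h6, ← h5, ZMod.natCast_zmod_val]

/-- version of level `N = 2^s` -/
theorem thN_unit_zero (s : ℕ) (hs : 1 ≤ s) (τ : Matrix Unit Unit ℂ) (hτ : τ ∈ Hg Unit)
    (x : Ch (2 ^ s) Unit) (h : thN (2 ^ s) x τ = 0) :
    x.1 () = ((2 ^ s / 2 : ℕ) : ZMod (2 ^ s)) ∧ x.2 () = ((2 ^ s / 2 : ℕ) : ZMod (2 ^ s)) := by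
  obtain ⟨k, rfl⟩ : ∃ k, s = k + 1 := ⟨s - 1, by omega⟩
  obtain ⟨m, n, hm, hn⟩ := thc_unit_zero τ hτ _ _ h
  exact ⟨A8_val k _ m hm, A8_val k _ n hn⟩

end DF
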