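import Pool.Agent.helper32.DF.Defs

/-!
# A9 : `lat τ` is a real linear isomorphism

PROOF. It is real linear.  Injective: if `τ a + b = 0` with real `a, b` then the imaginary part gives
`Y a = 0`, so `a · Y a = 0`, `a = 0`, then `b = 0`.  Both sides have real dimension `2 h`
(`Module.finrank_fintype_fun_eq_card`, `Complex.finrank_real_complex`), so it is bijective
(`LinearEquiv.ofInjectiveOfFinrankEq` or similar) and continuous in both directions (finite
dimension, `LinearEquiv.toContinuousLinearEquiv`).
-/

namespace DF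
open Matrix Complex
variable {ι : Type} [Fintype ι] [DecidableEq ι]

/-- `lat τ` as a real linear map -/
noncomputable def latL (τ : Matrix ι ι ℂ) : (ι ⊕ ι → ℝ) →ₗ[ℝ] (ι → ℂ) where
  toFun := lat τ
  map_add' x y := by
    funext i
    simp only [lat, Pi.add_apply, ofReal_add, mul_add, Finset.sum_add_distrib]
    ring
  map_smul' r x := by
    funext i
    simp only [lat, Pi.smul_apply, smul_eq_mul, ofReal_mul, RingHom.id_apply, real_smul, mul_add,
      Finset.mul_sum]
    congr 1
    refine Finset.sum_congr rfl fun j _ => ?_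
    ring

theorem latL_injective (τ : Matrix ι ι ℂ) (hτ : τ ∈ Hg ι) : Function.Injective (latL τ) := by
  rw [injective_iff_map_eq_zero]
  intro x hx
  have h1 : ∀ i, (∑ j, τ i j * (x (Sum.inl j) : ℂ)) + (x (Sum.inr i) : ℂ) = 0 := fun i =>
    congrFun hx i
  have h2 : (τ.map Complex.im) *ᵥ (fun j => x (Sum.inl j)) = 0 := by
    funext i
    have h := congrArg Complex.im (h1 i)
    simp only [add_im, im_sum, ofReal_im, add_zero, zero_im] at h
    simp only [mulVec, dotProduct, map_apply, Pi.zero_apply]
    rw [← h]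
    refine Finset.sum_congr rfl fun j _ => ?_
    simp [mul_im]
  have h3 : (fun j => x (Sum.inl j)) = 0 := by
    by_contra hne
    have h4 := hτ.2.dotProduct_mulVec_pos hne
    rw [h2] at h4
    simp at h4
  have h4 : ∀ j, x (Sum.inl j) = 0 := fun j => congrFun h3 j
  funext k
  rcases k with j | i
  · exact h4 j
  · have h5 := h1 i
    simp only [h4, ofReal_zero, mul_zero, Finset.sum_const_zero, zero_add] at h5
    exact_mod_cast h5

theorem exists_latE (τ : Matrix ι ι ℂ) (hτ : τ ∈ Hg ι) :
    ∃ B : (ι ⊕ ι → ℝ) ≃L[ℝ] (ι → ℂ), ∀ x, B x = lat τ x := by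
  have hfin : Module.finrank ℝ (ι ⊕ ι → ℝ) = Module.finrank ℝ (ι → ℂ) := by
    rw [Module.finrank_fintype_fun_eq_card, Module.finrank_pi_fintype]
    simp only [Complex.finrank_real_complex, Finset.sum_const, Finset.card_univ, smul_eq_mul,
      Fintype.card_sum]
    ring
  refine ⟨(LinearEquiv.ofInjectiveOfFinrankEq (latL τ) (latL_injective τ hτ)
    hfin).toContinuousLinearEquiv, fun x => rfl⟩

end DF
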