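import Pool.Agent.helper32.DF.Defs

/-!
# B1 : translations and base changes

PROOF. Termwise.  `thc_T`: `½ (n+a)·S(n+a) = ½ n·Sn + n·Sa + ½ a·Sa` (S symmetric), and
`n·Sn ≡ ∑ S i i n i (mod 2)` for integral `n` (off diagonal terms twice; `n i² ≡ n i`).  So
`e(½ (n+a)S(n+a)) = e(½ n·diag S + n·Sa + ½ a·Sa)`, and with `b' = b + Sa + ½ diag S`:
`(n+a)·b' = (n+a)·b + n·Sa + a·Sa + ½ n·diag S + ½ a·diag S`.
`thc_U`: substitute `m = Uᵀ n` (a bijection of `ι → ℤ` with inverse `Vᵀ`): `Uᵀ(n+a) = m + Uᵀa`,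
`(n+a)·b = (Uᵀ(n+a))·(V b)` since `U V = 1`.
(numerically verified)
-/

set_option linter.unusedSectionVars false

namespace DF
open Matrix Complex
variable {ι : Type} [Fintype ι] [DecidableEq ι]

theorem B1_sum_char_two (g : ι → ι → ZMod 2) (hg : ∀ i j, g i j = g j i) :
    ∑ i, ∑ j, g i j = ∑ i, g i i := by
  have h1 : ∑ p : ι × ι, (if p.1 = p.2 then 0 else g p.1 p.2) = 0 := by
    refine Finset.sum_involution (fun p _ => p.swap) ?_ ?_ (fun _ _ => Finset.mem_univ _)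
      (fun _ _ => Prod.swap_swap _)
    · intro p _
      by_cases h : p.1 = p.2
      · simp [h]
      · have h' : ¬ p.2 = p.1 := fun e => h e.symm
        simp only [Prod.fst_swap, Prod.snd_swap, if_neg h, if_neg h']
        rw [hg p.2 p.1]
        exact CharTwo.add_self_eq_zero _
    · intro p _ hp hs
      have : p.1 = p.2 := by
        have := congrArg Prod.snd hs
        simpa using this
      rw [if_pos this] at hp
      exact hp rfl
  have h2 : ∑ p : ι × ι, (if p.1 = p.2 then g p.1 p.2 else 0) = ∑ i, g i i := by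
    rw [Fintype.sum_prod_type]
    refine Finset.sum_congr rfl fun i _ => ?_
    simp
  have h3 : ∑ p : ι × ι, g p.1 p.2 = ∑ p : ι × ι, (if p.1 = p.2 then 0 else g p.1 p.2) +
      ∑ p : ι × ι, (if p.1 = p.2 then g p.1 p.2 else 0) := by
    rw [← Finset.sum_add_distrib]
    refine Finset.sum_congr rfl fun p _ => ?_
    split_ifs <;> simp
  rw [h1, h2, zero_add, Fintype.sum_prod_type] at h3
  exact h3

theorem B1_even (S : Matrix ι ι ℤ) (hS : S.IsSymm) (n : ι → ℤ) :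
    ∃ k : ℤ, (∑ i, ∑ j, n i * S i j * n j) - ∑ i, n i * S i i = 2 * k := by
  have h : (((∑ i, ∑ j, n i * S i j * n j) - ∑ i, n i * S i i : ℤ) : ZMod 2) = 0 := by
    push_cast
    rw [B1_sum_char_two (fun i j => (n i : ZMod 2) * (S i j : ZMod 2) * (n j : ZMod 2))]
    · rw [← Finset.sum_sub_distrib]
      refine Finset.sum_eq_zero fun i _ => ?_
      have : ∀ x y : ZMod 2, x * y * x - x * y = 0 := by decide
      exact this _ _
    · intro i j
      have : S i j = S j i := hS.apply j i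
      simp only [this]
      ring
  exact (ZMod.intCast_zmod_eq_zero_iff_dvd _ 2).1 h

theorem B1_qf (τ : Matrix ι ι ℂ) (x : ι → ℂ) : qf τ x = ∑ i, ∑ j, x i * τ i j * x j := by
  simp only [qf, dotProduct, mulVec, Finset.mul_sum, mul_assoc]

theorem thc_T (S : Matrix ι ι ℤ) (hS : S.IsSymm) (a b : ι → ℝ) (τ : Matrix ι ι ℂ) :
    thc a b (mT S τ) = cexp (-(Real.pi * I * ∑ i, ∑ j, (a i : ℂ) * S i j * a j) -
        Real.pi * I * ∑ i, (a i : ℂ) * S i i) *
      thc a (fun i => b i + (∑ j, (S i j : ℝ) * a j) + (S i i : ℝ) / 2) τ := by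
  rw [thc, thc, ← tsum_mul_left]
  refine tsum_congr fun n => ?_
  rw [← Complex.exp_add, Complex.exp_eq_exp_iff_exists_int]
  obtain ⟨k, hk⟩ := B1_even S hS n
  refine ⟨k, ?_⟩
  have hk' : (∑ i, ∑ j, (n i : ℂ) * S i j * n j) - ∑ i, (n i : ℂ) * S i i = 2 * k := by
    have := congrArg (Int.cast : ℤ → ℂ) hk
    push_cast at this
    exact this
  have hcross : ∑ i, ∑ j, (a i : ℂ) * S i j * n j = ∑ i, ∑ j, (n i : ℂ) * S i j * a j := by
    rw [Finset.sum_comm]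
    refine Finset.sum_congr rfl fun i _ => Finset.sum_congr rfl fun j _ => ?_
    rw [hS.apply i j]
    ring
  have hq : qf (mT S τ) (fun i => (n i : ℂ) + a i) = qf τ (fun i => (n i : ℂ) + a i) +
      ((∑ i, ∑ j, (n i : ℂ) * S i j * n j) + 2 * (∑ i, ∑ j, (n i : ℂ) * S i j * a j) +
        ∑ i, ∑ j, (a i : ℂ) * S i j * a j) := by
    have h1 : (2 : ℂ) * (∑ i, ∑ j, (n i : ℂ) * S i j * a j) =
        (∑ i, ∑ j, (n i : ℂ) * S i j * a j) + ∑ i, ∑ j, (a i : ℂ) * S i j * n j := by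
      rw [hcross]
      ring
    rw [h1, B1_qf, B1_qf]
    simp only [← Finset.sum_add_distrib]
    refine Finset.sum_congr rfl fun i _ => Finset.sum_congr rfl fun j _ => ?_
    simp only [mT, Matrix.add_apply, Matrix.map_apply]
    ring
  have hb : ∑ i, ((n i : ℂ) + a i) * ((b i + (∑ j, (S i j : ℝ) * a j) + (S i i : ℝ) / 2 : ℝ) : ℂ) =
      (∑ i, ((n i : ℂ) + a i) * b i) + (∑ i, ∑ j, (n i : ℂ) * S i j * a j) +
        (∑ i, ∑ j, (a i : ℂ) * S i j * a j) + (∑ i, (n i : ℂ) * S i i) / 2 +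
        (∑ i, (a i : ℂ) * S i i) / 2 := by
    rw [Finset.sum_div, Finset.sum_div]
    simp only [← Finset.sum_add_distrib]
    refine Finset.sum_congr rfl fun i _ => ?_
    push_cast
    have h1 : ∑ j, ((n i : ℂ) * S i j * a j) = (n i : ℂ) * ∑ j, (S i j : ℂ) * a j := by
      rw [Finset.mul_sum]
      exact Finset.sum_congr rfl fun j _ => by ring
    have h2 : ∑ j, ((a i : ℂ) * S i j * a j) = (a i : ℂ) * ∑ j, (S i j : ℂ) * a j := by
      rw [Finset.mul_sum]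
      exact Finset.sum_congr rfl fun j _ => by ring
    rw [h1, h2]
    ring
  rw [hq, hb]
  linear_combination (Real.pi * I) * hk'

/-- the bijection `n ↦ Uᵀ n` -/
def B1_equiv (U V : Matrix ι ι ℤ) (hUV : U * V = 1) : (ι → ℤ) ≃ (ι → ℤ) where
  toFun n := n ᵥ* U
  invFun n := n ᵥ* V
  left_inv n := by
    show (n ᵥ* U) ᵥ* V = n
    rw [Matrix.vecMul_vecMul, hUV, Matrix.vecMul_one]
  right_inv n := by
    show (n ᵥ* V) ᵥ* U = n
    rw [Matrix.vecMul_vecMul, mul_eq_one_comm.1 hUV, Matrix.vecMul_one]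

theorem thc_U (U V : Matrix ι ι ℤ) (hUV : U * V = 1) (a b : ι → ℝ) (τ : Matrix ι ι ℂ) :
    thc a b (mU U τ) =
      thc (fun i => ∑ j, (U j i : ℝ) * a j) (fun i => ∑ j, (V i j : ℝ) * b j) τ := by
  rw [thc, thc]
  symm
  rw [← Equiv.tsum_eq (B1_equiv U V hUV)]
  refine tsum_congr fun n => ?_
  symm
  set x : ι → ℂ := fun i => (n i : ℂ) + a i with hx
  set Uc : Matrix ι ι ℂ := U.map (Int.cast : ℤ → ℂ) with hUc
  set Vc : Matrix ι ι ℂ := V.map (Int.cast : ℤ → ℂ) with hVc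
  set bc : ι → ℂ := fun i => (b i : ℂ) with hbc
  have hUVc : Uc * Vc = 1 := by
    have h1 : (U * V).map (Int.cast : ℤ → ℂ) = Uc * Vc := Matrix.map_mul (f := Int.castRingHom ℂ)
    rw [← h1, hUV]
    exact Matrix.map_one _ Int.cast_zero Int.cast_one
  have hx' : (fun i => ((B1_equiv U V hUV n i : ℤ) : ℂ) + ((∑ j, (U j i : ℝ) * a j : ℝ) : ℂ)) =
      x ᵥ* Uc := by
    funext i
    show (((n ᵥ* U) i : ℤ) : ℂ) + ((∑ j, (U j i : ℝ) * a j : ℝ) : ℂ) = (x ᵥ* Uc) i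
    simp only [Matrix.vecMul, dotProduct, hx, hUc, Matrix.map_apply]
    push_cast
    rw [← Finset.sum_add_distrib]
    exact Finset.sum_congr rfl fun j _ => by ring
  have hb' : (fun i => ((∑ j, (V i j : ℝ) * b j : ℝ) : ℂ)) = Vc *ᵥ bc := by
    funext i
    simp only [Matrix.mulVec, dotProduct, hVc, hbc, Matrix.map_apply]
    push_cast
    rfl
  have h1 : qf (mU U τ) x = qf τ (x ᵥ* Uc) := by
    rw [qf, qf, mU, ← hUc, ← Matrix.mulVec_mulVec, ← Matrix.mulVec_mulVec, Matrix.dotProduct_mulVec,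
      Matrix.mulVec_transpose]
  have h2 : ∑ i, (x ᵥ* Uc) i * (Vc *ᵥ bc) i = ∑ i, x i * bc i := by
    show (x ᵥ* Uc) ⬝ᵥ (Vc *ᵥ bc) = x ⬝ᵥ bc
    rw [Matrix.dotProduct_mulVec, Matrix.vecMul_vecMul, hUVc, Matrix.vecMul_one]
  have h3 : ∑ i, (((B1_equiv U V hUV n i : ℤ) : ℂ) + ((∑ j, (U j i : ℝ) * a j : ℝ) : ℂ)) *
      ((∑ j, (V i j : ℝ) * b j : ℝ) : ℂ) = ∑ i, x i * bc i := by
    rw [← h2]
    refine Finset.sum_congr rfl fun i _ => ?_
    rw [← congrFun hx' i, ← congrFun hb' i]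
  rw [hx', h3, h1]

end DF
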