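import Pool.Agent.helper32.DF.A2

/-!
# C2 : the generators act

PROOF. `gT`: `den = 1`, `num = τ + S`; the imaginary part does not change, `S` is symmetric.
`gU`: `den = Vᵀ`, `num = U τ`, `U V = 1` so `(Vᵀ)⁻¹ = Uᵀ` and `det V = ± 1`; `im (U τ Uᵀ) = U Y Uᵀ` is
positive definite as `Uᵀ` is injective.
`gJ i`: let `t = τ i i`, `im t > 0` (so `t ≠ 0`).  `den`: row `i` is the row `i` of `τ`, the other rows are
those of the identity; `det = t`, (expand, or `Matrix.det_updateRow...`); its inverse is the identity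
with row `i` replaced by `(-τ i k / t)_{k≠i}`, `1/t` at `i`.  Multiply with `num`: rows `j ≠ i` of `τ`, row
`i` is `-e_i`.  Gives `mJ i τ`.  (It may be easiest to verify `mJ i τ * den = num` entrywise.)
Symmetric: clear from the formula.  Positive: for real `v ≠ 0` let `y = ∑_{j≠i} τ i j v j`,
`q i = (v i - y)/t`, `q j = v j` for `j ≠ i` (complex vector, `q ≠ 0`).  Then `(τ q) i = v i` and
`conj(q)·τ q - v·(mJ i τ) v = v i (q i + conj (q i))` is real:
`v·(mJ i τ) v = - v i q i + y q i + ∑_{j,k≠i} v j τ j k v k` and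
`conj(q)·τ q = conj(q i) v i + y q i + ∑_{j,k≠i} v j τ j k v k`.  And `im (conj(q)·τ q) = conj(q)·Y q > 0`
(τ symmetric; `conj(q)·Yq = re(q)·Y re(q) + im(q)·Y im(q)`).
-/

namespace DF
open Matrix Complex
variable {ι : Type} [Fintype ι] [DecidableEq ι]

theorem C2_herm (Y : Matrix ι ι ℝ) (hY : Y.IsSymm) (q : ι → ℂ) :
    star q ⬝ᵥ ((Y.map (Complex.ofReal : ℝ → ℂ)) *ᵥ q) =
      (((fun i => (q i).re) ⬝ᵥ (Y *ᵥ fun i => (q i).re) +
        (fun i => (q i).im) ⬝ᵥ (Y *ᵥ fun i => (q i).im) : ℝ) : ℂ) := by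
  have e1 : star q ⬝ᵥ ((Y.map (Complex.ofReal : ℝ → ℂ)) *ᵥ q) =
      ∑ i, ∑ j, (starRingEnd ℂ (q i)) * ((Y i j : ℂ) * q j) := by
    simp only [dotProduct, mulVec, Pi.star_apply, Matrix.map_apply, Finset.mul_sum]
    rfl
  have e2 : (fun i => (q i).re) ⬝ᵥ (Y *ᵥ fun i => (q i).re) =
      ∑ i, ∑ j, (q i).re * (Y i j * (q j).re) := by
    simp only [dotProduct, mulVec, Finset.mul_sum]
  have e3 : (fun i => (q i).im) ⬝ᵥ (Y *ᵥ fun i => (q i).im) =
      ∑ i, ∑ j, (q i).im * (Y i j * (q j).im) := by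
    simp only [dotProduct, mulVec, Finset.mul_sum]
  rw [e1, e2, e3]
  apply Complex.ext
  · rw [Complex.re_sum, Complex.ofReal_re, ← Finset.sum_add_distrib]
    refine Finset.sum_congr rfl fun i _ => ?_
    rw [Complex.re_sum, ← Finset.sum_add_distrib]
    refine Finset.sum_congr rfl fun j _ => ?_
    simp [Complex.mul_re, Complex.mul_im]
  · rw [Complex.im_sum, Complex.ofReal_im]
    have e4 : ∀ i, (∑ j, (starRingEnd ℂ (q i)) * ((Y i j : ℂ) * q j)).im =
        (∑ j, (q i).re * (Y i j * (q j).im)) - ∑ j, (q i).im * (Y i j * (q j).re) := by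
      intro i
      rw [Complex.im_sum, ← Finset.sum_sub_distrib]
      refine Finset.sum_congr rfl fun j _ => ?_
      simp [Complex.mul_re, Complex.mul_im]
      ring
    simp only [e4, Finset.sum_sub_distrib]
    rw [sub_eq_zero]
    conv_rhs => rw [Finset.sum_comm]
    refine Finset.sum_congr rfl fun i _ => Finset.sum_congr rfl fun j _ => ?_
    rw [hY.apply i j]
    ring

theorem C2_congr (τ D N : Matrix ι ι ℂ) (hτ : τ ∈ Hg ι) (hD : IsUnit D.det)
    (hS : (N * D⁻¹).IsSymm) (h : Dᴴ * N - Nᴴ * D = τ - τᴴ) : N * D⁻¹ ∈ Hg ι := by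
  set M := N * D⁻¹ with hM
  have hMD : M * D = N := by
    rw [hM, Matrix.mul_assoc, Matrix.nonsing_inv_mul _ hD, Matrix.mul_one]
  refine ⟨hS, PosDef.of_dotProduct_mulVec_pos ?_ ?_⟩
  · ext j k
    simp only [conjTranspose_apply, Matrix.map_apply, star_trivial]
    rw [hS.apply j k]
  intro v hv
  set P : Matrix ι ι ℝ := M.map Complex.im with hP
  set Y : Matrix ι ι ℝ := τ.map Complex.im with hY
  set vc : ι → ℂ := fun i => (v i : ℂ) with hvc
  set q : ι → ℂ := D⁻¹ *ᵥ vc with hq
  have hDq : D *ᵥ q = vc := by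
    rw [hq, mulVec_mulVec, Matrix.mul_nonsing_inv _ hD, one_mulVec]
  have hPs : P.IsSymm := hS.map _
  have hYs : Y.IsSymm := hτ.1.map _
  have hgen : ∀ X : Matrix ι ι ℂ, X.IsSymm →
      X - Xᴴ = (2 * I : ℂ) • ((X.map Complex.im).map (Complex.ofReal : ℝ → ℂ)) := by
    intro X hX
    ext j k
    simp only [Matrix.sub_apply, conjTranspose_apply, Matrix.smul_apply, Matrix.map_apply, smul_eq_mul]
    rw [hX.apply j k]
    have := Complex.sub_conj (X j k)
    rw [show star (X j k) = (starRingEnd ℂ) (X j k) from rfl, this]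
    push_cast
    ring
  have key : Dᴴ * (P.map (Complex.ofReal : ℝ → ℂ)) * D = Y.map (Complex.ofReal : ℝ → ℂ) := by
    have h1 : Dᴴ * (M - Mᴴ) * D = τ - τᴴ := by
      rw [← h, Matrix.mul_sub, Matrix.sub_mul, Matrix.mul_assoc, hMD, ← conjTranspose_mul, hMD]
    rw [hgen M hS, hgen τ hτ.1, Matrix.mul_smul, Matrix.smul_mul] at h1
    have h2 : (2 * I : ℂ) ≠ 0 := by simp
    have h3 := congrArg (fun X => (2 * I : ℂ)⁻¹ • X) h1
    simpa only [smul_smul, inv_mul_cancel₀ h2, one_smul] using h3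
  have h5 : star vc ⬝ᵥ ((P.map (Complex.ofReal : ℝ → ℂ)) *ᵥ vc) =
      star q ⬝ᵥ ((Y.map (Complex.ofReal : ℝ → ℂ)) *ᵥ q) := by
    rw [← key, ← hDq]
    simp only [star_mulVec, dotProduct_mulVec, vecMul_vecMul]
  rw [C2_herm P hPs, C2_herm Y hYs, Complex.ofReal_inj] at h5
  have h6 : (fun i => (vc i).im) = (0 : ι → ℝ) := by
    ext i; simp [hvc]
  have h7 : (fun i => (vc i).re) = v := by
    ext i; simp [hvc]
  rw [h6, h7, zero_dotProduct, add_zero] at h5
  rw [star_trivial, h5]
  have hq0 : q ≠ 0 := by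
    intro h0
    rw [h0, mulVec_zero] at hDq
    apply hv
    ext i
    have := congrFun hDq i
    simp only [hvc, Pi.zero_apply] at this
    exact_mod_cast this.symm
  have hpd : ∀ x : ι → ℝ, x ≠ 0 → 0 < x ⬝ᵥ (Y *ᵥ x) := fun x hx => by
    have := hτ.2.dotProduct_mulVec_pos hx
    rwa [star_trivial] at this
  have hpd0 : ∀ x : ι → ℝ, 0 ≤ x ⬝ᵥ (Y *ᵥ x) := fun x => by
    rcases eq_or_ne x 0 with rfl | hx
    · simp
    · exact (hpd x hx).le
  by_cases hre : (fun i => (q i).re) = 0
  · have him : (fun i => (q i).im) ≠ 0 := by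
      intro him
      apply hq0
      ext i
      apply Complex.ext
      · exact congrFun hre i
      · exact congrFun him i
    exact add_pos_of_nonneg_of_pos (hpd0 _) (hpd _ him)
  · exact add_pos_of_pos_of_nonneg (hpd _ hre) (hpd0 _)

theorem C2_map_zero : (0 : Matrix ι ι ℤ).map (Int.cast : ℤ → ℂ) = 0 :=
  Matrix.map_zero _ Int.cast_zero

theorem C2_map_one : (1 : Matrix ι ι ℤ).map (Int.cast : ℤ → ℂ) = 1 :=
  Matrix.map_one _ Int.cast_zero Int.cast_one

theorem act_gT (S : Matrix ι ι ℤ) (hS : S.IsSymm) (τ : Matrix ι ι ℂ) (hτ : τ ∈ Hg ι) :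
    (den (gT S) τ).det = 1 ∧ act (gT S) τ = mT S τ ∧ mT S τ ∈ Hg ι := by
  have hden : den (gT S) τ = 1 := by
    simp [den, gT, fromBlocks_map, C2_map_zero, C2_map_one]
  have hnum : num (gT S) τ = mT S τ := by
    simp [num, gT, mT, fromBlocks_map, C2_map_one]
  refine ⟨by rw [hden, det_one], by rw [act, hden, hnum, inv_one, Matrix.mul_one], ?_, ?_⟩
  · exact hτ.1.add (hS.map _)
  · have : (mT S τ).map Complex.im = τ.map Complex.im := by
      ext j k
      simp [mT]
    rw [this]
    exact hτ.2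

theorem act_gU (U V : Matrix ι ι ℤ) (hUV : U * V = 1) (τ : Matrix ι ι ℂ) (hτ : τ ∈ Hg ι) :
    (den (gU U V) τ).det ^ 2 = 1 ∧ act (gU U V) τ = mU U τ ∧ mU U τ ∈ Hg ι := by
  have hVU : V * U = 1 := mul_eq_one_comm.mp hUV
  set Uc := U.map (Int.cast : ℤ → ℂ) with hUc
  set Vc := V.map (Int.cast : ℤ → ℂ) with hVc
  have hUVc : Uc * Vc = 1 := by
    rw [hUc, hVc, ← C2_map_one, ← hUV]
    exact (Matrix.map_mul (f := Int.castRingHom ℂ)).symm
  have hVUc : Vc * Uc = 1 := mul_eq_one_comm.mp hUVc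
  have hden : den (gU U V) τ = Vcᵀ := by
    simp [den, gU, fromBlocks_map, C2_map_zero, transpose_map, hVc]
  have hnum : num (gU U V) τ = Uc * τ := by
    simp [num, gU, fromBlocks_map, C2_map_zero, hUc]
  have hinv : (Vcᵀ)⁻¹ = Ucᵀ := by
    apply Matrix.inv_eq_right_inv
    rw [← transpose_mul, hUVc, transpose_one]
  have hact : act (gU U V) τ = mU U τ := by
    rw [act, hden, hnum, hinv]; rfl
  have hdet : (Vcᵀ).det ^ 2 = 1 := by
    rw [det_transpose]
    have h1 : Vc.det = ((V.det : ℤ) : ℂ) := by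
      rw [hVc]
      exact (Int.cast_det V).symm
    have h2 : U.det * V.det = 1 := by rw [← det_mul, hUV, det_one]
    have h3 : V.det ^ 2 = 1 := by
      rcases Int.isUnit_iff.mp (IsUnit.of_mul_eq_one_right _ h2) with h | h <;> rw [h] <;> norm_num
    rw [h1]
    exact_mod_cast h3
  have hunit : IsUnit (Vcᵀ).det := by
    rw [isUnit_iff_ne_zero]
    intro h0
    rw [h0] at hdet
    norm_num at hdet
  refine ⟨by rw [hden]; exact hdet, hact, ?_⟩
  have hsymm : (mU U τ).IsSymm := by
    show (Uc * τ * Ucᵀ)ᵀ = Uc * τ * Ucᵀ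
    rw [transpose_mul, transpose_mul, transpose_transpose, hτ.1.eq, Matrix.mul_assoc]
  have hstar : ∀ X : Matrix ι ι ℤ, (X.map (Int.cast : ℤ → ℂ))ᴴ = (X.map (Int.cast : ℤ → ℂ))ᵀ := by
    intro X
    ext j k
    simp
  have h1 : Uc * τ * (Vcᵀ)⁻¹ ∈ Hg ι := by
    refine C2_congr τ (Vcᵀ) (Uc * τ) hτ hunit ?_ ?_
    · rw [hinv]; exact hsymm
    · have e1 : (Vcᵀ)ᴴ = Vc := by
        rw [hVc]
        ext j k
        simp
      rw [e1, conjTranspose_mul, hUc, hstar, ← hUc, ← Matrix.mul_assoc, hVUc, Matrix.one_mul,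
        Matrix.mul_assoc, ← transpose_mul, hVUc, transpose_one, Matrix.mul_one]
  rw [hinv] at h1
  exact h1

theorem diag_ne (i : ι) (τ : Matrix ι ι ℂ) (hτ : τ ∈ Hg ι) : τ i i ≠ 0 := by
  intro h
  have h1 : 0 < (τ.map Complex.im) i i := hτ.2.diag_pos
  rw [Matrix.map_apply, h] at h1
  simp at h1

theorem act_gJ (i : ι) (τ : Matrix ι ι ℂ) (hτ : τ ∈ Hg ι) :
    (den (gJ i) τ).det = τ i i ∧ act (gJ i) τ = mJ i τ ∧ mJ i τ ∈ Hg ι := by
  set E : Matrix ι ι ℂ := Matrix.single i i 1 with hE
  have hEm : (Matrix.single i i (1 : ℤ)).map (Int.cast : ℤ → ℂ) = E := by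
    ext j k
    simp only [Matrix.map_apply, hE, Matrix.single_apply]
    split_ifs <;> simp
  have hden : den (gJ i) τ = E * τ + (1 - E) := by
    have h1 : (1 - Matrix.single i i (1 : ℤ)).map (Int.cast : ℤ → ℂ) = 1 - E := by
      rw [← hEm]
      ext j k
      simp only [Matrix.map_apply, Matrix.sub_apply, Int.cast_sub, Matrix.one_apply]
      split_ifs <;> simp
    simp only [den, gJ, fromBlocks_map, toBlocks_fromBlocks₂₁, toBlocks_fromBlocks₂₂, hEm, h1]
  have hnum : num (gJ i) τ = (1 - E) * τ - E := by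
    have h1 : (1 - Matrix.single i i (1 : ℤ)).map (Int.cast : ℤ → ℂ) = 1 - E := by
      rw [← hEm]
      ext j k
      simp only [Matrix.map_apply, Matrix.sub_apply, Int.cast_sub, Matrix.one_apply]
      split_ifs <;> simp
    have h2 : (-Matrix.single i i (1 : ℤ)).map (Int.cast : ℤ → ℂ) = -E := by
      rw [← hEm]
      ext j k
      simp
    simp only [num, gJ, fromBlocks_map, toBlocks_fromBlocks₁₁, toBlocks_fromBlocks₁₂, h1, h2]
    rw [sub_eq_add_neg ((1 - E) * τ) E]
  have ht : τ i i ≠ 0 := diag_ne i τ hτ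
  have hEE : E * E = E := by
    rw [hE, Matrix.single_mul_single_same, one_mul]
  have hEH : Eᴴ = E := by
    rw [hE, Matrix.conjTranspose_single, star_one]
  have hEτ : ∀ (X : Matrix ι ι ℂ) (j k : ι), (E * X) j k = if j = i then X i k else 0 := by
    intro X j k
    rw [hE]
    by_cases h : j = i
    · subst h; simp
    · rw [if_neg h, Matrix.single_mul_apply_of_ne _ _ _ _ _ h]
  have hEa : ∀ (j k : ι), E j k = if j = i then (if k = i then 1 else 0) else 0 := by
    intro j k
    rw [hE, Matrix.single_apply]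
    by_cases h : j = i
    · subst h
      by_cases h' : k = j
      · subst h'; simp
      · simp [h', Ne.symm h']
    · simp [h, Ne.symm h]
  have hdent : ∀ (l k : ι), (den (gJ i) τ) l k = if l = i then τ i k else (if l = k then 1 else 0) := by
    intro l k
    rw [hden, Matrix.add_apply, Matrix.sub_apply, hEτ, hEa, Matrix.one_apply]
    by_cases h : l = i
    · subst h
      by_cases h' : l = k
      · subst h'; simp
      · simp [h', Ne.symm h']
    · simp [h]
  have hdet : (den (gJ i) τ).det = τ i i := by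
    have h1 : den (gJ i) τ = 1 + replicateCol Unit (Pi.single i (1 : ℂ)) *
        replicateRow Unit (τ i - Pi.single i (1 : ℂ)) := by
      ext l k
      rw [hdent, Matrix.add_apply, Matrix.mul_apply]
      simp only [Finset.univ_unique, Finset.sum_singleton, replicateCol_apply, replicateRow_apply,
        Pi.sub_apply, Matrix.one_apply]
      by_cases h : l = i
      · subst h
        by_cases h' : l = k
        · subst h'; simp
        · simp [h', Ne.symm h']
      · simp [h]
    rw [h1, det_one_add_replicateCol_mul_replicateRow, sub_dotProduct]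
    simp
  have hunit : IsUnit (den (gJ i) τ).det := by
    rw [hdet]; exact isUnit_iff_ne_zero.mpr ht
  have hmul : mJ i τ * den (gJ i) τ = num (gJ i) τ := by
    ext j k
    rw [Matrix.mul_apply]
    have h1 : ∀ l, mJ i τ j l * (den (gJ i) τ) l k =
        (if l = i then mJ i τ j i * τ i k else 0) +
          (if l = k then (if k = i then 0 else mJ i τ j k) else 0) := by
      intro l
      rw [hdent]
      by_cases h : l = i
      · subst h
        by_cases h' : l = k
        · subst h'; simp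
        · simp [h']
      · by_cases h' : l = k
        · subst h'
          simp [h]
        · simp [h, h']
    rw [Finset.sum_congr rfl fun l _ => h1 l, Finset.sum_add_distrib, Finset.sum_ite_eq' ,
      Finset.sum_ite_eq']
    simp only [Finset.mem_univ, if_true]
    rw [hnum, Matrix.sub_apply, Matrix.sub_mul, Matrix.one_mul, Matrix.sub_apply, hEτ, hEa]
    simp only [mJ, Matrix.of_apply]
    by_cases hj : j = i
    · subst hj
      by_cases hk : k = j
      · subst hk
        simp
        field_simp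
      · simp [hk]
        field_simp
        ring
    · by_cases hk : k = i
      · subst hk
        simp [hj]
        field_simp
      · simp [hj, hk]
        field_simp
        ring
  have hact : num (gJ i) τ * (den (gJ i) τ)⁻¹ = mJ i τ := by
    rw [← hmul, Matrix.mul_assoc, Matrix.mul_nonsing_inv _ hunit, Matrix.mul_one]
  have hsymm : (mJ i τ).IsSymm := by
    apply Matrix.IsSymm.ext
    intro j k
    have hs : ∀ a b, τ a b = τ b a := fun a b => hτ.1.apply b a
    simp only [mJ, Matrix.of_apply]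
    by_cases hj : j = i
    · subst hj
      by_cases hk : k = j
      · subst hk; simp
      · simp [hk, hs k j]
    · by_cases hk : k = i
      · subst hk
        simp [hj, hs k j]
      · simp only [hj, hk, if_false]
        rw [hs k j, hs k i, hs i j]
        ring
  refine ⟨hdet, hact, ?_⟩
  have h1 : num (gJ i) τ * (den (gJ i) τ)⁻¹ ∈ Hg ι := by
    refine C2_congr τ _ _ hτ hunit (by rw [hact]; exact hsymm) ?_
    have hEE' : ∀ X : Matrix ι ι ℂ, E * (E * X) = E * X := fun X => by
      rw [← Matrix.mul_assoc, hEE]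
    rw [hden, hnum]
    simp only [conjTranspose_add, conjTranspose_sub, conjTranspose_mul, conjTranspose_one, hEH,
      Matrix.mul_add, Matrix.add_mul, Matrix.mul_sub, Matrix.sub_mul, Matrix.mul_assoc, hEE, hEE',
      Matrix.one_mul, Matrix.mul_one]
    abel
  rw [hact] at h1
  exact h1

end DF
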