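import Pool.Agent.helper32.DF.A3
import Pool.Agent.helper32.DF.C2

/-!
# B2 : the partial inversion

PROOF. (numerically verified)  Let `t = τ i i`, `im t > 0`.  Write `n = (n1, n')` with `n1 = n i`,
and `y = ∑_{j≠i} τ i j (n' j + a j)` (complex).  Then
`qf (mJ i τ) (n+a) = -((n1 + a1) - y)²/t + (n'+a')·τ'(n'+a')`, where `τ'` is the submatrix of `τ` without
row and column `i`: expand `mJ`.
ONE VARIABLE (Poisson, from Mathlib `jacobiTheta₂_functional_equation`): for `im t > 0`, real `a, b`,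
complex `y`: `∑_{n∈ℤ} e(-½ (n+a-y)²/t + (n+a) b) = (-I t)^{1/2} e(a b) ∑_{n∈ℤ} e(½ t (n+b)² +
(n+b)(y - a))`  where `e(x) = exp(2πi x)` (principal branch: `re(-I t) = im t > 0`).
[Check: `jacobiTheta₂ z τ = 1/(-I τ)^{1/2} · cexp(-π I z²/τ) · jacobiTheta₂ (z/τ) (-1/τ)`; apply it with
`τ := t`, `z := b t + y - a`: right side sum `∑ e(½ t n² + n z) = e(-½ t b² - b(y-a)) ∑ e(½t(n+b)² +
(n+b)(y-a))`; and `(−1/t)`-theta at `z/t = b + (y-a)/t`: `∑ e(-½ n²/t + n b + n (y-a)/t)`, and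
`-½ (n+a-y)²/t = -½ n²/t + n(y-a)/t - ½ (y-a)²/t`.]
Now sum over `n'` (iterated sum: `Summable.tsum_prod` after `Equiv.piEquivPiSubtypeProd`; both sides
summable by `thc_summable`; `mJ i τ ∈ Hg` or its summability: the positivity of `im (mJ i τ)` is proved
in module C2 (`act_gJ`); here it is simplest to show summability of the double series of the left side
from that of ... ; you may import C2 if convenient, or prove positivity directly: for real `v ≠ 0`,
with `q i = (v i - y)/t`, `q j = v j` (`j≠i`), `y = ∑_{j≠i} τ i j v j`: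
`im (v·mJ(τ) v) = conj(q)·Y q > 0`, because `conj(q)·τ q - v·mJ(τ)v = v i (q i + conj (q i))` is real).
The factor in the sum over `n'` is `e(½ (n'+a')τ'(n'+a'))` and `(n+b1) y = (n+b1) ∑ τ i j (n' j + a j)`,
so the right side is the theta constant with characteristic `(b1, a'; -a1, b')`.
-/

namespace DF
open Matrix Complex
variable {ι : Type} [Fintype ι] [DecidableEq ι]

/-- one variable Poisson summation -/
theorem B2_one (t y : ℂ) (ht : 0 < t.im) (a b : ℝ) :
    ∑' k : ℤ, cexp (Real.pi * I * (-((k : ℂ) + a - y) ^ 2 / t) + 2 * Real.pi * I * (((k : ℂ) + a) * b)) =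
      (-I * t) ^ (1 / 2 : ℂ) * cexp (2 * Real.pi * I * a * b) *
        ∑' k : ℤ, cexp (Real.pi * I * (t * ((k : ℂ) + b) ^ 2 + 2 * ((k : ℂ) + b) * y) -
          2 * Real.pi * I * (((k : ℂ) + b) * a)) := by
  have ht0 : t ≠ 0 := by
    rintro rfl; simp at ht
  have hI : -I * t ≠ 0 := mul_ne_zero (neg_ne_zero.mpr I_ne_zero) ht0
  have hp : (-I * t) ^ (1 / 2 : ℂ) ≠ 0 := by
    rw [Complex.cpow_def_of_ne_zero hI]; exact Complex.exp_ne_zero _
  have h := jacobiTheta₂_functional_equation (b * t + y - a) t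
  unfold jacobiTheta₂ jacobiTheta₂_term at h
  have e1 : ∀ k : ℤ, cexp (Real.pi * I * (-((k : ℂ) + a - y) ^ 2 / t) + 2 * Real.pi * I * (((k : ℂ) + a) * b)) =
      cexp (-(Real.pi * I * (a - y) ^ 2 / t) + 2 * Real.pi * I * (a * b)) *
        cexp (2 * Real.pi * I * k * ((b * t + y - a) / t) + Real.pi * I * k ^ 2 * (-1 / t)) := by
    intro k
    rw [← Complex.exp_add]
    congr 1
    field_simp
    ring
  have e2 : ∀ k : ℤ, cexp (Real.pi * I * (t * ((k : ℂ) + b) ^ 2 + 2 * ((k : ℂ) + b) * y) -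
          2 * Real.pi * I * (((k : ℂ) + b) * a)) =
      cexp (Real.pi * I * t * b ^ 2 + 2 * Real.pi * I * b * (y - a)) *
        cexp (2 * Real.pi * I * k * (b * t + y - a) + Real.pi * I * k ^ 2 * t) := by
    intro k
    rw [← Complex.exp_add]
    congr 1
    ring
  simp_rw [e1, e2]
  rw [tsum_mul_left, tsum_mul_left, h]
  have e3 : cexp (2 * Real.pi * I * a * b) * (cexp (Real.pi * I * t * b ^ 2 + 2 * Real.pi * I * b * (y - a)) *
      cexp (-Real.pi * I * (b * t + y - a) ^ 2 / t)) =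
      cexp (-(Real.pi * I * (a - y) ^ 2 / t) + 2 * Real.pi * I * (a * b)) := by
    rw [← Complex.exp_add, ← Complex.exp_add]
    congr 1
    field_simp
    ring
  rw [← e3]
  field_simp

theorem B2_qf (i : ι) (M : Matrix ι ι ℂ) (x : ι → ℂ) :
    qf M x = M i i * x i ^ 2 + x i * (∑ j : {j // j ≠ i}, M i j * x j) +
      x i * (∑ j : {j // j ≠ i}, x j * M j i) +
      ∑ j : {j // j ≠ i}, ∑ l : {j // j ≠ i}, x j * M j l * x l := by
  have h1 : ∀ j, (M *ᵥ x) j = M j i * x i + ∑ l : {l // l ≠ i}, M j l * x l := by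
    intro j
    simp only [mulVec, dotProduct]
    rw [Fintype.sum_eq_add_sum_subtype_ne _ i]
  rw [qf, dotProduct, Fintype.sum_eq_add_sum_subtype_ne _ i, h1]
  simp only [h1, mul_add, Finset.sum_add_distrib, Finset.mul_sum]
  have e : ∑ x_1 : {j // j ≠ i}, x x_1 * (M x_1 i * x i) = ∑ j : {j // j ≠ i}, x i * (x j * M j i) := by
    refine Finset.sum_congr rfl fun j _ => ?_
    ring
  rw [e]
  have e2 : ∑ j : {j // j ≠ i}, ∑ l : {j // j ≠ i}, x j * (M j l * x l) =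
      ∑ j : {j // j ≠ i}, ∑ l : {j // j ≠ i}, x j * M j l * x l := by
    refine Finset.sum_congr rfl fun j _ => Finset.sum_congr rfl fun l _ => ?_
    ring
  rw [e2]
  ring

theorem B2_qf_tau (i : ι) (τ : Matrix ι ι ℂ) (hs : τ.IsSymm) (x : ι → ℂ) :
    qf τ x = τ i i * x i ^ 2 + 2 * x i * (∑ j : {j // j ≠ i}, τ i j * x j) +
      ∑ j : {j // j ≠ i}, ∑ l : {j // j ≠ i}, x j * τ j l * x l := by
  rw [B2_qf i]
  have e : ∑ j : {j // j ≠ i}, x j * τ j i = ∑ j : {j // j ≠ i}, τ i j * x j := by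
    refine Finset.sum_congr rfl fun j _ => ?_
    rw [hs.apply j i, mul_comm]
  rw [e]; ring

theorem B2_qf_mJ (i : ι) (τ : Matrix ι ι ℂ) (hs : τ.IsSymm) (h0 : τ i i ≠ 0) (x : ι → ℂ) :
    qf (mJ i τ) x = -(x i - ∑ j : {j // j ≠ i}, τ i j * x j) ^ 2 / τ i i +
      ∑ j : {j // j ≠ i}, ∑ l : {j // j ≠ i}, x j * τ j l * x l := by
  rw [B2_qf i]
  have m1 : mJ i τ i i = -1 / τ i i := by simp [mJ]
  have m2 : ∀ j : {j // j ≠ i}, mJ i τ i j = τ i j / τ i i := by
    rintro ⟨j, hj⟩; simp [mJ, hj]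
  have m3 : ∀ j : {j // j ≠ i}, mJ i τ j i = τ i j / τ i i := by
    rintro ⟨j, hj⟩; simp [mJ, hj, hs.apply i j]
  have m4 : ∀ j l : {j // j ≠ i}, mJ i τ j l = τ j l - τ i j * τ i l / τ i i := by
    rintro ⟨j, hj⟩ ⟨l, hl⟩; simp [mJ, hj, hl, hs.apply i j]
  simp only [m1, m2, m3, m4]
  have e1 : ∑ j : {j // j ≠ i}, τ i j / τ i i * x j = (∑ j : {j // j ≠ i}, τ i j * x j) / τ i i := by
    rw [Finset.sum_div]
    refine Finset.sum_congr rfl fun j _ => ?_
    ring
  have e2 : ∑ j : {j // j ≠ i}, x j * (τ i j / τ i i) = (∑ j : {j // j ≠ i}, τ i j * x j) / τ i i := by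
    rw [Finset.sum_div]
    refine Finset.sum_congr rfl fun j _ => ?_
    ring
  have e3 : ∑ j : {j // j ≠ i}, ∑ l : {j // j ≠ i}, x j * (τ j l - τ i j * τ i l / τ i i) * x l =
      (∑ j : {j // j ≠ i}, ∑ l : {j // j ≠ i}, x j * τ j l * x l) -
        (∑ j : {j // j ≠ i}, τ i j * x j) ^ 2 / τ i i := by
    rw [sq, Finset.sum_mul_sum, Finset.sum_div, ← Finset.sum_sub_distrib]
    refine Finset.sum_congr rfl fun j _ => ?_
    rw [Finset.sum_div, ← Finset.sum_sub_distrib]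
    refine Finset.sum_congr rfl fun l _ => ?_
    ring
  rw [e1, e2, e3]
  field_simp
  ring

/-- splitting off one coordinate -/
def B2_e (i : ι) : ({j // j ≠ i} → ℤ) × ℤ ≃ (ι → ℤ) :=
  (Equiv.prodComm _ _).trans (Equiv.funSplitAt i ℤ).symm

theorem B2_e_self (i : ι) (p : ({j // j ≠ i} → ℤ) × ℤ) : B2_e i p i = p.2 := by
  simp [B2_e, Equiv.funSplitAt]

theorem B2_e_ne (i : ι) (p : ({j // j ≠ i} → ℤ) × ℤ) (j : {j // j ≠ i}) : B2_e i p j = p.1 j := by
  have := j.2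
  simp [B2_e, Equiv.funSplitAt, this]

theorem thc_J (i : ι) (τ : Matrix ι ι ℂ) (hτ : τ ∈ Hg ι) (a b : ι → ℝ) :
    thc a b (mJ i τ) = (-I * τ i i) ^ (1 / 2 : ℂ) * cexp (2 * Real.pi * I * a i * b i) *
      thc (Function.update a i (b i)) (Function.update b i (-(a i))) τ := by
  have hJ : mJ i τ ∈ Hg ι := (act_gJ i τ hτ).2.2
  have h0 : τ i i ≠ 0 := diag_ne i τ hτ
  have him : 0 < (τ i i).im := by
    have h1 : 0 < (τ.map Complex.im) i i := hτ.2.diag_pos
    rwa [Matrix.map_apply] at h1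
  have s1 := thc_summable a b (mJ i τ) hJ.2
  have s2 := thc_summable (Function.update a i (b i)) (Function.update b i (-(a i))) τ hτ.2
  rw [thc, thc, ← (B2_e i).tsum_eq, ← (B2_e i).tsum_eq (fun n : ι → ℤ => cexp (Real.pi * I *
    qf τ (fun j => (n j : ℂ) + (Function.update a i (b i) j : ℝ)) +
    2 * Real.pi * I * ∑ j, ((n j : ℂ) + (Function.update a i (b i) j : ℝ)) *
      (Function.update b i (-(a i)) j : ℝ)))]
  have k1 := ((B2_e i).summable_iff.mpr s1).tsum_prod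
  have k2 := ((B2_e i).summable_iff.mpr s2).tsum_prod
  simp only [Function.comp_def] at k1 k2
  rw [k1, k2, ← tsum_mul_left]
  refine tsum_congr fun m => ?_
  -- data depending on `m`
  set y : ℂ := ∑ j : {j // j ≠ i}, τ i j * ((m j : ℂ) + a j) with hy
  set Q : ℂ := ∑ j : {j // j ≠ i}, ∑ l : {j // j ≠ i}, ((m j : ℂ) + a j) * τ j l * ((m l : ℂ) + a l) with hQ
  set L : ℂ := ∑ j : {j // j ≠ i}, ((m j : ℂ) + a j) * b j with hL
  have t1 : ∀ k : ℤ, cexp (Real.pi * I * qf (mJ i τ) (fun j => ((B2_e i (m, k) j : ℤ) : ℂ) + a j) +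
      2 * Real.pi * I * ∑ j, (((B2_e i (m, k) j : ℤ) : ℂ) + a j) * b j) =
      cexp (Real.pi * I * Q + 2 * Real.pi * I * L) *
      cexp (Real.pi * I * (-((k : ℂ) + a i - y) ^ 2 / τ i i) + 2 * Real.pi * I * (((k : ℂ) + a i) * b i)) := by
    intro k
    rw [← Complex.exp_add, B2_qf_mJ i τ hτ.1 h0, Fintype.sum_eq_add_sum_subtype_ne _ i]
    simp only [B2_e_self, B2_e_ne]
    rw [← hy, ← hQ, ← hL]
    congr 1
    ring
  have t2 : ∀ k : ℤ, cexp (Real.pi * I * qf τ (fun j => ((B2_e i (m, k) j : ℤ) : ℂ) +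
        (Function.update a i (b i) j : ℝ)) +
      2 * Real.pi * I * ∑ j, (((B2_e i (m, k) j : ℤ) : ℂ) + (Function.update a i (b i) j : ℝ)) *
        (Function.update b i (-(a i)) j : ℝ)) =
      cexp (Real.pi * I * Q + 2 * Real.pi * I * L) *
      cexp (Real.pi * I * (τ i i * ((k : ℂ) + b i) ^ 2 + 2 * ((k : ℂ) + b i) * y) -
          2 * Real.pi * I * (((k : ℂ) + b i) * a i)) := by
    intro k
    have u1 : ∀ j : {j // j ≠ i}, Function.update a i (b i) (j : ι) = a j := fun j =>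
      Function.update_of_ne j.2 _ _
    have u2 : ∀ j : {j // j ≠ i}, Function.update b i (-(a i)) (j : ι) = b j := fun j =>
      Function.update_of_ne j.2 _ _
    rw [← Complex.exp_add, B2_qf_tau i τ hτ.1, Fintype.sum_eq_add_sum_subtype_ne _ i]
    simp only [B2_e_self, B2_e_ne, u1, u2, Function.update_self]
    rw [← hy, ← hQ, ← hL]
    congr 1
    push_cast
    ring
  simp only [t1, t2]
  rw [tsum_mul_left, tsum_mul_left, B2_one (τ i i) y him (a i) (b i)]
  ring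

end DF
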