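import Pool.Agent.helper32.DF.A4
import Pool.Agent.helper32.DF.B1
import Pool.Agent.helper32.DF.B2

/-!
# B3 : transformation of the powers `pwN` (level `N` even)

PROOF. General lemma: if `a, b : ι → ℝ` have entries in `(1/N)ℤ` and `a ≡ x.1/N`, `b ≡ x.2/N` modulo
integers then `thc a b τ ^ (48 N²) = pwN N x τ`: by `thc_shift`, the quotient is
`exp (2πi ∑ a_i n_i)` with `a_i ∈ (1/N)ℤ`, whose `N`-th power is `1`.
(`((k : ZMod N).val : ℤ) ≡ k mod N`: `ZMod.intCast_zmod_cast`, `ZMod.natCast_self_eq_zero`, ….)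
`pwN_T`: `thc_T`, the constant is `exp(-πi (a·Sa + a·diag S))`, `a ∈ (1/N)ℤ^ι`, its `48N²`-th power is
`exp(-2πi · 24 (N² a·Sa + N² a·diag S)) = 1`.  `b' = b + Sa + ½ diag S ≡ (cT N S x).2 / N` (`N` even, so
`½ = (N/2)/N`).
`pwN_U`: `thc_U`.
`pwN_J`: `thc_J`: `((-Iτ_ii)^{1/2})^{48N²} = (-I τ_ii)^{24 N²} = τ_ii^{24N²}` (`(z^(1/2))^2 = z`:
`Complex.cpow_nat_inv_pow`; `(-I)^4 = 1`), and `exp(2πi a_i b_i)^{48N²} = 1` (`N² a_i b_i` integer);
the new characteristic is `(b_i, -a_i)` at `i`.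
-/

namespace DF
open Matrix Complex
variable {ι : Type} [Fintype ι] [DecidableEq ι]

/-- an integer multiple of `2πi` -/
theorem exp_pow_eq_one_of_int (z : ℂ) (n : ℕ) (k : ℤ) (h : (n : ℂ) * z = k * (2 * Real.pi * I)) :
    cexp z ^ n = 1 := by
  rw [← Complex.exp_nat_mul, h]
  exact Complex.exp_int_mul_two_pi_mul_I k

/-- the powers do not depend on the representatives -/
theorem thc_pow_eq_pwN (N : ℕ) (hN : 0 < N) (x : Ch N ι) (τ : Matrix ι ι ℂ) (a b : ι → ℝ)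
    (p r : ι → ℤ) (ha : ∀ i, a i = (p i : ℝ) / N) (hb : ∀ i, b i = (r i : ℝ) / N)
    (hp : ∀ i, (p i : ZMod N) = x.1 i) (hr : ∀ i, (r i : ZMod N) = x.2 i) :
    thc a b τ ^ (48 * N ^ 2) = pwN N x τ := by
  have : NeZero N := ⟨hN.ne'⟩
  have hNR : (N : ℝ) ≠ 0 := by exact_mod_cast hN.ne'
  have hNC : (N : ℂ) ≠ 0 := by exact_mod_cast hN.ne'
  have key : ∀ (y : ZMod N) (k : ℤ), (k : ZMod N) = y → ∃ m : ℤ, k = (y.val : ℤ) + N * m := by
    intro y k hk
    have h1 : ((k - (y.val : ℤ) : ℤ) : ZMod N) = 0 := by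
      push_cast
      rw [hk, ZMod.natCast_zmod_val]
      ring
    rw [ZMod.intCast_zmod_eq_zero_iff_dvd] at h1
    obtain ⟨m, hm⟩ := h1
    exact ⟨m, by linarith⟩
  choose m hm using fun i => key (x.1 i) (p i) (hp i)
  choose n hn using fun i => key (x.2 i) (r i) (hr i)
  have ea : a = fun i => ((x.1 i).val : ℝ) / N + m i := by
    funext i
    rw [ha i, hm i]
    push_cast
    field_simp
  have eb : b = fun i => ((x.2 i).val : ℝ) / N + n i := by
    funext i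
    rw [hb i, hn i]
    push_cast
    field_simp
  rw [ea, eb, thc_shift, mul_pow, pwN, thN]
  have h1 : cexp (2 * Real.pi * I * ∑ i, ((((x.1 i).val : ℝ) / N : ℝ) : ℂ) * (n i : ℂ)) ^
      (48 * N ^ 2) = 1 := by
    apply exp_pow_eq_one_of_int _ _ (48 * N * ∑ i, ((x.1 i).val : ℤ) * n i)
    have e1 : ∑ i, ((((x.1 i).val : ℝ) / N : ℝ) : ℂ) * (n i : ℂ) =
        (∑ i, ((x.1 i).val : ℂ) * (n i : ℂ)) / N := by
      rw [Finset.sum_div]
      apply Finset.sum_congr rfl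
      intro i _
      push_cast
      ring
    rw [e1]
    push_cast
    field_simp
  rw [h1, one_mul]

theorem pwN_T (N : ℕ) (hN : 0 < N) (hE : Even N) (S : Matrix ι ι ℤ) (hS : S.IsSymm) (x : Ch N ι)
    (τ : Matrix ι ι ℂ) : pwN N x (mT S τ) = pwN N (cT N S x) τ := by
  have : NeZero N := ⟨hN.ne'⟩
  have hNR : (N : ℝ) ≠ 0 := by exact_mod_cast hN.ne'
  have hNC : (N : ℂ) ≠ 0 := by exact_mod_cast hN.ne'
  rw [pwN, thN, thc_T S hS, mul_pow]
  have h1 : cexp (-(Real.pi * I * ∑ i, ∑ j, ((((x.1 i).val : ℝ) / N : ℝ) : ℂ) * S i j *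
      ((((x.1 j).val : ℝ) / N : ℝ) : ℂ)) -
        Real.pi * I * ∑ i, ((((x.1 i).val : ℝ) / N : ℝ) : ℂ) * S i i) ^ (48 * N ^ 2) = 1 := by
    apply exp_pow_eq_one_of_int _ _ (-(24 * ∑ i, ∑ j, ((x.1 i).val : ℤ) * S i j * (x.1 j).val) -
      24 * N * ∑ i, ((x.1 i).val : ℤ) * S i i)
    have e1 : ∑ i, ((((x.1 i).val : ℝ) / N : ℝ) : ℂ) * (S i i : ℂ) =
        (∑ i, ((x.1 i).val : ℂ) * (S i i : ℂ)) / N := by
      rw [Finset.sum_div]
      apply Finset.sum_congr rfl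
      intro i _
      push_cast
      ring
    have e2 : ∑ i, ∑ j, ((((x.1 i).val : ℝ) / N : ℝ) : ℂ) * (S i j : ℂ) *
        ((((x.1 j).val : ℝ) / N : ℝ) : ℂ) =
        (∑ i, ∑ j, ((x.1 i).val : ℂ) * (S i j : ℂ) * ((x.1 j).val : ℂ)) / N ^ 2 := by
      rw [Finset.sum_div]
      apply Finset.sum_congr rfl
      intro i _
      rw [Finset.sum_div]
      apply Finset.sum_congr rfl
      intro j _
      push_cast
      field_simp
    rw [e1, e2]
    push_cast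
    field_simp
    ring
  rw [h1, one_mul]
  obtain ⟨M, hM⟩ := hE
  have hM2 : N / 2 = M := by omega
  apply thc_pow_eq_pwN N hN (cT N S x) τ _ _ (fun i => ((x.1 i).val : ℤ))
    (fun i => ((x.2 i).val : ℤ) + (∑ j, S i j * ((x.1 j).val : ℤ)) + (M : ℤ) * S i i)
  · intro i
    push_cast
    rfl
  · intro i
    have e1 : ∑ j, (S i j : ℝ) * (((x.1 j).val : ℝ) / N) = (∑ j, (S i j : ℝ) * ((x.1 j).val : ℝ)) / N := by
      rw [Finset.sum_div]
      apply Finset.sum_congr rfl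
      intro j _
      ring
    have e2 : (S i i : ℝ) / 2 = (M : ℝ) * (S i i : ℝ) / N := by
      have : (N : ℝ) = M + M := by rw [hM]; push_cast; ring
      field_simp
      rw [this]; ring
    rw [e1, e2]
    push_cast
    ring
  · intro i
    simp [cT]
  · intro i
    simp [cT, hM2]

theorem pwN_U (N : ℕ) (hN : 0 < N) (hE : Even N) (U V : Matrix ι ι ℤ) (hUV : U * V = 1)
    (x : Ch N ι) (τ : Matrix ι ι ℂ) : pwN N x (mU U τ) = pwN N (cU N U V x) τ := by
  have : NeZero N := ⟨hN.ne'⟩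
  rw [pwN, thN, thc_U U V hUV]
  apply thc_pow_eq_pwN N hN (cU N U V x) τ _ _ (fun i => ∑ j, U j i * ((x.1 j).val : ℤ))
    (fun i => ∑ j, V i j * ((x.2 j).val : ℤ))
  · intro i
    push_cast
    rw [Finset.sum_div]
    apply Finset.sum_congr rfl
    intro j _
    ring
  · intro i
    push_cast
    rw [Finset.sum_div]
    apply Finset.sum_congr rfl
    intro j _
    ring
  · intro i
    simp [cU]
  · intro i
    simp [cU]

theorem pwN_J (N : ℕ) (hN : 0 < N) (hE : Even N) (i : ι) (x : Ch N ι) (τ : Matrix ι ι ℂ)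
    (hτ : τ ∈ Hg ι) : pwN N x (mJ i τ) = (τ i i) ^ (24 * N ^ 2) * pwN N (cJ N i x) τ := by
  have : NeZero N := ⟨hN.ne'⟩
  have hNR : (N : ℝ) ≠ 0 := by exact_mod_cast hN.ne'
  have hNC : (N : ℂ) ≠ 0 := by exact_mod_cast hN.ne'
  rw [pwN, thN, thc_J i τ hτ, mul_pow, mul_pow]
  have h1 : ((-I * τ i i) ^ (1 / 2 : ℂ)) ^ (48 * N ^ 2) = (τ i i) ^ (24 * N ^ 2) := by
    have e0 : 48 * N ^ 2 = 2 * (24 * N ^ 2) := by ring
    rw [e0, pow_mul]
    have e1 : ((-I * τ i i) ^ (1 / 2 : ℂ)) ^ 2 = -I * τ i i := by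
      have := Complex.cpow_nat_inv_pow (-I * τ i i) (n := 2) (by norm_num)
      norm_num at this ⊢
      exact this
    rw [e1, mul_pow]
    have e2 : (-I) ^ (24 * N ^ 2) = 1 := by
      have e3 : 24 * N ^ 2 = 4 * (6 * N ^ 2) := by ring
      rw [e3, pow_mul]
      have : (-I) ^ 4 = 1 := by
        rw [neg_pow, Complex.I_pow_four]; norm_num
      rw [this, one_pow]
    rw [e2, one_mul]
  have h2 : cexp (2 * Real.pi * I * ((((x.1 i).val : ℝ) / N : ℝ) : ℂ) *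
      ((((x.2 i).val : ℝ) / N : ℝ) : ℂ)) ^ (48 * N ^ 2) = 1 := by
    apply exp_pow_eq_one_of_int _ _ (48 * (((x.1 i).val : ℤ) * (x.2 i).val))
    push_cast
    field_simp
  rw [h1, h2, mul_one]
  congr 1
  apply thc_pow_eq_pwN N hN (cJ N i x) τ _ _
    (Function.update (fun j => ((x.1 j).val : ℤ)) i ((x.2 i).val : ℤ))
    (Function.update (fun j => ((x.2 j).val : ℤ)) i (-((x.1 i).val : ℤ)))
  · intro j
    by_cases hj : j = i
    · subst hj; simp
    · simp [hj]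
  · intro j
    by_cases hj : j = i
    · subst hj; simp; ring
    · simp [hj]
  · intro j
    by_cases hj : j = i
    · subst hj; simp [cJ]
    · simp [cJ, hj]
  · intro j
    by_cases hj : j = i
    · subst hj; simp [cJ]
    · simp [cJ, hj]

end DF
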