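import Pool.Agent.helper32.DF.Defs

/-!
# C1 : the action is multiplicative

PROOF. Block multiplication: with `γ = (A B; C D)`, `γ' = (A' B'; C' D')`:
`den (γ γ') τ = (C A' + D C') τ + (C B' + D D') = C (A'τ + B') + D (C'τ + D')
= (C act(γ',τ) + D) (C'τ + D')` since `A'τ + B' = act γ' τ * den γ' τ` (the determinant is a unit).
Same for `num`.  So `act (γ γ') τ = num γ (act γ' τ) * den γ' τ * (den γ' τ)⁻¹ * (den γ (act γ' τ))⁻¹`.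
-/

set_option linter.unusedSectionVars false

namespace DF
open Matrix Complex
variable {ι : Type} [Fintype ι] [DecidableEq ι]

theorem C1_map (γ γ' : Matrix (ι ⊕ ι) (ι ⊕ ι) ℤ) :
    (γ * γ').map (Int.cast : ℤ → ℂ) = γ.map (Int.cast : ℤ → ℂ) * γ'.map (Int.cast : ℤ → ℂ) :=
  Matrix.map_mul (f := Int.castRingHom ℂ)

theorem C1_b21 (M N : Matrix (ι ⊕ ι) (ι ⊕ ι) ℂ) :
    (M * N).toBlocks₂₁ = M.toBlocks₂₁ * N.toBlocks₁₁ + M.toBlocks₂₂ * N.toBlocks₂₁ := by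
  ext i j
  simp [Matrix.toBlocks₂₁, Matrix.toBlocks₂₂, Matrix.toBlocks₁₁, Matrix.mul_apply,
    Fintype.sum_sum_type]

theorem C1_b22 (M N : Matrix (ι ⊕ ι) (ι ⊕ ι) ℂ) :
    (M * N).toBlocks₂₂ = M.toBlocks₂₁ * N.toBlocks₁₂ + M.toBlocks₂₂ * N.toBlocks₂₂ := by
  ext i j
  simp [Matrix.toBlocks₂₁, Matrix.toBlocks₂₂, Matrix.toBlocks₁₂, Matrix.mul_apply,
    Fintype.sum_sum_type]

theorem C1_b11 (M N : Matrix (ι ⊕ ι) (ι ⊕ ι) ℂ) :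
    (M * N).toBlocks₁₁ = M.toBlocks₁₁ * N.toBlocks₁₁ + M.toBlocks₁₂ * N.toBlocks₂₁ := by
  ext i j
  simp [Matrix.toBlocks₂₁, Matrix.toBlocks₁₂, Matrix.toBlocks₁₁, Matrix.mul_apply,
    Fintype.sum_sum_type]

theorem C1_b12 (M N : Matrix (ι ⊕ ι) (ι ⊕ ι) ℂ) :
    (M * N).toBlocks₁₂ = M.toBlocks₁₁ * N.toBlocks₁₂ + M.toBlocks₁₂ * N.toBlocks₂₂ := by
  ext i j
  simp [Matrix.toBlocks₁₁, Matrix.toBlocks₂₂, Matrix.toBlocks₁₂, Matrix.mul_apply,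
    Fintype.sum_sum_type]

theorem C1_act_den (γ' : Matrix (ι ⊕ ι) (ι ⊕ ι) ℤ) (τ : Matrix ι ι ℂ)
    (h1 : IsUnit (den γ' τ).det) : act γ' τ * den γ' τ = num γ' τ := by
  rw [act, Matrix.mul_assoc, Matrix.nonsing_inv_mul _ h1, Matrix.mul_one]

theorem den_mul (γ γ' : Matrix (ι ⊕ ι) (ι ⊕ ι) ℤ) (τ : Matrix ι ι ℂ)
    (h1 : IsUnit (den γ' τ).det) : den (γ * γ') τ = den γ (act γ' τ) * den γ' τ := by
  have h := C1_act_den γ' τ h1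
  have e : den γ (act γ' τ) * den γ' τ =
      (γ.map (Int.cast : ℤ → ℂ)).toBlocks₂₁ * num γ' τ +
        (γ.map (Int.cast : ℤ → ℂ)).toBlocks₂₂ * den γ' τ := by
    rw [← h, ← Matrix.mul_assoc, ← Matrix.add_mul]
    rfl
  rw [e, den, C1_map, C1_b21, C1_b22, num, den]
  noncomm_ring

theorem C1_num_mul (γ γ' : Matrix (ι ⊕ ι) (ι ⊕ ι) ℤ) (τ : Matrix ι ι ℂ)
    (h1 : IsUnit (den γ' τ).det) : num (γ * γ') τ = num γ (act γ' τ) * den γ' τ := by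
  have h := C1_act_den γ' τ h1
  have e : num γ (act γ' τ) * den γ' τ =
      (γ.map (Int.cast : ℤ → ℂ)).toBlocks₁₁ * num γ' τ +
        (γ.map (Int.cast : ℤ → ℂ)).toBlocks₁₂ * den γ' τ := by
    rw [← h, ← Matrix.mul_assoc, ← Matrix.add_mul]
    rfl
  rw [e, num, C1_map, C1_b11, C1_b12, num, den]
  noncomm_ring

theorem act_mul (γ γ' : Matrix (ι ⊕ ι) (ι ⊕ ι) ℤ) (τ : Matrix ι ι ℂ)
    (h1 : IsUnit (den γ' τ).det) (h2 : IsUnit (den γ (act γ' τ)).det) :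
    act (γ * γ') τ = act γ (act γ' τ) := by
  change num (γ * γ') τ * (den (γ * γ') τ)⁻¹ = num γ (act γ' τ) * (den γ (act γ' τ))⁻¹
  rw [den_mul γ γ' τ h1, C1_num_mul γ γ' τ h1, Matrix.mul_inv_rev]
  rw [Matrix.mul_assoc, ← Matrix.mul_assoc (den γ' τ), Matrix.mul_nonsing_inv _ h1, Matrix.one_mul]

theorem act_one (τ : Matrix ι ι ℂ) : den (1 : Matrix (ι ⊕ ι) (ι ⊕ ι) ℤ) τ = 1 ∧
    act (1 : Matrix (ι ⊕ ι) (ι ⊕ ι) ℤ) τ = τ := by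
  have h0 : (1 : Matrix (ι ⊕ ι) (ι ⊕ ι) ℤ).map (Int.cast : ℤ → ℂ) =
      fromBlocks (1 : Matrix ι ι ℂ) 0 0 1 := by
    rw [fromBlocks_one]
    exact Matrix.map_one _ Int.cast_zero Int.cast_one
  have hd : den (1 : Matrix (ι ⊕ ι) (ι ⊕ ι) ℤ) τ = 1 := by
    rw [den, h0, toBlocks_fromBlocks₂₁, toBlocks_fromBlocks₂₂, Matrix.zero_mul, zero_add]
  refine ⟨hd, ?_⟩
  rw [act, hd, num, h0, toBlocks_fromBlocks₁₁, toBlocks_fromBlocks₁₂, Matrix.one_mul, add_zero,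
    inv_one, Matrix.mul_one]

end DF
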