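import Pool.Agent.helper32.DF.Defs

/-!
# C3 : transitivity on hyperbolic pairs

NOTATION. `v = (a, b)`, `a = v ∘ inl`, `b = v ∘ inr`.  `gT S` maps `(a, b)` to `(a + S b, b)`;
`gU U V` to `(U a, Vᵀ b)`; `gJ i` maps `(a_i, b_i)` to `(-b_i, a_i)` and fixes the other coordinates.
All matrices below are the identity on the coordinates in `I` (`S` has zero rows and columns there, `U`
is the identity there), so they fix `e_i^a = Pi.single (inl i) 1`, `e_i^b` for `i ∈ I`.
The form `Ep` is invariant under all generators.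
STEP 1 (make `b = 0`).  Induction on `∑_i |b_i|`.  If some `b_i ≠ 0` (`i ∉ I`): if `|a_i| ≥ |b_i|` use
`gT (k E_ii)` (`a_i → a_i + k b_i`) to get `|a_i| < |b_i|` (Euclidean division); then `gJ i` gives
`|new b_i| = |a_i| < |b_i|`: the sum decreases.
STEP 2 (`b = 0`, make `a = e_{i0}`).  `a` is primitive: `1 = Ep v w = ∑ a_i w_{inr i}` (invariance), so the
`a_i` have gcd 1.  Induction on `∑ |a_i|`: if two coordinates `a_i, a_j ≠ 0`, `|a_i| ≤ |a_j|`, replace
`a_j` by `a_j ∓ a_i` with `U = 1 ± E_ji`, `V = 1 ∓ E_ji`.  If only one coordinate `a_j` is nonzero then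
`a_j = ±1`; if `j ≠ i0` add it (with sign) to the coordinate `i0` and subtract, to get `a = e_{i0}`;
if `j = i0` and `a_{i0} = -1` use `U = V = 1 - 2 E_{i0 i0}`.
STEP 3.  Now `v = e_{i0}^a`, `w = (a, b)` with `b_{i0} = Ep v w = 1`.  Let `S` be symmetric with
`S_{j i0} = S_{i0 j} = -a_j` (`j ≠ i0`), `S_{i0 i0} = -a_{i0} + ∑_{j≠i0} a_j b_j`, other entries `0`:
`S b = -a`.  `gT S` fixes `v` and maps `w` to `(0, b)`.  Let `U` be the identity with row `i0` replaced
by `b` (`b_{i0} = 1`), `V` its inverse (the identity with row `i0` replaced by `-b_j`, `1` at `i0`).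
`gU U V` fixes `e_{i0}^a` (column `i0` of `U` is `e_{i0}`) and maps `(0,b)` to `(0, Vᵀ b)`, and
`Uᵀ e_{i0} = b`, so `Vᵀ b = e_{i0}`.
-/

namespace DF
open Matrix
variable {ι : Type} [Fintype ι] [DecidableEq ι]

theorem c3_gT_inl (S : Matrix ι ι ℤ) (x : ι ⊕ ι → ℤ) (i : ι) :
    (gT S *ᵥ x) (Sum.inl i) = x (Sum.inl i) + ∑ j, S i j * x (Sum.inr j) := by
  simp [gT, mulVec, dotProduct, Matrix.one_apply]

theorem c3_gT_inr (S : Matrix ι ι ℤ) (x : ι ⊕ ι → ℤ) (i : ι) :
    (gT S *ᵥ x) (Sum.inr i) = x (Sum.inr i) := by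
  simp [gT, fromBlocks_mulVec]

theorem c3_gU_inl (U V : Matrix ι ι ℤ) (x : ι ⊕ ι → ℤ) (i : ι) :
    (gU U V *ᵥ x) (Sum.inl i) = ∑ j, U i j * x (Sum.inl j) := by
  simp [gU, fromBlocks_mulVec, mulVec, dotProduct]

theorem c3_gU_inr (U V : Matrix ι ι ℤ) (x : ι ⊕ ι → ℤ) (i : ι) :
    (gU U V *ᵥ x) (Sum.inr i) = ∑ j, V j i * x (Sum.inr j) := by
  simp [gU, fromBlocks_mulVec, mulVec, dotProduct]

theorem c3_single_mulVec (k : ι) (y : ι → ℤ) (i : ι) :
    (Matrix.single k k (1 : ℤ) *ᵥ y) i = if i = k then y k else 0 := by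
  simp only [mulVec, dotProduct, Matrix.single_apply]
  by_cases h : i = k
  · subst h; simp
  · have : ∀ j, ¬ (k = i ∧ k = j) := fun j hj => h hj.1.symm
    simp [h, this]

theorem c3_gJ_inl (k : ι) (x : ι ⊕ ι → ℤ) (i : ι) :
    (gJ k *ᵥ x) (Sum.inl i) = if i = k then -x (Sum.inr k) else x (Sum.inl i) := by
  simp only [gJ, fromBlocks_mulVec, Sum.elim_inl, Pi.add_apply, sub_mulVec, one_mulVec, neg_mulVec,
    Pi.sub_apply, Pi.neg_apply, c3_single_mulVec, Function.comp_apply]
  by_cases h : i = k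
  · subst h; simp
  · simp [h]

theorem c3_gJ_inr (k : ι) (x : ι ⊕ ι → ℤ) (i : ι) :
    (gJ k *ᵥ x) (Sum.inr i) = if i = k then x (Sum.inl k) else x (Sum.inr i) := by
  simp only [gJ, fromBlocks_mulVec, Sum.elim_inr, Pi.add_apply, sub_mulVec, one_mulVec, neg_mulVec,
    Pi.sub_apply, Pi.neg_apply, c3_single_mulVec, Function.comp_apply]
  by_cases h : i = k
  · subst h; simp
  · simp [h]

theorem c3_Ep_eq (x y : ι ⊕ ι → ℤ) :
    Ep x y = (fun i => x (Sum.inl i)) ⬝ᵥ (fun i => y (Sum.inr i)) -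
      (fun i => x (Sum.inr i)) ⬝ᵥ (fun i => y (Sum.inl i)) := by
  simp [Ep, dotProduct, Finset.sum_sub_distrib]

theorem c3_Ep_T (S : Matrix ι ι ℤ) (hS : S.IsSymm) (x y : ι ⊕ ι → ℤ) :
    Ep (gT S *ᵥ x) (gT S *ᵥ y) = Ep x y := by
  have e : ∀ z : ι ⊕ ι → ℤ, (fun i => (gT S *ᵥ z) (Sum.inl i)) =
      (fun i => z (Sum.inl i)) + S *ᵥ (fun i => z (Sum.inr i)) := by
    intro z; funext i; rw [c3_gT_inl]; simp [mulVec, dotProduct]
  have e2 : ∀ z : ι ⊕ ι → ℤ, (fun i => (gT S *ᵥ z) (Sum.inr i)) = (fun i => z (Sum.inr i)) := by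
    intro z; funext i; rw [c3_gT_inr]
  rw [c3_Ep_eq, c3_Ep_eq, e, e, e2, e2, add_dotProduct, dotProduct_add]
  have h : (S *ᵥ fun i => x (Sum.inr i)) ⬝ᵥ (fun i => y (Sum.inr i))
      = (fun i => x (Sum.inr i)) ⬝ᵥ (S *ᵥ fun i => y (Sum.inr i)) := by
    rw [dotProduct_mulVec, ← mulVec_transpose, hS.eq]
  rw [h]; ring

theorem c3_Ep_U (U V : Matrix ι ι ℤ) (hUV : U * V = 1) (x y : ι ⊕ ι → ℤ) :
    Ep (gU U V *ᵥ x) (gU U V *ᵥ y) = Ep x y := by
  have hVU : V * U = 1 := mul_eq_one_comm.mp hUV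
  have e : ∀ z : ι ⊕ ι → ℤ, (fun i => (gU U V *ᵥ z) (Sum.inl i)) = U *ᵥ (fun i => z (Sum.inl i)) := by
    intro z; funext i; rw [c3_gU_inl]; simp [mulVec, dotProduct]
  have e2 : ∀ z : ι ⊕ ι → ℤ, (fun i => (gU U V *ᵥ z) (Sum.inr i)) = Vᵀ *ᵥ (fun i => z (Sum.inr i)) := by
    intro z; funext i; rw [c3_gU_inr]; simp [mulVec, dotProduct]
  have h : ∀ p q : ι → ℤ, (U *ᵥ p) ⬝ᵥ (Vᵀ *ᵥ q) = p ⬝ᵥ q := by
    intro p q
    rw [dotProduct_mulVec, vecMul_transpose, mulVec_mulVec, hVU, one_mulVec]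
  rw [c3_Ep_eq, c3_Ep_eq, e, e, e2, e2, h, dotProduct_comm (Vᵀ *ᵥ _), h, dotProduct_comm (fun i => y (Sum.inl i))]

theorem c3_Ep_J (k : ι) (x y : ι ⊕ ι → ℤ) : Ep (gJ k *ᵥ x) (gJ k *ᵥ y) = Ep x y := by
  simp only [Ep]
  refine Finset.sum_congr rfl fun i _ => ?_
  rw [c3_gJ_inl, c3_gJ_inr, c3_gJ_inl, c3_gJ_inr]
  by_cases h : i = k
  · subst h; simp; ring
  · simp [h]

/-- products of generators which are trivial on the coordinates in `I` -/
def c3G (I : Finset ι) : Submonoid (Matrix (ι ⊕ ι) (ι ⊕ ι) ℤ) where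
  carrier := {σ | σ ∈ Submonoid.closure (Gens ι) ∧
    (∀ i ∈ I, σ *ᵥ (Pi.single (Sum.inl i) 1) = Pi.single (Sum.inl i) 1 ∧
        σ *ᵥ (Pi.single (Sum.inr i) 1) = Pi.single (Sum.inr i) 1) ∧
    ∀ x y, Ep (σ *ᵥ x) (σ *ᵥ y) = Ep x y}
  one_mem' := ⟨Submonoid.one_mem _, fun i _ => ⟨one_mulVec _, one_mulVec _⟩, fun x y => by
    rw [one_mulVec, one_mulVec]⟩
  mul_mem' := by
    rintro σ σ' ⟨h1, h2, h3⟩ ⟨h1', h2', h3'⟩
    refine ⟨Submonoid.mul_mem _ h1 h1', fun i hi => ⟨?_, ?_⟩, fun x y => ?_⟩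
    · rw [← mulVec_mulVec, (h2' i hi).1, (h2 i hi).1]
    · rw [← mulVec_mulVec, (h2' i hi).2, (h2 i hi).2]
    · rw [← mulVec_mulVec, ← mulVec_mulVec, h3, h3']

theorem c3_gT_mem {I : Finset ι} {S : Matrix ι ι ℤ} (hS : S.IsSymm) (h : ∀ i ∈ I, ∀ j, S j i = 0) :
    gT S ∈ c3G I := by
  refine ⟨Submonoid.subset_closure (Or.inl ⟨S, hS, rfl⟩), fun i hi => ⟨?_, ?_⟩, c3_Ep_T S hS⟩
  · funext j
    rcases j with j | j
    · rw [c3_gT_inl]; simp
    · rw [c3_gT_inr]
  · funext j
    rcases j with j | j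
    · rw [c3_gT_inl]
      simp only [Pi.single_apply, Sum.inr.injEq, mul_ite, mul_one, mul_zero, Finset.sum_ite_eq', Finset.mem_univ,
        if_true, h i hi j]
      simp
    · rw [c3_gT_inr]

theorem c3_gU_mem {I : Finset ι} {U V : Matrix ι ι ℤ} (hUV : U * V = 1)
    (h1 : ∀ i ∈ I, ∀ j, U j i = if j = i then 1 else 0)
    (h2 : ∀ i ∈ I, ∀ j, V i j = if j = i then 1 else 0) : gU U V ∈ c3G I := by
  refine ⟨Submonoid.subset_closure (Or.inr (Or.inl ⟨U, V, hUV, rfl⟩)), fun i hi => ⟨?_, ?_⟩,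
    c3_Ep_U U V hUV⟩
  · funext j
    rcases j with j | j
    · rw [c3_gU_inl]
      simp [Pi.single_apply, h1 i hi j]
    · rw [c3_gU_inr]; simp
  · funext j
    rcases j with j | j
    · rw [c3_gU_inl]; simp
    · rw [c3_gU_inr]
      simp [Pi.single_apply, h2 i hi j]

theorem c3_gJ_mem {I : Finset ι} {k : ι} (hk : k ∉ I) : gJ k ∈ c3G I := by
  refine ⟨Submonoid.subset_closure (Or.inr (Or.inr ⟨k, rfl⟩)), fun i hi => ?_, c3_Ep_J k⟩
  have hne : i ≠ k := fun h => hk (h ▸ hi)
  constructor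
  · funext j
    rcases j with j | j
    · rw [c3_gJ_inl]
      by_cases h : j = k
      · subst h; simp [hne.symm]
      · simp [h]
    · rw [c3_gJ_inr]
      by_cases h : j = k
      · subst h; simp [hne.symm]
      · simp [h]
  · funext j
    rcases j with j | j
    · rw [c3_gJ_inl]
      by_cases h : j = k
      · subst h; simp [hne.symm]
      · simp [h]
    · rw [c3_gJ_inr]
      by_cases h : j = k
      · subst h; simp [hne.symm]
      · simp [h]

theorem c3_Ep_single_inr (x : ι ⊕ ι → ℤ) (i : ι) : Ep x (Pi.single (Sum.inr i) 1) = x (Sum.inl i) := by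
  simp [Ep, Pi.single_apply]

theorem c3_Ep_single_inl (x : ι ⊕ ι → ℤ) (i : ι) : Ep x (Pi.single (Sum.inl i) 1) = -x (Sum.inr i) := by
  simp [Ep, Pi.single_apply]

/-- zero on the coordinates in `I` -/
def c3Z (I : Finset ι) (v : ι ⊕ ι → ℤ) : Prop := ∀ i ∈ I, v (Sum.inl i) = 0 ∧ v (Sum.inr i) = 0

theorem c3_Z_of {I : Finset ι} {σ : Matrix (ι ⊕ ι) (ι ⊕ ι) ℤ} (hσ : σ ∈ c3G I) {v : ι ⊕ ι → ℤ}
    (hv : c3Z I v) : c3Z I (σ *ᵥ v) := by
  intro i hi
  obtain ⟨h1, h2, h3⟩ := hσ
  constructor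
  · rw [← c3_Ep_single_inr (σ *ᵥ v) i, ← (h2 i hi).2, h3, c3_Ep_single_inr]; exact (hv i hi).1
  · have := c3_Ep_single_inl (σ *ᵥ v) i
    rw [← (h2 i hi).1, h3, c3_Ep_single_inl, (hv i hi).2] at this
    linarith

/-- STEP 1 -/
theorem c3_step1 (I : Finset ι) (n : ℕ) : ∀ v : ι ⊕ ι → ℤ, c3Z I v → ∑ i, (v (Sum.inr i)).natAbs = n →
    ∃ σ ∈ c3G I, ∀ i, (σ *ᵥ v) (Sum.inr i) = 0 := by
  induction n using Nat.strong_induction_on with
  | _ n ih =>
    intro v hv hn
    by_cases h : ∃ k, v (Sum.inr k) ≠ 0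
    · obtain ⟨k, hk⟩ := h
      have hkI : k ∉ I := fun hI => hk (hv k hI).2
      -- reduce `a_k` modulo `b_k`
      set S : Matrix ι ι ℤ := Matrix.single k k (-(v (Sum.inl k) / v (Sum.inr k))) with hS
      have hSs : S.IsSymm := by
        rw [Matrix.IsSymm, hS, Matrix.transpose_single]
      have hT : gT S ∈ c3G I := by
        refine c3_gT_mem hSs ?_
        intro i hi j
        rw [hS, Matrix.single_apply]
        have : k ≠ i := fun h => hkI (h ▸ hi)
        simp [this]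
      have hJ : gJ k ∈ c3G I := c3_gJ_mem hkI
      have hmem : gJ k * gT S ∈ c3G I := Submonoid.mul_mem _ hJ hT
      set v' := (gJ k * gT S) *ᵥ v with hv'
      have hv'e : ∀ i, v' (Sum.inr i) = if i = k then v (Sum.inl k) % v (Sum.inr k) else v (Sum.inr i) := by
        intro i
        rw [hv', ← mulVec_mulVec, c3_gJ_inr]
        by_cases hik : i = k
        · rw [if_pos hik, if_pos hik, c3_gT_inl]
          have : ∑ j, S k j * v (Sum.inr j) = -(v (Sum.inl k) / v (Sum.inr k)) * v (Sum.inr k) := by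
            rw [Finset.sum_eq_single k]
            · rw [hS, Matrix.single_apply_same]
            · intro j _ hj
              rw [hS, Matrix.single_apply]; simp [hj.symm]
            · simp
          rw [this]
          have := Int.emod_add_mul_ediv (v (Sum.inl k)) (v (Sum.inr k))
          linarith
        · rw [if_neg hik, if_neg hik, c3_gT_inr]
      have hlt : ∑ i, (v' (Sum.inr i)).natAbs < n := by
        rw [← hn]
        refine Finset.sum_lt_sum (fun i _ => ?_) ⟨k, Finset.mem_univ _, ?_⟩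
        · rw [hv'e]
          by_cases hik : i = k
          · subst hik
            rw [if_pos rfl]
            have := Int.emod_lt_abs (v (Sum.inl i)) hk
            have h0 := Int.emod_nonneg (v (Sum.inl i)) hk
            rw [Int.abs_eq_natAbs] at this
            omega
          · rw [if_neg hik]
        · rw [hv'e, if_pos rfl]
          have := Int.emod_lt_abs (v (Sum.inl k)) hk
          have h0 := Int.emod_nonneg (v (Sum.inl k)) hk
          rw [Int.abs_eq_natAbs] at this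
          omega
      obtain ⟨σ, hσ, h0⟩ := ih _ hlt v' (c3_Z_of hmem hv) rfl
      refine ⟨σ * (gJ k * gT S), Submonoid.mul_mem _ hσ hmem, fun i => ?_⟩
      rw [← mulVec_mulVec]; exact h0 i
    · push Not at h
      exact ⟨1, Submonoid.one_mem _, fun i => by rw [one_mulVec]; exact h i⟩

/-- the transvection `a_j += c a_i` -/
theorem c3_tv {I : Finset ι} {i j : ι} (hij : j ≠ i) (hi : i ∉ I) (hj : j ∉ I) (c : ℤ) :
    gU (Matrix.transvection j i c) (Matrix.transvection j i (-c)) ∈ c3G I := by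
  refine c3_gU_mem ?_ ?_ ?_
  · rw [Matrix.transvection_mul_transvection_same _ _ hij]; simp
  · intro l hl r
    have h1 : i ≠ l := fun h => hi (h ▸ hl)
    simp only [Matrix.transvection, Matrix.add_apply, Matrix.one_apply, Matrix.single_apply]
    simp [h1]
  · intro l hl r
    have h1 : j ≠ l := fun h => hj (h ▸ hl)
    simp only [Matrix.transvection, Matrix.add_apply, Matrix.one_apply, Matrix.single_apply]
    simp [h1, eq_comm]

theorem c3_tv_inl (i j : ι) (c : ℤ) (V : Matrix ι ι ℤ) (v : ι ⊕ ι → ℤ) (l : ι) :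
    (gU (Matrix.transvection j i c) V *ᵥ v) (Sum.inl l) =
      v (Sum.inl l) + if l = j then c * v (Sum.inl i) else 0 := by
  rw [c3_gU_inl]
  simp only [Matrix.transvection, Matrix.add_apply, Matrix.one_apply, add_mul, Finset.sum_add_distrib]
  congr 1
  · simp
  · simp only [Matrix.single_apply]
    by_cases h : l = j
    · subst h; simp
    · have : ∀ r, ¬ (j = l ∧ i = r) := fun r hr => h hr.1.symm
      simp [h, this]

theorem c3_gU_inr_zero (U V : Matrix ι ι ℤ) (v : ι ⊕ ι → ℤ) (h : ∀ i, v (Sum.inr i) = 0) (l : ι) :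
    (gU U V *ᵥ v) (Sum.inr l) = 0 := by
  rw [c3_gU_inr]; simp [h]

theorem c3_ext {v : ι ⊕ ι → ℤ} {i0 : ι} (h1 : ∀ i, v (Sum.inl i) = if i = i0 then 1 else 0)
    (h2 : ∀ i, v (Sum.inr i) = 0) : v = Pi.single (Sum.inl i0) 1 := by
  funext j
  rcases j with j | j
  · rw [h1]; simp [Pi.single_apply]
  · rw [h2]; simp

/-- STEP 2 -/
theorem c3_step2 (I : Finset ι) (i0 : ι) (hi0 : i0 ∉ I) (n : ℕ) : ∀ v w : ι ⊕ ι → ℤ, c3Z I v →
    (∀ i, v (Sum.inr i) = 0) → Ep v w = 1 → ∑ i, (v (Sum.inl i)).natAbs = n →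
    ∃ σ ∈ c3G I, σ *ᵥ v = Pi.single (Sum.inl i0) 1 := by
  induction n using Nat.strong_induction_on with
  | _ n ih =>
    intro v w hv hb hE hn
    by_cases h : ∃ i j, i ≠ j ∧ v (Sum.inl i) ≠ 0 ∧ v (Sum.inl j) ≠ 0
    · -- two nonzero coordinates
      have h' : ∃ i j, j ≠ i ∧ v (Sum.inl i) ≠ 0 ∧ v (Sum.inl j) ≠ 0 ∧
          (v (Sum.inl i)).natAbs ≤ (v (Sum.inl j)).natAbs := by
        obtain ⟨i, j, hij, h1, h2⟩ := h
        rcases le_total (v (Sum.inl i)).natAbs (v (Sum.inl j)).natAbs with h3 | h3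
        · exact ⟨i, j, hij.symm, h1, h2, h3⟩
        · exact ⟨j, i, hij, h2, h1, h3⟩
      obtain ⟨i, j, hij, h1, h2, h3⟩ := h'
      have hiI : i ∉ I := fun hI => h1 (hv i hI).1
      have hjI : j ∉ I := fun hI => h2 (hv j hI).1
      obtain ⟨c, hc⟩ : ∃ c : ℤ, (v (Sum.inl j) + c * v (Sum.inl i)).natAbs < (v (Sum.inl j)).natAbs := by
        rcases lt_or_gt_of_ne h1 with a | a <;> rcases lt_or_gt_of_ne h2 with b | b
        · exact ⟨-1, by omega⟩
        · exact ⟨1, by omega⟩
        · exact ⟨1, by omega⟩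
        · exact ⟨-1, by omega⟩
      have hm := c3_tv (I := I) hij hiI hjI c
      set γ := gU (Matrix.transvection j i c) (Matrix.transvection j i (-c)) with hγ
      have hinl : ∀ l, (γ *ᵥ v) (Sum.inl l) = v (Sum.inl l) + if l = j then c * v (Sum.inl i) else 0 :=
        fun l => c3_tv_inl i j c _ v l
      have hlt : ∑ l, ((γ *ᵥ v) (Sum.inl l)).natAbs < n := by
        rw [← hn]
        refine Finset.sum_lt_sum (fun l _ => ?_) ⟨j, Finset.mem_univ _, ?_⟩
        · rw [hinl]
          by_cases hl : l = j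
          · subst hl; rw [if_pos rfl]; exact hc.le
          · rw [if_neg hl, add_zero]
        · rw [hinl, if_pos rfl]; exact hc
      obtain ⟨σ, hσ, h0⟩ := ih _ hlt (γ *ᵥ v) (γ *ᵥ w) (c3_Z_of hm hv)
        (fun l => c3_gU_inr_zero _ _ v hb l) (by rw [hm.2.2]; exact hE) rfl
      exact ⟨σ * γ, Submonoid.mul_mem _ hσ hm, by rw [← mulVec_mulVec]; exact h0⟩
    · push Not at h
      -- there is a nonzero coordinate
      have hex : ∃ j, v (Sum.inl j) ≠ 0 := by
        by_contra hc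
        push Not at hc
        have : Ep v w = 0 := by simp [Ep, hc, hb]
        omega
      obtain ⟨j, hj⟩ := hex
      have hjI : j ∉ I := fun hI => hj (hv j hI).1
      have hoth : ∀ l, l ≠ j → v (Sum.inl l) = 0 := by
        intro l hl
        by_contra hc
        exact hj (h l j hl hc)
      have hEj : v (Sum.inl j) * w (Sum.inr j) = 1 := by
        rw [← hE, Ep, Finset.sum_eq_single j]
        · simp [hb]
        · intro l _ hl; simp [hoth l hl, hb]
        · simp
      have hpm : v (Sum.inl j) = 1 ∨ v (Sum.inl j) = -1 := Int.eq_one_or_neg_one_of_mul_eq_one hEj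
      have hsq : v (Sum.inl j) * v (Sum.inl j) = 1 := by
        rcases hpm with h | h <;> rw [h] <;> norm_num
      by_cases hji : j = i0
      · rcases hpm with h1 | h1
        · refine ⟨1, Submonoid.one_mem _, ?_⟩
          rw [one_mulVec]
          refine c3_ext (fun i => ?_) hb
          by_cases hi : i = i0
          · rw [if_pos hi, hi, ← hji, h1]
          · rw [if_neg hi]; exact hoth i (by rw [hji]; exact hi)
        · set D : Matrix ι ι ℤ := Matrix.diagonal (fun l => if l = i0 then -1 else 1) with hD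
          have hDD : D * D = 1 := by
            rw [hD, Matrix.diagonal_mul_diagonal, ← Matrix.diagonal_one]
            congr 1
            funext l
            by_cases hl : l = i0 <;> simp [hl]
          have hm : gU D D ∈ c3G I := by
            refine c3_gU_mem hDD ?_ ?_
            · intro l hl r
              have : l ≠ i0 := fun h => hi0 (h ▸ hl)
              rw [hD, Matrix.diagonal_apply]
              by_cases hr : r = l
              · subst hr; simp [this]
              · rw [if_neg hr, if_neg hr]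
            · intro l hl r
              have : l ≠ i0 := fun h => hi0 (h ▸ hl)
              rw [hD, Matrix.diagonal_apply]
              by_cases hr : r = l
              · subst hr; simp [this]
              · rw [if_neg (Ne.symm hr), if_neg hr]
          refine ⟨_, hm, c3_ext (fun i => ?_) (fun l => c3_gU_inr_zero _ _ v hb l)⟩
          rw [c3_gU_inl, hD]
          simp only [Matrix.diagonal_apply, ite_mul, zero_mul, Finset.sum_ite_eq, Finset.mem_univ, if_true]
          by_cases hi : i = i0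
          · rw [if_pos hi, hi, ← hji, h1]; simp
          · rw [if_neg hi, hoth i (by rw [hji]; exact hi)]; simp [hi]
      · -- move to `i0`
        have hij : i0 ≠ j := fun h => hji h.symm
        have hm1 := c3_tv (I := I) (i := j) (j := i0) hij hjI hi0 (v (Sum.inl j))
        have hm2 := c3_tv (I := I) (i := i0) (j := j) hji hi0 hjI (-(v (Sum.inl j)))
        refine ⟨_ * _, Submonoid.mul_mem _ hm2 hm1, ?_⟩
        rw [← mulVec_mulVec]
        have hz := fun l => c3_gU_inr_zero (Matrix.transvection i0 j (v (Sum.inl j)))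
          (Matrix.transvection i0 j (-(v (Sum.inl j)))) v hb l
        refine c3_ext (fun i => ?_) (fun l => c3_gU_inr_zero _ _ _ hz l)
        rw [c3_tv_inl, c3_tv_inl, c3_tv_inl]
        have h0 : v (Sum.inl i0) = 0 := hoth i0 hij
        simp only [if_true, h0, zero_add]
        by_cases hi : i = i0
        · subst hi
          rw [if_neg hij]; simp [hsq, h0]
        · rw [if_neg hi]
          by_cases hi' : i = j
          · subst hi'
            rw [if_pos rfl, hsq]; simp [hi]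
          · rw [if_neg hi', hoth i hi']; simp [hi]

/-- STEP 3 -/
theorem c3_step3 (I : Finset ι) (i0 : ι) (hi0 : i0 ∉ I) (w : ι ⊕ ι → ℤ) (hw : c3Z I w)
    (hE : w (Sum.inr i0) = 1) : ∃ σ ∈ c3G I, σ *ᵥ (Pi.single (Sum.inl i0) 1) = Pi.single (Sum.inl i0) 1 ∧
      σ *ᵥ w = Pi.single (Sum.inr i0) 1 := by
  classical
  -- the translation
  set S : Matrix ι ι ℤ := Matrix.of fun j k =>
    if j = i0 then (if k = i0 then -(w (Sum.inl i0)) +
      (∑ l ∈ Finset.univ.erase i0, w (Sum.inl l) * w (Sum.inr l)) else -(w (Sum.inl k)))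
    else (if k = i0 then -(w (Sum.inl j)) else 0) with hS
  have hSs : S.IsSymm := by
    refine Matrix.IsSymm.ext fun i j => ?_
    simp only [hS, Matrix.of_apply]
    by_cases h1 : i = i0 <;> by_cases h2 : j = i0 <;> simp [h1, h2]
  have hT : gT S ∈ c3G I := by
    refine c3_gT_mem hSs ?_
    intro i hi j
    have hne : i ≠ i0 := fun h => hi0 (h ▸ hi)
    simp only [hS, Matrix.of_apply, if_neg hne, (hw i hi).1]
    simp
  have hTv : gT S *ᵥ (Pi.single (Sum.inl i0) 1) = Pi.single (Sum.inl i0) 1 := by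
    refine c3_ext (fun i => ?_) (fun i => ?_)
    · rw [c3_gT_inl]; simp [Pi.single_apply]
    · rw [c3_gT_inr]; simp
  have hTw1 : ∀ i, (gT S *ᵥ w) (Sum.inl i) = 0 := by
    intro i
    rw [c3_gT_inl]
    by_cases h : i = i0
    · subst h
      rw [← Finset.add_sum_erase _ _ (Finset.mem_univ i)]
      have : ∑ x ∈ Finset.univ.erase i, S i x * w (Sum.inr x) =
          -∑ l ∈ Finset.univ.erase i, w (Sum.inl l) * w (Sum.inr l) := by
        rw [← Finset.sum_neg_distrib]
        refine Finset.sum_congr rfl fun l hl => ?_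
        have hl' : l ≠ i := Finset.ne_of_mem_erase hl
        simp only [hS, Matrix.of_apply, if_true, if_neg hl']; ring
      rw [this]
      simp only [hS, Matrix.of_apply, if_true, hE]
      ring
    · rw [Finset.sum_eq_single i0]
      · simp [hS, h, hE]
      · intro l _ hl; simp [hS, h, hl]
      · simp
  have hTw2 : ∀ i, (gT S *ᵥ w) (Sum.inr i) = w (Sum.inr i) := fun i => c3_gT_inr S w i
  -- the base change
  set U : Matrix ι ι ℤ := Matrix.of fun j k => if j = i0 then w (Sum.inr k) else (if j = k then 1 else 0) with hU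
  set V : Matrix ι ι ℤ := Matrix.of fun j k => if j = i0 then (if k = i0 then 1 else -(w (Sum.inr k)))
    else (if j = k then 1 else 0) with hV
  have hUV : U * V = 1 := by
    ext i j
    rw [Matrix.mul_apply, Matrix.one_apply]
    by_cases h : i = i0
    · subst h
      rw [← Finset.add_sum_erase _ _ (Finset.mem_univ i)]
      have e1 : ∀ l ∈ Finset.univ.erase i, U i l * V l j = if l = j then w (Sum.inr l) else 0 := by
        intro l hl
        have hl' : l ≠ i := Finset.ne_of_mem_erase hl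
        simp only [hU, hV, Matrix.of_apply, if_true, if_neg hl']
        simp
      rw [Finset.sum_congr rfl e1]
      by_cases hj : j = i
      · subst hj
        have : ∑ x ∈ Finset.univ.erase j, (if x = j then w (Sum.inr x) else 0) = 0 := by
          refine Finset.sum_eq_zero fun x hx => ?_
          rw [if_neg (Finset.ne_of_mem_erase hx)]
        rw [this]
        simp [hU, hV, hE]
      · have : ∑ x ∈ Finset.univ.erase i, (if x = j then w (Sum.inr x) else 0) = w (Sum.inr j) := by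
          rw [Finset.sum_ite_eq']; simp [hj]
        rw [this]
        simp [hU, hV, hE, hj, Ne.symm hj]
    · have e1 : ∀ l ∈ Finset.univ, U i l * V l j = if i = l then V i j else 0 := by
        intro l _
        simp only [hU, Matrix.of_apply, if_neg h]
        by_cases hl : i = l
        · subst hl; simp
        · simp [hl]
      rw [Finset.sum_congr rfl e1, Finset.sum_ite_eq]
      simp [hV, h]
  have hm : gU U V ∈ c3G I := by
    refine c3_gU_mem hUV ?_ ?_
    · intro l hl r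
      have hne : l ≠ i0 := fun h => hi0 (h ▸ hl)
      simp only [hU, Matrix.of_apply]
      by_cases hr : r = i0
      · rw [if_pos hr, (hw l hl).2, hr, if_neg hne.symm]
      · rw [if_neg hr]
    · intro l hl r
      have hne : l ≠ i0 := fun h => hi0 (h ▸ hl)
      simp only [hV, Matrix.of_apply, if_neg hne]
      by_cases hr : r = l
      · subst hr; simp
      · rw [if_neg (Ne.symm hr), if_neg hr]
  refine ⟨gU U V * gT S, Submonoid.mul_mem _ hm hT, ?_, ?_⟩
  · rw [← mulVec_mulVec, hTv]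
    refine c3_ext (fun i => ?_) (fun i => ?_)
    · rw [c3_gU_inl]
      simp only [Pi.single_apply, Sum.inl.injEq, mul_ite, mul_one, mul_zero, Finset.sum_ite_eq',
        Finset.mem_univ, if_true, hU, Matrix.of_apply]
      by_cases h : i = i0
      · rw [if_pos h, if_pos h, hE]
      · rw [if_neg h, if_neg h]
    · rw [c3_gU_inr]; simp
  · rw [← mulVec_mulVec]
    funext j
    rcases j with j | j
    · rw [c3_gU_inl]; simp [hTw1]
    · rw [c3_gU_inr]
      simp only [hTw2]
      -- `Vᵀ b = e_{i0}`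
      rw [← Finset.add_sum_erase _ _ (Finset.mem_univ i0)]
      have e1 : ∀ l ∈ Finset.univ.erase i0, V l j * w (Sum.inr l) = if l = j then w (Sum.inr l) else 0 := by
        intro l hl
        have hl' : l ≠ i0 := Finset.ne_of_mem_erase hl
        simp only [hV, Matrix.of_apply, if_neg hl']
        simp
      rw [Finset.sum_congr rfl e1]
      by_cases hj : j = i0
      · subst hj
        have : ∑ x ∈ Finset.univ.erase j, (if x = j then w (Sum.inr x) else 0) = 0 := by
          refine Finset.sum_eq_zero fun x hx => ?_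
          rw [if_neg (Finset.ne_of_mem_erase hx)]
        rw [this]
        simp [hV, hE]
      · have : ∑ x ∈ Finset.univ.erase i0, (if x = j then w (Sum.inr x) else 0) = w (Sum.inr j) := by
          rw [Finset.sum_ite_eq']; simp [hj]
        rw [this]
        simp [hV, hE, hj, Pi.single_apply]

theorem pair_transitive (I : Finset ι) (i0 : ι) (hi0 : i0 ∉ I) (v w : ι ⊕ ι → ℤ)
    (hv : ∀ i ∈ I, v (Sum.inl i) = 0 ∧ v (Sum.inr i) = 0)
    (hw : ∀ i ∈ I, w (Sum.inl i) = 0 ∧ w (Sum.inr i) = 0) (hE : Ep v w = 1) :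
    ∃ σ ∈ Submonoid.closure (Gens ι),
      (∀ i ∈ I, σ *ᵥ (Pi.single (Sum.inl i) 1) = Pi.single (Sum.inl i) 1 ∧
        σ *ᵥ (Pi.single (Sum.inr i) 1) = Pi.single (Sum.inr i) 1) ∧
      σ *ᵥ v = Pi.single (Sum.inl i0) 1 ∧ σ *ᵥ w = Pi.single (Sum.inr i0) 1 := by
  obtain ⟨σ1, h1, h1b⟩ := c3_step1 I _ v hv rfl
  have hE1 : Ep (σ1 *ᵥ v) (σ1 *ᵥ w) = 1 := by rw [h1.2.2]; exact hE
  obtain ⟨σ2, h2, h2b⟩ := c3_step2 I i0 hi0 _ (σ1 *ᵥ v) (σ1 *ᵥ w) (c3_Z_of h1 hv) h1b hE1 rfl
  have hE2 : Ep (σ2 *ᵥ (σ1 *ᵥ v)) (σ2 *ᵥ (σ1 *ᵥ w)) = 1 := by rw [h2.2.2]; exact hE1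
  have hE3 : (σ2 *ᵥ (σ1 *ᵥ w)) (Sum.inr i0) = 1 := by
    rw [h2b] at hE2
    rw [← hE2]
    simp [Ep, Pi.single_apply]
  obtain ⟨σ3, h3, h3a, h3b⟩ := c3_step3 I i0 hi0 (σ2 *ᵥ (σ1 *ᵥ w)) (c3_Z_of h2 (c3_Z_of h1 hw)) hE3
  have hm : σ3 * (σ2 * σ1) ∈ c3G I := Submonoid.mul_mem _ h3 (Submonoid.mul_mem _ h2 h1)
  refine ⟨σ3 * (σ2 * σ1), hm.1, hm.2.1, ?_, ?_⟩
  · rw [← mulVec_mulVec, ← mulVec_mulVec, h2b, h3a]
  · rw [← mulVec_mulVec, ← mulVec_mulVec, h3b]

end DF
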