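import Pool.Agent.helper32.DF.C3

/-!
# C4 : generators of the symplectic group

PROOF. `gens_sp`: check `γ J γᵀ = J` for the three types (block multiplication).
`closure_inv`: the inverse of a generator is in the closure: `gT (-S)`, `gU V U` (`V U = 1`), and
`(gJ i)^4 = 1`, so `(gJ i)⁻¹ = (gJ i)^3`.
`sp_closure`: CLAIM: for every `I : Finset ι`, every `γ` in the symplectic group which fixes
`e_i^a, e_i^b` (`i ∈ I`) is in the closure.  Induction on `card Iᶜ`.  If `I = univ` then `γ = 1`.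
Otherwise let `i0 ∉ I`, `v = γ e_{i0}^a`, `w = γ e_{i0}^b`; `Ep (γ x) (γ y) = Ep x y`
(`γᵀ J γ = J`, Mathlib: `SymplecticGroup.mem_iff'`; note Mathlib's `J = (0 -1; 1 0)`, `Ep` is `±` this
form), so `Ep v w = 1` and for `i ∈ I`: `Ep e_i^a v = Ep (γ e_i^a) (γ e_{i0}^a) = 0`, i.e.
`v (inr i) = 0`, similarly the others.  By `pair_transitive` there is `σ` in the closure, fixing
the `e_i`, `i ∈ I`, with `σ γ e_{i0}^a = e_{i0}^a`, `σ γ e_{i0}^b = e_{i0}^b`; so `σ γ` fixes the basis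
vectors of `I ∪ {i0}` and is in the closure; multiply by the inverse of `σ`.
-/

namespace DF
open Matrix
variable {ι : Type} [Fintype ι] [DecidableEq ι]

theorem c4_EE (i : ι) : Matrix.single i i (1 : ℤ) * Matrix.single i i 1 = Matrix.single i i 1 := by
  rw [Matrix.single_mul_single_same]; simp

theorem c4_ET (i : ι) : (Matrix.single i i (1 : ℤ))ᵀ = Matrix.single i i 1 := by
  rw [Matrix.transpose_single]

theorem gens_sp : ∀ γ ∈ Gens ι, γ ∈ Matrix.symplecticGroup ι ℤ := by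
  rintro γ (⟨S, hS, rfl⟩ | ⟨U, V, hUV, rfl⟩ | ⟨i, rfl⟩)
  · rw [SymplecticGroup.mem_iff]
    have h : Sᵀ = S := hS
    simp only [gT, Matrix.J, fromBlocks_transpose, fromBlocks_multiply, h, transpose_one,
      transpose_zero]
    congr 1 <;> simp
  · rw [SymplecticGroup.mem_iff]
    have h : Vᵀ * Uᵀ = 1 := by rw [← Matrix.transpose_mul, hUV, transpose_one]
    simp only [gU, Matrix.J, fromBlocks_transpose, fromBlocks_multiply, transpose_zero,
      transpose_transpose]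
    congr 1 <;> simp [hUV, h]
  · rw [SymplecticGroup.mem_iff]
    have h1 := c4_EE i
    have h2 := c4_ET i
    simp only [gJ, Matrix.J, fromBlocks_transpose, fromBlocks_multiply, transpose_sub,
      transpose_neg, transpose_one, h2]
    congr 1 <;> simp [mul_sub, sub_mul, h1]
    abel

theorem c4_J4 (i : ι) : gJ i * gJ i * gJ i * gJ i = (1 : Matrix (ι ⊕ ι) (ι ⊕ ι) ℤ) := by
  have h1 := c4_EE i
  rw [← fromBlocks_one]
  simp only [gJ, fromBlocks_multiply]
  congr 1 <;> simp [mul_sub, sub_mul, add_mul, h1]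

theorem closure_inv (σ : Matrix (ι ⊕ ι) (ι ⊕ ι) ℤ) (hσ : σ ∈ Submonoid.closure (Gens ι)) :
    ∃ σ' ∈ Submonoid.closure (Gens ι), σ' * σ = 1 ∧ σ * σ' = 1 := by
  induction hσ using Submonoid.closure_induction with
  | mem γ hγ =>
    have key : ∃ σ' ∈ Submonoid.closure (Gens ι), σ' * γ = 1 := by
      rcases hγ with ⟨S, hS, rfl⟩ | ⟨U, V, hUV, rfl⟩ | ⟨i, rfl⟩
      · refine ⟨gT (-S), Submonoid.subset_closure (Or.inl ⟨-S, ?_, rfl⟩), ?_⟩
        · have h : Sᵀ = S := hS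
          change (-S)ᵀ = -S
          rw [transpose_neg, h]
        · rw [← fromBlocks_one]
          simp only [gT, fromBlocks_multiply]
          congr 1 <;> simp
      · have hVU : V * U = 1 := mul_eq_one_comm.1 hUV
        refine ⟨gU V U, Submonoid.subset_closure (Or.inr (Or.inl ⟨V, U, hVU, rfl⟩)), ?_⟩
        have h : Uᵀ * Vᵀ = 1 := by rw [← Matrix.transpose_mul, hVU, transpose_one]
        rw [← fromBlocks_one]
        simp only [gU, fromBlocks_multiply]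
        congr 1 <;> simp [hVU, h]
      · have hm : gJ i ∈ Submonoid.closure (Gens ι) :=
          Submonoid.subset_closure (Or.inr (Or.inr ⟨i, rfl⟩))
        exact ⟨gJ i * gJ i * gJ i, mul_mem (mul_mem hm hm) hm, c4_J4 i⟩
    obtain ⟨σ', h1, h2⟩ := key
    exact ⟨σ', h1, h2, mul_eq_one_comm.1 h2⟩
  | one => exact ⟨1, one_mem _, one_mul _, one_mul _⟩
  | mul x y hx hy ihx ihy =>
    obtain ⟨x', hx', hx1, hx2⟩ := ihx
    obtain ⟨y', hy', hy1, hy2⟩ := ihy
    refine ⟨y' * x', mul_mem hy' hx', ?_, ?_⟩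
    · calc y' * x' * (x * y) = y' * (x' * x) * y := by simp only [mul_assoc]
        _ = 1 := by rw [hx1, mul_one, hy1]
    · calc x * y * (y' * x') = x * (y * y') * x' := by simp only [mul_assoc]
        _ = 1 := by rw [hy2, mul_one, hx2]

theorem c4_Ep (x y : ι ⊕ ι → ℤ) : Ep x y = -(x ⬝ᵥ (Matrix.J ι ℤ *ᵥ y)) := by
  have h : Matrix.J ι ℤ *ᵥ y = Sum.elim (fun i => - y (Sum.inr i)) (fun i => y (Sum.inl i)) := by
    rw [Matrix.J, fromBlocks_mulVec]
    funext k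
    cases k <;> simp [Matrix.neg_mulVec]
  rw [h]
  simp only [Ep, dotProduct, Fintype.sum_sum_type, Sum.elim_inl, Sum.elim_inr,
    Finset.sum_sub_distrib, mul_neg, Finset.sum_neg_distrib]
  ring

theorem c4_inv {γ : Matrix (ι ⊕ ι) (ι ⊕ ι) ℤ} (hγ : γ ∈ Matrix.symplecticGroup ι ℤ)
    (x y : ι ⊕ ι → ℤ) : Ep (γ *ᵥ x) (γ *ᵥ y) = Ep x y := by
  rw [c4_Ep, c4_Ep]
  have h := SymplecticGroup.mem_iff'.1 hγ
  congr 1
  calc (γ *ᵥ x) ⬝ᵥ (Matrix.J ι ℤ *ᵥ (γ *ᵥ y)) = x ⬝ᵥ (γᵀ *ᵥ (Matrix.J ι ℤ *ᵥ (γ *ᵥ y))) := by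
        rw [Matrix.dotProduct_mulVec x, Matrix.vecMul_transpose]
    _ = x ⬝ᵥ ((γᵀ * Matrix.J ι ℤ * γ) *ᵥ y) := by
        rw [Matrix.mulVec_mulVec, Matrix.mulVec_mulVec]
    _ = _ := by rw [h]

theorem c4_El (i : ι) (y : ι ⊕ ι → ℤ) : Ep (Pi.single (Sum.inl i) 1) y = y (Sum.inr i) := by
  simp [Ep, Pi.single_apply]

theorem c4_Er (i : ι) (y : ι ⊕ ι → ℤ) : Ep (Pi.single (Sum.inr i) 1) y = -y (Sum.inl i) := by
  simp [Ep, Pi.single_apply]

theorem c4_ext {γ : Matrix (ι ⊕ ι) (ι ⊕ ι) ℤ}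
    (h : ∀ i, γ *ᵥ (Pi.single (Sum.inl i) 1) = Pi.single (Sum.inl i) 1 ∧
      γ *ᵥ (Pi.single (Sum.inr i) 1) = Pi.single (Sum.inr i) 1) : γ = 1 := by
  ext j k
  have hk : γ *ᵥ (Pi.single k 1) = Pi.single k 1 := by
    cases k with
    | inl i => exact (h i).1
    | inr i => exact (h i).2
  have h1 := congrFun hk j
  rw [Matrix.mulVec_single_one] at h1
  rw [show γ j k = γ.col k j from rfl, h1, Matrix.one_apply, Pi.single_apply]

theorem c4_claim (n : ℕ) : ∀ (I : Finset ι), Iᶜ.card = n →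
    ∀ γ : Matrix (ι ⊕ ι) (ι ⊕ ι) ℤ, γ ∈ Matrix.symplecticGroup ι ℤ →
    (∀ i ∈ I, γ *ᵥ (Pi.single (Sum.inl i) 1) = Pi.single (Sum.inl i) 1 ∧
      γ *ᵥ (Pi.single (Sum.inr i) 1) = Pi.single (Sum.inr i) 1) →
    γ ∈ Submonoid.closure (Gens ι) := by
  induction n with
  | zero =>
    intro I hI γ _ h
    have h1 : ∀ i, i ∈ I := by
      intro i
      by_contra hi
      have : i ∈ Iᶜ := Finset.mem_compl.2 hi
      rw [Finset.card_eq_zero] at hI
      rw [hI] at this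
      simp at this
    have h2 : γ = 1 := c4_ext fun i => h i (h1 i)
    rw [h2]
    exact one_mem _
  | succ n ih =>
    intro I hI γ hγ h
    obtain ⟨i0, hi0⟩ : ∃ i0, i0 ∈ Iᶜ := by
      apply Finset.Nonempty.exists_mem
      rw [← Finset.card_pos]; omega
    have hi0' : i0 ∉ I := Finset.mem_compl.1 hi0
    have hne : ∀ i ∈ I, i ≠ i0 := fun i hi h0 => hi0' (h0 ▸ hi)
    have g1 : ∀ (x : ι ⊕ ι → ℤ) (i : ι), i ∈ I → (γ *ᵥ x) (Sum.inr i) = x (Sum.inr i) := by
      intro x i hi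
      have := c4_inv hγ (Pi.single (Sum.inl i) 1) x
      rw [(h i hi).1, c4_El, c4_El] at this
      exact this
    have g2 : ∀ (x : ι ⊕ ι → ℤ) (i : ι), i ∈ I → (γ *ᵥ x) (Sum.inl i) = x (Sum.inl i) := by
      intro x i hi
      have := c4_inv hγ (Pi.single (Sum.inr i) 1) x
      rw [(h i hi).2, c4_Er, c4_Er] at this
      linarith
    obtain ⟨σ, hσ, hσ1, hσ2, hσ3⟩ := pair_transitive I i0 hi0'
      (γ *ᵥ (Pi.single (Sum.inl i0) 1)) (γ *ᵥ (Pi.single (Sum.inr i0) 1))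
      (by
        intro i hi
        rw [g1 _ i hi, g2 _ i hi]
        simp [hne i hi])
      (by
        intro i hi
        rw [g1 _ i hi, g2 _ i hi]
        simp [hne i hi])
      (by rw [c4_inv hγ, c4_El]; simp)
    have hσS : σ ∈ Matrix.symplecticGroup ι ℤ := Submonoid.closure_le.2 gens_sp hσ
    have h3 : σ * γ ∈ Submonoid.closure (Gens ι) := by
      apply ih (insert i0 I)
      · have h4 : (insert i0 I)ᶜ = Iᶜ.erase i0 := by
          rw [Finset.compl_insert]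
        rw [h4, Finset.card_erase_of_mem hi0, hI]
        rfl
      · exact mul_mem hσS hγ
      · intro i hi
        rw [← Matrix.mulVec_mulVec, ← Matrix.mulVec_mulVec]
        rcases Finset.mem_insert.1 hi with rfl | hi
        · exact ⟨hσ2, hσ3⟩
        · rw [(h i hi).1, (h i hi).2]
          exact hσ1 i hi
    obtain ⟨σ', hσ', hσ4, -⟩ := closure_inv σ hσ
    have h5 : γ = σ' * (σ * γ) := by rw [← mul_assoc, hσ4, one_mul]
    rw [h5]
    exact mul_mem hσ' h3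

theorem sp_closure (γ : Matrix (ι ⊕ ι) (ι ⊕ ι) ℤ) (hγ : γ ∈ Matrix.symplecticGroup ι ℤ) :
    γ ∈ Submonoid.closure (Gens ι) :=
  c4_claim _ ∅ rfl γ hγ (by simp)

end DF
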