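import Pool.Agent.helper32.DF.Defs

/-!
# D2 : invariance of good sets

PROOF. Let `N = 2^s`, `s ≥ 1`, `H = N/2` (so `2 H = 0` in `ZMod N`, hence `H m` depends only on the parity
of the integer `m`).
`cT`: `ell w (cT S x) = ell w' x` with `w' = (v + S u, u)` for `w = (v,u)`:
the difference of the constant terms is `H (∑ (Su)_i u_i - ∑ S_ii u_i)`, and `∑_{ij} S_ij u_i u_j ≡
∑ S_ii u_i (mod 2)`.  `w'` has an odd coordinate iff `w` has.
`cU`: `w' = (U v, Vᵀ u)`: `∑_i v_i (∑_j U_ji x_j) = ∑_j (Uv)_j x_j`, `∑_i u_i ∑_j V_ij y_j = ∑_j (Vᵀu)_j y_j`,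
and `(Uv)·(Vᵀu) = (VU v)·u`... `= v·u` as `V U = 1`.  OddVec: if all coordinates of `U v`, `Vᵀ u` are even
then so are those of `v = V (U v)` and `u = Uᵀ (Vᵀ u)`.
`cJ i`: `w'` = exchange at `i`: `w'.1 i = - w.2 i`, `w'.2 i = w.1 i`
(`v_i (cJ x).1 i + u_i (cJ x).2 i = v_i y_i - u_i x_i`; and `H v_i u_i = H (-u_i) v_i`).
The maps `cT, cU, cJ` are injective (bijective), so
`∑_{y ∈ S.image g} φ(c + ell w y) = ∑_{x∈S} φ(c + ell w (g x)) = ∑_{x∈S} φ(c + ell w' x) ≥ 0`.
-/

namespace DF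
variable {ι : Type} [Fintype ι] [DecidableEq ι]

theorem D2_image {N : ℕ} (g : Ch N ι → Ch N ι) (hg : Function.Injective g)
    (h : ∀ w : (ι → ℤ) × (ι → ℤ), OddVec w →
      ∃ w' : (ι → ℤ) × (ι → ℤ), OddVec w' ∧ ∀ x, ell N w (g x) = ell N w' x)
    (X : Finset (Ch N ι)) (hX : Good N X) : Good N (X.image g) := by
  intro c w hw
  obtain ⟨w', hw', he⟩ := h w hw
  rw [Finset.sum_image (fun a _ b _ hab => hg hab)]
  simp_rw [he]
  exact hX c w' hw'

theorem D2_two_half (s : ℕ) (hs : 1 ≤ s) :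
    (2 : ZMod (2 ^ s)) * ((2 ^ s / 2 : ℕ) : ZMod (2 ^ s)) = 0 := by
  obtain ⟨k, rfl⟩ : ∃ k, s = k + 1 := ⟨s - 1, by omega⟩
  have h6 : 2 ^ (k + 1) / 2 = 2 ^ k := by rw [pow_succ]; simp
  rw [h6]
  have h : ((2 ^ (k + 1) : ℕ) : ZMod (2 ^ (k + 1))) = 0 := ZMod.natCast_self _
  rw [← h]
  push_cast
  ring

theorem D2_half_even (s : ℕ) (hs : 1 ≤ s) (m : ℤ) (hm : Even m) :
    ((2 ^ s / 2 : ℕ) : ZMod (2 ^ s)) * (m : ZMod (2 ^ s)) = 0 := by
  obtain ⟨r, rfl⟩ := hm
  have h := D2_two_half s hs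
  push_cast
  linear_combination (r : ZMod (2 ^ s)) * h

theorem D2_symm_sum (f : ι → ι → ZMod 2) (hf : ∀ i j, f i j = f j i) (A : Finset ι) :
    ∑ i ∈ A, ∑ j ∈ A, f i j = ∑ i ∈ A, f i i := by
  induction A using Finset.induction_on with
  | empty => simp
  | insert a A ha ih =>
    rw [Finset.sum_insert ha, Finset.sum_insert ha, Finset.sum_insert ha]
    have h1 : ∑ i ∈ A, ∑ j ∈ insert a A, f i j = ∑ i ∈ A, f a i + ∑ i ∈ A, ∑ j ∈ A, f i j := by
      rw [← Finset.sum_add_distrib]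
      apply Finset.sum_congr rfl
      intro i _
      rw [Finset.sum_insert ha, hf i a]
    rw [h1, ih]
    have h2 : ∑ j ∈ A, f a j + ∑ j ∈ A, f a j = 0 := CharTwo.add_self_eq_zero _
    linear_combination h2

theorem D2_even (S : Matrix ι ι ℤ) (hS : S.IsSymm) (u : ι → ℤ) :
    Even (∑ i, ∑ j, S i j * u i * u j - ∑ i, S i i * u i) := by
  rw [← ZMod.intCast_eq_zero_iff_even]
  have h := D2_symm_sum (fun i j => (S i j : ZMod 2) * (u i : ZMod 2) * (u j : ZMod 2))
    (fun i j => by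
      have : S j i = S i j := by rw [← Matrix.transpose_apply S i j, hS]
      simp only [this]; ring) Finset.univ
  push_cast
  rw [h, sub_eq_zero]
  apply Finset.sum_congr rfl
  intro i _
  have h2 : ∀ y : ZMod 2, y * y = y := by decide
  rw [mul_assoc, h2]

theorem cT_inj (N : ℕ) (S : Matrix ι ι ℤ) : Function.Injective (cT N S : Ch N ι → Ch N ι) := by
  intro x y h
  have h1 : (cT N S x).1 = (cT N S y).1 := by rw [h]
  have h2 : (cT N S x).2 = (cT N S y).2 := by rw [h]
  replace h1 : x.1 = y.1 := h1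
  refine Prod.ext h1 ?_
  funext i
  have h3 := congrFun h2 i
  simp only [cT, h1] at h3
  exact add_right_cancel (add_right_cancel h3)

theorem D2_map_mul (N : ℕ) (U V : Matrix ι ι ℤ) (hUV : U * V = 1) :
    (U.map (Int.cast : ℤ → ZMod N)) * (V.map (Int.cast : ℤ → ZMod N)) = 1 := by
  have h := congrArg (fun M : Matrix ι ι ℤ => M.map (Int.castRingHom (ZMod N))) hUV
  simp only [Matrix.map_mul] at h
  rw [Matrix.map_one _ (map_zero _) (map_one _)] at h
  exact h

theorem cU_inj (N : ℕ) (U V : Matrix ι ι ℤ) (hUV : U * V = 1) :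
    Function.Injective (cU N U V : Ch N ι → Ch N ι) := by
  have hm := D2_map_mul N U V hUV
  have e1 : ∀ x : Ch N ι, (cU N U V x).1 = Matrix.vecMul x.1 (U.map (Int.cast : ℤ → ZMod N)) := by
    intro x
    funext i
    simp [cU, Matrix.vecMul, dotProduct, mul_comm]
  have e2 : ∀ x : Ch N ι, (cU N U V x).2 = Matrix.mulVec (V.map (Int.cast : ℤ → ZMod N)) x.2 := by
    intro x
    funext i
    simp [cU, Matrix.mulVec, dotProduct]
  have f1 : ∀ x : Ch N ι, Matrix.vecMul (cU N U V x).1 (V.map (Int.cast : ℤ → ZMod N)) = x.1 := by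
    intro x
    rw [e1, Matrix.vecMul_vecMul, hm, Matrix.vecMul_one]
  have f2 : ∀ x : Ch N ι, Matrix.mulVec (U.map (Int.cast : ℤ → ZMod N)) (cU N U V x).2 = x.2 := by
    intro x
    rw [e2, Matrix.mulVec_mulVec, hm, Matrix.one_mulVec]
  intro x y h
  exact Prod.ext (by rw [← f1 x, h, f1 y]) (by rw [← f2 x, h, f2 y])

theorem cJ_inj (N : ℕ) (i : ι) : Function.Injective (cJ N i : Ch N ι → Ch N ι) := by
  intro x y h
  have h1 := congrArg Prod.fst h
  have h2 := congrArg Prod.snd h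
  simp only [cJ] at h1 h2
  refine Prod.ext (funext fun k => ?_) (funext fun k => ?_)
  · rcases eq_or_ne k i with rfl | hk
    · have h3 := congrFun h2 k
      rw [Function.update_self, Function.update_self] at h3
      exact neg_injective h3
    · have h3 := congrFun h1 k
      rwa [Function.update_of_ne hk, Function.update_of_ne hk] at h3
  · rcases eq_or_ne k i with rfl | hk
    · have h3 := congrFun h1 k
      rwa [Function.update_self, Function.update_self] at h3
    · have h3 := congrFun h2 k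
      rwa [Function.update_of_ne hk, Function.update_of_ne hk] at h3

theorem Good_T (s : ℕ) (hs : 1 ≤ s) (S : Matrix ι ι ℤ) (hS : S.IsSymm)
    (X : Finset (Ch (2 ^ s) ι)) (hX : Good (2 ^ s) X) :
    Good (2 ^ s) (X.image (cT (2 ^ s) S)) := by
  refine D2_image _ (cT_inj _ _) ?_ X hX
  rintro ⟨v, u⟩ hw
  refine ⟨(fun j => v j + ∑ i, S i j * u i, u), ?_, ?_⟩
  · by_cases hu : ∃ i, Odd (u i)
    · exact Or.inr hu
    · push Not at hu
      rcases hw with ⟨i, hi⟩ | hw
      · refine Or.inl ⟨i, ?_⟩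
        apply Odd.add_even hi
        apply Finset.even_sum
        intro k _
        exact (Int.not_odd_iff_even.1 (hu k)).mul_left _
      · exact absurd hw (by push Not; exact hu)
  · intro x
    have he := D2_half_even s hs _ (D2_even S hS u)
    push_cast at he
    unfold ell cT
    simp only
    set H : ZMod (2 ^ s) := ((2 ^ s / 2 : ℕ) : ZMod (2 ^ s)) with hH
    have e1 : ∑ i, ((v i : ZMod (2 ^ s)) * x.1 i + (u i : ZMod (2 ^ s)) *
        (x.2 i + (∑ j, (S i j : ZMod (2 ^ s)) * x.1 j) + H * (S i i : ZMod (2 ^ s))) +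
        H * (v i : ZMod (2 ^ s)) * (u i : ZMod (2 ^ s))) =
        ∑ i, ((v i : ZMod (2 ^ s)) * x.1 i + (u i : ZMod (2 ^ s)) * x.2 i +
          H * (v i : ZMod (2 ^ s)) * (u i : ZMod (2 ^ s))) +
        ∑ i, ∑ j, (S i j : ZMod (2 ^ s)) * (u i : ZMod (2 ^ s)) * x.1 j +
        H * ∑ i, (S i i : ZMod (2 ^ s)) * (u i : ZMod (2 ^ s)) := by
      rw [Finset.mul_sum, ← Finset.sum_add_distrib, ← Finset.sum_add_distrib]
      apply Finset.sum_congr rfl
      intro i _
      have : ∑ j, (S i j : ZMod (2 ^ s)) * (u i : ZMod (2 ^ s)) * x.1 j =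
          (u i : ZMod (2 ^ s)) * ∑ j, (S i j : ZMod (2 ^ s)) * x.1 j := by
        rw [Finset.mul_sum]
        apply Finset.sum_congr rfl
        intro j _
        ring
      rw [this]
      ring
    have e2 : ∑ j, (((v j + ∑ i, S i j * u i : ℤ) : ZMod (2 ^ s)) * x.1 j +
        (u j : ZMod (2 ^ s)) * x.2 j +
        H * ((v j + ∑ i, S i j * u i : ℤ) : ZMod (2 ^ s)) * (u j : ZMod (2 ^ s))) =
        ∑ i, ((v i : ZMod (2 ^ s)) * x.1 i + (u i : ZMod (2 ^ s)) * x.2 i +
          H * (v i : ZMod (2 ^ s)) * (u i : ZMod (2 ^ s))) +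
        ∑ i, ∑ j, (S i j : ZMod (2 ^ s)) * (u i : ZMod (2 ^ s)) * x.1 j +
        H * ∑ i, ∑ j, (S i j : ZMod (2 ^ s)) * (u i : ZMod (2 ^ s)) * (u j : ZMod (2 ^ s)) := by
      rw [Finset.sum_comm (f := fun i j => (S i j : ZMod (2 ^ s)) * (u i : ZMod (2 ^ s)) * x.1 j),
        Finset.sum_comm (f := fun i j =>
          (S i j : ZMod (2 ^ s)) * (u i : ZMod (2 ^ s)) * (u j : ZMod (2 ^ s))),
        Finset.mul_sum, ← Finset.sum_add_distrib, ← Finset.sum_add_distrib]
      apply Finset.sum_congr rfl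
      intro j _
      push_cast
      rw [← Finset.sum_mul, ← Finset.sum_mul]
      ring
    rw [e1, e2]
    linear_combination -he

theorem Good_U (s : ℕ) (hs : 1 ≤ s) (U V : Matrix ι ι ℤ) (hUV : U * V = 1)
    (X : Finset (Ch (2 ^ s) ι)) (hX : Good (2 ^ s) X) :
    Good (2 ^ s) (X.image (cU (2 ^ s) U V)) := by
  have hVU : V * U = 1 := mul_eq_one_comm.1 hUV
  refine D2_image _ (cU_inj _ _ _ hUV) ?_ X hX
  rintro ⟨v, u⟩ hw
  refine ⟨(U.mulVec v, Matrix.vecMul u V), ?_, ?_⟩
  · by_contra hcon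
    unfold OddVec at hcon
    push Not at hcon
    obtain ⟨h1, h2⟩ := hcon
    simp only [Int.not_odd_iff_even] at h1 h2
    have hv : V.mulVec (U.mulVec v) = v := by
      rw [Matrix.mulVec_mulVec, hVU, Matrix.one_mulVec]
    have hu : Matrix.vecMul (Matrix.vecMul u V) U = u := by
      rw [Matrix.vecMul_vecMul, hVU, Matrix.vecMul_one]
    rcases hw with ⟨i, hi⟩ | ⟨i, hi⟩
    · have : Even (v i) := by
        rw [← congrFun hv i]
        simp only [Matrix.mulVec, dotProduct] at h1 ⊢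
        exact Finset.even_sum _ fun k _ => (h1 k).mul_left _
      exact (Int.not_odd_iff_even.2 this) hi
    · have : Even (u i) := by
        rw [← congrFun hu i]
        simp only [Matrix.vecMul, dotProduct] at h2 ⊢
        exact Finset.even_sum _ fun k _ => (h2 k).mul_right _
      exact (Int.not_odd_iff_even.2 this) hi
  · intro x
    have hdot : ∑ i, v i * u i = ∑ i, (U.mulVec v) i * (Matrix.vecMul u V) i := by
      have h1 : Matrix.vecMul u V ⬝ᵥ U.mulVec v = u ⬝ᵥ v := by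
        rw [← Matrix.dotProduct_mulVec, Matrix.mulVec_mulVec, hVU, Matrix.one_mulVec]
      simp only [dotProduct] at h1
      calc ∑ i, v i * u i = ∑ i, u i * v i := Finset.sum_congr rfl fun i _ => mul_comm _ _
        _ = ∑ i, (Matrix.vecMul u V) i * (U.mulVec v) i := h1.symm
        _ = _ := Finset.sum_congr rfl fun i _ => mul_comm _ _
    have hdot' : ∑ i, (v i : ZMod (2 ^ s)) * (u i : ZMod (2 ^ s)) =
        ∑ i, ((U.mulVec v i : ℤ) : ZMod (2 ^ s)) * ((Matrix.vecMul u V i : ℤ) : ZMod (2 ^ s)) := by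
      have := congrArg (Int.cast : ℤ → ZMod (2 ^ s)) hdot
      push_cast at this
      exact this
    unfold ell cU
    simp only
    set H : ZMod (2 ^ s) := ((2 ^ s / 2 : ℕ) : ZMod (2 ^ s)) with hH
    rw [Finset.sum_add_distrib, Finset.sum_add_distrib, Finset.sum_add_distrib,
      Finset.sum_add_distrib]
    have t1 : ∑ i, (v i : ZMod (2 ^ s)) * ∑ j, (U j i : ZMod (2 ^ s)) * x.1 j =
        ∑ j, ((U.mulVec v j : ℤ) : ZMod (2 ^ s)) * x.1 j := by
      simp only [Matrix.mulVec, dotProduct, Finset.mul_sum]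
      rw [Finset.sum_comm]
      apply Finset.sum_congr rfl
      intro j _
      push_cast
      rw [Finset.sum_mul]
      apply Finset.sum_congr rfl
      intro i _
      ring
    have t2 : ∑ i, (u i : ZMod (2 ^ s)) * ∑ j, (V i j : ZMod (2 ^ s)) * x.2 j =
        ∑ j, ((Matrix.vecMul u V j : ℤ) : ZMod (2 ^ s)) * x.2 j := by
      simp only [Matrix.vecMul, dotProduct, Finset.mul_sum]
      rw [Finset.sum_comm]
      apply Finset.sum_congr rfl
      intro j _
      push_cast
      rw [Finset.sum_mul]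
      apply Finset.sum_congr rfl
      intro i _
      ring
    have t3 : ∑ i, H * (v i : ZMod (2 ^ s)) * (u i : ZMod (2 ^ s)) =
        ∑ i, H * ((U.mulVec v i : ℤ) : ZMod (2 ^ s)) *
          ((Matrix.vecMul u V i : ℤ) : ZMod (2 ^ s)) := by
      simp only [mul_assoc]
      rw [← Finset.mul_sum, ← Finset.mul_sum, hdot']
    rw [t1, t2, t3]

theorem Good_J (s : ℕ) (hs : 1 ≤ s) (i : ι)
    (X : Finset (Ch (2 ^ s) ι)) (hX : Good (2 ^ s) X) :
    Good (2 ^ s) (X.image (cJ (2 ^ s) i)) := by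
  refine D2_image _ (cJ_inj _ _) ?_ X hX
  rintro ⟨v, u⟩ hw
  refine ⟨(Function.update v i (-(u i)), Function.update u i (v i)), ?_, ?_⟩
  · rcases hw with ⟨k, hk⟩ | ⟨k, hk⟩
    · rcases eq_or_ne k i with rfl | hki
      · refine Or.inr ⟨k, ?_⟩
        simpa using hk
      · refine Or.inl ⟨k, ?_⟩
        simpa [hki] using hk
    · rcases eq_or_ne k i with rfl | hki
      · refine Or.inl ⟨k, ?_⟩
        simpa using hk
      · refine Or.inr ⟨k, ?_⟩
        simpa [hki] using hk
  · intro x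
    unfold ell cJ
    simp only
    apply Finset.sum_congr rfl
    intro k _
    rcases eq_or_ne k i with rfl | hki
    · simp only [Function.update_self]
      push_cast
      have h := D2_two_half s hs
      linear_combination (v k : ZMod (2 ^ s)) * (u k : ZMod (2 ^ s)) * h
    · simp only [Function.update_of_ne hki]

end DF
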