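import Pool.Agent.helper32.DF.A9
import Pool.Agent.helper32.DF.B3
import Pool.Agent.helper32.DF.C1
import Pool.Agent.helper32.DF.C2
import Pool.Agent.helper32.DF.C4
import Pool.Agent.helper32.DF.D2

/-!
# C5 : induction over the symplectic group

`coc_all`: Let `f : Matrix ι ι ℂ → ℂ` and `k` be even with `f (mT S τ) = f τ`, `f (mU U τ) = f τ`,
`f (mJ i τ) = (τ i i)^k * f τ` on `Hg`.  Then for all `γ` in the symplectic group and `τ ∈ Hg`: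
`IsUnit (den γ τ).det`, `act γ τ ∈ Hg`, `f (act γ τ) = (den γ τ).det ^ k * f τ`.
PROOF: `Submonoid.closure_induction` (`sp_closure`); generators: `act_gT`, `act_gU` (`det² = 1`, `k`
even), `act_gJ`; products: `act_mul`, `den_mul`.
`PP_inv`: for `γ` in the symplectic group and `τ ∈ Hg`: `PP (act γ τ) → PP τ`.
PROOF: for generators: let `S'` be the good set for `act γ τ` (= `mT S τ`, …) at level `2^s`, `s ≥ 1`
(increase `s0`); put `S = S'.image (cT ..)`.  `thN x (mT S τ) ≠ 0 ↔ pwN x (mT S τ) ≠ 0 ↔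
pwN (cT x) τ ≠ 0 ↔ thN (cT x) τ ≠ 0` (`pwN_T`); for `mJ` use `τ i i ≠ 0`.  Good: `Good_T`, `Good_U`,
`Good_J`.  Closure induction with `act_mul`.
`lat_act`: for `γ` in the symplectic group, `τ ∈ Hg`, `den` invertible:
`(den γ τ)ᵀ *ᵥ lat (act γ τ) x = lat τ (γᵀ x)` for integral `x`.
PROOF: `act γ τ ∈ Hg` is symmetric, so `(den)ᵀ (act γ τ) = ((act γ τ) den)ᵀ = (num γ τ)ᵀ = τ Aᵀ + Bᵀ`, and
`(den)ᵀ = τ Cᵀ + Dᵀ`.  So the left side is `τ (Aᵀ a + Cᵀ b) + (Bᵀ a + Dᵀ b)`, and `γᵀ (a, b) =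
(Aᵀ a + Cᵀ b, Bᵀ a + Dᵀ b)`.
`block_form`: let `Ep μ1 μ2 = 1` and `lat τ μ1 = t • lat τ μ2`.  Take `σ` from `pair_transitive` with
`I = ∅`, `σ'` its inverse (`closure_inv`), `γ = σ'ᵀ` (in the symplectic group:
`SymplecticGroup.transpose_mem`).  `γᵀ e^a = σ' e^a = μ1`, `γᵀ e^b = μ2`.  By `lat_act`,
`(den)ᵀ (lat (act γ τ) e^a - t • lat (act γ τ) e^b) = 0`, so `lat (act γ τ) e^a = t • lat (act γ τ) e^b`,
i.e. the column `i0` of `act γ τ` is `t • e_{i0}`.  By symmetry the row as well.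
-/

namespace DF
open Matrix Complex
variable {ι : Type} [Fintype ι] [DecidableEq ι]

theorem coc_all (f : Matrix ι ι ℂ → ℂ) (k : ℕ) (hk : Even k)
    (hT : ∀ (S : Matrix ι ι ℤ), S.IsSymm → ∀ τ ∈ Hg ι, f (mT S τ) = f τ)
    (hU : ∀ (U V : Matrix ι ι ℤ), U * V = 1 → ∀ τ ∈ Hg ι, f (mU U τ) = f τ)
    (hJ : ∀ (i : ι), ∀ τ ∈ Hg ι, f (mJ i τ) = (τ i i) ^ k * f τ)
    (γ : Matrix (ι ⊕ ι) (ι ⊕ ι) ℤ) (hγ : γ ∈ Matrix.symplecticGroup ι ℤ) (τ : Matrix ι ι ℂ)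
    (hτ : τ ∈ Hg ι) :
    IsUnit (den γ τ).det ∧ act γ τ ∈ Hg ι ∧ f (act γ τ) = (den γ τ).det ^ k * f τ := by
  have hc := sp_closure γ hγ
  revert τ
  induction hc using Submonoid.closure_induction with
  | mem x hx =>
    intro τ hτ
    rcases hx with ⟨S, hS, rfl⟩ | ⟨U, V, hUV, rfl⟩ | ⟨i, rfl⟩
    · obtain ⟨h1, h2, h3⟩ := act_gT S hS τ hτ
      rw [h1, h2]
      exact ⟨isUnit_one, h3, by rw [hT S hS τ hτ]; simp⟩
    · obtain ⟨h1, h2, h3⟩ := act_gU U V hUV τ hτ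
      rw [h2]
      refine ⟨?_, h3, ?_⟩
      · rw [sq] at h1
        exact IsUnit.of_mul_eq_one _ h1
      · obtain ⟨m, hm⟩ := hk
        rw [hU U V hUV τ hτ, hm, ← two_mul, pow_mul, h1, one_pow, one_mul]
    · obtain ⟨h1, h2, h3⟩ := act_gJ i τ hτ
      rw [h1, h2]
      exact ⟨(diag_ne i τ hτ).isUnit, h3, hJ i τ hτ⟩
  | one =>
    intro τ hτ
    obtain ⟨h1, h2⟩ := act_one τ
    rw [h1, h2]
    simp [hτ]
  | mul x y hx hy ihx ihy =>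
    intro τ hτ
    have hsx : x ∈ Matrix.symplecticGroup ι ℤ := (Submonoid.closure_le.2 gens_sp) hx
    have hsy : y ∈ Matrix.symplecticGroup ι ℤ := (Submonoid.closure_le.2 gens_sp) hy
    obtain ⟨h1, h2, h3⟩ := ihy hsy τ hτ
    obtain ⟨h4, h5, h6⟩ := ihx hsx (act y τ) h2
    rw [den_mul x y τ h1, act_mul x y τ h1 h4, Matrix.det_mul]
    refine ⟨h4.mul h1, h5, ?_⟩
    rw [h6, h3, mul_pow]
    ring

/-- the denominators are invertible and the action preserves `Hg` -/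
theorem unit_act (γ : Matrix (ι ⊕ ι) (ι ⊕ ι) ℤ) (hγ : γ ∈ Matrix.symplecticGroup ι ℤ)
    (τ : Matrix ι ι ℂ) (hτ : τ ∈ Hg ι) : IsUnit (den γ τ).det ∧ act γ τ ∈ Hg ι := by
  obtain ⟨h1, h2, _⟩ := coc_all (fun _ => 0) 0 (by simp) (fun _ _ _ _ => rfl)
    (fun _ _ _ _ _ => rfl) (fun _ _ _ => by simp) γ hγ τ hτ
  exact ⟨h1, h2⟩

private theorem th_ne_of_pw {N : ℕ} {x : Ch N ι} {τ : Matrix ι ι ℂ} (hN : 0 < N)
    (h : pwN N x τ ≠ 0) : thN N x τ ≠ 0 := by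
  intro h0
  apply h
  unfold pwN
  rw [h0]
  exact zero_pow (by positivity)

private theorem pw_ne_of_th {N : ℕ} {x : Ch N ι} {τ : Matrix ι ι ℂ}
    (h : thN N x τ ≠ 0) : pwN N x τ ≠ 0 := pow_ne_zero _ h

private theorem PP_step (τ τ' : Matrix ι ι ℂ)
    (g : ∀ s : ℕ, Ch (2 ^ s) ι → Ch (2 ^ s) ι)
    (hg : ∀ s : ℕ, 1 ≤ s → ∀ X : Finset (Ch (2 ^ s) ι), Good (2 ^ s) X → Good (2 ^ s) (X.image (g s)))
    (hne : ∀ s : ℕ, 1 ≤ s → ∀ x, pwN (2 ^ s) x τ' ≠ 0 → pwN (2 ^ s) (g s x) τ ≠ 0)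
    (h : PP τ') : PP τ := by
  obtain ⟨s0, hs0⟩ := h
  refine ⟨max s0 1, fun s hs => ?_⟩
  have hs1 : 1 ≤ s := (le_max_right _ _).trans hs
  obtain ⟨X, hX1, hX2, hX3⟩ := hs0 s ((le_max_left _ _).trans hs)
  refine ⟨X.image (g s), hX1.image _, hg s hs1 X hX2, ?_⟩
  intro y hy
  obtain ⟨x, hx, rfl⟩ := Finset.mem_image.1 hy
  exact th_ne_of_pw (by positivity) (hne s hs1 x (pw_ne_of_th (hX3 x hx)))

private theorem even_two_pow {s : ℕ} (hs : 1 ≤ s) : Even (2 ^ s) :=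
  (Nat.even_pow.2 ⟨even_two, by omega⟩)

theorem PP_inv (γ : Matrix (ι ⊕ ι) (ι ⊕ ι) ℤ) (hγ : γ ∈ Matrix.symplecticGroup ι ℤ)
    (τ : Matrix ι ι ℂ) (hτ : τ ∈ Hg ι) (h : PP (act γ τ)) : PP τ := by
  have hc := sp_closure γ hγ
  revert τ
  induction hc using Submonoid.closure_induction with
  | mem x hx =>
    intro τ hτ hP
    rcases hx with ⟨S, hS, rfl⟩ | ⟨U, V, hUV, rfl⟩ | ⟨i, rfl⟩
    · obtain ⟨h1, h2, h3⟩ := act_gT S hS τ hτ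
      rw [h2] at hP
      refine PP_step τ (mT S τ) (fun s => cT (2 ^ s) S) (fun s hs X hX => Good_T s hs S hS X hX) ?_ hP
      intro s hs x hx
      rwa [pwN_T (2 ^ s) (by positivity) (even_two_pow hs) S hS x τ] at hx
    · obtain ⟨h1, h2, h3⟩ := act_gU U V hUV τ hτ
      rw [h2] at hP
      refine PP_step τ (mU U τ) (fun s => cU (2 ^ s) U V) (fun s hs X hX => Good_U s hs U V hUV X hX)
        ?_ hP
      intro s hs x hx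
      rwa [pwN_U (2 ^ s) (by positivity) (even_two_pow hs) U V hUV x τ] at hx
    · obtain ⟨h1, h2, h3⟩ := act_gJ i τ hτ
      rw [h2] at hP
      refine PP_step τ (mJ i τ) (fun s => cJ (2 ^ s) i) (fun s hs X hX => Good_J s hs i X hX) ?_ hP
      intro s hs x hx
      rw [pwN_J (2 ^ s) (by positivity) (even_two_pow hs) i x τ hτ] at hx
      exact right_ne_zero_of_mul hx
  | one =>
    intro τ hτ hP
    rwa [(act_one τ).2] at hP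
  | mul x y hx hy ihx ihy =>
    intro τ hτ hP
    have hsx : x ∈ Matrix.symplecticGroup ι ℤ := (Submonoid.closure_le.2 gens_sp) hx
    have hsy : y ∈ Matrix.symplecticGroup ι ℤ := (Submonoid.closure_le.2 gens_sp) hy
    obtain ⟨h1, h2⟩ := unit_act y hsy τ hτ
    obtain ⟨h4, h5⟩ := unit_act x hsx (act y τ) h2
    rw [act_mul x y τ h1 h4] at hP
    exact ihy hsy τ hτ (ihx hsx (act y τ) h2 hP)

private theorem lat_eq (τ : Matrix ι ι ℂ) (x : ι ⊕ ι → ℤ) :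
    lat τ (zr x) = τ *ᵥ (fun j => (x (Sum.inl j) : ℂ)) + fun j => (x (Sum.inr j) : ℂ) := by
  funext i
  simp [lat, zr, Matrix.mulVec, dotProduct]

theorem lat_act (γ : Matrix (ι ⊕ ι) (ι ⊕ ι) ℤ) (hγ : γ ∈ Matrix.symplecticGroup ι ℤ)
    (τ : Matrix ι ι ℂ) (hτ : τ ∈ Hg ι) (x : ι ⊕ ι → ℤ) :
    (den γ τ)ᵀ *ᵥ lat (act γ τ) (zr x) = lat τ (zr (γᵀ *ᵥ x)) := by
  obtain ⟨h1, h2⟩ := unit_act γ hγ τ hτ
  have hs : (act γ τ)ᵀ = act γ τ := h2.1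
  have hτs : τᵀ = τ := hτ.1
  have hmul : act γ τ * den γ τ = num γ τ := by
    unfold act
    rw [Matrix.mul_assoc, Matrix.nonsing_inv_mul _ h1, Matrix.mul_one]
  have hmul2 : (den γ τ)ᵀ * act γ τ = (num γ τ)ᵀ := by
    rw [← hmul, Matrix.transpose_mul, hs]
  rw [lat_eq, lat_eq, Matrix.mulVec_add, Matrix.mulVec_mulVec, hmul2]
  obtain ⟨M, hM⟩ : ∃ M : Matrix (ι ⊕ ι) (ι ⊕ ι) ℂ, M = γ.map (Int.cast : ℤ → ℂ) := ⟨_, rfl⟩
  obtain ⟨X, hX⟩ : ∃ X : ι ⊕ ι → ℂ, X = fun j => (x j : ℂ) := ⟨_, rfl⟩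
  have hMX : ∀ j, (((γᵀ *ᵥ x) j : ℤ) : ℂ) = (Mᵀ *ᵥ X) j := by
    intro j
    rw [hM, hX]
    simp [Matrix.mulVec, dotProduct]
  have hbl : Mᵀ *ᵥ X = Sum.elim
      (M.toBlocks₁₁ᵀ *ᵥ (X ∘ Sum.inl) + M.toBlocks₂₁ᵀ *ᵥ (X ∘ Sum.inr))
      (M.toBlocks₁₂ᵀ *ᵥ (X ∘ Sum.inl) + M.toBlocks₂₂ᵀ *ᵥ (X ∘ Sum.inr)) := by
    conv_lhs => rw [← Matrix.fromBlocks_toBlocks M]
    rw [Matrix.fromBlocks_transpose, Matrix.fromBlocks_mulVec]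
  have h3 : (fun j => (((γᵀ *ᵥ x) (Sum.inl j) : ℤ) : ℂ)) =
      M.toBlocks₁₁ᵀ *ᵥ (X ∘ Sum.inl) + M.toBlocks₂₁ᵀ *ᵥ (X ∘ Sum.inr) := by
    funext j
    rw [hMX, hbl]
    rfl
  have h4 : (fun j => (((γᵀ *ᵥ x) (Sum.inr j) : ℤ) : ℂ)) =
      M.toBlocks₁₂ᵀ *ᵥ (X ∘ Sum.inl) + M.toBlocks₂₂ᵀ *ᵥ (X ∘ Sum.inr) := by
    funext j
    rw [hMX, hbl]
    rfl
  rw [h3, h4]
  have h5 : (fun j => (x (Sum.inl j) : ℂ)) = X ∘ Sum.inl := by rw [hX]; rfl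
  have h6 : (fun j => (x (Sum.inr j) : ℂ)) = X ∘ Sum.inr := by rw [hX]; rfl
  rw [h5, h6]
  unfold num den
  rw [← hM, Matrix.transpose_add, Matrix.transpose_add, Matrix.transpose_mul, Matrix.transpose_mul,
    hτs, Matrix.add_mulVec, Matrix.add_mulVec, Matrix.mulVec_add, Matrix.mulVec_mulVec,
    Matrix.mulVec_mulVec]
  abel

theorem block_form (i0 : ι) (τ : Matrix ι ι ℂ) (hτ : τ ∈ Hg ι) (μ1 μ2 : ι ⊕ ι → ℤ)
    (hE : Ep μ1 μ2 = 1) (hl : ∃ t : ℂ, lat τ (zr μ1) = t • lat τ (zr μ2)) :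
    ∃ γ ∈ Matrix.symplecticGroup ι ℤ, act γ τ ∈ Hg ι ∧ ∀ j, j ≠ i0 → act γ τ i0 j = 0 := by
  obtain ⟨t, ht⟩ := hl
  obtain ⟨σ, hσ, _, h1, h2⟩ := pair_transitive ∅ i0 (by simp) μ1 μ2 (by simp) (by simp) hE
  obtain ⟨σ', hσ', h3, h4⟩ := closure_inv σ hσ
  have hs' : σ' ∈ Matrix.symplecticGroup ι ℤ := (Submonoid.closure_le.2 gens_sp) hσ'
  have hγ : σ'ᵀ ∈ Matrix.symplecticGroup ι ℤ := SymplecticGroup.transpose_mem hs'
  obtain ⟨hu, ha⟩ := unit_act σ'ᵀ hγ τ hτ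
  refine ⟨σ'ᵀ, hγ, ha, ?_⟩
  have hm1 : σ' *ᵥ (Pi.single (Sum.inl i0) 1) = μ1 := by
    rw [← h1, Matrix.mulVec_mulVec, h3, Matrix.one_mulVec]
  have hm2 : σ' *ᵥ (Pi.single (Sum.inr i0) 1) = μ2 := by
    rw [← h2, Matrix.mulVec_mulVec, h3, Matrix.one_mulVec]
  have hl1 := lat_act σ'ᵀ hγ τ hτ (Pi.single (Sum.inl i0) 1)
  have hl2 := lat_act σ'ᵀ hγ τ hτ (Pi.single (Sum.inr i0) 1)
  rw [Matrix.transpose_transpose, hm1] at hl1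
  rw [Matrix.transpose_transpose, hm2] at hl2
  have hl3 : (den σ'ᵀ τ)ᵀ *ᵥ lat (act σ'ᵀ τ) (zr (Pi.single (Sum.inl i0) 1)) =
      (den σ'ᵀ τ)ᵀ *ᵥ (t • lat (act σ'ᵀ τ) (zr (Pi.single (Sum.inr i0) 1))) := by
    rw [hl1, Matrix.mulVec_smul, hl2, ht]
  have hu2 : IsUnit ((den σ'ᵀ τ)ᵀ) := by
    rw [Matrix.isUnit_iff_isUnit_det, Matrix.det_transpose]
    exact hu
  have hl4 : lat (act σ'ᵀ τ) (zr (Pi.single (Sum.inl i0) 1)) =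
      t • lat (act σ'ᵀ τ) (zr (Pi.single (Sum.inr i0) 1)) :=
    (Matrix.mulVec_injective_iff_isUnit.2 hu2) hl3
  intro j hj
  have hj1 := congrFun hl4 j
  rw [lat_eq, lat_eq] at hj1
  have hsym : (act σ'ᵀ τ) i0 j = (act σ'ᵀ τ) j i0 := by
    have := congrFun (congrFun ha.1 j) i0
    rw [Matrix.transpose_apply] at this
    exact this
  rw [hsym]
  simp [Matrix.mulVec, dotProduct, Pi.single_apply, hj] at hj1
  exact hj1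

end DF
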