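import Pool.Agent.helper32.DF.Defs

/-!
# D1 : equidistribution

PROOF. `sum_phi`: `N = 2M`.  `∑_{k<N} min(k, N-k)² = 2 ∑_{k<M} k² + M² ` (`k` and `N-k` for
`1 ≤ k < M`) `= (M-1)M(2M-1)/3 + M² = M(2M²+1)/3`; divide by `N² = 4M²`: `(2M²+1)/(12M)`; minus `N/12 =
2M/12`: `1/(12 M) = 1/(6N)`.
`sum_Ch`: let (say) `w.1 i` be odd.  For fixed other coordinates the map
`x.1 i ↦ c + ell N w x` is a bijection of `ZMod (2^s)` (an affine map with unit slope: an odd integer is a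
unit mod `2^s`).  So the sum over this coordinate is `1/(6N)`, and there are `N^(2h-1)` choices for the
others: total `N^(2h-1)/(6N) = N^(2h)/(6N²)`.  (Write the sum over `Ch` as an iterated sum using
`Fintype.piFinset`/`Equiv.funSplitAt i`/`Equiv.piSplitAt`, or use a group argument: translation of `x`
by multiples of the basis vector: `∑_x F(ell x) = (1/N) ∑_x ∑_k F(ell (x + k e_i)) = (1/N) ∑_x 1/(6N)`.
The second way is easier: `Equiv.addRight` for each `k`, then swap the sums.)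
-/

namespace DF
variable {ι : Type} [Fintype ι] [DecidableEq ι]

theorem phiN_le (N : ℕ) (hN : 0 < N) (k : ZMod N) : phiN N k ≤ 1 / 6 := by
  have : NeZero N := ⟨hN.ne'⟩
  have hk : k.val < N := ZMod.val_lt k
  have h1 : 2 * min k.val (N - k.val) ≤ N := by omega
  have hN' : (0 : ℝ) < N := by exact_mod_cast hN
  have h2 : ((min k.val (N - k.val) : ℕ) : ℝ) / N ≤ 1 / 2 := by
    rw [div_le_iff₀ hN']
    have : ((2 * min k.val (N - k.val) : ℕ) : ℝ) ≤ N := by exact_mod_cast h1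
    push_cast at this ⊢
    linarith
  have h3 : 0 ≤ ((min k.val (N - k.val) : ℕ) : ℝ) / N := by positivity
  unfold phiN
  nlinarith

theorem D1_sq1 (M : ℕ) : ∑ i ∈ Finset.range M, ((i : ℝ)) ^ 2 =
    ((M : ℝ) - 1) * M * (2 * M - 1) / 6 := by
  induction M with
  | zero => simp
  | succ M ih => rw [Finset.sum_range_succ, ih]; push_cast; ring

theorem D1_sq2 (M : ℕ) : ∑ i ∈ Finset.range M, (((M - i : ℕ) : ℝ)) ^ 2 =
    (M : ℝ) * (M + 1) * (2 * M + 1) / 6 := by
  induction M with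
  | zero => simp
  | succ M ih =>
    rw [Finset.sum_range_succ']
    simp only [Nat.add_sub_add_right, Nat.sub_zero]
    rw [ih]; push_cast; ring

theorem sum_phi (N : ℕ) [NeZero N] (hE : Even N) : ∑ k : ZMod N, phiN N k = 1 / (6 * (N : ℝ)) := by
  obtain ⟨M, hM⟩ := hE
  have hN0 : N ≠ 0 := NeZero.ne N
  have hM0 : M ≠ 0 := by rintro rfl; exact hN0 hM
  have key : ∑ k : ZMod N, phiN N k = ∑ i ∈ Finset.range N,
      (((((min i (N - i) : ℕ) : ℝ)) / N) ^ 2 - 1 / 12) := by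
    obtain ⟨n, rfl⟩ : ∃ n, N = n + 1 := ⟨N - 1, by omega⟩
    exact Fin.sum_univ_eq_sum_range (fun i : ℕ => (((((min i (n + 1 - i) : ℕ) : ℝ)) /
      ((n + 1 : ℕ) : ℝ)) ^ 2 - 1 / 12)) (n + 1)
  have h2 : ∑ i ∈ Finset.range N, ((min i (N - i) : ℕ) : ℝ) ^ 2 =
      (M : ℝ) * (2 * M ^ 2 + 1) / 3 := by
    rw [hM, Finset.sum_range_add]
    have e1 : ∑ i ∈ Finset.range M, ((min i (M + M - i) : ℕ) : ℝ) ^ 2 =
        ∑ i ∈ Finset.range M, ((i : ℝ)) ^ 2 := by
      refine Finset.sum_congr rfl fun i hi => ?_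
      rw [Finset.mem_range] at hi
      rw [min_eq_left (by omega)]
    have e2 : ∑ i ∈ Finset.range M, ((min (M + i) (M + M - (M + i)) : ℕ) : ℝ) ^ 2 =
        ∑ i ∈ Finset.range M, (((M - i : ℕ) : ℝ)) ^ 2 := by
      refine Finset.sum_congr rfl fun i hi => ?_
      rw [Finset.mem_range] at hi
      congr 2
      omega
    rw [e1, e2, D1_sq1, D1_sq2]
    ring
  have h3 : ∑ i ∈ Finset.range N, (((((min i (N - i) : ℕ) : ℝ)) / N) ^ 2 - 1 / 12) =
      (∑ i ∈ Finset.range N, ((min i (N - i) : ℕ) : ℝ) ^ 2) / (N : ℝ) ^ 2 - N / 12 := by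
    rw [Finset.sum_sub_distrib, Finset.sum_div]
    congr 1
    · refine Finset.sum_congr rfl fun i _ => ?_
      rw [div_pow]
    · rw [Finset.sum_const, Finset.card_range, nsmul_eq_mul]
      ring
  rw [key, h3, h2, hM]
  have hM' : (M : ℝ) ≠ 0 := by exact_mod_cast hM0
  push_cast
  field_simp
  ring

theorem D1_avg {G : Type} [AddCommGroup G] [Fintype G] (N : ℕ) [NeZero N] (L : G → ZMod N)
    (e : ZMod N → G) (a : ZMod N) (ha : IsUnit a) (h : ∀ x k, L (x + e k) = L x + a * k)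
    (c : ZMod N) (f : ZMod N → ℝ) :
    (N : ℝ) * ∑ x, f (c + L x) = Fintype.card G * ∑ k, f k := by
  have h1 : ∀ k : ZMod N, ∑ x, f (c + L x) = ∑ x, f (c + L (x + e k)) := fun k =>
    (Equiv.sum_comp (Equiv.addRight (e k)) (fun x => f (c + L x))).symm
  have h2 : ∀ c' : ZMod N, ∑ k, f (c' + a * k) = ∑ k, f k := by
    intro c'
    obtain ⟨u, rfl⟩ := ha
    exact Equiv.sum_comp ((Units.mulLeft u).trans (Equiv.addLeft c')) f
  calc (N : ℝ) * ∑ x, f (c + L x) = ∑ _k : ZMod N, ∑ x, f (c + L x) := by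
        rw [Finset.sum_const, Finset.card_univ, ZMod.card, nsmul_eq_mul]
    _ = ∑ k : ZMod N, ∑ x, f (c + L (x + e k)) := Finset.sum_congr rfl fun k _ => h1 k
    _ = ∑ x, ∑ k : ZMod N, f (c + L (x + e k)) := Finset.sum_comm
    _ = ∑ _x : G, ∑ k, f k := by
        refine Finset.sum_congr rfl fun x _ => ?_
        rw [← h2 (c + L x)]
        refine Finset.sum_congr rfl fun k _ => ?_
        rw [h, add_assoc]
    _ = Fintype.card G * ∑ k, f k := by
        rw [Finset.sum_const, Finset.card_univ, nsmul_eq_mul]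

theorem D1_unit (s : ℕ) {m : ℤ} (hm : Odd m) : IsUnit ((m : ZMod (2 ^ s))) := by
  rw [ZMod.coe_int_isUnit_iff_isCoprime]
  push_cast
  refine IsCoprime.pow_left ?_
  obtain ⟨k, rfl⟩ := hm
  exact ⟨-k, 1, by ring⟩

theorem sum_Ch (s : ℕ) (hs : 1 ≤ s) (c : ZMod (2 ^ s)) (w : (ι → ℤ) × (ι → ℤ)) (hw : OddVec w) :
    ∑ x : Ch (2 ^ s) ι, phiN (2 ^ s) (c + ell (2 ^ s) w x) =
      ((2 ^ s : ℕ) : ℝ) ^ (2 * Fintype.card ι) / (6 * ((2 ^ s : ℕ) : ℝ) ^ 2) := by
  have hE : Even (2 ^ s) := (Nat.even_pow' (by omega)).2 even_two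
  have hN : ((2 ^ s : ℕ) : ℝ) ≠ 0 := by positivity
  have hcard : Fintype.card (Ch (2 ^ s) ι) = (2 ^ s) ^ (2 * Fintype.card ι) := by
    rw [Fintype.card_prod, Fintype.card_fun, ZMod.card, two_mul, pow_add]
  have main : ((2 ^ s : ℕ) : ℝ) * ∑ x : Ch (2 ^ s) ι, phiN (2 ^ s) (c + ell (2 ^ s) w x) =
      Fintype.card (Ch (2 ^ s) ι) * ∑ k, phiN (2 ^ s) k := by
    rcases hw with ⟨i, hi⟩ | ⟨i, hi⟩
    · refine D1_avg (2 ^ s) (ell (2 ^ s) w) (fun k => (Pi.single i k, 0)) (w.1 i : ZMod (2 ^ s))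
        (D1_unit s hi) (fun x k => ?_) c (phiN (2 ^ s))
      unfold ell
      have : (w.1 i : ZMod (2 ^ s)) * k = ∑ j, (w.1 j : ZMod (2 ^ s)) * (Pi.single i k : ι → ZMod (2 ^ s)) j := by
        rw [Finset.sum_eq_single i]
        · rw [Pi.single_eq_same]
        · intro j _ hj
          rw [Pi.single_eq_of_ne hj, mul_zero]
        · intro h; exact absurd (Finset.mem_univ i) h
      rw [this, ← Finset.sum_add_distrib]
      refine Finset.sum_congr rfl fun j _ => ?_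
      simp only [Prod.fst_add, Prod.snd_add, Pi.add_apply, Pi.zero_apply]
      ring
    · refine D1_avg (2 ^ s) (ell (2 ^ s) w) (fun k => (0, Pi.single i k)) (w.2 i : ZMod (2 ^ s))
        (D1_unit s hi) (fun x k => ?_) c (phiN (2 ^ s))
      unfold ell
      have : (w.2 i : ZMod (2 ^ s)) * k = ∑ j, (w.2 j : ZMod (2 ^ s)) * (Pi.single i k : ι → ZMod (2 ^ s)) j := by
        rw [Finset.sum_eq_single i]
        · rw [Pi.single_eq_same]
        · intro j _ hj
          rw [Pi.single_eq_of_ne hj, mul_zero]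
        · intro h; exact absurd (Finset.mem_univ i) h
      rw [this, ← Finset.sum_add_distrib]
      refine Finset.sum_congr rfl fun j _ => ?_
      simp only [Prod.fst_add, Prod.snd_add, Pi.add_apply, Pi.zero_apply]
      ring
  rw [sum_phi (2 ^ s) hE, hcard] at main
  rw [eq_div_iff (by positivity)]
  have hq : ((2 ^ s : ℕ) : ℝ) ≠ 0 := hN
  have hc : (((2 ^ s) ^ (2 * Fintype.card ι) : ℕ) : ℝ) =
      ((2 ^ s : ℕ) : ℝ) ^ (2 * Fintype.card ι) := Nat.cast_pow _ _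
  rw [hc] at main
  generalize hX : ∑ x : Ch (2 ^ s) ι, phiN (2 ^ s) (c + ell (2 ^ s) w x) = X at main ⊢
  generalize ((2 ^ s : ℕ) : ℝ) = q at main hq ⊢
  have h7 : X * (6 * q ^ 2) = (q * X) * (6 * q) := by ring
  rw [h7, main]
  field_simp

end DF
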