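import Pool.Agent.helper32.DF.D1

/-!
# D3 : complements of small sets and products

PROOF. `Good_compl`: `∑_{x ∉ Z} = N^(2h)/(6N²) - ∑_{x∈Z} φ ≥ N^(2h-2)/6 - |Z|/6 ≥ 0` (`sum_Ch`,
`phiN_le`).
`Good_prod`: `x ∈ X` iff `(x.1 i0, x.2 i0) ≠ (H, H)` and the rest `x'` is in `X'` (`H = N/2` as an element
of `ZMod N`).  `ell w x = ell w0 x0 + ell w' x'` (`w0` the part of `w` at `i0`, as a pair of functions
on `Unit`).  Case 1: `w0` is OddVec.  For each fixed `x' ∈ X'`, `c' = c + ell w' x'`: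
`∑_{x0 ≠ (H,H)} φ(c' + ell w0 x0) = 1/6 - φ(c' + ell w0 (H,H)) ≥ 0` by `sum_Ch` for `ι = Unit`
(`N²/(6N²) = 1/6`) and `phiN_le`.  Case 2: otherwise `w'` is OddVec, and for each fixed `x0`,
`∑_{x'∈X'} φ(c + ell w0 x0 + ell w' x') ≥ 0` by goodness of `X'`.
`X` is in bijection with the product set (`Equiv.piSplitAt`/`Equiv.funSplitAt`; or
`Finset.sum_nbij'`/`Finset.sum_bij`, `Finset.sum_product`).
-/

namespace DF
variable {ι : Type} [Fintype ι] [DecidableEq ι]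

theorem Good_compl (s : ℕ) (hs : 1 ≤ s) (hι : 1 ≤ Fintype.card ι) (Z : Finset (Ch (2 ^ s) ι))
    (hZ : (Z.card : ℝ) ≤ ((2 ^ s : ℕ) : ℝ) ^ (2 * Fintype.card ι - 2)) :
    Good (2 ^ s) (Finset.univ \ Z) := by
  intro c w hw
  have h1 := sum_Ch s hs c w hw
  have h2 := Finset.sum_sdiff (f := fun x => phiN (2 ^ s) (c + ell (2 ^ s) w x))
    (Finset.subset_univ Z)
  have h3 : ∑ x ∈ Z, phiN (2 ^ s) (c + ell (2 ^ s) w x) ≤ Z.card * (1 / 6) := by
    have := Finset.sum_le_card_nsmul Z (fun x => phiN (2 ^ s) (c + ell (2 ^ s) w x)) (1 / 6)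
      (fun x _ => phiN_le _ (by positivity) _)
    simpa [nsmul_eq_mul] using this
  have hN : ((2 ^ s : ℕ) : ℝ) ≠ 0 := by positivity
  have h4 : ((2 ^ s : ℕ) : ℝ) ^ (2 * Fintype.card ι) / (6 * ((2 ^ s : ℕ) : ℝ) ^ 2) =
      ((2 ^ s : ℕ) : ℝ) ^ (2 * Fintype.card ι - 2) / 6 := by
    have h5 : 2 * Fintype.card ι = (2 * Fintype.card ι - 2) + 2 := by omega
    conv_lhs => rw [h5, pow_add]
    field_simp
  rw [h4] at h1
  linarith

theorem D3_pair (s : ℕ) (hs : 1 ≤ s) (a b : ℤ) (hab : Odd a ∨ Odd b) (c d : ZMod (2 ^ s)) :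
    ∑ x : ZMod (2 ^ s) × ZMod (2 ^ s),
      phiN (2 ^ s) (c + ((a : ZMod (2 ^ s)) * x.1 + (b : ZMod (2 ^ s)) * x.2 + d)) = 1 / 6 := by
  have hE : Even (2 ^ s) := (Nat.even_pow' (by omega)).2 even_two
  have hN : ((2 ^ s : ℕ) : ℝ) ≠ 0 := by positivity
  have hcard : Fintype.card (ZMod (2 ^ s) × ZMod (2 ^ s)) = 2 ^ s * 2 ^ s := by
    rw [Fintype.card_prod, ZMod.card]
  have key : ((2 ^ s : ℕ) : ℝ) * ∑ x : ZMod (2 ^ s) × ZMod (2 ^ s),
      phiN (2 ^ s) (c + ((a : ZMod (2 ^ s)) * x.1 + (b : ZMod (2 ^ s)) * x.2 + d)) =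
      Fintype.card (ZMod (2 ^ s) × ZMod (2 ^ s)) * ∑ k, phiN (2 ^ s) k := by
    rcases hab with h | h
    · exact D1_avg (2 ^ s) (fun x : ZMod (2 ^ s) × ZMod (2 ^ s) =>
        (a : ZMod (2 ^ s)) * x.1 + (b : ZMod (2 ^ s)) * x.2 + d) (fun k => (k, 0))
        (a : ZMod (2 ^ s)) (D1_unit s h) (fun x k => by
          simp only [Prod.fst_add, Prod.snd_add, add_zero]; ring) c (phiN (2 ^ s))
    · exact D1_avg (2 ^ s) (fun x : ZMod (2 ^ s) × ZMod (2 ^ s) =>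
        (a : ZMod (2 ^ s)) * x.1 + (b : ZMod (2 ^ s)) * x.2 + d) (fun k => (0, k))
        (b : ZMod (2 ^ s)) (D1_unit s h) (fun x k => by
          simp only [Prod.fst_add, Prod.snd_add, add_zero]; ring) c (phiN (2 ^ s))
  rw [sum_phi _ hE, hcard] at key
  have h2 : ((2 ^ s : ℕ) : ℝ) * ∑ x : ZMod (2 ^ s) × ZMod (2 ^ s),
      phiN (2 ^ s) (c + ((a : ZMod (2 ^ s)) * x.1 + (b : ZMod (2 ^ s)) * x.2 + d)) =
      ((2 ^ s : ℕ) : ℝ) * (1 / 6) := by
    rw [key]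
    push_cast
    field_simp
  exact mul_left_cancel₀ hN h2

/-- split off one coordinate -/
def D3_E (β : Type) (i0 : ι) : ((ι → β) × (ι → β)) ≃
    (β × β) × (({j // j ≠ i0} → β) × ({j // j ≠ i0} → β)) :=
  (Equiv.prodCongr (Equiv.funSplitAt i0 β) (Equiv.funSplitAt i0 β)).trans
    (Equiv.prodProdProdComm _ _ _ _)

theorem D3_aux (N : ℕ) [NeZero N]
    (hp : ∀ a b : ℤ, Odd a ∨ Odd b → ∀ c d : ZMod N, ∑ x : ZMod N × ZMod N,
      phiN N (c + ((a : ZMod N) * x.1 + (b : ZMod N) * x.2 + d)) = 1 / 6)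
    (i0 : ι) (X' : Finset (Ch N {j // j ≠ i0})) (hX' : Good N X') :
    Good N (Finset.univ.filter (fun x : Ch N ι =>
      ¬ (x.1 i0 = ((N / 2 : ℕ) : ZMod N) ∧ x.2 i0 = ((N / 2 : ℕ) : ZMod N)) ∧
      ((fun j : {j // j ≠ i0} => x.1 j.1, fun j : {j // j ≠ i0} => x.2 j.1) :
        Ch N {j // j ≠ i0}) ∈ X')) := by
  classical
  intro c w hw
  set Hh : ZMod N := ((N / 2 : ℕ) : ZMod N) with hHh
  set w' : ({j // j ≠ i0} → ℤ) × ({j // j ≠ i0} → ℤ) := (fun j => w.1 j.1, fun j => w.2 j.1)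
    with hw'
  set l0 : ZMod N × ZMod N → ZMod N := fun x0 =>
    (w.1 i0 : ZMod N) * x0.1 + (w.2 i0 : ZMod N) * x0.2 + Hh * (w.1 i0 : ZMod N) * (w.2 i0 : ZMod N)
    with hl0
  set K : (ZMod N × ZMod N) × Ch N {j // j ≠ i0} → ℝ := fun p =>
    if ¬ (p.1.1 = Hh ∧ p.1.2 = Hh) ∧ p.2 ∈ X' then phiN N (c + (l0 p.1 + ell N w' p.2)) else 0
    with hK
  have hell : ∀ x : Ch N ι, ell N w x = l0 (D3_E (ZMod N) i0 x).1 + ell N w' (D3_E (ZMod N) i0 x).2 := by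
    intro x
    unfold ell
    rw [Fintype.sum_eq_add_sum_subtype_ne _ i0]
    rfl
  have h1 : ∑ x ∈ Finset.univ.filter (fun x : Ch N ι =>
      ¬ (x.1 i0 = Hh ∧ x.2 i0 = Hh) ∧
      ((fun j : {j // j ≠ i0} => x.1 j.1, fun j : {j // j ≠ i0} => x.2 j.1) :
        Ch N {j // j ≠ i0}) ∈ X'), phiN N (c + ell N w x) = ∑ p, K p := by
    rw [Finset.sum_filter, ← Equiv.sum_comp (D3_E (ZMod N) i0) K]
    refine Finset.sum_congr rfl fun x _ => ?_
    rw [hell x]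
    rfl
  rw [h1]
  by_cases h0 : Odd (w.1 i0) ∨ Odd (w.2 i0)
  · rw [Fintype.sum_prod_type_right]
    refine Finset.sum_nonneg fun x' _ => ?_
    by_cases hx' : x' ∈ X'
    · have h2 : ∀ x0 : ZMod N × ZMod N, K (x0, x') =
          phiN N ((c + ell N w' x') + l0 x0) -
            if x0 = (Hh, Hh) then phiN N ((c + ell N w' x') + l0 x0) else 0 := by
        intro x0
        have e1 : c + (l0 x0 + ell N w' x') = (c + ell N w' x') + l0 x0 := by ring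
        simp only [hK, e1]
        by_cases hx0 : x0 = (Hh, Hh)
        · subst hx0
          simp
        · have : ¬ (x0.1 = Hh ∧ x0.2 = Hh) := fun h => hx0 (Prod.ext h.1 h.2)
          rw [if_pos ⟨this, hx'⟩, if_neg hx0, sub_zero]
      rw [Finset.sum_congr rfl fun x0 _ => h2 x0, Finset.sum_sub_distrib,
        Finset.sum_ite_eq' Finset.univ (Hh, Hh)]
      rw [if_pos (Finset.mem_univ _)]
      have h3 := hp (w.1 i0) (w.2 i0) h0 (c + ell N w' x')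
        (Hh * (w.1 i0 : ZMod N) * (w.2 i0 : ZMod N))
      have h4 : ∑ x0 : ZMod N × ZMod N, phiN N ((c + ell N w' x') + l0 x0) = 1 / 6 := h3
      rw [h4]
      have h5 := phiN_le N (NeZero.pos N) ((c + ell N w' x') + l0 (Hh, Hh))
      linarith
    · refine Finset.sum_nonneg fun x0 _ => ?_
      simp [hK, hx']
  · have hw2 : OddVec w' := by
      rw [not_or] at h0
      rcases hw with ⟨i, hi⟩ | ⟨i, hi⟩
      · left
        have : i ≠ i0 := by rintro rfl; exact h0.1 hi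
        exact ⟨⟨i, this⟩, hi⟩
      · right
        have : i ≠ i0 := by rintro rfl; exact h0.2 hi
        exact ⟨⟨i, this⟩, hi⟩
    rw [Fintype.sum_prod_type]
    refine Finset.sum_nonneg fun x0 _ => ?_
    by_cases hx0 : x0.1 = Hh ∧ x0.2 = Hh
    · refine Finset.sum_nonneg fun x' _ => ?_
      simp [hK, hx0]
    · have h2 : ∀ x' : Ch N {j // j ≠ i0}, K (x0, x') =
          if x' ∈ X' then phiN N ((c + l0 x0) + ell N w' x') else 0 := by
        intro x'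
        have e1 : c + (l0 x0 + ell N w' x') = (c + l0 x0) + ell N w' x' := by ring
        simp only [hK, e1]
        by_cases hx' : x' ∈ X'
        · rw [if_pos ⟨hx0, hx'⟩, if_pos hx']
        · rw [if_neg (fun h => hx' h.2), if_neg hx']
      rw [Finset.sum_congr rfl fun x' _ => h2 x', ← Finset.sum_filter,
        Finset.filter_mem_eq_inter, Finset.univ_inter]
      exact hX' (c + l0 x0) w' hw2

theorem Good_prod (s : ℕ) (hs : 1 ≤ s) (i0 : ι) (X' : Finset (Ch (2 ^ s) {j // j ≠ i0}))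
    (hX' : Good (2 ^ s) X') :
    Good (2 ^ s) (Finset.univ.filter (fun x : Ch (2 ^ s) ι =>
      ¬ (x.1 i0 = ((2 ^ s / 2 : ℕ) : ZMod (2 ^ s)) ∧ x.2 i0 = ((2 ^ s / 2 : ℕ) : ZMod (2 ^ s))) ∧
      ((fun j : {j // j ≠ i0} => x.1 j.1, fun j : {j // j ≠ i0} => x.2 j.1) :
        Ch (2 ^ s) {j // j ≠ i0}) ∈ X')) :=
  D3_aux (2 ^ s) (fun a b h c d => D3_pair s hs a b h c d) i0 X' hX'

end DF
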