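import Mathlib

/-!
# MP_df63b8_ag : base points of `12 M - D` in the interior of `A_g`.  Definitions.

Index types `ι` are finite; `card ι = g`.  `Hg ι` is Siegel's upper half space.
-/

set_option linter.unusedVariables false
set_option linter.unusedSectionVars false

namespace DF

open Matrix Complex

section theta

variable {ι : Type} [Fintype ι] [DecidableEq ι]

/-- Siegel's upper half space: symmetric matrices with positive definite imaginary part -/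
def Hg (ι : Type) [Fintype ι] [DecidableEq ι] : Set (Matrix ι ι ℂ) :=
  {τ | τ.IsSymm ∧ (τ.map Complex.im).PosDef}

/-- the quadratic form of `τ` -/
noncomputable def qf (τ : Matrix ι ι ℂ) (x : ι → ℂ) : ℂ := x ⬝ᵥ (τ *ᵥ x)

/-- theta constant with characteristic `(a, b)` -/
noncomputable def thc (a b : ι → ℝ) (τ : Matrix ι ι ℂ) : ℂ :=
  ∑' n : ι → ℤ, cexp (Real.pi * I * qf τ (fun i => (n i : ℂ) + a i) +
    2 * Real.pi * I * ∑ i, ((n i : ℂ) + a i) * b i)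

/-- the theta function -/
noncomputable def theta (τ : Matrix ι ι ℂ) (z : ι → ℂ) : ℂ :=
  ∑' n : ι → ℤ, cexp (Real.pi * I * qf τ (fun i => (n i : ℂ)) +
    2 * Real.pi * I * ∑ i, (n i : ℂ) * z i)

/-- the point `τ a + b` -/
noncomputable def lat (τ : Matrix ι ι ℂ) (x : ι ⊕ ι → ℝ) : ι → ℂ :=
  fun i => (∑ j, τ i j * (x (Sum.inl j) : ℂ)) + (x (Sum.inr i) : ℂ)

/-- integer vector as real vector -/
def zr {κ : Type} (n : κ → ℤ) : κ → ℝ := fun i => (n i : ℝ)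

/-- the symplectic form -/
def Ep (μ ν : ι ⊕ ι → ℤ) : ℤ :=
  ∑ i, (μ (Sum.inl i) * ν (Sum.inr i) - μ (Sum.inr i) * ν (Sum.inl i))

end theta

section level

/-- characteristics of level `N` -/
abbrev Ch (N : ℕ) (ι : Type) : Type := (ι → ZMod N) × (ι → ZMod N)

variable {ι : Type} [Fintype ι] [DecidableEq ι]

/-- theta constant with characteristic `x / N` -/
noncomputable def thN (N : ℕ) (x : Ch N ι) (τ : Matrix ι ι ℂ) : ℂ :=
  thc (fun i => ((x.1 i).val : ℝ) / N) (fun i => ((x.2 i).val : ℝ) / N) τ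

/-- its power which has no character -/
noncomputable def pwN (N : ℕ) (x : Ch N ι) (τ : Matrix ι ι ℂ) : ℂ := thN N x τ ^ (48 * N ^ 2)

/-- distance to the nearest integer, squared, minus `1/12` -/
noncomputable def phiN (N : ℕ) (k : ZMod N) : ℝ :=
  (((min k.val (N - k.val) : ℕ) : ℝ) / N) ^ 2 - 1 / 12

/-- the (affine) pairing of `x` with `w` -/
def ell (N : ℕ) (w : (ι → ℤ) × (ι → ℤ)) (x : Ch N ι) : ZMod N :=
  ∑ i, ((w.1 i : ZMod N) * x.1 i + (w.2 i : ZMod N) * x.2 i +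
    ((N / 2 : ℕ) : ZMod N) * (w.1 i : ZMod N) * (w.2 i : ZMod N))

/-- `w` has an odd coordinate -/
def OddVec (w : (ι → ℤ) × (ι → ℤ)) : Prop := (∃ i, Odd (w.1 i)) ∨ ∃ i, Odd (w.2 i)

/-- (strongly) good sets of characteristics -/
def Good (N : ℕ) (S : Finset (Ch N ι)) : Prop :=
  ∀ (c : ZMod N) (w : (ι → ℤ) × (ι → ℤ)), OddVec w → 0 ≤ ∑ x ∈ S, phiN N (c + ell N w x)

/-- the main property of `τ` -/
def PP (τ : Matrix ι ι ℂ) : Prop :=
  ∃ s0 : ℕ, ∀ s ≥ s0, ∃ S : Finset (Ch (2 ^ s) ι), S.Nonempty ∧ Good (2 ^ s) S ∧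
    ∀ x ∈ S, thN (2 ^ s) x τ ≠ 0

/-- action of translations on characteristics -/
def cT (N : ℕ) (S : Matrix ι ι ℤ) (x : Ch N ι) : Ch N ι :=
  (x.1, fun i => x.2 i + (∑ j, (S i j : ZMod N) * x.1 j) + ((N / 2 : ℕ) : ZMod N) * (S i i : ZMod N))

/-- action of `U`, with inverse `V`, on characteristics -/
def cU (N : ℕ) (U V : Matrix ι ι ℤ) (x : Ch N ι) : Ch N ι :=
  (fun i => ∑ j, (U j i : ZMod N) * x.1 j, fun i => ∑ j, (V i j : ZMod N) * x.2 j)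

/-- action of the partial inversion on characteristics -/
def cJ (N : ℕ) (i : ι) (x : Ch N ι) : Ch N ι :=
  (Function.update x.1 i (x.2 i), Function.update x.2 i (-(x.1 i)))

end level

section moves

variable {ι : Type} [Fintype ι] [DecidableEq ι]

/-- translation -/
def mT (S : Matrix ι ι ℤ) (τ : Matrix ι ι ℂ) : Matrix ι ι ℂ := τ + S.map (Int.cast : ℤ → ℂ)

/-- base change -/
def mU (U : Matrix ι ι ℤ) (τ : Matrix ι ι ℂ) : Matrix ι ι ℂ :=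
  U.map (Int.cast : ℤ → ℂ) * τ * (U.map (Int.cast : ℤ → ℂ))ᵀ

/-- partial inversion -/
noncomputable def mJ (i : ι) (τ : Matrix ι ι ℂ) : Matrix ι ι ℂ :=
  Matrix.of fun j k =>
    if j = i then (if k = i then -1 / τ i i else τ i k / τ i i)
    else (if k = i then τ j i / τ i i else τ j k - τ j i * τ i k / τ i i)

/-- block matrix of the translation -/
def gT (S : Matrix ι ι ℤ) : Matrix (ι ⊕ ι) (ι ⊕ ι) ℤ := fromBlocks 1 S 0 1

/-- block matrix of the base change; `V` is the inverse of `U` -/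
def gU (U V : Matrix ι ι ℤ) : Matrix (ι ⊕ ι) (ι ⊕ ι) ℤ := fromBlocks U 0 0 Vᵀ

/-- block matrix of the partial inversion -/
def gJ (i : ι) : Matrix (ι ⊕ ι) (ι ⊕ ι) ℤ :=
  fromBlocks (1 - Matrix.single i i 1) (-Matrix.single i i 1) (Matrix.single i i 1)
    (1 - Matrix.single i i 1)

/-- the generators -/
def Gens (ι : Type) [Fintype ι] [DecidableEq ι] : Set (Matrix (ι ⊕ ι) (ι ⊕ ι) ℤ) :=
  {γ | (∃ S : Matrix ι ι ℤ, S.IsSymm ∧ γ = gT S) ∨ (∃ U V : Matrix ι ι ℤ, U * V = 1 ∧ γ = gU U V) ∨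
    ∃ i, γ = gJ i}

/-- the denominator `C τ + D` -/
noncomputable def den (γ : Matrix (ι ⊕ ι) (ι ⊕ ι) ℤ) (τ : Matrix ι ι ℂ) : Matrix ι ι ℂ :=
  (γ.map (Int.cast : ℤ → ℂ)).toBlocks₂₁ * τ + (γ.map (Int.cast : ℤ → ℂ)).toBlocks₂₂

/-- the numerator `A τ + B` -/
noncomputable def num (γ : Matrix (ι ⊕ ι) (ι ⊕ ι) ℤ) (τ : Matrix ι ι ℂ) : Matrix ι ι ℂ :=
  (γ.map (Int.cast : ℤ → ℂ)).toBlocks₁₁ * τ + (γ.map (Int.cast : ℤ → ℂ)).toBlocks₁₂

/-- the action `(A τ + B) (C τ + D)⁻¹` -/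
noncomputable def act (γ : Matrix (ι ⊕ ι) (ι ⊕ ι) ℤ) (τ : Matrix ι ι ℂ) : Matrix ι ι ℂ :=
  num γ τ * (den γ τ)⁻¹

end moves

section count

variable {ι κ : Type} [Fintype ι] [DecidableEq ι] [Fintype κ] [DecidableEq κ]

/-- the zero set of `f` contains a translate of a rational complex hyperplane -/
def HasFlat (f : (ι → ℂ) → ℂ) (B : (κ → ℝ) ≃L[ℝ] (ι → ℂ)) : Prop :=
  ∃ (W : Submodule ℂ (ι → ℂ)) (y : ι → ℂ) (n : Fin (2 * Fintype.card ι - 2) → (κ → ℤ)),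
    Module.finrank ℂ W + 1 = Fintype.card ι ∧ LinearIndependent ℤ n ∧
    (∀ i, B (zr (n i)) ∈ W) ∧ ∀ w ∈ W, f (y + w) = 0

/-- grid point -/
noncomputable def gp (B : (κ → ℝ) ≃L[ℝ] (ι → ℂ)) (N : ℕ) (y : κ → ℝ) (n : κ → ℤ) : ι → ℂ :=
  B (fun i => ((n i : ℝ) + y i) / N)

/-- points of the ball `‖x - z0‖ ≤ δ` from which a zero of `f` in `E` is seen in direction `u` at
distance at most `r` -/
def Sh (f : (ι → ℂ) → ℂ) (u : ι → ℂ) (E : Set (ι → ℂ)) (z0 : ι → ℂ) (δ r : ℝ) : Set (ι → ℂ) :=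
  {x | ‖x - z0‖ ≤ δ ∧ ∃ t : ℂ, ‖t‖ ≤ r ∧ x + t • u ∈ E ∧ f (x + t • u) = 0}

/-- block number `m` of size `r` with shift `s` -/
def Blk (B : (κ → ℝ) ≃L[ℝ] (ι → ℂ)) (s : κ → ℝ) (r : ℝ) (m : κ → ℤ) : Set (ι → ℂ) :=
  {x | ∀ i, r * m i ≤ B.symm x i - s i ∧ B.symm x i - s i < r * (m i + 1)}

/-- near `z` the zero set of `f` is contained in a hypersurface `Φ = 0`, whose tangent space at `z`
is not spanned by integer vectors of size `≤ K` -/
def KGood (f : (ι → ℂ) → ℂ) (B : (κ → ℝ) ≃L[ℝ] (ι → ℂ)) (K : ℕ) (z : ι → ℂ) : Prop :=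
  ∃ Φ : (ι → ℂ) → ℂ, (∀ᶠ x in nhds z, DifferentiableAt ℂ Φ x) ∧
    (∀ᶠ x in nhds z, f x = 0 → Φ x = 0) ∧
    ∀ n : Fin (2 * Fintype.card ι - 2) → (κ → ℤ), LinearIndependent ℤ n →
      (∀ i j, |n i j| ≤ (K : ℤ)) → ∃ i, fderiv ℂ Φ z (B (zr (n i))) ≠ 0

/-- iterated derivative in direction `u` -/
noncomputable def Du (f : (ι → ℂ) → ℂ) (u : ι → ℂ) : ℕ → ((ι → ℂ) → ℂ)
  | 0 => f
  | j + 1 => fun x => fderiv ℂ (Du f u j) x u

end count

end DF
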