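import Pool.Agent.helper32.DF.Defs

/-!
# F0 : holomorphic functions of several variables are `C¹`

(If Mathlib already has `DifferentiableOn ℂ f Ω → ContDiffOn` / analyticity for `f : E → ℂ` with `E`
finite dimensional, just use it.)

PROOF. Let `x0 ∈ Ω`, `ball x0 (2ρ) ⊂ Ω`, `f` bounded by `M` on `closedBall x0 (3ρ/2)`.
CAUCHY ESTIMATE: for `y ∈ ball x0 ρ` and `w ≠ 0`, the function `t ↦ f (y + t w)` on `|t| ≤ ρ/(2‖w‖)`
gives `‖fderiv f y w‖ ≤ 2 M ‖w‖ / ρ`.
FORMULA: for `x ∈ ball x0 (ρ/2)` and `ε ‖v‖ ≤ ρ/2`: `fderiv ℂ f x v = (2πi)⁻¹ ∮_{|t|=ε} f (x + t v)/t² dt`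
(the derivative at `0` of `t ↦ f (x + t v)`; Mathlib: `Complex.two_pi_I_inv_smul_circleIntegral...`,
`DiffContOnCl.circleIntegral_one_div_sub_center_pow_smul` or `cderiv`/`Complex.cderiv_eq_deriv`).
Differentiate under the integral sign: `hasFDerivAt_integral_of_dominated_of_fderiv_le` (the
`x`-derivative of the integrand is `fderiv f (x + t v) / t²`, bounded by the Cauchy estimate;
measurability in `t` from `measurable_fderiv`/`measurable_fderiv_with_param`).  This is `holo_deriv`.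
`holo_cont`: all `x ↦ fderiv f x v` are continuous and the space is finite dimensional
(`continuousOn_clm_apply` or a basis).  `holo_strict`: `hasStrictFDerivAt_of_hasFDerivAt_of_continuousAt`.
-/

namespace DF
variable {ι : Type} [Fintype ι] [DecidableEq ι]

omit [DecidableEq ι] in
theorem F0_line {f : (ι → ℂ) → ℂ} {x w : ι → ℂ} {t : ℂ} (hd : DifferentiableAt ℂ f (x + t • w)) :
    HasDerivAt (fun s : ℂ => f (x + s • w)) (fderiv ℂ f (x + t • w) w) t := by
  have h1 : HasDerivAt (fun s : ℂ => x + s • w) w t := by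
    simpa using ((hasDerivAt_id t).smul_const w).const_add x
  exact hd.hasFDerivAt.comp_hasDerivAt t h1

omit [DecidableEq ι] in
/-- Cauchy estimate -/
theorem F0_cauchy (f : (ι → ℂ) → ℂ) (y : ι → ℂ) (r M : ℝ) (hr : 0 < r)
    (hd : ∀ z, ‖z - y‖ ≤ r → DifferentiableAt ℂ f z) (hM : ∀ z, ‖z - y‖ ≤ r → ‖f z‖ ≤ M) :
    ‖fderiv ℂ f y‖ ≤ M / r := by
  have hM0 : 0 ≤ M := (norm_nonneg _).trans (hM y (by simpa using hr.le))
  refine ContinuousLinearMap.opNorm_le_bound _ (by positivity) fun w => ?_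
  by_cases hw : w = 0
  · subst hw
    simp
  have hw' : 0 < ‖w‖ := norm_pos_iff.2 hw
  have hR : 0 < r / ‖w‖ := by positivity
  have hin : ∀ t : ℂ, ‖t‖ ≤ r / ‖w‖ → ‖(y + t • w) - y‖ ≤ r := by
    intro t ht
    rw [add_sub_cancel_left, norm_smul]
    calc ‖t‖ * ‖w‖ ≤ r / ‖w‖ * ‖w‖ := by gcongr
      _ = r := by field_simp
  have h0 : deriv (fun s : ℂ => f (y + s • w)) 0 = fderiv ℂ f y w := by
    have := (F0_line (f := f) (x := y) (w := w) (t := 0)
      (hd _ (hin 0 (by simpa using hR.le)))).deriv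
    simpa using this
  rw [← h0]
  have h1 : ‖deriv (fun s : ℂ => f (y + s • w)) 0‖ ≤ M / (r / ‖w‖) := by
    refine Complex.norm_deriv_le_of_forall_mem_sphere_norm_le hR ?_ ?_
    · refine DifferentiableOn.diffContOnCl ?_
      rw [closure_ball _ hR.ne']
      intro t ht
      have ht' : ‖t‖ ≤ r / ‖w‖ := by simpa using ht
      exact (F0_line (hd _ (hin t ht'))).differentiableAt.differentiableWithinAt
    · intro z hz
      exact hM _ (hin z (by simpa using (mem_sphere_zero_iff_norm.1 hz).le))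
  calc _ ≤ M / (r / ‖w‖) := h1
    _ = M / r * ‖w‖ := by field_simp

theorem holo_deriv (Ω : Set (ι → ℂ)) (hΩ : IsOpen Ω) (f : (ι → ℂ) → ℂ)
    (hf : DifferentiableOn ℂ f Ω) (v : ι → ℂ) : DifferentiableOn ℂ (fun x => fderiv ℂ f x v) Ω := by
  intro x0 hx0
  obtain ⟨R, hR, hRΩ⟩ := Metric.isOpen_iff.1 hΩ x0 hx0
  obtain ⟨r, hr, hr4⟩ : ∃ r : ℝ, 0 < r ∧ 4 * r = R := ⟨R / 4, by positivity, by ring⟩
  have hK : Metric.closedBall x0 (3 * r) ⊆ Ω :=
    (Metric.closedBall_subset_ball (by linarith)).trans hRΩ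
  have hdiff : ∀ z, ‖z - x0‖ ≤ 3 * r → DifferentiableAt ℂ f z := by
    intro z hz
    refine hf.differentiableAt (hΩ.mem_nhds (hK ?_))
    rwa [Metric.mem_closedBall, dist_eq_norm]
  obtain ⟨M, hM⟩ := (isCompact_closedBall x0 (3 * r)).exists_bound_of_continuousOn
    (hf.continuousOn.mono hK)
  have hM' : ∀ z, ‖z - x0‖ ≤ 3 * r → ‖f z‖ ≤ M := by
    intro z hz
    refine hM z ?_
    rwa [Metric.mem_closedBall, dist_eq_norm]
  obtain ⟨ε, hε, hεv⟩ : ∃ ε : ℝ, 0 < ε ∧ ε * ‖v‖ ≤ r := by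
    refine ⟨r / (‖v‖ + 1), by positivity, ?_⟩
    rw [div_mul_eq_mul_div, div_le_iff₀ (by positivity)]
    nlinarith [norm_nonneg v]
  have hclose : ∀ x, ‖x - x0‖ ≤ r → ∀ t : ℂ, ‖t‖ ≤ ε → ‖(x + t • v) - x0‖ ≤ 2 * r := by
    intro x hx t ht
    have h1 : (x + t • v) - x0 = (x - x0) + t • v := by abel
    rw [h1]
    refine (norm_add_le _ _).trans ?_
    rw [norm_smul]
    have : ‖t‖ * ‖v‖ ≤ ε * ‖v‖ := by gcongr
    linarith
  have hcirc : ∀ θ : ℝ, ‖circleMap 0 ε θ‖ ≤ ε := by
    intro θ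
    simp [circleMap, abs_of_pos hε]
  -- the formula
  have hformula : ∀ x, ‖x - x0‖ < r → fderiv ℂ f x v = (2 * Real.pi * Complex.I : ℂ)⁻¹ •
      ∫ θ in (0 : ℝ)..2 * Real.pi,
        (deriv (circleMap 0 ε) θ * ((circleMap 0 ε θ - 0) ^ 2)⁻¹) • f (x + circleMap 0 ε θ • v) := by
    intro x hx
    have hopen : IsOpen {t : ℂ | ‖(x + t • v) - x0‖ < 3 * r} := by
      refine isOpen_lt ?_ continuous_const
      fun_prop
    have h1 := Complex.cderiv_eq_deriv (f := fun t : ℂ => f (x + t • v)) (z := 0) (r := ε) hopen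
      (fun t ht => (F0_line (hdiff _ (le_of_lt ht))).differentiableAt.differentiableWithinAt) hε
      (by
        intro t ht
        have ht' : ‖t‖ ≤ ε := by simpa using ht
        have := hclose x hx.le t ht'
        show ‖(x + t • v) - x0‖ < 3 * r
        linarith)
    have h2 : deriv (fun s : ℂ => f (x + s • v)) 0 = fderiv ℂ f x v := by
      have h3 : DifferentiableAt ℂ f (x + (0 : ℂ) • v) := hdiff _ (by
        have := hclose x hx.le 0 (by simpa using hε.le)
        linarith)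
      have := (F0_line h3).deriv
      simpa using this
    rw [← h2, ← h1, Complex.cderiv, circleIntegral]
    congr 1
    refine intervalIntegral.integral_congr fun θ _ => ?_
    simp only [smul_eq_mul]
    ring
  have hcmc : Continuous (fun θ : ℝ => circleMap 0 ε θ) := continuous_circleMap 0 ε
  have hcne : ∀ θ : ℝ, circleMap 0 ε θ - 0 ≠ 0 := by
    intro θ
    rw [sub_zero]
    exact circleMap_ne_center hε.ne'
  have hker : Continuous (fun θ : ℝ => deriv (circleMap 0 ε) θ * ((circleMap 0 ε θ - 0) ^ 2)⁻¹) := by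
    have h1 : Continuous (fun θ : ℝ => deriv (circleMap 0 ε) θ) := by
      simp only [deriv_circleMap]
      fun_prop
    refine h1.mul ?_
    refine Continuous.inv₀ (by fun_prop) ?_
    intro θ
    exact pow_ne_zero _ (hcne θ)
  have hcontF : ∀ x, ‖x - x0‖ < r → Continuous (fun θ : ℝ => f (x + circleMap 0 ε θ • v)) := by
    intro x hx
    rw [continuous_iff_continuousAt]
    intro θ
    have h1 : ContinuousAt f (x + circleMap 0 ε θ • v) := (hdiff _ (by
      have := hclose x hx.le _ (hcirc θ)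
      linarith)).continuousAt
    have h2 : ContinuousAt (fun θ : ℝ => x + circleMap 0 ε θ • v) θ := by fun_prop
    exact ContinuousAt.comp (f := fun θ : ℝ => x + circleMap 0 ε θ • v) h1 h2
  have hx0r : ‖x0 - x0‖ < r := by simpa using hr
  have key : HasFDerivAt (fun x => ∫ θ in (0 : ℝ)..2 * Real.pi,
        (deriv (circleMap 0 ε) θ * ((circleMap 0 ε θ - 0) ^ 2)⁻¹) • f (x + circleMap 0 ε θ • v))
      (∫ θ in (0 : ℝ)..2 * Real.pi,
        (deriv (circleMap 0 ε) θ * ((circleMap 0 ε θ - 0) ^ 2)⁻¹) •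
          fderiv ℂ f (x0 + circleMap 0 ε θ • v)) x0 := by
    refine intervalIntegral.hasFDerivAt_integral_of_dominated_of_fderiv_le
      (s := Metric.ball x0 r)
      (F := fun x θ => (deriv (circleMap 0 ε) θ * ((circleMap 0 ε θ - 0) ^ 2)⁻¹) •
        f (x + circleMap 0 ε θ • v))
      (F' := fun x θ => (deriv (circleMap 0 ε) θ * ((circleMap 0 ε θ - 0) ^ 2)⁻¹) •
          fderiv ℂ f (x + circleMap 0 ε θ • v))
      (bound := fun θ => ‖deriv (circleMap 0 ε) θ * ((circleMap 0 ε θ - 0) ^ 2)⁻¹‖ * (M / r))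
      (Metric.ball_mem_nhds x0 hr) ?_ ?_ ?_ ?_ ?_ ?_
    · filter_upwards [Metric.ball_mem_nhds x0 hr] with x hx
      rw [Metric.mem_ball, dist_eq_norm] at hx
      exact (hker.smul (hcontF x hx)).aestronglyMeasurable
    · exact (hker.smul (hcontF x0 hx0r)).intervalIntegrable _ _
    · have h1 : Measurable (fun θ : ℝ => fderiv ℂ f (x0 + circleMap 0 ε θ • v)) := by
        refine (measurable_fderiv ℂ f).comp ?_
        have : Continuous (fun θ : ℝ => x0 + circleMap 0 ε θ • v) := by fun_prop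
        exact this.measurable
      exact hker.aestronglyMeasurable.smul h1.aestronglyMeasurable
    · refine Filter.Eventually.of_forall fun θ _ x hx => ?_
      rw [Metric.mem_ball, dist_eq_norm] at hx
      rw [norm_smul]
      refine mul_le_mul_of_nonneg_left ?_ (norm_nonneg _)
      refine F0_cauchy f _ r M hr ?_ ?_
      · intro z hz
        refine hdiff z ?_
        have h1 := hclose x hx.le _ (hcirc θ)
        have h2 : z - x0 = (z - (x + circleMap 0 ε θ • v)) + ((x + circleMap 0 ε θ • v) - x0) := by abel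
        rw [h2]
        refine (norm_add_le _ _).trans ?_
        linarith
      · intro z hz
        refine hM' z ?_
        have h1 := hclose x hx.le _ (hcirc θ)
        have h2 : z - x0 = (z - (x + circleMap 0 ε θ • v)) + ((x + circleMap 0 ε θ • v) - x0) := by abel
        rw [h2]
        refine (norm_add_le _ _).trans ?_
        linarith
    · exact (hker.norm.mul continuous_const).intervalIntegrable _ _
    · refine Filter.Eventually.of_forall fun θ _ x hx => ?_
      rw [Metric.mem_ball, dist_eq_norm] at hx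
      have h1 : DifferentiableAt ℂ f (x + circleMap 0 ε θ • v) := hdiff _ (by
        have := hclose x hx.le _ (hcirc θ)
        linarith)
      have h2 : HasFDerivAt (fun x : ι → ℂ => x + circleMap 0 ε θ • v)
          (ContinuousLinearMap.id ℂ (ι → ℂ)) x := (hasFDerivAt_id x).add_const _
      have h3 := h1.hasFDerivAt.comp x h2
      rw [ContinuousLinearMap.comp_id] at h3
      exact h3.const_smul (deriv (circleMap 0 ε) θ * ((circleMap 0 ε θ - 0) ^ 2)⁻¹)
  have hev : (fun x => fderiv ℂ f x v) =ᶠ[nhds x0] fun x => (2 * Real.pi * Complex.I : ℂ)⁻¹ •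
      ∫ θ in (0 : ℝ)..2 * Real.pi,
        (deriv (circleMap 0 ε) θ * ((circleMap 0 ε θ - 0) ^ 2)⁻¹) • f (x + circleMap 0 ε θ • v) := by
    filter_upwards [Metric.ball_mem_nhds x0 hr] with x hx
    rw [Metric.mem_ball, dist_eq_norm] at hx
    exact hformula x hx
  have hd := (key.differentiableAt.const_smul ((2 * Real.pi * Complex.I : ℂ)⁻¹))
  exact (DifferentiableAt.congr_of_eventuallyEq hd hev).differentiableWithinAt

theorem holo_cont (Ω : Set (ι → ℂ)) (hΩ : IsOpen Ω) (f : (ι → ℂ) → ℂ)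
    (hf : DifferentiableOn ℂ f Ω) : ContinuousOn (fun x => fderiv ℂ f x) Ω := by
  rw [continuousOn_clm_apply]
  intro v
  exact (holo_deriv Ω hΩ f hf v).continuousOn

theorem holo_strict (Ω : Set (ι → ℂ)) (hΩ : IsOpen Ω) (f : (ι → ℂ) → ℂ)
    (hf : DifferentiableOn ℂ f Ω) (x : ι → ℂ) (hx : x ∈ Ω) :
    HasStrictFDerivAt f (fderiv ℂ f x) x := by
  refine hasStrictFDerivAt_of_hasFDerivAt_of_continuousAt ?_
    ((holo_cont Ω hΩ f hf).continuousAt (hΩ.mem_nhds hx))
  filter_upwards [hΩ.mem_nhds hx] with y hy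
  exact (hf.differentiableAt (hΩ.mem_nhds hy)).hasFDerivAt

end DF
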