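import Pool.Agent.helper32.DF.Defs

/-!
# F1a : doubling for entire functions

PROOF. `f` is not identically zero, hence not identically zero near `z0` (identity theorem,
`AnalyticOnNhd.eqOn_zero_of_preconnected_of_eventuallyEq_zero`; `f` is analytic:
`hf.differentiableOn.analyticOnNhd` works only in one variable; in several variables either restrict
to complex lines, or use that a ℂ-differentiable function on a finite dimensional space is analytic if
it is in Mathlib; only lines are needed here: if `f = 0` on a ball around `z0` then for every `z` the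
entire function `t ↦ f (z0 + t • (z - z0))` vanishes near `0`, so at `t = 1`).
Let `M z r = sup_{‖y‖ ≤ r} ‖f (z + y)‖` (attained, compact).
Choose `R > 0`, e.g. `R = 1`: for `‖z - z0‖ ≤ R'` (small) `M z (R) ≥ c1 > 0` since some point `z0+y*`,
`‖y*‖ < R/2`, has `f ≠ 0`, and `M z (2 R) ≤ C1`.
THREE CIRCLES: for a unit vector `e` and `0 < a < ρ < b`, apply Hadamard's three lines theorem
(`Complex.HadamardThreeLines...` in Mathlib/Analysis/Complex/Hadamard.lean) to
`w ↦ f (z + exp w • e)` on the strip `log a ≤ re w ≤ log b` (bounded there):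
`‖f (z + y)‖ ≤ M z a ^ (1-θ) * M z b ^ θ` for `‖y‖ = ρ`, `log ρ = (1-θ) log a + θ log b`.
As the right side increases with `θ` (`M z a ≤ M z b`), the same bound holds for all `‖y‖ ≤ ρ`.
So `φ(s) = log M z (exp s)` is convex (`M z r > 0` for all `r > 0`).
Convexity gives `φ(s + log 2) - φ(s) ≤ φ(log R + log 2) - φ(log R)` for `s ≤ log R`, i.e.
`M z (2r) / M z r ≤ M z (2R) / M z R ≤ C1 / c1`.
(If you prefer, avoid logarithms: with `a = r, b = 2R`: write both `2r` and `R` as the two
intermediate radii `r·2` and `2R/2`; they have parameters `θ` and `1-θ`, so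
`M(2r) * M(R) ≤ M(r) * M(2R)`: multiply the two three-circle inequalities.  This is the whole proof!
For `2 r > R`, i.e. `R/2 < r ≤ R` the same formula holds, as `2r, R` both lie in `[r, 2R]`.)
-/

set_option linter.unusedSectionVars false

namespace DF
variable {ι : Type} [Fintype ι] [DecidableEq ι]

open Complex Complex.HadamardThreeLines in
/-- Hadamard's three lines theorem on a circle through `y` -/
theorem circle_bound (f : (ι → ℂ) → ℂ) (hf : Differentiable ℂ f) (z y : ι → ℂ) (r b A B : ℝ)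
    (hr : 0 < r) (hrb : r < b) (hry : r ≤ ‖y‖) (hyb : ‖y‖ ≤ b)
    (hA : ∀ y, ‖y‖ ≤ r → ‖f (z + y)‖ ≤ A) (hB : ∀ y, ‖y‖ ≤ b → ‖f (z + y)‖ ≤ B) :
    ‖f (z + y)‖ ≤ A ^ (1 - (Real.log ‖y‖ - Real.log r) / (Real.log b - Real.log r)) *
      B ^ ((Real.log ‖y‖ - Real.log r) / (Real.log b - Real.log r)) := by
  have hs : 0 < ‖y‖ := lt_of_lt_of_le hr hry
  have hb : 0 < b := hr.trans hrb
  set e : ι → ℂ := ((‖y‖⁻¹ : ℝ) : ℂ) • y with he
  have hne : ‖e‖ = 1 := by
    rw [he, norm_smul, Complex.norm_real, norm_inv, norm_norm]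
    field_simp
  set g : ℂ → ℂ := fun w => f (z + cexp w • e) with hg
  have hgd : Differentiable ℂ g := by
    intro w
    refine (hf _).comp w ?_
    exact ((differentiable_exp.smul_const e).const_add z) w
  have hnorm : ∀ w : ℂ, ‖cexp w • e‖ = Real.exp w.re := by
    intro w
    rw [norm_smul, hne, mul_one, Complex.norm_exp]
  have hpt : g ((Real.log ‖y‖ : ℝ) : ℂ) = f (z + y) := by
    simp only [hg, he]
    congr 2
    rw [← Complex.ofReal_exp, Real.exp_log hs, smul_smul, ← Complex.ofReal_mul,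
      mul_inv_cancel₀ hs.ne', Complex.ofReal_one, one_smul]
  have hll : Real.log r < Real.log b := Real.log_lt_log hr hrb
  have h := norm_le_interp_of_mem_verticalClosedStrip' (f := g) (z := ((Real.log ‖y‖ : ℝ) : ℂ))
    (a := A) (b := B) hll
    (by
      simp only [verticalClosedStrip, Set.mem_preimage, Complex.ofReal_re, Set.mem_Icc]
      exact ⟨Real.log_le_log hr hry, Real.log_le_log hs hyb⟩)
    hgd.diffContOnCl
    (by
      refine ⟨B, ?_⟩
      rintro _ ⟨w, hw, rfl⟩
      simp only [verticalClosedStrip, Set.mem_preimage, Set.mem_Icc] at hw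
      refine hB _ ?_
      rw [hnorm]
      calc Real.exp w.re ≤ Real.exp (Real.log b) := Real.exp_le_exp.2 hw.2
        _ = b := Real.exp_log hb)
    (by
      intro w hw
      refine hA _ ?_
      rw [hnorm]
      simp only [Set.mem_preimage, Set.mem_singleton_iff] at hw
      rw [hw, Real.exp_log hr])
    (by
      intro w hw
      refine hB _ ?_
      rw [hnorm]
      simp only [Set.mem_preimage, Set.mem_singleton_iff] at hw
      rw [hw, Real.exp_log hb])
  rw [hpt, Complex.ofReal_re] at h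
  exact h

/-- the bound on a ball -/
theorem ball_bound (f : (ι → ℂ) → ℂ) (hf : Differentiable ℂ f) (z y : ι → ℂ) (r s b A B : ℝ)
    (hr : 0 < r) (hrb : r < b) (hrs : r ≤ s) (hys : ‖y‖ ≤ s) (hsb : s ≤ b)
    (hA0 : 0 < A) (hAB : A ≤ B)
    (hA : ∀ y, ‖y‖ ≤ r → ‖f (z + y)‖ ≤ A) (hB : ∀ y, ‖y‖ ≤ b → ‖f (z + y)‖ ≤ B) :
    ‖f (z + y)‖ ≤ A ^ (1 - (Real.log s - Real.log r) / (Real.log b - Real.log r)) *
      B ^ ((Real.log s - Real.log r) / (Real.log b - Real.log r)) := by
  have hll : 0 < Real.log b - Real.log r := by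
    have := Real.log_lt_log hr hrb; linarith
  have hs : 0 < s := lt_of_lt_of_le hr hrs
  have hB0 : 0 < B := lt_of_lt_of_le hA0 hAB
  -- rewriting `A^(1-t) B^t = A (B/A)^t`
  have key : ∀ t : ℝ, A ^ (1 - t) * B ^ t = A * (B / A) ^ t := by
    intro t
    rw [Real.div_rpow hB0.le hA0.le, Real.rpow_sub hA0, Real.rpow_one]
    field_simp
  have hBA : 1 ≤ B / A := by rw [le_div_iff₀ hA0]; linarith
  rcases le_total ‖y‖ r with h | h
  · refine (hA y h).trans ?_
    rw [key]
    have h1 : 0 ≤ (Real.log s - Real.log r) / (Real.log b - Real.log r) := by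
      have := Real.log_le_log hr hrs
      apply div_nonneg _ hll.le
      linarith
    have h2 : 1 ≤ (B / A) ^ ((Real.log s - Real.log r) / (Real.log b - Real.log r)) :=
      Real.one_le_rpow hBA h1
    nlinarith
  · have h1 := circle_bound f hf z y r b A B hr hrb h (hys.trans hsb) hA hB
    refine h1.trans ?_
    rw [key, key]
    have hy0 : 0 < ‖y‖ := lt_of_lt_of_le hr h
    have h2 : (B / A) ^ ((Real.log ‖y‖ - Real.log r) / (Real.log b - Real.log r)) ≤
        (B / A) ^ ((Real.log s - Real.log r) / (Real.log b - Real.log r)) := by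
      apply Real.rpow_le_rpow_of_exponent_le hBA
      apply div_le_div_of_nonneg_right _ hll.le
      have := Real.log_le_log hy0 hys
      linarith
    exact mul_le_mul_of_nonneg_left h2 hA0.le

/-- positive version -/
theorem three_circles_pos (f : (ι → ℂ) → ℂ) (hf : Differentiable ℂ f) (z : ι → ℂ) (r R A B : ℝ)
    (hr : 0 < r) (hrR : r ≤ R) (hA0 : 0 < A) (hAB : A ≤ B)
    (hA : ∀ y, ‖y‖ ≤ r → ‖f (z + y)‖ ≤ A)
    (hB : ∀ y, ‖y‖ ≤ 2 * R → ‖f (z + y)‖ ≤ B) :
    ∀ y y', ‖y‖ ≤ 2 * r → ‖y'‖ ≤ R → ‖f (z + y)‖ * ‖f (z + y')‖ ≤ A * B := by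
  intro y y' hy hy'
  have hR : 0 < R := lt_of_lt_of_le hr hrR
  have hB0 : 0 < B := lt_of_lt_of_le hA0 hAB
  have h1 := ball_bound f hf z y r (2 * r) (2 * R) A B hr (by linarith) (by linarith) hy
    (by linarith) hA0 hAB hA hB
  have h2 := ball_bound f hf z y' r R (2 * R) A B hr (by linarith) hrR hy'
    (by linarith) hA0 hAB hA hB
  set L := Real.log (2 * R) - Real.log r with hL
  have hLpos : 0 < L := by
    have := Real.log_lt_log hr (show r < 2 * R by linarith); linarith
  have hsum : (Real.log (2 * r) - Real.log r) / L + (Real.log R - Real.log r) / L = 1 := by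
    rw [← add_div, div_eq_one_iff_eq hLpos.ne', hL, Real.log_mul (by norm_num) hr.ne',
      Real.log_mul (by norm_num) hR.ne']
    ring
  set t := (Real.log (2 * r) - Real.log r) / L with ht
  set t' := (Real.log R - Real.log r) / L with ht'
  calc ‖f (z + y)‖ * ‖f (z + y')‖ ≤ (A ^ (1 - t) * B ^ t) * (A ^ (1 - t') * B ^ t') :=
        mul_le_mul h1 h2 (norm_nonneg _) (by positivity)
    _ = (A ^ (1 - t) * A ^ (1 - t')) * (B ^ t * B ^ t') := by ring
    _ = A ^ (1 - t + (1 - t')) * B ^ (t + t') := by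
        rw [Real.rpow_add hA0, Real.rpow_add hB0]
    _ = A * B := by
        rw [hsum, show 1 - t + (1 - t') = 1 by linarith, Real.rpow_one, Real.rpow_one]

/-- multiplicative three circles inequality -/
theorem three_circles (f : (ι → ℂ) → ℂ) (hf : Differentiable ℂ f) (z : ι → ℂ) (r R A B : ℝ)
    (hr : 0 < r) (hrR : r ≤ R) (hA : ∀ y, ‖y‖ ≤ r → ‖f (z + y)‖ ≤ A)
    (hB : ∀ y, ‖y‖ ≤ 2 * R → ‖f (z + y)‖ ≤ B) :
    ∀ y y', ‖y‖ ≤ 2 * r → ‖y'‖ ≤ R → ‖f (z + y)‖ * ‖f (z + y')‖ ≤ A * B := by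
  intro y y' hy hy'
  have hB0 : 0 ≤ B := (norm_nonneg _).trans (hB 0 (by simp; linarith))
  have hA0 : 0 ≤ A := (norm_nonneg _).trans (hA 0 (by simp; linarith))
  have hA' : ∀ y, ‖y‖ ≤ r → ‖f (z + y)‖ ≤ min A B := fun y hy =>
    le_min (hA y hy) (hB y (by linarith))
  have hev : ∀ ε : ℝ, 0 < ε → ‖f (z + y)‖ * ‖f (z + y')‖ ≤ (min A B + ε) * (B + ε) := by
    intro ε hε
    refine three_circles_pos f hf z r R (min A B + ε) (B + ε) hr hrR ?_ ?_ ?_ ?_ y y' hy hy'
    · have : 0 ≤ min A B := le_min hA0 hB0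
      linarith
    · have := min_le_right A B; linarith
    · intro y hy; have := hA' y hy; linarith
    · intro y hy; have := hB y hy; linarith
  have hlim : Filter.Tendsto (fun ε : ℝ => (min A B + ε) * (B + ε)) (nhdsWithin 0 (Set.Ioi 0))
      (nhds ((min A B + 0) * (B + 0))) := by
    apply Filter.Tendsto.mono_left _ nhdsWithin_le_nhds
    apply Continuous.tendsto
    fun_prop
  have h1 : ‖f (z + y)‖ * ‖f (z + y')‖ ≤ (min A B + 0) * (B + 0) := by
    refine ge_of_tendsto hlim ?_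
    filter_upwards [self_mem_nhdsWithin] with ε hε using hev ε hε
  rw [add_zero, add_zero] at h1
  refine h1.trans ?_
  exact mul_le_mul_of_nonneg_right (min_le_left _ _) hB0

theorem doubling (f : (ι → ℂ) → ℂ) (hf : Differentiable ℂ f) (hne : ∃ z, f z ≠ 0) (z0 : ι → ℂ) :
    ∃ C R : ℝ, 0 < C ∧ 0 < R ∧ ∀ z, ‖z - z0‖ ≤ R → ∀ r, 0 < r → r ≤ R → ∀ y, ‖y‖ ≤ 2 * r →
      ∃ y', ‖y'‖ ≤ r ∧ ‖f (z + y)‖ ≤ C * ‖f (z + y')‖ := by
  -- a point near `z0` where `f` does not vanish
  obtain ⟨p, hp, hfp⟩ : ∃ p, ‖p - z0‖ ≤ 1 ∧ f p ≠ 0 := by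
    by_contra hcon
    push Not at hcon
    obtain ⟨z, hz⟩ := hne
    apply hz
    set g : ℂ → ℂ := fun t => f (z0 + t • (z - z0)) with hg
    have hgd : Differentiable ℂ g := by
      intro w
      refine (hf _).comp w ?_
      exact ((differentiable_id.smul_const (z - z0)).const_add z0) w
    have hga : AnalyticOnNhd ℂ g Set.univ := fun t _ => hgd.analyticAt t
    have hev : g =ᶠ[nhds 0] (fun _ => (0 : ℂ)) := by
      have hc : Filter.Tendsto (fun t : ℂ => ‖t • (z - z0)‖) (nhds 0) (nhds 0) := by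
        have : Continuous (fun t : ℂ => ‖t • (z - z0)‖) := by fun_prop
        simpa using this.tendsto 0
      have h1 : ∀ᶠ t : ℂ in nhds 0, ‖t • (z - z0)‖ < 1 := hc.eventually (gt_mem_nhds one_pos)
      filter_upwards [h1] with t ht
      apply hcon
      simpa using ht.le
    have h2 := hga.eq_of_eventuallyEq (g := fun _ => (0 : ℂ)) (fun _ _ => analyticAt_const) hev
    have h3 := congrFun h2 1
    simpa [hg] using h3
  -- upper bound
  obtain ⟨C1, hC1⟩ : ∃ C1 : ℝ, ∀ w ∈ Metric.closedBall z0 5, ‖f w‖ ≤ C1 :=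
    (isCompact_closedBall z0 5).exists_bound_of_continuousOn hf.continuous.continuousOn
  have hC10 : 0 ≤ C1 := (norm_nonneg _).trans (hC1 z0 (by simp))
  have hfp' : 0 < ‖f p‖ := norm_pos_iff.2 hfp
  refine ⟨(C1 + 1) / ‖f p‖, 1, by positivity, one_pos, ?_⟩
  intro z hz r hr hr1 y hy
  -- maximum on the ball of radius `r`
  obtain ⟨y', hy', hmax⟩ := (isCompact_closedBall (0 : ι → ℂ) r).exists_isMaxOn
    ⟨0, by simp [hr.le]⟩ (f := fun y => ‖f (z + y)‖) (by
      have := hf.continuous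
      fun_prop)
  refine ⟨y', by simpa using hy', ?_⟩
  have h := three_circles f hf z r 2 ‖f (z + y')‖ C1 hr (by linarith)
    (fun w hw => hmax (by simpa using hw))
    (fun w hw => hC1 _ (by
      rw [Metric.mem_closedBall, dist_eq_norm]
      calc ‖z + w - z0‖ = ‖(z - z0) + w‖ := by congr 1; abel
        _ ≤ ‖z - z0‖ + ‖w‖ := norm_add_le _ _
        _ ≤ 5 := by linarith))
    y (p - z) hy (by
      calc ‖p - z‖ = ‖(p - z0) - (z - z0)‖ := by congr 1; abel
        _ ≤ ‖p - z0‖ + ‖z - z0‖ := norm_sub_le _ _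
        _ ≤ 2 := by linarith)
  rw [add_sub_cancel] at h
  have h0 : 0 ≤ ‖f (z + y')‖ := norm_nonneg _
  rw [div_mul_eq_mul_div, le_div_iff₀ hfp']
  nlinarith

end DF
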