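import Pool.Agent.helper32.DF.F1a

/-!
# F1b : blow up limits

PROOF. Let `C, R` be from `doubling`; for large `k`: `‖z k - z0‖ ≤ R` and `2 r k ≤ R`
(drop finitely many `k`; if you like, first pass to a tail of the sequence).
Let `M k = max_{‖y‖ ≤ 1} ‖f (z k + r k • y)‖`, which is `> 0` (otherwise, by `doubling` iterated or by
the identity theorem on lines, `f = 0`: `f` would vanish on a ball, hence on every complex line
through its centre).  Put `F_k y = f (z k + r k • y) / M k`.  Then `max_{‖y‖≤1} ‖F_k‖ = 1` and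
`‖F_k y‖ ≤ C` for `‖y‖ ≤ 2`.
EQUICONTINUITY on `‖y‖ ≤ 1`: for `y ≠ y'` in the closed unit ball, with `e = (y' - y)/‖y'-y‖` the
function `t ↦ F_k (y + t e)` is bounded by `C` on `|t| ≤ 1`, so its derivative at `0`... simplest:
for `‖y' - y‖ < 1/2`, `Complex.dist_le_div_mul_dist_of_mapsTo_ball` (Schwarz) or the Cauchy estimate
`Complex.norm_deriv_le_of_forall_mem_sphere_norm_le` gives `‖F_k y' - F_k y‖ ≤ 4 C ‖y' - y‖`; for
`‖y'-y‖ ≥ 1/2` trivial.
ARZELA-ASCOLI: `BoundedContinuousFunction.arzela_ascoli` on the compact space `closedBall 0 1` (as a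
subtype), values in `closedBall 0 C ⊂ ℂ`: a subsequence converges uniformly to a continuous `F` on
the closed ball (extend `F` arbitrarily outside).
`F ≠ 0`: `max ‖F_k‖ = 1` on the closed unit ball, so `F` is not identically zero on it, so by
continuity it is nonzero at some point of the open ball (points `(1-ε) y`).
-/

set_option linter.unusedSectionVars false

namespace DF
open Filter Topology
variable {ι : Type} [Fintype ι] [DecidableEq ι]

/-- the identity theorem on complex lines -/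
theorem entire_zero_of_ball (f : (ι → ℂ) → ℂ) (hf : Differentiable ℂ f) (z : ι → ℂ) (r : ℝ)
    (hr : 0 < r) (h : ∀ y, ‖y‖ ≤ 1 → f (z + (r : ℂ) • y) = 0) : ∀ x, f x = 0 := by
  intro x
  have hd : Differentiable ℂ (fun t : ℂ => f (z + t • (x - z))) := by
    have h2 : Differentiable ℂ fun t : ℂ => z + t • (x - z) := by fun_prop
    exact hf.comp h2
  have ha : AnalyticOnNhd ℂ (fun t : ℂ => f (z + t • (x - z))) Set.univ :=
    hd.differentiableOn.analyticOnNhd isOpen_univ
  have hz : ∀ᶠ t : ℂ in 𝓝 0, f (z + t • (x - z)) = 0 := by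
    have hc : Tendsto (fun t : ℂ => ‖((r : ℂ)⁻¹ * t) • (x - z)‖) (𝓝 0) (𝓝 0) := by
      have := (show Continuous fun t : ℂ => ‖((r : ℂ)⁻¹ * t) • (x - z)‖ by fun_prop).tendsto 0
      simpa using this
    filter_upwards [hc.eventually (Iic_mem_nhds (show (0:ℝ) < 1 by norm_num))] with t ht
    have h3 := h _ ht
    rw [smul_smul, ← mul_assoc, mul_inv_cancel₀ (by exact_mod_cast hr.ne'), one_mul] at h3
    exact h3
  have := ha.eqOn_zero_of_preconnected_of_eventuallyEq_zero isPreconnected_univ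
    (Set.mem_univ 0) hz (Set.mem_univ 1)
  simpa using this

/-- the blow up statement when all scales are small -/
theorem blowup_aux (f : (ι → ℂ) → ℂ) (hf : Differentiable ℂ f) (hne : ∃ z, f z ≠ 0)
    (C : ℝ) (hC : 0 < C) (z : ℕ → (ι → ℂ)) (r : ℕ → ℝ) (hr0 : ∀ k, 0 < r k)
    (hdoub : ∀ k, ∀ y, ‖y‖ ≤ 2 * r k → ∃ y', ‖y'‖ ≤ r k ∧ ‖f (z k + y)‖ ≤ C * ‖f (z k + y')‖) :
    ∃ (φ : ℕ → ℕ) (M : ℕ → ℝ) (F : (ι → ℂ) → ℂ), StrictMono φ ∧ (∀ k, 0 < M k) ∧
      TendstoUniformlyOn (fun k y => f (z (φ k) + (r (φ k) : ℂ) • y) / (M k : ℂ)) F atTop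
        (Metric.closedBall 0 1) ∧
      ContinuousOn F (Metric.closedBall 0 1) ∧ ∃ y, ‖y‖ < 1 ∧ F y ≠ 0 := by
  have hKc : IsCompact (Metric.closedBall (0 : ι → ℂ) 1) := isCompact_closedBall 0 1
  have : CompactSpace (Metric.closedBall (0 : ι → ℂ) 1) := isCompact_iff_compactSpace.1 hKc
  have hcf : Continuous f := hf.continuous
  -- the maximum on the unit ball
  have hmax : ∀ k, ∃ y, ‖y‖ ≤ 1 ∧ ∀ y', ‖y'‖ ≤ 1 →
      ‖f (z k + (r k : ℂ) • y')‖ ≤ ‖f (z k + (r k : ℂ) • y)‖ := by
    intro k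
    obtain ⟨y, hy, hmx⟩ := hKc.exists_isMaxOn (f := fun y => ‖f (z k + (r k : ℂ) • y)‖)
      ⟨0, by simp⟩ (by fun_prop)
    exact ⟨y, by simpa using hy, fun y' hy' => hmx (by simpa using hy')⟩
  choose yk hyk hykmax using hmax
  set M : ℕ → ℝ := fun k => ‖f (z k + (r k : ℂ) • yk k)‖ with hM
  have hM0 : ∀ k, 0 < M k := by
    intro k
    rcases (norm_nonneg (f (z k + (r k : ℂ) • yk k))).lt_or_eq with h | h
    · exact h
    · exfalso
      obtain ⟨x, hx⟩ := hne
      apply hx
      apply entire_zero_of_ball f hf (z k) (r k) (hr0 k)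
      intro y hy
      have := hykmax k y hy
      rw [← h] at this
      exact norm_le_zero_iff.1 this
  set Fk : ℕ → (ι → ℂ) → ℂ := fun k y => f (z k + (r k : ℂ) • y) / (M k : ℂ) with hFk
  have hFkd : ∀ k, Differentiable ℂ (Fk k) := by
    intro k
    have h2 : Differentiable ℂ fun y : ι → ℂ => z k + (r k : ℂ) • y := by fun_prop
    have h3 : Differentiable ℂ fun y : ι → ℂ => f (z k + (r k : ℂ) • y) := hf.comp h2
    simp only [hFk, div_eq_mul_inv]
    exact h3.mul_const _
  have hFk1 : ∀ k y, ‖y‖ ≤ 1 → ‖Fk k y‖ ≤ 1 := by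
    intro k y hy
    simp only [hFk, norm_div, Complex.norm_real, Real.norm_eq_abs, abs_of_pos (hM0 k)]
    rw [div_le_one (hM0 k)]
    exact hykmax k y hy
  have hFkC : ∀ k y, ‖y‖ ≤ 2 → ‖Fk k y‖ ≤ C := by
    intro k y hy
    simp only [hFk, norm_div, Complex.norm_real, Real.norm_eq_abs, abs_of_pos (hM0 k)]
    rw [div_le_iff₀ (hM0 k)]
    obtain ⟨y', hy', h⟩ := hdoub k ((r k : ℂ) • y) (by
      rw [norm_smul, Complex.norm_real, Real.norm_eq_abs, abs_of_pos (hr0 k)]
      nlinarith [hr0 k])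
    refine h.trans (mul_le_mul_of_nonneg_left ?_ hC.le)
    have h3 := hykmax k ((r k : ℂ)⁻¹ • y') (by
      rw [norm_smul, norm_inv, Complex.norm_real, Real.norm_eq_abs, abs_of_pos (hr0 k)]
      rw [inv_mul_le_iff₀ (hr0 k)]; linarith)
    rw [smul_smul, mul_inv_cancel₀ (by exact_mod_cast (hr0 k).ne'), one_smul] at h3
    exact h3
  -- Lipschitz bound
  have hLip : ∀ k y y', ‖y‖ ≤ 1 → ‖y'‖ ≤ 1 → dist (Fk k y') (Fk k y) ≤ (2 * C + 2) * dist y' y := by
    intro k y y' hy hy'
    rcases lt_or_ge (dist y' y) 1 with h | h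
    · have h1 : Set.MapsTo (Fk k) (Metric.ball y 1) (Metric.closedBall (Fk k y) (2 * C)) := by
        intro x hx
        rw [Metric.mem_ball, dist_eq_norm] at hx
        have hx2 : ‖x‖ ≤ 2 := by
          have : x = y + (x - y) := by abel
          rw [this]
          exact (norm_add_le _ _).trans (by linarith)
        rw [Metric.mem_closedBall, dist_eq_norm]
        have e1 := hFkC k x hx2
        have e2 := hFkC k y (by linarith)
        exact (norm_sub_le _ _).trans (by linarith)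
      have h2 := Complex.dist_le_div_mul_dist_of_mapsTo_ball (hFkd k).differentiableOn h1
        (show y' ∈ Metric.ball y 1 from h)
      rw [div_one] at h2
      refine h2.trans ?_
      nlinarith [dist_nonneg (x := y') (y := y)]
    · have e1 := hFk1 k y hy
      have e2 := hFk1 k y' hy'
      have e3 : dist (Fk k y') (Fk k y) ≤ 2 := by
        rw [dist_eq_norm]
        exact (norm_sub_le _ _).trans (by linarith)
      nlinarith
  -- the bounded continuous functions
  set Gk : ℕ → BoundedContinuousFunction (Metric.closedBall (0 : ι → ℂ) 1) ℂ := fun k =>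
    BoundedContinuousFunction.mkOfCompact ⟨fun y => Fk k y.1,
      (hFkd k).continuous.comp continuous_subtype_val⟩ with hGk
  have hGkv : ∀ k y, Gk k y = Fk k y.1 := fun k y => rfl
  have hcomp : IsCompact (closure (Set.range Gk)) := by
    apply BoundedContinuousFunction.arzela_ascoli (Metric.closedBall (0:ℂ) 1)
      (isCompact_closedBall 0 1)
    · rintro g y ⟨k, rfl⟩
      rw [hGkv, Metric.mem_closedBall, dist_zero_right]
      exact hFk1 k y.1 (mem_closedBall_zero_iff.1 y.2)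
    · apply UniformEquicontinuous.equicontinuous
      apply LipschitzWith.uniformEquicontinuous _ (Real.toNNReal (2 * C + 2))
      rintro ⟨g, k, rfl⟩
      apply LipschitzWith.of_dist_le_mul
      intro y' y
      rw [Real.coe_toNNReal _ (by linarith)]
      exact hLip k y.1 y'.1 (mem_closedBall_zero_iff.1 y.2) (mem_closedBall_zero_iff.1 y'.2)
  obtain ⟨Ginf, -, φ, hφ, hlim⟩ := hcomp.tendsto_subseq (x := Gk)
    (fun k => subset_closure (Set.mem_range_self k))
  classical
  set F : (ι → ℂ) → ℂ := fun y => if h : y ∈ Metric.closedBall (0 : ι → ℂ) 1 then Ginf ⟨y, h⟩ else 0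
    with hF
  have hunif : TendstoUniformlyOn (fun k y => f (z (φ k) + (r (φ k) : ℂ) • y) / (M (φ k) : ℂ)) F
      atTop (Metric.closedBall 0 1) := by
    rw [Metric.tendstoUniformlyOn_iff]
    intro ε hε
    filter_upwards [(tendsto_iff_dist_tendsto_zero.1 hlim).eventually (Iio_mem_nhds hε)] with k hk y hy
    have e1 : F y = Ginf ⟨y, hy⟩ := by simp only [hF, dif_pos hy]
    have e2 : f (z (φ k) + (r (φ k) : ℂ) • y) / (M (φ k) : ℂ) = Gk (φ k) ⟨y, hy⟩ := rfl
    rw [e1, e2, dist_comm]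
    exact (BoundedContinuousFunction.dist_coe_le_dist _).trans_lt hk
  have hFc : ContinuousOn F (Metric.closedBall 0 1) := by
    rw [continuousOn_iff_continuous_domRestrict]
    have : Set.domRestrict (Metric.closedBall (0 : ι → ℂ) 1) F = Ginf := by
      ext y
      simp only [Set.domRestrict_apply, hF, dif_pos y.2]
    rw [this]
    exact Ginf.continuous
  refine ⟨φ, fun k => M (φ k), F, hφ, fun k => hM0 _, hunif, hFc, ?_⟩
  by_contra hno
  push Not at hno
  have hz0 : ∀ y ∈ Metric.closedBall (0 : ι → ℂ) 1, F y = 0 := by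
    have h1 : Set.EqOn F (fun _ => 0) (Metric.ball (0 : ι → ℂ) 1) := fun y hy =>
      hno y (by simpa using hy)
    have h2 := h1.of_subset_closure hFc continuousOn_const Metric.ball_subset_closedBall
      (by rw [closure_ball _ one_ne_zero])
    exact fun y hy => h2 hy
  rw [Metric.tendstoUniformlyOn_iff] at hunif
  obtain ⟨k, hk⟩ := (hunif 1 one_pos).exists
  have h1 := hk (yk (φ k)) (by simpa using hyk (φ k))
  rw [hz0 _ (by simpa using hyk (φ k)), dist_zero_left, norm_div, Complex.norm_real,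
    Real.norm_eq_abs, abs_of_pos (hM0 _), div_lt_one (hM0 _)] at h1
  exact lt_irrefl _ h1

theorem blowup (f : (ι → ℂ) → ℂ) (hf : Differentiable ℂ f) (hne : ∃ z, f z ≠ 0) (z0 : ι → ℂ)
    (z : ℕ → (ι → ℂ)) (r : ℕ → ℝ) (hz : Tendsto z atTop (𝓝 z0)) (hr : Tendsto r atTop (𝓝 0))
    (hr0 : ∀ k, 0 < r k) :
    ∃ (φ : ℕ → ℕ) (M : ℕ → ℝ) (F : (ι → ℂ) → ℂ), StrictMono φ ∧ (∀ k, 0 < M k) ∧
      TendstoUniformlyOn (fun k y => f (z (φ k) + (r (φ k) : ℂ) • y) / (M k : ℂ)) F atTop
        (Metric.closedBall 0 1) ∧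
      ContinuousOn F (Metric.closedBall 0 1) ∧ ∃ y, ‖y‖ < 1 ∧ F y ≠ 0 := by
  obtain ⟨C, R, hC, hR, hd⟩ := doubling f hf hne z0
  have h1 : ∀ᶠ k in atTop, ‖z k - z0‖ ≤ R ∧ r k ≤ R := by
    have e1 := (tendsto_iff_norm_sub_tendsto_zero.1 hz).eventually (Iic_mem_nhds hR)
    have e2 := hr.eventually (Iic_mem_nhds hR)
    exact e1.and e2
  obtain ⟨N, hN⟩ := eventually_atTop.1 h1
  obtain ⟨φ, M, F, hφ, hM, h2, h3, h4⟩ := blowup_aux f hf hne C hC (fun k => z (k + N))
    (fun k => r (k + N)) (fun k => hr0 _)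
    (fun k y hy => hd _ (hN (k + N) (by omega)).1 _ (hr0 _) (hN (k + N) (by omega)).2 y hy)
  exact ⟨fun k => φ k + N, M, F, fun a b hab => Nat.add_lt_add_right (hφ hab) N, hM, h2, h3, h4⟩

end DF
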