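import Pool.Agent.helper32.DF.F1b

/-!
# F1c : the ball lemma

PROOF. The set `D = {u | f (z0 + u) ≠ 0}` is open, and dense (if `f = 0` on a ball then `f = 0` on
all lines through its centre, so `f = 0`, contradiction).  Let `u_0, u_1, …` be a sequence which is
dense in `D` (hence in the whole space), `u_k ∈ D` (e.g. `TopologicalSpace.exists_countable_dense` for
the subtype, or `Dense.exists_countable...`).  All of them satisfy `∃ t, f (z0 + t • u) ≠ 0` (`t = 1`).
Suppose the claim is false.  For each `k` use `U = {u_0..u_k}`, `c = 1/(k+1)`, `δ = 1/(k+1)`: there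
are `z_k`, `r_k` with `‖z_k - z0‖ ≤ 1/(k+1)`, `f z_k = 0`, `0 < r_k ≤ 1/(k+1)` and for all `i ≤ k` there
is `x` (depends on `k, i`), `‖x - z_k‖ ≤ r_k/(k+1)`, such that `f (x + t • u_i) ≠ 0` for all
`‖t‖ ≤ r_k`.  Take `φ, M, F` from `blowup`; `F 0 = 0` since `f z_k = 0`.  Choose `y`, `‖y‖ < 1`,
`F y ≠ 0`, and by continuity of `F` on the open ball and density some `i` with `‖u_i‖ < 1`,
`F (u_i) ≠ 0`.  (So `u_i ≠ 0`.)  Write `u = u_i`.  The function `G(t) = F (t • u)` is continuous on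
`|t| ≤ 1` and holomorphic in `|t| < 1` (in fact for `|t| < 1/‖u‖`; a uniform limit of holomorphic
functions: `TendstoLocallyUniformlyOn.differentiableOn`), `G 0 = 0`, `G` is not identically zero on
the disc (as `G 1 ≠ 0`, continuity gives points inside with `G ≠ 0`).  Isolated zeros
(`AnalyticAt.eventually_eq_zero_or_eventually_ne_zero` + identity theorem) give `0 < ρ < 1` with
`G t ≠ 0` for `|t| = ρ`; let `m = min_{|t| = ρ} |G t| > 0`.
For large `k` in the subsequence (so that `i ≤ φ k`) let `x = z + r y_k`, `‖y_k‖ ≤ 1/(φ k + 1)` be the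
point for `u_i` (`z = z_{φ k}`, `r = r_{φ k}`).  The function `H(t) = f (z + r (y_k + t u)) / M k` has
no zero in `|t| ≤ 1`, in particular in `|t| ≤ ρ`; it converges uniformly on `|t| ≤ ρ` to `G`
(`y_k → 0`, uniform continuity of `F`; `‖y_k + t u‖ ≤ 1` for large `k`).  So `|H| ≥ m/2` on
`|t| = ρ` and `|H 0| < m/2` for large `k`: contradiction to the minimum modulus principle
(maximum principle for `1/H`: `Complex.norm_le_of_forall_mem_frontier_norm_le`).
-/

namespace DF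
variable {ι : Type} [Fintype ι] [DecidableEq ι]

open Filter Topology

namespace F1c

lemma zero_of_zero_ball (f : (ι → ℂ) → ℂ) (hf : Differentiable ℂ f) (x : ι → ℂ) (ε : ℝ)
    (hε : 0 < ε) (h : ∀ y, ‖y - x‖ < ε → f y = 0) : ∀ z, f z = 0 := by
  intro z
  set g : ℂ → ℂ := fun t => f (x + t • (z - x)) with hg
  have hgd : Differentiable ℂ g := by
    intro t
    have : DifferentiableAt ℂ (fun t : ℂ => x + t • (z - x)) t := by fun_prop
    exact (hf _).comp t this
  have hga : AnalyticOnNhd ℂ g Set.univ := fun t _ => hgd.analyticAt t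
  have hev : g =ᶠ[𝓝 0] (fun _ => (0 : ℂ)) := by
    have hc : Continuous (fun t : ℂ => ‖(x + t • (z - x)) - x‖) := by fun_prop
    have h0 : (fun t : ℂ => ‖(x + t • (z - x)) - x‖) 0 < ε := by simpa using hε
    have := hc.continuousAt.eventually_lt (continuousAt_const (y := ε)) h0
    filter_upwards [this] with t ht
    exact h _ ht
  have h0 : AnalyticOnNhd ℂ (fun _ : ℂ => (0 : ℂ)) Set.univ := fun t _ => analyticAt_const
  have := hga.eqOn_of_preconnected_of_eventuallyEq h0 isPreconnected_univ (Set.mem_univ 0) hev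
  have h1 := this (Set.mem_univ 1)
  simpa [hg] using h1

lemma dense_ne (f : (ι → ℂ) → ℂ) (hf : Differentiable ℂ f) (hne : ∃ z, f z ≠ 0) (z0 : ι → ℂ) :
    Dense {u : ι → ℂ | f (z0 + u) ≠ 0} := by
  rw [Metric.dense_iff]
  intro x r hr
  by_contra hcon
  rw [Set.not_nonempty_iff_eq_empty] at hcon
  obtain ⟨z, hz⟩ := hne
  apply hz
  refine zero_of_zero_ball f hf (z0 + x) r hr ?_ z
  intro y hy
  by_contra hyn
  have : y - z0 ∈ Metric.ball x r ∩ {u : ι → ℂ | f (z0 + u) ≠ 0} := by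
    refine ⟨?_, ?_⟩
    · rw [Metric.mem_ball, dist_eq_norm]
      have : y - z0 - x = y - (z0 + x) := by abel
      rw [this]; exact hy
    · simpa using hyn
  rw [hcon] at this
  exact this

end F1c

open F1c in
theorem ball_lemma (f : (ι → ℂ) → ℂ) (hf : Differentiable ℂ f) (hne : ∃ z, f z ≠ 0) (z0 : ι → ℂ) :
    ∃ (U : Finset (ι → ℂ)) (c δ : ℝ), 0 < c ∧ c ≤ 1 ∧ 0 < δ ∧
      (∀ u ∈ U, ∃ t : ℂ, f (z0 + t • u) ≠ 0) ∧
      ∀ z, ‖z - z0‖ ≤ δ → f z = 0 → ∀ r, 0 < r → r ≤ δ → ∃ u ∈ U, ∀ x, ‖x - z‖ ≤ c * r →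
        ∃ t : ℂ, ‖t‖ ≤ r ∧ f (x + t • u) = 0 := by
  classical
  by_contra hcon
  push Not at hcon
  set D : Set (ι → ℂ) := {u | f (z0 + u) ≠ 0} with hD
  have hDd : Dense D := dense_ne f hf hne z0
  have hDo : IsOpen D := by
    have : Continuous (fun u => f (z0 + u)) := hf.continuous.comp (by fun_prop)
    exact isOpen_ne_fun this continuous_const
  set e : ℕ → (ι → ℂ) := TopologicalSpace.denseSeq (ι → ℂ) with he
  set V : ℕ → Finset (ι → ℂ) := fun k => ((Finset.range (k + 1)).image e).filter (fun u => u ∈ D) with hV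
  have key : ∀ k : ℕ, ∃ z, ‖z - z0‖ ≤ 1 / ((k : ℝ) + 1) ∧ f z = 0 ∧ ∃ r, 0 < r ∧ r ≤ 1 / ((k : ℝ) + 1) ∧
      ∀ u ∈ V k, ∃ x, ‖x - z‖ ≤ 1 / ((k : ℝ) + 1) * r ∧ ∀ t : ℂ, ‖t‖ ≤ r → f (x + t • u) ≠ 0 := by
    intro k
    have hk : (0 : ℝ) < 1 / ((k : ℝ) + 1) := by positivity
    have hk1 : 1 / ((k : ℝ) + 1) ≤ 1 := by
      rw [div_le_one (by positivity)]
      have : (0 : ℝ) ≤ k := Nat.cast_nonneg k
      linarith
    have hV' : ∀ u ∈ V k, ∃ t : ℂ, f (z0 + t • u) ≠ 0 := by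
      intro u hu
      rw [hV] at hu
      simp only [Finset.mem_filter] at hu
      exact ⟨1, by simpa [hD] using hu.2⟩
    obtain ⟨z, h1, h2, r, h3, h4, h5⟩ := hcon (V k) (1 / ((k : ℝ) + 1)) (1 / ((k : ℝ) + 1)) hk hk1 hk hV'
    exact ⟨z, h1, h2, r, h3, h4, h5⟩
  choose z hz1 hz2 r hr0 hr1 hx using key
  have hlim : Tendsto (fun k : ℕ => 1 / ((k : ℝ) + 1)) atTop (𝓝 0) := tendsto_one_div_add_atTop_nhds_zero_nat
  have hz : Tendsto z atTop (𝓝 z0) := by
    rw [tendsto_iff_norm_sub_tendsto_zero]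
    exact squeeze_zero (fun k => norm_nonneg _) hz1 hlim
  have hr : Tendsto r atTop (𝓝 0) := squeeze_zero (fun k => (hr0 k).le) hr1 hlim
  obtain ⟨φ, M, F, hφ, hM, hunif, hFc, y, hy1, hy2⟩ := blowup f hf hne z0 z r hz hr hr0
  -- F 0 = 0
  have hF0 : F 0 = 0 := by
    have h1 : Tendsto (fun k => f (z (φ k) + (r (φ k) : ℂ) • (0 : ι → ℂ)) / (M k : ℂ)) atTop (𝓝 (F 0)) :=
      hunif.tendsto_at (by simp)
    have h2 : (fun k => f (z (φ k) + (r (φ k) : ℂ) • (0 : ι → ℂ)) / (M k : ℂ)) = fun _ => 0 := by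
      funext k
      simp [hz2]
    rw [h2] at h1
    exact (tendsto_nhds_unique h1 tendsto_const_nhds)
  -- choose the direction
  have hO : IsOpen (Metric.ball (0 : ι → ℂ) 1 ∩ F ⁻¹' {0}ᶜ) :=
    (hFc.mono Metric.ball_subset_closedBall).isOpen_inter_preimage Metric.isOpen_ball isOpen_compl_singleton
  have hOne : (Metric.ball (0 : ι → ℂ) 1 ∩ F ⁻¹' {0}ᶜ).Nonempty := ⟨y, by simpa using hy1, by simpa using hy2⟩
  have hODne : ((Metric.ball (0 : ι → ℂ) 1 ∩ F ⁻¹' {0}ᶜ) ∩ D).Nonempty := hDd.inter_open_nonempty _ hO hOne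
  obtain ⟨u, hu, ⟨i, hi⟩⟩ := (TopologicalSpace.denseRange_denseSeq (ι → ℂ)).inter_open_nonempty _ (hO.inter hDo) hODne
  obtain ⟨⟨hu1, hu2⟩, huD⟩ := hu
  have hu1' : ‖u‖ < 1 := by simpa using hu1
  have hu2' : F u ≠ 0 := by simpa using hu2
  have huV : ∀ k, i ≤ k → u ∈ V k := by
    intro k hk
    rw [hV]
    simp only [Finset.mem_filter, Finset.mem_image, Finset.mem_range]
    exact ⟨⟨i, by omega, hi⟩, huD⟩
  -- the limit function on the line
  set G : ℂ → ℂ := fun t => F (t • u) with hG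
  have hline : Set.MapsTo (fun t : ℂ => t • u) (Metric.closedBall 0 1) (Metric.closedBall 0 1) := by
    intro t ht
    rw [mem_closedBall_zero_iff] at ht ⊢
    rw [norm_smul]
    nlinarith [norm_nonneg t, norm_nonneg u]
  have hGc : ContinuousOn G (Metric.closedBall 0 1) := hFc.comp (by fun_prop) hline
  have hGu : TendstoUniformlyOn (fun k (t : ℂ) => f (z (φ k) + (r (φ k) : ℂ) • (t • u)) / (M k : ℂ)) G atTop
      (Metric.closedBall 0 1) := (hunif.comp (fun t : ℂ => t • u)).mono hline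
  have hGd : DifferentiableOn ℂ G (Metric.ball 0 1) := by
    refine ((hGu.mono Metric.ball_subset_closedBall).tendstoLocallyUniformlyOn).differentiableOn ?_ Metric.isOpen_ball
    refine Eventually.of_forall fun k => ?_
    have h1 : Differentiable ℂ (fun t : ℂ => f (z (φ k) + (r (φ k) : ℂ) • (t • u))) :=
      hf.comp (by fun_prop)
    exact (h1.div_const _).differentiableOn
  have hGa : AnalyticOnNhd ℂ G (Metric.ball 0 1) := hGd.analyticOnNhd Metric.isOpen_ball
  have hG0 : G 0 = 0 := by simpa [hG] using hF0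
  have hG1 : G 1 ≠ 0 := by simpa [hG] using hu2'
  have hpunct : ∀ᶠ t in 𝓝[≠] (0 : ℂ), G t ≠ 0 := by
    rcases (hGa 0 (by simp)).eventually_eq_zero_or_eventually_ne_zero with h | h
    · exfalso
      have hz' := hGa.eqOn_zero_of_preconnected_of_eventuallyEq_zero
        (convex_ball (0 : ℂ) 1).isPreconnected (by simp) h
      -- then `G 1 = 0` by continuity
      have hcl : (1 : ℂ) ∈ closure (Metric.ball (0 : ℂ) 1) := by
        rw [closure_ball _ (one_ne_zero)]
        simp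
      have hcw : ContinuousWithinAt G (Metric.ball 0 1) 1 :=
        (hGc 1 (by simp)).mono Metric.ball_subset_closedBall
      have hne' : (𝓝[Metric.ball (0 : ℂ) 1] 1).NeBot := mem_closure_iff_nhdsWithin_neBot.1 hcl
      have ht : Tendsto G (𝓝[Metric.ball (0 : ℂ) 1] 1) (𝓝 0) := by
        refine tendsto_const_nhds.congr' ?_
        filter_upwards [self_mem_nhdsWithin] with t ht
        exact (hz' ht).symm
      exact hG1 (tendsto_nhds_unique hcw ht)
    · exact h
  obtain ⟨ρ0, hρ0, hρ0'⟩ := Metric.mem_nhdsWithin_iff.1 hpunct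
  set ρ : ℝ := min (ρ0 / 2) (1 / 2) with hρ
  have hρp : 0 < ρ := by rw [hρ]; positivity
  have hρ1 : ρ < 1 := lt_of_le_of_lt (min_le_right _ _) (by norm_num)
  have hρne : ∀ t ∈ Metric.sphere (0 : ℂ) ρ, G t ≠ 0 := by
    intro t ht
    rw [mem_sphere_zero_iff_norm] at ht
    have h1 : t ∈ Metric.ball (0 : ℂ) ρ0 := by
      rw [mem_ball_zero_iff, ht]
      exact lt_of_le_of_lt (min_le_left _ _) (by linarith)
    have h2 : t ∈ ({0} : Set ℂ)ᶜ := by
      intro h0
      rw [Set.mem_singleton_iff] at h0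
      rw [h0, norm_zero] at ht
      exact hρp.ne ht
    exact hρ0' ⟨h1, h2⟩
  obtain ⟨tm, htm, hmin⟩ := (isCompact_sphere (0 : ℂ) ρ).exists_isMinOn
    (NormedSpace.sphere_nonempty.2 hρp.le)
    ((hGc.mono (fun t ht => by
      rw [mem_sphere_zero_iff_norm] at ht
      rw [mem_closedBall_zero_iff, ht]; exact hρ1.le)).norm)
  set m : ℝ := ‖G tm‖ with hm
  have hmp : 0 < m := norm_pos_iff.2 (hρne tm htm)
  have hmle : ∀ t ∈ Metric.sphere (0 : ℂ) ρ, m ≤ ‖G t‖ := fun t ht => hmin ht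
  -- uniform continuity
  have hFu : UniformContinuousOn F (Metric.closedBall 0 1) :=
    (isCompact_closedBall (0 : ι → ℂ) 1).uniformContinuousOn_of_continuous hFc
  rw [Metric.uniformContinuousOn_iff] at hFu
  obtain ⟨η, hη, hηF⟩ := hFu (m / 4) (by positivity)
  rw [Metric.tendstoUniformlyOn_iff] at hunif
  have h1 := hunif (m / 4) (by positivity)
  have hφt : Tendsto φ atTop atTop := hφ.tendsto_atTop
  have h2 : ∀ᶠ k in atTop, 1 / ((φ k : ℝ) + 1) < min η (1 - ‖u‖) := by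
    have : Tendsto (fun k => 1 / ((φ k : ℝ) + 1)) atTop (𝓝 0) := hlim.comp hφt
    exact this.eventually_lt_const (lt_min hη (by linarith))
  have h3 : ∀ᶠ k in atTop, i ≤ φ k := hφt.eventually_ge_atTop i
  obtain ⟨k, hk1, hk2, hk3⟩ := (h1.and (h2.and h3)).exists
  obtain ⟨x, hxz, hxt⟩ := hx (φ k) u (huV _ hk3)
  have hrp := hr0 (φ k)
  have hrc : (r (φ k) : ℂ) ≠ 0 := by exact_mod_cast hrp.ne'
  set yk : ι → ℂ := (r (φ k) : ℂ)⁻¹ • (x - z (φ k)) with hyk
  have hykn : ‖yk‖ ≤ 1 / ((φ k : ℝ) + 1) := by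
    rw [hyk, norm_smul, norm_inv, Complex.norm_real, Real.norm_of_nonneg hrp.le, inv_mul_le_iff₀ hrp]
    linarith [mul_comm (r (φ k)) (1 / ((φ k : ℝ) + 1))]
  have hykη : ‖yk‖ < η := lt_of_le_of_lt hykn (lt_of_lt_of_le hk2 (min_le_left _ _))
  have hyku : ‖yk‖ < 1 - ‖u‖ := lt_of_le_of_lt hykn (lt_of_lt_of_le hk2 (min_le_right _ _))
  set H : ℂ → ℂ := fun t => f (z (φ k) + (r (φ k) : ℂ) • (yk + t • u)) / (M k : ℂ) with hH
  have hMk : (M k : ℂ) ≠ 0 := by exact_mod_cast (hM k).ne'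
  have hHne : ∀ t : ℂ, ‖t‖ ≤ 1 → H t ≠ 0 := by
    intro t ht
    have hpt : z (φ k) + (r (φ k) : ℂ) • (yk + t • u) = x + ((r (φ k) : ℂ) * t) • u := by
      rw [hyk, smul_add, smul_inv_smul₀ hrc, smul_smul]
      abel
    rw [hH]
    simp only
    rw [hpt]
    refine div_ne_zero (hxt _ ?_) hMk
    rw [norm_mul, Complex.norm_real, Real.norm_of_nonneg hrp.le]
    nlinarith
  have hHG : ∀ t : ℂ, ‖t‖ ≤ ρ → ‖H t - G t‖ < m / 2 := by
    intro t ht
    have ht1 : ‖t • u‖ ≤ ‖u‖ := by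
      rw [norm_smul]
      have : ‖t‖ ≤ 1 := by linarith
      nlinarith [norm_nonneg u]
    have ha : yk + t • u ∈ Metric.closedBall (0 : ι → ℂ) 1 := by
      rw [mem_closedBall_zero_iff]
      calc ‖yk + t • u‖ ≤ ‖yk‖ + ‖t • u‖ := norm_add_le _ _
        _ ≤ 1 := by linarith
    have hb : t • u ∈ Metric.closedBall (0 : ι → ℂ) 1 := by
      rw [mem_closedBall_zero_iff]; linarith
    have e1 := hk1 _ ha
    have e2 := hηF _ ha _ hb (by rw [dist_eq_norm]; simpa using hykη)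
    rw [dist_eq_norm] at e1 e2
    have : H t - G t = -(F (yk + t • u) - f (z (φ k) + (r (φ k) : ℂ) • (yk + t • u)) / (M k : ℂ)) +
        (F (yk + t • u) - F (t • u)) := by
      rw [hH, hG]; ring
    rw [this]
    calc _ ≤ ‖-(F (yk + t • u) - f (z (φ k) + (r (φ k) : ℂ) • (yk + t • u)) / (M k : ℂ))‖ +
        ‖F (yk + t • u) - F (t • u)‖ := norm_add_le _ _
      _ < m / 4 + m / 4 := by rw [norm_neg]; exact add_lt_add e1 e2
      _ = m / 2 := by ring
  have hHd : Differentiable ℂ H := by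
    have h1 : Differentiable ℂ (fun t : ℂ => f (z (φ k) + (r (φ k) : ℂ) • (yk + t • u))) :=
      hf.comp (by fun_prop)
    exact h1.div_const _
  have hHi : DiffContOnCl ℂ (fun t => (H t)⁻¹) (Metric.ball 0 ρ) := by
    refine DifferentiableOn.diffContOnCl_ball (U := {t | H t ≠ 0}) ?_ ?_
    · exact hHd.differentiableOn.inv (fun t ht => ht)
    · intro t ht
      rw [mem_closedBall_zero_iff] at ht
      exact hHne t (by linarith)
  have hmax : ‖(H 0)⁻¹‖ ≤ 2 / m := by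
    refine Complex.norm_le_of_forall_mem_frontier_norm_le Metric.isBounded_ball hHi ?_
      (subset_closure (by simpa using hρp))
    intro t ht
    rw [frontier_ball _ hρp.ne'] at ht
    have ht' : ‖t‖ = ρ := by simpa using ht
    have e1 := hmle t ht
    have e2 := hHG t ht'.le
    have e3 : m / 2 ≤ ‖H t‖ := by
      have : ‖G t‖ ≤ ‖H t‖ + ‖H t - G t‖ := by
        calc ‖G t‖ = ‖H t - (H t - G t)‖ := by ring_nf
          _ ≤ _ := norm_sub_le _ _
      linarith
    rw [norm_inv, inv_eq_one_div, div_le_div_iff₀ (by linarith) hmp]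
    linarith
  have hH0 : ‖H 0‖ < m / 2 := by
    have := hHG 0 (by simpa using hρp.le)
    rwa [hG0, sub_zero] at this
  have hH0p : 0 < ‖H 0‖ := norm_pos_iff.2 (hHne 0 (by simp))
  rw [norm_inv, inv_eq_one_div, div_le_div_iff₀ hH0p hmp] at hmax
  linarith

end DF
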