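import Pool.Agent.helper32.DF.Defs

/-!
# F2 : a locally uniform bound for the number of zeros on discs

PROOF. `few_zeros`: induction on the number of zeros.  If `g t1 = 0` then `g t = (t - t1) g1 t` with
`g1` entire (`dslope g t1`, or `Complex.differentiableOn_dslope` / `Differentiable` version),
`‖g1‖ ≤ M / (2 ρ)` on `‖t‖ = 3 ρ` hence on `‖t‖ ≤ 3ρ` (maximum principle;
`‖t - t1‖ ≥ 2 ρ` there), `‖g 0‖ = ‖t1‖ ‖g1 0‖ ≤ ρ ‖g1 0‖`, and the other zeros of `g` are zeros of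
`g1`.  So `‖g 0‖ ≤ ρ ‖g1 0‖ ≤ ρ 2^{-(n-1)} M/(2ρ) = 2^{-n} M`.
`zero_count`: choose `t0` with `f (z0 + t0 • u) ≠ 0`, `δ ≤ 1` with
`‖f (x + t0 • u)‖ ≥ c > 0` for `‖x - z0‖ ≤ δ`.  For such `x` let `g t = f (x + (t0 + t) • u)`,
`ρ = 1 + ‖t0‖` (zeros with `‖t0 + t‖ ≤ 1` have `‖t‖ ≤ ρ`), `M` = a bound for `‖f‖` on the compact set
`‖x' - z0‖ ≤ 1 + 4 ρ ‖u‖ + ...`.  Then every finite set of zeros has `2^n ≤ M / c`, so `n ≤ k`; hence
the set of zeros is finite (every finite subset has at most `k` elements: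
`Set.finite_of_forall_finset_card_le` or `Set.Infinite.exists_subset_card_eq`) with `ncard ≤ k`.
-/

namespace DF
variable {ι : Type} [Fintype ι] [DecidableEq ι]

theorem few_zeros_aux (ρ : ℝ) (hρ : 0 < ρ) (n : ℕ) : ∀ (g : ℂ → ℂ), Differentiable ℂ g →
    ∀ M : ℝ, (∀ t, ‖t‖ ≤ 3 * ρ → ‖g t‖ ≤ M) → ∀ Z : Finset ℂ, Z.card = n →
      (∀ t ∈ Z, ‖t‖ ≤ ρ ∧ g t = 0) → ‖g 0‖ * 2 ^ n ≤ M := by
  induction n with
  | zero =>
    intro g _ M hM Z _ _
    simpa using hM 0 (by simp; positivity)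
  | succ n ih =>
    intro g hg M hM Z hc hZ
    obtain ⟨t1, Z', ht1, hZ', hc'⟩ := Finset.card_eq_succ.1 hc
    have h1 : ‖t1‖ ≤ ρ ∧ g t1 = 0 := hZ t1 (by rw [← hZ']; exact Finset.mem_insert_self _ _)
    set g1 : ℂ → ℂ := dslope g t1 with hg1
    have hmul : ∀ t, g t = (t - t1) * g1 t := by
      intro t
      have h := sub_smul_dslope g t1 t
      rw [h1.2, sub_zero, smul_eq_mul] at h
      exact h.symm
    have hd1 : Differentiable ℂ g1 := by
      rw [← differentiableOn_univ]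
      exact (Complex.differentiableOn_dslope Filter.univ_mem).2 hg.differentiableOn
    have hb : ∀ t, ‖t‖ ≤ 3 * ρ → ‖g1 t‖ ≤ M / (2 * ρ) := by
      intro t ht
      refine Complex.norm_le_of_forall_mem_frontier_norm_le (U := Metric.ball (0:ℂ) (3 * ρ))
        Metric.isBounded_ball hd1.diffContOnCl ?_ ?_
      · intro z hz
        rw [frontier_ball _ (by positivity : 3 * ρ ≠ 0), mem_sphere_zero_iff_norm] at hz
        have h2 : 2 * ρ ≤ ‖z - t1‖ := by
          have := norm_sub_norm_le z t1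
          linarith [h1.1]
        have h3 := hM z hz.le
        rw [hmul z, norm_mul] at h3
        rw [le_div_iff₀ (by positivity)]
        calc ‖g1 z‖ * (2 * ρ) ≤ ‖g1 z‖ * ‖z - t1‖ := mul_le_mul_of_nonneg_left h2 (norm_nonneg _)
          _ = ‖z - t1‖ * ‖g1 z‖ := mul_comm _ _
          _ ≤ M := h3
      · rw [closure_ball _ (by positivity : 3 * ρ ≠ 0)]
        rwa [mem_closedBall_zero_iff]
    have h4 := ih g1 hd1 (M / (2 * ρ)) hb Z' hc' (by
      intro t ht
      have h5 := hZ t (by rw [← hZ']; exact Finset.mem_insert_of_mem ht)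
      refine ⟨h5.1, ?_⟩
      have h6 := h5.2
      rw [hmul t] at h6
      rcases mul_eq_zero.1 h6 with h7 | h7
      · exfalso
        have h8 : t = t1 := sub_eq_zero.1 h7
        rw [h8] at ht
        exact ht1 ht
      · exact h7)
    have h5 : ‖g 0‖ ≤ ρ * ‖g1 0‖ := by
      rw [hmul 0, norm_mul, zero_sub, norm_neg]
      exact mul_le_mul_of_nonneg_right h1.1 (norm_nonneg _)
    rw [le_div_iff₀ (by positivity)] at h4
    calc ‖g 0‖ * 2 ^ (n + 1) ≤ (ρ * ‖g1 0‖) * 2 ^ (n + 1) :=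
          mul_le_mul_of_nonneg_right h5 (by positivity)
      _ = ‖g1 0‖ * 2 ^ n * (2 * ρ) := by ring
      _ ≤ M := h4

theorem few_zeros (g : ℂ → ℂ) (hg : Differentiable ℂ g) (ρ M : ℝ) (hρ : 0 < ρ)
    (hM : ∀ t, ‖t‖ ≤ 3 * ρ → ‖g t‖ ≤ M) (Z : Finset ℂ) (hZ : ∀ t ∈ Z, ‖t‖ ≤ ρ ∧ g t = 0) :
    ‖g 0‖ * 2 ^ Z.card ≤ M :=
  few_zeros_aux ρ hρ Z.card g hg M hM Z rfl hZ

theorem zero_count (f : (ι → ℂ) → ℂ) (hf : Differentiable ℂ f) (z0 u : ι → ℂ)
    (hu : ∃ t : ℂ, f (z0 + t • u) ≠ 0) :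
    ∃ δ > 0, ∃ k : ℕ, ∀ x, ‖x - z0‖ ≤ δ → {t : ℂ | ‖t‖ ≤ 1 ∧ f (x + t • u) = 0}.Finite ∧
      {t : ℂ | ‖t‖ ≤ 1 ∧ f (x + t • u) = 0}.ncard ≤ k := by
  obtain ⟨t0, ht0⟩ := hu
  have hpos : 0 < ‖f (z0 + t0 • u)‖ := norm_pos_iff.2 ht0
  set c : ℝ := ‖f (z0 + t0 • u)‖ / 2 with hc
  have hc0 : 0 < c := by rw [hc]; positivity
  have hcont : Continuous fun x : ι → ℂ => ‖f (x + t0 • u)‖ :=
    (hf.continuous.comp (continuous_id.add continuous_const)).norm
  have hev : ∀ᶠ x in nhds z0, c < ‖f (x + t0 • u)‖ :=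
    hcont.continuousAt.eventually (lt_mem_nhds (by rw [hc]; linarith))
  obtain ⟨δ0, hδ0, hδ⟩ := Metric.eventually_nhds_iff.1 hev
  set ρ : ℝ := 1 + ‖t0‖ with hρ
  have hρ0 : 0 < ρ := by positivity
  obtain ⟨M, hM⟩ := (isCompact_closedBall z0 (1 + 4 * ρ * ‖u‖)).exists_bound_of_continuousOn
    hf.continuous.continuousOn
  refine ⟨min 1 (δ0 / 2), lt_min one_pos (half_pos hδ0), ⌈M / c⌉₊, fun x hx => ?_⟩
  have hx1 : ‖x - z0‖ ≤ 1 := hx.trans (min_le_left _ _)
  have hx2 : c < ‖f (x + t0 • u)‖ := by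
    apply hδ
    rw [dist_eq_norm]
    have := hx.trans (min_le_right _ _)
    linarith
  have key : ∀ S : Finset ℂ, (↑S ⊆ {t : ℂ | ‖t‖ ≤ 1 ∧ f (x + t • u) = 0}) →
      S.card ≤ ⌈M / c⌉₊ := by
    intro S hS
    have h1 := few_zeros (fun t => f (x + (t0 + t) • u)) (by
        refine hf.comp ?_
        exact (differentiable_const _).add
          (((differentiable_const _).add differentiable_id).smul_const u))
      ρ M hρ0 (by
        intro t ht
        apply hM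
        rw [mem_closedBall_iff_norm]
        have e1 : x + (t0 + t) • u - z0 = (x - z0) + (t0 + t) • u := by abel
        rw [e1]
        refine (norm_add_le _ _).trans ?_
        rw [norm_smul]
        have e2 : ‖t0 + t‖ ≤ 4 * ρ := by
          refine (norm_add_le _ _).trans ?_
          rw [hρ] at ht ⊢
          linarith [norm_nonneg t0]
        have e3 := mul_le_mul_of_nonneg_right e2 (norm_nonneg u)
        linarith)
      (S.image (fun t => t - t0)) (by
        intro t ht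
        obtain ⟨s, hs, rfl⟩ := Finset.mem_image.1 ht
        obtain ⟨h2, h3⟩ := hS hs
        refine ⟨?_, ?_⟩
        · refine (norm_sub_le _ _).trans ?_
          rw [hρ]
          linarith
        · show f (x + (t0 + (s - t0)) • u) = 0
          rw [add_sub_cancel]
          exact h3)
    rw [Finset.card_image_of_injective _ (sub_left_injective)] at h1
    simp only [add_zero] at h1
    have h4 : c * 2 ^ S.card ≤ M := (mul_le_mul_of_nonneg_right hx2.le (by positivity)).trans h1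
    have h5 : (2:ℝ) ^ S.card ≤ M / c := by
      rw [le_div_iff₀ hc0]; linarith
    have h6 : (S.card : ℝ) ≤ (2:ℝ) ^ S.card := by
      have := Nat.lt_two_pow_self (n := S.card)
      exact_mod_cast this.le
    have h7 := Nat.le_ceil (M / c)
    exact_mod_cast h6.trans (h5.trans h7)
  have hfin : {t : ℂ | ‖t‖ ≤ 1 ∧ f (x + t • u) = 0}.Finite := by
    by_contra hinf
    obtain ⟨S, hS, hS2⟩ := Set.Infinite.exists_subset_card_eq hinf (⌈M / c⌉₊ + 1)
    have := key S hS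
    omega
  refine ⟨hfin, ?_⟩
  rw [Set.ncard_eq_toFinset_card _ hfin]
  exact key _ (by simp)

end DF
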