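import Pool.Agent.helper32.DF.Defs

/-!
# F3 : volume of the shadow

PROOF. Let `E` be closed.  `Sh f u E z0 δ r` is closed (limits: `t` ranges over a compact disc), so
measurable, and bounded, so of finite volume.
If `u = 0` choose..., note: for `u = 0` the hypothesis `hk` says that no `x` in the ball is a zero
(otherwise the set of `t` is the whole disc, which is infinite), so both sides are `0`.
Let `u ≠ 0`.  Choose `0 < ρ ≤ 1/2` with `ρ ‖u‖ ≤ δ/2`, and `r0 = ρ` (then `‖s + t‖ ≤ 1` below).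
Let `0 < r ≤ ρ` and let `G` be the finite set of `s = r (m + n i)`, `m, n ∈ ℤ`, with
`r |m|, r |n| ≤ ρ/2`; it has at least `(ρ/(2r))²` elements (for each coordinate the number of integers
`m` with `|m| ≤ ρ/(2r)` is `≥ ρ/(2r)`, as `2 floor(x) + 1 ≥ x` for `x ≥ 0`).
Let `S = Sh f u E z0 (δ/2) r`, `A = Sh f u E z0 δ 1`.  For every `x` with `‖x - z0‖ ≤ δ`:
`#{s ∈ G : x + s u ∈ S} ≤ 25 k 1_A(x)`: if `x + s u ∈ S`, there is `‖t‖ ≤ r` with
`x + (s + t) u ∈ E` a zero and `‖s + t‖ ≤ 1`; so `x ∈ A`, and `s + t` is one of the at most `k` zeros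
on the disc of `x`; a given zero `t'` is within `r` of at most `25` (in fact `9`) points
`s = r (m + n i)` (both coordinates of `t'/r - (m,n)` are at most `1` in absolute value, so at most 3
choices of `m` and of `n`).
Integrate over the ball `X = {‖x - z0‖ ≤ δ}`:
`∑_{s ∈ G} vol {x ∈ X : x + s u ∈ S} ≤ 25 k vol A`.  As `S ⊂ {‖x - z0‖ ≤ δ/2}` and
`‖s u‖ ≤ ρ ‖u‖ ≤ δ/2`, `{x ∈ X : x + s u ∈ S} = S - s u` has the volume of `S`.
So `(ρ/(2r))² vol S ≤ 25 k vol A`, `C = 100 k/ρ²`.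
(Integrate with `lintegral`: `∑_s ∫⁻_X indicator`, all sets measurable.)
-/

namespace DF
open MeasureTheory
variable {ι : Type} [Fintype ι] [DecidableEq ι]

theorem isClosed_Sh (f : (ι → ℂ) → ℂ) (hf : Continuous f) (u z0 : ι → ℂ) (E : Set (ι → ℂ))
    (hE : IsClosed E) (δ r : ℝ) : IsClosed (Sh f u E z0 δ r) := by
  have hK : IsClosed {p : (ι → ℂ) × Metric.closedBall (0 : ℂ) r |
      p.1 + (p.2 : ℂ) • u ∈ E ∧ f (p.1 + (p.2 : ℂ) • u) = 0} := by
    have hc : Continuous fun p : (ι → ℂ) × Metric.closedBall (0 : ℂ) r => p.1 + (p.2 : ℂ) • u := by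
      fun_prop
    exact (hE.preimage hc).inter (isClosed_eq (hf.comp hc) continuous_const)
  have : CompactSpace (Metric.closedBall (0 : ℂ) r) :=
    isCompact_iff_compactSpace.1 (isCompact_closedBall 0 r)
  have hP := isClosedMap_fst_of_compactSpace (X := ι → ℂ) (Y := Metric.closedBall (0 : ℂ) r) _ hK
  have hB : IsClosed {x : ι → ℂ | ‖x - z0‖ ≤ δ} :=
    isClosed_le (by fun_prop) continuous_const
  have heq : Sh f u E z0 δ r = {x : ι → ℂ | ‖x - z0‖ ≤ δ} ∩
      (Prod.fst '' {p : (ι → ℂ) × Metric.closedBall (0 : ℂ) r |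
        p.1 + (p.2 : ℂ) • u ∈ E ∧ f (p.1 + (p.2 : ℂ) • u) = 0}) := by
    ext x
    constructor
    · rintro ⟨h1, t, ht, h2, h3⟩
      exact ⟨h1, ⟨x, ⟨t, by simpa using ht⟩⟩, ⟨h2, h3⟩, rfl⟩
    · rintro ⟨h1, ⟨x', t⟩, ⟨h2, h3⟩, rfl⟩
      exact ⟨h1, t, mem_closedBall_zero_iff.1 t.2, h2, h3⟩
  rw [heq]
  exact hB.inter hP

theorem F3_near {r b t : ℝ} {m : ℤ} (hr : 0 < r) (hb : b = r * m + t) (ht : |t| ≤ r) :
    ⌊b / r⌋ - 1 ≤ m ∧ m ≤ ⌊b / r⌋ + 1 := by
  have h1 : b / r = m + t / r := by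
    rw [hb]; field_simp
  have h2 : |t / r| ≤ 1 := by
    rw [abs_div, abs_of_pos hr, div_le_one hr]; exact ht
  obtain ⟨h3, h4⟩ := abs_le.1 h2
  have h5 := Int.floor_le (b / r)
  have h6 := Int.lt_floor_add_one (b / r)
  constructor
  · have : ((⌊b / r⌋ - 1 : ℤ) : ℝ) ≤ m := by push_cast; linarith
    exact_mod_cast this
  · have : (m : ℝ) < ((⌊b / r⌋ + 1 + 1 : ℤ) : ℝ) := by push_cast; linarith
    have := Int.cast_lt.1 this
    omega

/-- grid point of the lattice `r (ℤ + i ℤ)` -/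
noncomputable def F3gr (r : ℝ) (p : ℤ × ℤ) : ℂ := (r * p.1 : ℝ) + (r * p.2 : ℝ) * Complex.I

omit [DecidableEq ι] in
theorem F3_count (f : (ι → ℂ) → ℂ) (u z0 : ι → ℂ) (δ : ℝ)
    (k : ℕ) (hk : ∀ x, ‖x - z0‖ ≤ δ → {t : ℂ | ‖t‖ ≤ 1 ∧ f (x + t • u) = 0}.Finite ∧
      {t : ℂ | ‖t‖ ≤ 1 ∧ f (x + t • u) = 0}.ncard ≤ k) (E : Set (ι → ℂ)) {δ' r : ℝ} (hr : 0 < r)
    (G : Finset (ℤ × ℤ)) (hG : ∀ p ∈ G, ‖F3gr r p‖ + r ≤ 1) (x : ι → ℂ)
    (hx : ‖x - z0‖ ≤ δ) (T : Finset (ℤ × ℤ)) (hT : ∀ p ∈ T, p ∈ G ∧ x + F3gr r p • u ∈ Sh f u E z0 δ' r) :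
    T.card ≤ 25 * k ∧ (T.Nonempty → x ∈ Sh f u E z0 δ 1) := by
  classical
  obtain ⟨hfin, hcard⟩ := hk x hx
  have hch : ∀ p : ℤ × ℤ, ∃ t : ℂ, p ∈ T → ‖t‖ ≤ r ∧ x + F3gr r p • u + t • u ∈ E ∧
      f (x + F3gr r p • u + t • u) = 0 := by
    intro p
    by_cases hp : p ∈ T
    · obtain ⟨t, ht⟩ := (hT p hp).2.2
      exact ⟨t, fun _ => ht⟩
    · exact ⟨0, fun h => absurd h hp⟩
  choose t ht using hch
  have hmem : ∀ p ∈ T, ‖F3gr r p + t p‖ ≤ 1 ∧ x + (F3gr r p + t p) • u ∈ E ∧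
      f (x + (F3gr r p + t p) • u) = 0 := by
    intro p hp
    obtain ⟨h1, h2, h3⟩ := ht p hp
    have he : x + (F3gr r p + t p) • u = x + F3gr r p • u + t p • u := by
      rw [add_smul, add_assoc]
    refine ⟨(norm_add_le _ _).trans (by linarith [hG p (hT p hp).1]), ?_, ?_⟩
    · rw [he]; exact h2
    · rw [he]; exact h3
  constructor
  · have h1 := Finset.card_le_mul_card_image (f := fun p => F3gr r p + t p) T 25 (by
      intro b hb
      have hsub : T.filter (fun p => F3gr r p + t p = b) ⊆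
          (Finset.Icc (⌊b.re / r⌋ - 1) (⌊b.re / r⌋ + 1)) ×ˢ
          (Finset.Icc (⌊b.im / r⌋ - 1) (⌊b.im / r⌋ + 1)) := by
        intro p hp
        rw [Finset.mem_filter] at hp
        obtain ⟨hpT, hpb⟩ := hp
        have hn := (ht p hpT).1
        have hre : |(t p).re| ≤ r := (Complex.abs_re_le_norm _).trans hn
        have him : |(t p).im| ≤ r := (Complex.abs_im_le_norm _).trans hn
        have hbre : b.re = r * p.1 + (t p).re := by
          rw [← hpb]; simp [F3gr]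
        have hbim : b.im = r * p.2 + (t p).im := by
          rw [← hpb]; simp [F3gr]
        rw [Finset.mem_product, Finset.mem_Icc, Finset.mem_Icc]
        exact ⟨F3_near hr hbre hre, F3_near hr hbim him⟩
      refine (Finset.card_le_card hsub).trans ?_
      rw [Finset.card_product, Int.card_Icc, Int.card_Icc]
      have e1 : ∀ a : ℤ, (a + 1 + 1 - (a - 1)).toNat = 3 := by
        intro a
        have : a + 1 + 1 - (a - 1) = 3 := by ring
        rw [this]; rfl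
      rw [e1, e1]
      norm_num)
    refine h1.trans (Nat.mul_le_mul_left 25 ?_)
    refine le_trans ?_ hcard
    rw [← Set.ncard_coe_finset]
    apply Set.ncard_le_ncard _ hfin
    intro z hz
    simp only [Finset.coe_image, Set.mem_image, Finset.mem_coe] at hz
    obtain ⟨p, hp, rfl⟩ := hz
    obtain ⟨h2, h3, h4⟩ := hmem p hp
    exact ⟨h2, h4⟩
  · rintro ⟨p, hp⟩
    obtain ⟨h2, h3, h4⟩ := hmem p hp
    exact ⟨hx, _, h2, h3, h4⟩

theorem shadow_volume (f : (ι → ℂ) → ℂ) (hf : Continuous f) (u z0 : ι → ℂ) (δ : ℝ) (hδ : 0 < δ)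
    (k : ℕ) (hk : ∀ x, ‖x - z0‖ ≤ δ → {t : ℂ | ‖t‖ ≤ 1 ∧ f (x + t • u) = 0}.Finite ∧
      {t : ℂ | ‖t‖ ≤ 1 ∧ f (x + t • u) = 0}.ncard ≤ k) :
    ∃ C r0 : ℝ, 0 ≤ C ∧ 0 < r0 ∧ ∀ E : Set (ι → ℂ), IsClosed E → ∀ r, 0 < r → r ≤ r0 →
      (volume (Sh f u E z0 (δ / 2) r)).toReal ≤
        C * r ^ 2 * (volume (Sh f u E z0 δ 1)).toReal := by
  classical
  by_cases hu : u = 0
  · refine ⟨0, 1, le_rfl, one_pos, fun E hE r hr hr1 => ?_⟩
    have hempty : Sh f u E z0 (δ / 2) r = ∅ := by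
      ext x
      simp only [Set.mem_empty_iff_false, iff_false]
      rintro ⟨h1, t, ht, h2, h3⟩
      have hfin := (hk x (h1.trans (by linarith))).1
      rw [hu, smul_zero, add_zero] at h3
      have heq : {t : ℂ | ‖t‖ ≤ 1 ∧ f (x + t • u) = 0} = Metric.closedBall (0 : ℂ) 1 := by
        ext t
        simp [hu, h3]
      rw [heq] at hfin
      have hinf : (Metric.closedBall (0 : ℂ) 1).Infinite :=
        infinite_of_mem_nhds (0 : ℂ) (Metric.closedBall_mem_nhds 0 one_pos)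
      exact hinf hfin
    rw [hempty]
    simp
  have hu0 : 0 < ‖u‖ := norm_pos_iff.2 hu
  obtain ⟨ρ, hρ0, hρ1, hρ2⟩ : ∃ ρ : ℝ, 0 < ρ ∧ ρ ≤ 1 / 2 ∧ ρ * ‖u‖ ≤ δ / 2 := by
    refine ⟨min (1 / 2) (δ / (2 * ‖u‖)), by positivity, min_le_left _ _, ?_⟩
    calc min (1 / 2) (δ / (2 * ‖u‖)) * ‖u‖ ≤ δ / (2 * ‖u‖) * ‖u‖ :=
          mul_le_mul_of_nonneg_right (min_le_right _ _) hu0.le
      _ = δ / 2 := by field_simp
  refine ⟨100 * k / ρ ^ 2, ρ, by positivity, hρ0, fun E hE r hr hrρ => ?_⟩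
  -- the grid
  obtain ⟨M, hM0, hM1, hM2⟩ : ∃ M : ℤ, 0 ≤ M ∧ r * M ≤ ρ / 2 ∧ ρ / (2 * r) ≤ M + 1 := by
    refine ⟨⌊ρ / (2 * r)⌋, Int.floor_nonneg.2 (by positivity), ?_, (Int.lt_floor_add_one _).le⟩
    have := Int.floor_le (ρ / (2 * r))
    calc r * (⌊ρ / (2 * r)⌋ : ℝ) ≤ r * (ρ / (2 * r)) := mul_le_mul_of_nonneg_left this hr.le
      _ = ρ / 2 := by field_simp
  obtain ⟨G, hGdef⟩ : ∃ G : Finset (ℤ × ℤ), G = Finset.Icc (-M) M ×ˢ Finset.Icc (-M) M := ⟨_, rfl⟩
  have hGn : ∀ p ∈ G, ‖F3gr r p‖ ≤ ρ := by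
    intro p hp
    rw [hGdef, Finset.mem_product, Finset.mem_Icc, Finset.mem_Icc] at hp
    obtain ⟨⟨h1, h2⟩, h3, h4⟩ := hp
    have hab : ∀ m : ℤ, -M ≤ m → m ≤ M → |r * (m : ℝ)| ≤ ρ / 2 := by
      intro m hm hm'
      rw [abs_mul, abs_of_pos hr]
      have h5 : |(m : ℝ)| ≤ M := by
        rw [abs_le]
        constructor
        · have : ((-M : ℤ) : ℝ) ≤ m := by exact_mod_cast hm
          push_cast at this
          exact this
        · exact_mod_cast hm'
      exact (mul_le_mul_of_nonneg_left h5 hr.le).trans hM1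
    unfold F3gr
    refine (norm_add_le _ _).trans ?_
    rw [norm_mul, Complex.norm_I, mul_one, Complex.norm_real, Complex.norm_real,
      Real.norm_eq_abs, Real.norm_eq_abs]
    have h5 := hab p.1 h1 h2
    have h6 := hab p.2 h3 h4
    linarith
  have hGcard : (ρ / (2 * r)) ^ 2 ≤ (G.card : ℝ) := by
    have h1 : (G.card : ℝ) = (2 * M + 1) ^ 2 := by
      rw [hGdef, Finset.card_product, Int.card_Icc]
      have h2 : (((M + 1 - -M).toNat : ℕ) : ℝ) = 2 * M + 1 := by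
        have h3 : (((M + 1 - -M).toNat : ℕ) : ℤ) = 2 * M + 1 := by
          rw [Int.toNat_of_nonneg (by omega)]; ring
        exact_mod_cast congrArg (fun z : ℤ => (z : ℝ)) h3
      push_cast
      rw [h2]; ring
    rw [h1]
    apply pow_le_pow_left₀ (by positivity)
    have : (0:ℝ) ≤ M := by exact_mod_cast hM0
    linarith
  -- measurability
  have hS : MeasurableSet (Sh f u E z0 (δ / 2) r) := (isClosed_Sh f hf u z0 E hE _ _).measurableSet
  have hA : MeasurableSet (Sh f u E z0 δ 1) := (isClosed_Sh f hf u z0 E hE _ _).measurableSet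
  have hAfin : volume (Sh f u E z0 δ 1) ≠ ⊤ := by
    refine ((measure_mono (t := Metric.closedBall z0 δ) ?_).trans_lt
      measure_closedBall_lt_top).ne
    intro x hx
    rw [Metric.mem_closedBall, dist_eq_norm]
    exact hx.1
  have hSfin : volume (Sh f u E z0 (δ / 2) r) ≠ ⊤ := by
    refine ((measure_mono (t := Metric.closedBall z0 (δ / 2)) ?_).trans_lt
      measure_closedBall_lt_top).ne
    intro x hx
    rw [Metric.mem_closedBall, dist_eq_norm]
    exact hx.1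
  -- counting
  have hpt : ∀ x : ι → ℂ, ∑ p ∈ G, Set.indicator ((fun y => y + F3gr r p • u) ⁻¹'
      (Sh f u E z0 (δ / 2) r)) (fun _ => (1 : ENNReal)) x ≤
      (25 * k : ℕ) * Set.indicator (Sh f u E z0 δ 1) (fun _ => (1 : ENNReal)) x := by
    intro x
    have h1 : ∑ p ∈ G, Set.indicator ((fun y => y + F3gr r p • u) ⁻¹'
        (Sh f u E z0 (δ / 2) r)) (fun _ => (1 : ENNReal)) x =
        ((G.filter (fun p => x + F3gr r p • u ∈ Sh f u E z0 (δ / 2) r)).card : ENNReal) := by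
      rw [Finset.card_filter]
      push_cast
      refine Finset.sum_congr rfl fun p _ => ?_
      simp only [Set.indicator_apply, Set.mem_preimage]
    rw [h1]
    rcases (G.filter (fun p => x + F3gr r p • u ∈ Sh f u E z0 (δ / 2) r)).eq_empty_or_nonempty
      with h2 | h2
    · rw [h2]; simp
    · have hx : ‖x - z0‖ ≤ δ := by
        obtain ⟨p, hp⟩ := h2
        rw [Finset.mem_filter] at hp
        have h3 := hp.2.1
        have h4 : ‖F3gr r p • u‖ ≤ δ / 2 := by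
          rw [norm_smul]
          exact (mul_le_mul_of_nonneg_right (hGn p hp.1) hu0.le).trans hρ2
        have h5 : x - z0 = (x + F3gr r p • u - z0) - F3gr r p • u := by abel
        rw [h5]
        exact (norm_sub_le _ _).trans (by linarith)
      obtain ⟨h3, h4⟩ := F3_count f u z0 δ k hk E (δ' := δ / 2) hr G
        (fun p hp => by linarith [hGn p hp]) x hx
        (G.filter (fun p => x + F3gr r p • u ∈ Sh f u E z0 (δ / 2) r))
        (fun p hp => by simpa using hp)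
      rw [Set.indicator_of_mem (h4 h2), mul_one]
      exact_mod_cast h3
  have hint : ∫⁻ x, ∑ p ∈ G, Set.indicator ((fun y => y + F3gr r p • u) ⁻¹'
      (Sh f u E z0 (δ / 2) r)) (fun _ => (1 : ENNReal)) x ≤
      (25 * k : ℕ) * volume (Sh f u E z0 δ 1) := by
    refine (lintegral_mono hpt).trans ?_
    rw [lintegral_const_mul _ (measurable_const.indicator hA), lintegral_indicator hA]
    simp
  rw [lintegral_finsetSum] at hint
  swap
  · intro p _
    exact measurable_const.indicator (hS.preimage (by fun_prop))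
  have hsum : ∀ p ∈ G, ∫⁻ x, Set.indicator ((fun y => y + F3gr r p • u) ⁻¹'
      (Sh f u E z0 (δ / 2) r)) (fun _ => (1 : ENNReal)) x = volume (Sh f u E z0 (δ / 2) r) := by
    intro p _
    rw [lintegral_indicator (hS.preimage (by fun_prop))]
    simp [measure_preimage_add_right]
  rw [Finset.sum_congr rfl hsum, Finset.sum_const, nsmul_eq_mul] at hint
  have hreal := ENNReal.toReal_mono (ENNReal.mul_ne_top (ENNReal.natCast_ne_top _) hAfin) hint
  rw [ENNReal.toReal_mul, ENNReal.toReal_mul] at hreal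
  simp only [ENNReal.toReal_natCast] at hreal
  push_cast at hreal
  have hSn : 0 ≤ (volume (Sh f u E z0 (δ / 2) r)).toReal := ENNReal.toReal_nonneg
  have h1 : (ρ / (2 * r)) ^ 2 * (volume (Sh f u E z0 (δ / 2) r)).toReal ≤
      25 * k * (volume (Sh f u E z0 δ 1)).toReal :=
    (mul_le_mul_of_nonneg_right hGcard hSn).trans hreal
  calc (volume (Sh f u E z0 (δ / 2) r)).toReal
      = (4 * r ^ 2 / ρ ^ 2) * ((ρ / (2 * r)) ^ 2 * (volume (Sh f u E z0 (δ / 2) r)).toReal) := by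
        field_simp; ring
    _ ≤ (4 * r ^ 2 / ρ ^ 2) * (25 * k * (volume (Sh f u E z0 δ 1)).toReal) :=
        mul_le_mul_of_nonneg_left h1 (by positivity)
    _ = _ := by ring

end DF
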