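import Pool.Agent.helper32.DF.F1c
import Pool.Agent.helper32.DF.F2
import Pool.Agent.helper32.DF.F3

/-!
# F4 : counting blocks which meet the zero set

PROOF. Take `U, c, δ1` from `ball_lemma`.  For each `u ∈ U` take `δ_u, k_u` from `zero_count`; let
`0 < δ ≤ δ1`, `δ ≤ δ_u` for all `u ∈ U` (finite minimum), `δ ≤ 1`.  For `x` with `‖x - z0‖ ≤ δ` the set
of zeros on the disc is finite, hence some `t` has `f (x + t • u) ≠ 0`.
Take `C_u, r_u` from `shadow_volume` with this `δ` (and `k_u`).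
Let `b > 0` with `‖B v‖ ≤ b ‖v‖`.  A block of size `r` has diameter `≤ b r`: for `x, x' ∈ Blk B s r m`,
`‖B.symm x - B.symm x'‖ ≤ r` (sup norm).  Put `r' = b r / c` (`≥ b r`), and take `ρ` so small that for
`r ≤ ρ`: `r' ≤ δ1`, `r' ≤ r_u` for all `u ∈ U`, `b r ≤ δ/4`.
Let `m` be a block as in the set, with `x` the point.  `ball_lemma` with `z = x`, `r'`: there is `u ∈ U`
such that every `x1` with `‖x1 - x‖ ≤ c r' = b r`, in particular every `x1` of the block, has a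
zero `x1 + t u`, `‖t‖ ≤ r'`; this zero has distance `≤ b r + r' ‖u‖ ≤ L r` from `x ∈ E`, where
`L = b + (b/c) max_U ‖u‖ + 1`, so it is in `E'`.  So the block is contained in
`Sh f u E' z0 (δ/2) r'` (`‖x1 - z0‖ ≤ δ/4 + b r ≤ δ/2`).
The blocks are disjoint, measurable, of volume `v r^(2h)` with `v = volume (B '' [0,1)^κ) > 0`
(a linear image; e.g. `MeasureTheory.Measure.addHaar_image_...`; or: the pushed forward measure
`volume.map B` is a multiple of Haar measure `volume` on `ι → ℂ`; translation invariance and scaling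
`Measure.addHaar_smul` with real dimension `2 h` or directly for boxes in `κ → ℝ`,
`Real.volume_pi_Ico`).
For every finite set `T` of such block indices:
`#T v r^(2h) = vol (⋃ blocks) ≤ ∑_u vol (Sh f u E' z0 (δ/2) r') ≤ ∑_u C_u r'^2 vol (Sh f u E' z0 δ 1)`.
This bounds `#T` (the right side is finite: the shadows are bounded sets), so the set is finite and
the claim holds with `C = max C_u (b/c)² / v` (or the sum).
-/

namespace DF
open MeasureTheory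
variable {ι κ : Type} [Fintype ι] [DecidableEq ι] [Fintype κ] [DecidableEq κ]

namespace F4
open Filter Topology

lemma preim_Blk (B : (κ → ℝ) ≃L[ℝ] (ι → ℂ)) (s : κ → ℝ) (r : ℝ) (m : κ → ℤ) :
    B ⁻¹' (Blk B s r m) = Set.pi Set.univ (fun i => Set.Ico (s i + r * m i) (s i + r * (m i + 1))) := by
  ext v
  simp only [Set.mem_preimage, Blk, Set.mem_setOf_eq, Set.mem_pi, Set.mem_univ, forall_true_left,
    Set.mem_Ico, ContinuousLinearEquiv.symm_apply_apply]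
  refine forall_congr' fun i => ?_
  constructor
  · rintro ⟨h1, h2⟩; constructor <;> linarith
  · rintro ⟨h1, h2⟩; constructor <;> linarith

lemma measurableSet_Blk (B : (κ → ℝ) ≃L[ℝ] (ι → ℂ)) (s : κ → ℝ) (r : ℝ) (m : κ → ℤ) :
    MeasurableSet (Blk B s r m) := by
  have h1 : MeasurableSet (Set.pi Set.univ (fun i : κ => Set.Ico (s i + r * m i) (s i + r * (m i + 1)))) :=
    MeasurableSet.univ_pi fun i => measurableSet_Ico
  have h2 : Blk B s r m = B.symm ⁻¹' (Set.pi Set.univ (fun i : κ => Set.Ico (s i + r * m i) (s i + r * (m i + 1)))) := by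
    rw [← preim_Blk B s r m]
    ext x; simp
  rw [h2]
  exact B.symm.continuous.measurable h1

lemma volume_Blk (B : (κ → ℝ) ≃L[ℝ] (ι → ℂ)) :
    ∃ c : ENNReal, c ≠ 0 ∧ c ≠ ⊤ ∧ ∀ (s : κ → ℝ) (r : ℝ) (m : κ → ℤ),
      volume (Blk B s r m) = c * ENNReal.ofReal r ^ (Fintype.card κ) := by
  have hH : (Measure.map B (volume : Measure (κ → ℝ))).IsAddHaarMeasure :=
    ContinuousLinearEquiv.isAddHaarMeasure_map B volume
  set c : NNReal := (volume : Measure (ι → ℂ)).addHaarScalarFactor (Measure.map B (volume : Measure (κ → ℝ)))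
    with hcdef
  have hc : (volume : Measure (ι → ℂ)) = c • Measure.map B (volume : Measure (κ → ℝ)) :=
    Measure.isAddLeftInvariant_eq_smul _ _
  have hcpos : 0 < c := Measure.addHaarScalarFactor_pos_of_isAddHaarMeasure _ _
  refine ⟨(c : ENNReal), by exact_mod_cast hcpos.ne', ENNReal.coe_ne_top, fun s r m => ?_⟩
  have h1 : volume (Blk B s r m) = (c • (Measure.map B (volume : Measure (κ → ℝ)))) (Blk B s r m) := by
    rw [← hc]
  rw [h1, Measure.smul_apply, ENNReal.smul_def, smul_eq_mul,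
    Measure.map_apply B.continuous.measurable (measurableSet_Blk B s r m),
    preim_Blk, Real.volume_pi_Ico]
  congr 1
  have : ∀ i : κ, s i + r * ((m i : ℝ) + 1) - (s i + r * m i) = r := fun i => by ring
  simp only [this, Finset.prod_const, Finset.card_univ]

lemma disj_Blk (B : (κ → ℝ) ≃L[ℝ] (ι → ℂ)) (s : κ → ℝ) (r : ℝ) (hr : 0 < r) (m m' : κ → ℤ)
    (hmm : m ≠ m') : Disjoint (Blk B s r m) (Blk B s r m') := by
  rw [Set.disjoint_left]
  intro x hx hx'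
  apply hmm
  funext i
  obtain ⟨h1, h2⟩ := hx i
  obtain ⟨h3, h4⟩ := hx' i
  have a1 : r * (m i : ℝ) < r * ((m' i : ℝ) + 1) := lt_of_le_of_lt h1 h4
  have a2 : r * (m' i : ℝ) < r * ((m i : ℝ) + 1) := lt_of_le_of_lt h3 h2
  have b1 : (m i : ℝ) < (m' i : ℝ) + 1 := lt_of_mul_lt_mul_left a1 hr.le
  have b2 : (m' i : ℝ) < (m i : ℝ) + 1 := lt_of_mul_lt_mul_left a2 hr.le
  have c1 : m i < m' i + 1 := by exact_mod_cast b1
  have c2 : m' i < m i + 1 := by exact_mod_cast b2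
  omega

lemma diam_Blk (B : (κ → ℝ) ≃L[ℝ] (ι → ℂ)) (s : κ → ℝ) (r : ℝ) (hr : 0 < r) (m : κ → ℤ) (b : ℝ)
    (hb : 0 ≤ b) (hB : ∀ v, ‖B v‖ ≤ b * ‖v‖) (x x' : ι → ℂ) (hx : x ∈ Blk B s r m) (hx' : x' ∈ Blk B s r m) :
    ‖x' - x‖ ≤ b * r := by
  have h1 : x' - x = B (B.symm x' - B.symm x) := by
    rw [map_sub]; simp
  rw [h1]
  refine (hB _).trans (mul_le_mul_of_nonneg_left ?_ hb)
  rw [pi_norm_le_iff_of_nonneg hr.le]
  intro i
  obtain ⟨h1, h2⟩ := hx i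
  obtain ⟨h3, h4⟩ := hx' i
  rw [Pi.sub_apply, Real.norm_eq_abs, abs_le]
  constructor <;> nlinarith

lemma Sh_finite (f : (ι → ℂ) → ℂ) (u : ι → ℂ) (E : Set (ι → ℂ)) (z0 : ι → ℂ) (δ r : ℝ) :
    volume (Sh f u E z0 δ r) ≠ ⊤ := by
  have h1 : Sh f u E z0 δ r ⊆ Metric.closedBall z0 δ := by
    intro x hx
    rw [mem_closedBall_iff_norm]
    exact hx.1
  exact ne_top_of_le_ne_top (measure_closedBall_lt_top).ne (measure_mono h1)

end F4

open F4 Filter Topology in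
theorem block_count (f : (ι → ℂ) → ℂ) (hf : Differentiable ℂ f) (hne : ∃ z, f z ≠ 0)
    (z0 : ι → ℂ) (B : (κ → ℝ) ≃L[ℝ] (ι → ℂ)) (hκ : Fintype.card κ = 2 * Fintype.card ι) :
    ∃ (U : Finset (ι → ℂ)) (δ C ρ L : ℝ), 0 < δ ∧ 0 < C ∧ 0 < ρ ∧ 0 < L ∧
      (∀ u ∈ U, ∀ x, ‖x - z0‖ ≤ δ → ∃ t : ℂ, f (x + t • u) ≠ 0) ∧
      ∀ (E E' : Set (ι → ℂ)), IsClosed E' → ∀ r, 0 < r → r ≤ ρ →
        (∀ x ∈ E, ∀ x', ‖x' - x‖ ≤ L * r → x' ∈ E') → ∀ s : κ → ℝ,
        {m : κ → ℤ | ∃ x ∈ Blk B s r m, ‖x - z0‖ ≤ δ / 4 ∧ x ∈ E ∧ f x = 0}.Finite ∧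
        ({m : κ → ℤ | ∃ x ∈ Blk B s r m, ‖x - z0‖ ≤ δ / 4 ∧ x ∈ E ∧ f x = 0}.ncard : ℝ) *
          r ^ (2 * Fintype.card ι) ≤
          C * r ^ 2 * ∑ u ∈ U, (volume (Sh f u E' z0 δ 1)).toReal := by
  classical
  obtain ⟨U, c, δ1, hc, hc1, hδ1, hU, hball⟩ := ball_lemma f hf hne z0
  have hzc : ∀ u ∈ U, ∃ δ > 0, ∃ k : ℕ, ∀ x, ‖x - z0‖ ≤ δ → {t : ℂ | ‖t‖ ≤ 1 ∧ f (x + t • u) = 0}.Finite ∧
      {t : ℂ | ‖t‖ ≤ 1 ∧ f (x + t • u) = 0}.ncard ≤ k := fun u hu => zero_count f hf z0 u (hU u hu)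
  choose! δu hδu ku hku using hzc
  -- the radius
  obtain ⟨δ, hδ, hδδ1, hδδu⟩ : ∃ δ : ℝ, 0 < δ ∧ δ ≤ δ1 ∧ ∀ u ∈ U, δ ≤ δu u := by
    have h1 : ∀ᶠ d in 𝓝[>] (0 : ℝ), d ≤ δ1 :=
      (eventually_le_nhds hδ1).filter_mono nhdsWithin_le_nhds
    have h2 : ∀ᶠ d in 𝓝[>] (0 : ℝ), ∀ u ∈ U, d ≤ δu u := by
      rw [Filter.eventually_all_finset]
      intro u hu
      exact (eventually_le_nhds (hδu u hu)).filter_mono nhdsWithin_le_nhds
    have h3 : ∀ᶠ d in 𝓝[>] (0 : ℝ), 0 < d := self_mem_nhdsWithin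
    obtain ⟨d, hd⟩ := (h3.and (h1.and h2)).exists
    exact ⟨d, hd.1, hd.2.1, hd.2.2⟩
  have hku' : ∀ u ∈ U, ∀ x, ‖x - z0‖ ≤ δ → {t : ℂ | ‖t‖ ≤ 1 ∧ f (x + t • u) = 0}.Finite ∧
      {t : ℂ | ‖t‖ ≤ 1 ∧ f (x + t • u) = 0}.ncard ≤ ku u := fun u hu x hx =>
    hku u hu x (hx.trans (hδδu u hu))
  have hsv : ∀ u ∈ U, ∃ C r0 : ℝ, 0 ≤ C ∧ 0 < r0 ∧ ∀ E : Set (ι → ℂ), IsClosed E → ∀ r, 0 < r → r ≤ r0 →
      (volume (Sh f u E z0 (δ / 2) r)).toReal ≤
        C * r ^ 2 * (volume (Sh f u E z0 δ 1)).toReal := fun u hu =>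
    shadow_volume f hf.continuous u z0 δ hδ (ku u) (hku' u hu)
  choose! Cu r0u hCu hr0u hsh using hsv
  -- constants
  obtain ⟨b, hb, hB⟩ : ∃ b : ℝ, 0 < b ∧ ∀ v, ‖B v‖ ≤ b * ‖v‖ := by
    refine ⟨‖(B : (κ → ℝ) →L[ℝ] (ι → ℂ))‖ + 1, by positivity, fun v => ?_⟩
    refine ((B : (κ → ℝ) →L[ℝ] (ι → ℂ)).le_opNorm v).trans ?_
    nlinarith [norm_nonneg v]
  obtain ⟨ρ, hρ, hρ1, hρ2, hρ3⟩ : ∃ ρ : ℝ, 0 < ρ ∧ b * ρ / c ≤ δ1 ∧ b * ρ ≤ δ / 4 ∧
      ∀ u ∈ U, b * ρ / c ≤ r0u u := by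
    have hcont : Tendsto (fun ρ : ℝ => b * ρ / c) (𝓝 0) (𝓝 0) := by
      have : Continuous (fun ρ : ℝ => b * ρ / c) := by fun_prop
      simpa using this.tendsto 0
    have hcont2 : Tendsto (fun ρ : ℝ => b * ρ) (𝓝 0) (𝓝 0) := by
      have : Continuous (fun ρ : ℝ => b * ρ) := by fun_prop
      simpa using this.tendsto 0
    have h1 : ∀ᶠ d in 𝓝[>] (0 : ℝ), b * d / c ≤ δ1 :=
      (hcont.eventually_le_const hδ1).filter_mono nhdsWithin_le_nhds
    have h2 : ∀ᶠ d in 𝓝[>] (0 : ℝ), b * d ≤ δ / 4 :=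
      (hcont2.eventually_le_const (by positivity)).filter_mono nhdsWithin_le_nhds
    have h4 : ∀ᶠ d in 𝓝[>] (0 : ℝ), ∀ u ∈ U, b * d / c ≤ r0u u := by
      rw [Filter.eventually_all_finset]
      intro u hu
      exact (hcont.eventually_le_const (hr0u u hu)).filter_mono nhdsWithin_le_nhds
    have h3 : ∀ᶠ d in 𝓝[>] (0 : ℝ), 0 < d := self_mem_nhdsWithin
    obtain ⟨d, hd⟩ := (h3.and (h1.and (h2.and h4))).exists
    exact ⟨d, hd.1, hd.2.1, hd.2.2.1, hd.2.2.2⟩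
  obtain ⟨v, hv0, hvt, hvol⟩ := volume_Blk B
  have hvp : 0 < v.toReal := ENNReal.toReal_pos hv0 hvt
  set Q : ℝ := ∑ u ∈ U, ‖u‖ with hQ
  have hQu : ∀ u ∈ U, ‖u‖ ≤ Q := fun u hu => Finset.single_le_sum (f := fun u => ‖u‖) (fun _ _ => norm_nonneg _) hu
  have hQ0 : 0 ≤ Q := Finset.sum_nonneg fun _ _ => norm_nonneg _
  set CC : ℝ := ∑ u ∈ U, Cu u with hCC
  have hCCu : ∀ u ∈ U, Cu u ≤ CC := fun u hu => Finset.single_le_sum (f := Cu) (fun w hw => hCu w hw) hu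
  have hCC0 : 0 ≤ CC := Finset.sum_nonneg fun w hw => hCu w hw
  refine ⟨U, δ, (CC + 1) * (b / c) ^ 2 / v.toReal, ρ, b + b / c * Q + 1, hδ, by positivity, hρ, by positivity,
    ?_, ?_⟩
  · intro u hu x hx
    by_contra hcon
    push Not at hcon
    have h1 := (hku' u hu x hx).1
    have h2 : {t : ℂ | ‖t‖ ≤ 1 ∧ f (x + t • u) = 0} = Metric.closedBall (0 : ℂ) 1 := by
      ext t
      simp [hcon]
    rw [h2] at h1
    have h3 : (Metric.closedBall (0 : ℂ) 1).Infinite := by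
      have h4 : ((fun s : ℝ => (s : ℂ)) '' Set.Icc (0 : ℝ) 1).Infinite :=
        (Set.Icc_infinite zero_lt_one).image (fun a _ b' _ hab => Complex.ofReal_injective hab)
      refine h4.mono ?_
      rintro _ ⟨s, hs, rfl⟩
      rw [mem_closedBall_zero_iff, Complex.norm_real, Real.norm_of_nonneg hs.1]
      exact hs.2
    exact h3 h1
  · intro E E' hE' r hr hrρ hEE s
    set S : Set (κ → ℤ) := {m : κ → ℤ | ∃ x ∈ Blk B s r m, ‖x - z0‖ ≤ δ / 4 ∧ x ∈ E ∧ f x = 0} with hS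
    set r' : ℝ := b * r / c with hr'
    have hr'p : 0 < r' := by positivity
    have hr'ρ : r' ≤ b * ρ / c := by
      rw [hr']
      exact div_le_div_of_nonneg_right (mul_le_mul_of_nonneg_left hrρ hb.le) hc.le
    have hcr' : c * r' = b * r := by rw [hr']; field_simp
    have hsub : ∀ m ∈ S, Blk B s r m ⊆ ⋃ u ∈ U, Sh f u E' z0 (δ / 2) r' := by
      rintro m ⟨x, hxB, hxz, hxE, hfx⟩ x1 hx1
      obtain ⟨u, hu, hu2⟩ := hball x (by linarith) hfx r' hr'p (hr'ρ.trans hρ1)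
      have hd : ‖x1 - x‖ ≤ b * r := diam_Blk B s r hr m b hb.le hB x x1 hxB hx1
      obtain ⟨t, ht1, ht2⟩ := hu2 x1 (by rw [hcr']; exact hd)
      rw [Set.mem_iUnion₂]
      refine ⟨u, hu, ?_, t, ht1, ?_, ht2⟩
      · have h1 : x1 - z0 = (x1 - x) + (x - z0) := by abel
        rw [h1]
        have h2 : b * r ≤ b * ρ := mul_le_mul_of_nonneg_left hrρ hb.le
        calc ‖(x1 - x) + (x - z0)‖ ≤ ‖x1 - x‖ + ‖x - z0‖ := norm_add_le _ _
          _ ≤ δ / 2 := by linarith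
      · apply hEE x hxE
        have h1 : x1 + t • u - x = (x1 - x) + t • u := by abel
        rw [h1]
        have h2 : ‖t • u‖ ≤ r' * Q := by
          rw [norm_smul]
          exact mul_le_mul ht1 (hQu u hu) (norm_nonneg _) hr'p.le
        have h3 : r' * Q = b / c * Q * r := by rw [hr']; ring
        calc ‖(x1 - x) + t • u‖ ≤ ‖x1 - x‖ + ‖t • u‖ := norm_add_le _ _
          _ ≤ b * r + b / c * Q * r := by linarith
          _ ≤ (b + b / c * Q + 1) * r := by nlinarith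
    have hT : ∀ T : Finset (κ → ℤ), (∀ m ∈ T, m ∈ S) → (T.card : ℝ) * (v.toReal * r ^ (Fintype.card κ)) ≤
        ∑ u ∈ U, Cu u * r' ^ 2 * (volume (Sh f u E' z0 δ 1)).toReal := by
      intro T hTS
      have h1 : volume (⋃ m ∈ T, Blk B s r m) = (T.card : ENNReal) * (v * ENNReal.ofReal r ^ (Fintype.card κ)) := by
        rw [measure_biUnion_finset]
        · simp only [hvol, Finset.sum_const, nsmul_eq_mul]
        · intro m _ m' _ hmm
          exact disj_Blk B s r hr m m' hmm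
        · intro m _
          exact measurableSet_Blk B s r m
      have h2 : volume (⋃ m ∈ T, Blk B s r m) ≤ ∑ u ∈ U, volume (Sh f u E' z0 (δ / 2) r') := by
        refine (measure_mono ?_).trans (measure_biUnion_finset_le _ _)
        exact Set.iUnion₂_subset fun m hm => hsub m (hTS m hm)
      rw [h1] at h2
      have h3 : (∑ u ∈ U, volume (Sh f u E' z0 (δ / 2) r')) ≠ ⊤ := by
        rw [ENNReal.sum_ne_top]
        intro u _
        exact Sh_finite _ _ _ _ _ _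
      have h4 := ENNReal.toReal_mono h3 h2
      rw [ENNReal.toReal_mul, ENNReal.toReal_mul, ENNReal.toReal_natCast, ENNReal.toReal_pow,
        ENNReal.toReal_ofReal hr.le, ENNReal.toReal_sum (fun u _ => Sh_finite _ _ _ _ _ _)] at h4
      refine h4.trans (Finset.sum_le_sum fun u hu => ?_)
      exact hsh u hu E' hE' r' hr'p (hr'ρ.trans (hρ3 u hu))
    have hsumle : ∑ u ∈ U, Cu u * r' ^ 2 * (volume (Sh f u E' z0 δ 1)).toReal ≤
        (CC + 1) * (b / c) ^ 2 * r ^ 2 * ∑ u ∈ U, (volume (Sh f u E' z0 δ 1)).toReal := by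
      rw [Finset.mul_sum]
      refine Finset.sum_le_sum fun u hu => ?_
      refine mul_le_mul_of_nonneg_right ?_ ENNReal.toReal_nonneg
      have h1 : r' ^ 2 = (b / c) ^ 2 * r ^ 2 := by rw [hr']; ring
      rw [h1]
      have h2 := hCCu u hu
      have h3 : 0 ≤ (b / c) ^ 2 * r ^ 2 := by positivity
      nlinarith
    have hrpow : 0 < r ^ (Fintype.card κ) := by positivity
    have hTT : ∀ T : Finset (κ → ℤ), (∀ m ∈ T, m ∈ S) → (T.card : ℝ) * r ^ (2 * Fintype.card ι) ≤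
        (CC + 1) * (b / c) ^ 2 / v.toReal * r ^ 2 * ∑ u ∈ U, (volume (Sh f u E' z0 δ 1)).toReal := by
      intro T hTS
      have h1 := (hT T hTS).trans hsumle
      rw [← hκ]
      have h2 : (CC + 1) * (b / c) ^ 2 / v.toReal * r ^ 2 * ∑ u ∈ U, (volume (Sh f u E' z0 δ 1)).toReal =
          ((CC + 1) * (b / c) ^ 2 * r ^ 2 * ∑ u ∈ U, (volume (Sh f u E' z0 δ 1)).toReal) / v.toReal := by
        ring
      rw [h2, le_div_iff₀ hvp]
      calc (T.card : ℝ) * r ^ (Fintype.card κ) * v.toReal = (T.card : ℝ) * (v.toReal * r ^ (Fintype.card κ)) := by ring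
        _ ≤ _ := h1
    have hfin : S.Finite := by
      by_contra hinf
      set K : ℝ := (CC + 1) * (b / c) ^ 2 / v.toReal * r ^ 2 * ∑ u ∈ U, (volume (Sh f u E' z0 δ 1)).toReal with hK
      set rr : ℝ := r ^ (2 * Fintype.card ι) with hrr
      have hrrp : 0 < rr := by rw [hrr]; positivity
      obtain ⟨n, hn⟩ := exists_nat_gt (K / rr)
      obtain ⟨T, hTS, hTc⟩ := Set.Infinite.exists_subset_card_eq hinf n
      have h1 := hTT T (fun m hm => hTS hm)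
      rw [hTc] at h1
      rw [div_lt_iff₀ hrrp] at hn
      linarith
    refine ⟨hfin, ?_⟩
    rw [Set.ncard_eq_toFinset_card S hfin]
    exact hTT hfin.toFinset (fun m hm => (Set.Finite.mem_toFinset hfin).1 hm)

end DF
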