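import Pool.Agent.helper32.DF.F3

/-!
# F5 : shadows of shrinking neighbourhoods

PROOF. `Metric.cthickening η F` is closed.  The sets `S_j = Sh f u (cthickening (1/(j+1)) F) z0 δ 1`
are decreasing, measurable (closed, `isClosed_Sh`), of finite volume (bounded).  Their intersection is
`Sh f u F z0 δ 1`: if `x ∈ S_j` for all `j` there are `t_j` in the unit disc with
`x + t_j u ∈ cthickening (1/(j+1)) F`, zeros of `f`; a limit point `t` of `t_j` has
`infDist (x + t u) F ≤ 0`, so `x + t u ∈ closure F = F` (treat `F = ∅` separately: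
`cthickening η ∅ = ∅`), and `f (x + t u) = 0` by continuity.  So the volumes tend to `0`
(`MeasureTheory.tendsto_measure_iInter_atTop` or similar).
-/

namespace DF
open MeasureTheory
variable {ι : Type} [Fintype ι] [DecidableEq ι]

theorem shadow_tendsto (f : (ι → ℂ) → ℂ) (hf : Continuous f) (u z0 : ι → ℂ) (δ : ℝ)
    (F : Set (ι → ℂ)) (hF : IsClosed F) (hnull : volume (Sh f u F z0 δ 1) = 0) :
    ∀ ε > 0, ∃ η > 0, (volume (Sh f u (Metric.cthickening η F) z0 δ 1)).toReal ≤ ε := by
  intro ε hε
  set S : ℕ → Set (ι → ℂ) := fun j => Sh f u (Metric.cthickening (1 / ((j : ℝ) + 1)) F) z0 δ 1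
    with hS
  have hcl : ∀ j, IsClosed (S j) := fun j =>
    isClosed_Sh f hf u z0 _ Metric.isClosed_cthickening δ 1
  have hanti : Antitone S := by
    intro i j hij x hx
    obtain ⟨hx1, t, ht, hE, h0⟩ := hx
    refine ⟨hx1, t, ht, Metric.cthickening_mono ?_ F hE, h0⟩
    have : (i : ℝ) ≤ j := by exact_mod_cast hij
    exact one_div_le_one_div_of_le (by positivity) (by linarith)
  have hfin : volume (S 0) ≠ ⊤ := by
    have hsub : S 0 ⊆ Metric.closedBall z0 δ := by
      intro x hx
      simpa [dist_eq_norm] using hx.1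
    exact ((measure_mono hsub).trans_lt Metric.isBounded_closedBall.measure_lt_top).ne
  have hinter : (⋂ n, S n) ⊆ Sh f u F z0 δ 1 := by
    intro x hx
    rw [Set.mem_iInter] at hx
    set T : ℕ → Set ℂ := fun j => {t | ‖t‖ ≤ 1 ∧
      x + t • u ∈ Metric.cthickening (1 / ((j : ℝ) + 1)) F ∧ f (x + t • u) = 0} with hT
    have hline : Continuous fun t : ℂ => x + t • u := by fun_prop
    have hTcl : ∀ j, IsClosed (T j) := by
      intro j
      refine (isClosed_le continuous_norm continuous_const).inter
        ((Metric.isClosed_cthickening.preimage hline).inter ?_)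
      exact isClosed_eq (hf.comp hline) continuous_const
    have hT0 : IsCompact (T 0) := by
      refine (isCompact_closedBall (0 : ℂ) 1).of_isClosed_subset (hTcl 0) ?_
      intro t ht
      simpa using ht.1
    have hTs : ∀ i, T (i + 1) ⊆ T i := by
      intro i t ht
      refine ⟨ht.1, Metric.cthickening_mono ?_ F ht.2.1, ht.2.2⟩
      exact one_div_le_one_div_of_le (by positivity) (by push_cast; linarith)
    have hTn : ∀ i, (T i).Nonempty := fun i => by
      obtain ⟨_, t, ht, hE, h0⟩ := hx i
      exact ⟨t, ht, hE, h0⟩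
    obtain ⟨t, ht⟩ := IsCompact.nonempty_iInter_of_sequence_nonempty_isCompact_isClosed T hTs hTn
      hT0 hTcl
    rw [Set.mem_iInter] at ht
    refine ⟨(hx 0).1, t, (ht 0).1, ?_, (ht 0).2.2⟩
    rw [← hF.closure_eq, Metric.closure_eq_iInter_cthickening]
    simp only [Set.mem_iInter]
    intro η hη
    obtain ⟨n, hn⟩ := exists_nat_one_div_lt hη
    exact Metric.cthickening_mono hn.le F (ht n).2.1
  have h0 : volume (⋂ n, S n) = 0 := measure_mono_null hinter hnull
  have htend := tendsto_measure_iInter_atTop (μ := volume) (s := S)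
    (fun i => (hcl i).measurableSet.nullMeasurableSet) hanti ⟨0, hfin⟩
  rw [h0] at htend
  have hev := htend.eventually (gt_mem_nhds (ENNReal.ofReal_pos.2 hε))
  obtain ⟨n, hn⟩ := hev.exists
  refine ⟨1 / ((n : ℝ) + 1), by positivity, ?_⟩
  exact ENNReal.toReal_le_of_le_ofReal hε.le hn.le

end DF
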