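import Pool.Agent.helper32.DF.F0

/-!
# F6 : grid points near a good point

`isOpen_KGood`: let `Φ` be the witness at `z`.  It is differentiable in a neighbourhood of `z`,
hence its derivative is continuous there.  Only finitely many tuples `n` have `|n i j| ≤ K`.

`block_good`: by strict differentiability differences of zeros of `Φ` on a fine grid near `z` are
annihilated by the derivative, so they lie in a set of integer vectors of rank `≤ 2h - 3`.

`card_box_le`: a set of integer vectors of rank `d` with entries of absolute value `≤ K` has at most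
`(2K+1)^d` elements: the projection to suitable `d` coordinates is injective.
-/

namespace DF
variable {ι κ : Type} [Fintype ι] [DecidableEq ι] [Fintype κ] [DecidableEq κ]

/-- the cast of an integer vector to a rational vector, as a `ℤ`-linear map -/
def qv (κ : Type) : (κ → ℤ) →ₗ[ℤ] (κ → ℚ) where
  toFun n := fun i => (n i : ℚ)
  map_add' a b := by funext i; simp
  map_smul' c a := by funext i; simp

omit [Fintype κ] [DecidableEq κ] in
theorem qv_apply (n : κ → ℤ) (i : κ) : qv κ n i = (n i : ℚ) := rfl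

omit [Fintype κ] [DecidableEq κ] in
theorem qv_inj : Function.Injective (qv κ) := by
  intro a b h
  funext i
  have := congrFun h i
  simpa [qv_apply] using this

/-- integer vectors in a box, in a subspace -/
theorem card_box_le (M : Finset (κ → ℤ)) (K d : ℕ) (hM : ∀ n ∈ M, ∀ j, |n j| ≤ (K : ℤ))
    (hd : ∀ n : Fin (d + 1) → (κ → ℤ), (∀ i, n i ∈ M) → ¬ LinearIndependent ℤ n) :
    M.card ≤ (2 * K + 1) ^ d := by
  classical
  -- the rational span
  set v : M → (κ → ℚ) := fun n => qv κ n.1 with hv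
  obtain ⟨J, a, ha, hspan, hind⟩ := exists_linearIndependent' ℚ v
  set W : Submodule ℚ (κ → ℚ) := Submodule.span ℚ (Set.range v) with hW
  have hJfin : Finite J := Finite.of_injective a ha
  have hJ' : Fintype J := Fintype.ofFinite J
  have hcardJ : Fintype.card J ≤ d := by
    by_contra hcon
    push Not at hcon
    have hc : Fintype.card (Fin (d + 1)) ≤ Fintype.card J := by simpa using hcon
    obtain ⟨e⟩ := Function.Embedding.nonempty_of_card_le hc
    refine hd (fun i => (a (e i)).1) (fun i => (a (e i)).2) ?_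
    have h1 : LinearIndependent ℚ (fun i => v (a (e i))) := hind.comp e e.injective
    have h2 : LinearIndependent ℤ (fun i => v (a (e i))) :=
      h1.restrict_scalars (by
        intro p q hpq
        have : ((p : ℤ) : ℚ) = ((q : ℤ) : ℚ) := by simpa using hpq
        exact_mod_cast this)
    exact LinearIndependent.of_comp (qv κ) h2
  have hfr : Module.finrank ℚ W ≤ d := by
    have h0 : W = Submodule.span ℚ (Set.range (v ∘ a)) := hspan.symm
    rw [h0]
    exact (finrank_range_le_card _).trans hcardJ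
  -- the coordinate functionals on `W`
  set φ : κ → Module.Dual ℚ W := fun j => (LinearMap.proj j).comp W.subtype with hφ
  obtain ⟨T, b, hb, hspan', hind'⟩ := exists_linearIndependent' ℚ φ
  have hTfin : Finite T := Finite.of_injective b hb
  have hT' : Fintype T := Fintype.ofFinite T
  have hcardT : Fintype.card T ≤ d := by
    have h1 := hind'.fintype_card_le_finrank
    rw [Subspace.dual_finrank_eq] at h1
    exact h1.trans hfr
  -- injectivity of the projection
  have hinj : ∀ n ∈ M, ∀ n' ∈ M, (∀ t : T, n (b t) = n' (b t)) → n = n' := by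
    intro n hn n' hn' h
    have hw : qv κ n ∈ W := Submodule.subset_span ⟨⟨n, hn⟩, rfl⟩
    have hw' : qv κ n' ∈ W := Submodule.subset_span ⟨⟨n', hn'⟩, rfl⟩
    set w : W := ⟨qv κ n, hw⟩ - ⟨qv κ n', hw'⟩ with hwd
    have hz : ∀ ψ ∈ Submodule.span ℚ (Set.range φ), ψ w = 0 := by
      rw [← hspan']
      intro ψ hψ
      refine Submodule.span_induction (p := fun ψ _ => ψ w = 0) ?_ ?_ ?_ ?_ hψ
      · rintro _ ⟨t, rfl⟩
        show (φ (b t)) w = 0
        simp only [hφ, LinearMap.comp_apply, Submodule.subtype_apply, LinearMap.proj_apply, hwd]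
        simp [qv_apply, h t]
      · simp
      · intro x y _ _ hx hy
        simp [hx, hy]
      · intro c x _ hx
        simp [hx]
    apply qv_inj
    funext j
    have h1 := hz (φ j) (Submodule.subset_span ⟨j, rfl⟩)
    simp only [hφ, LinearMap.comp_apply, Submodule.subtype_apply, LinearMap.proj_apply, hwd] at h1
    simpa [sub_eq_zero] using h1
  -- counting
  have hcount : M.card ≤ (Fintype.piFinset (fun _ : T => Finset.Icc (-(K : ℤ)) K)).card := by
    refine Finset.card_le_card_of_injOn (fun n => fun t => n (b t)) ?_ ?_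
    · intro n hn
      simp only [Finset.mem_coe, Fintype.mem_piFinset, Finset.mem_Icc]
      intro t
      exact abs_le.1 (hM n hn (b t))
    · intro n hn n' hn' h
      exact hinj n hn n' hn' (fun t => congrFun h t)
  rw [Fintype.card_piFinset] at hcount
  simp only [Int.card_Icc, Finset.prod_const, Finset.card_univ] at hcount
  have h3 : ((K : ℤ) + 1 - -(K : ℤ)).toNat = 2 * K + 1 := by omega
  rw [h3] at hcount
  exact hcount.trans (Nat.pow_le_pow_right (by omega) hcardT)

omit [DecidableEq κ] in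
theorem finite_box (K : ℕ) : {n : κ → ℤ | ∀ j, |n j| ≤ (K : ℤ)}.Finite := by
  classical
  refine (Finset.finite_toSet (Fintype.piFinset (fun _ : κ => Finset.Icc (-(K : ℤ)) K))).subset ?_
  intro n hn
  simp only [Finset.mem_coe, Fintype.mem_piFinset, Finset.mem_Icc]
  intro t
  exact abs_le.1 (hn t)

omit [DecidableEq κ] in
theorem finite_box' (K m : ℕ) : {n : Fin m → (κ → ℤ) | ∀ i j, |n i j| ≤ (K : ℤ)}.Finite := by
  have h := Set.Finite.pi (fun _ : Fin m => finite_box (κ := κ) K)
  refine h.subset ?_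
  intro n hn i _
  exact hn i

/-- open neighbourhood of differentiability -/
theorem exists_open_diff (Φ : (ι → ℂ) → ℂ) (z : ι → ℂ)
    (h : ∀ᶠ x in nhds z, DifferentiableAt ℂ Φ x) :
    ∃ Ω : Set (ι → ℂ), IsOpen Ω ∧ z ∈ Ω ∧ DifferentiableOn ℂ Φ Ω := by
  obtain ⟨Ω, hΩ, hΩo, hz⟩ := eventually_nhds_iff.1 h
  exact ⟨Ω, hΩo, hz, fun x hx => (hΩ x hx).differentiableWithinAt⟩

theorem isOpen_KGood (f : (ι → ℂ) → ℂ) (B : (κ → ℝ) ≃L[ℝ] (ι → ℂ)) (K : ℕ) :
    IsOpen {z | KGood f B K z} := by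
  rw [isOpen_iff_mem_nhds]
  rintro z ⟨Φ, h1, h2, h3⟩
  obtain ⟨Ω, hΩo, hzΩ, hΩd⟩ := exists_open_diff Φ z h1
  have hcont : ContinuousAt (fun x => fderiv ℂ Φ x) z :=
    (holo_cont Ω hΩo Φ hΩd).continuousAt (hΩo.mem_nhds hzΩ)
  have hfin := finite_box' (κ := κ) K (2 * Fintype.card ι - 2)
  have h4 : ∀ᶠ x in nhds z, ∀ n ∈ {n : Fin (2 * Fintype.card ι - 2) → (κ → ℤ) |
      ∀ i j, |n i j| ≤ (K : ℤ)}, LinearIndependent ℤ n → ∃ i, fderiv ℂ Φ x (B (zr (n i))) ≠ 0 := by
    rw [Filter.eventually_all_finite hfin]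
    intro n hn
    by_cases hli : LinearIndependent ℤ n
    · obtain ⟨i, hi⟩ := h3 n hli hn
      have hc : ContinuousAt (fun x => fderiv ℂ Φ x (B (zr (n i)))) z := hcont.clm_apply continuousAt_const
      filter_upwards [hc.eventually_ne hi] with x hx _
      exact ⟨i, hx⟩
    · exact Filter.Eventually.of_forall fun x h => absurd h hli
  filter_upwards [h1.eventually_nhds, h2.eventually_nhds, h4] with x hx1 hx2 hx3
  exact ⟨Φ, hx1, hx2, fun n hn hK => hx3 n hK hn⟩

theorem block_good (f : (ι → ℂ) → ℂ) (B : (κ → ℝ) ≃L[ℝ] (ι → ℂ)) (hι : 1 ≤ Fintype.card ι)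
    (K : ℕ) (z : ι → ℂ) (hz : KGood f B K z) :
    ∃ V ∈ nhds z, ∀ N : ℕ, 1 ≤ N → ∀ (y : κ → ℝ) (A : Finset (κ → ℤ)),
      (∀ n ∈ A, gp B N y n ∈ V ∧ f (gp B N y n) = 0) →
      (∀ n ∈ A, ∀ n' ∈ A, ∀ j, |n j - n' j| ≤ (K : ℤ)) →
      A.card ≤ (2 * K + 1) ^ (2 * Fintype.card ι - 3) := by
  classical
  obtain ⟨Φ, h1, h2, h3⟩ := hz
  obtain ⟨Ω, hΩo, hzΩ, hΩd⟩ := exists_open_diff Φ z h1
  have hstr : HasStrictFDerivAt Φ (fderiv ℂ Φ z) z := holo_strict Ω hΩo Φ hΩd z hzΩ
  set L := fderiv ℂ Φ z with hL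
  have hev : ∀ᶠ p : (ι → ℂ) × (ι → ℂ) in nhds (z, z), ∀ d ∈ {n : κ → ℤ | ∀ j, |n j| ≤ (K : ℤ)},
      L (B (zr d)) ≠ 0 → ‖Φ p.1 - Φ p.2 - L (p.1 - p.2)‖ ≤
        ‖L (B (zr d))‖ / (2 * (‖B (zr d)‖ + 1)) * ‖p.1 - p.2‖ := by
    rw [Filter.eventually_all_finite (finite_box (κ := κ) K)]
    intro d _
    by_cases hd : L (B (zr d)) = 0
    · exact Filter.Eventually.of_forall fun x h => absurd hd h
    · have hpos : 0 < ‖L (B (zr d))‖ / (2 * (‖B (zr d)‖ + 1)) := by positivity
      filter_upwards [hstr.isLittleO.def hpos] with p hp _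
      exact hp
  rw [nhds_prod_eq, Filter.eventually_iff, Filter.mem_prod_same_iff] at hev
  obtain ⟨t, ht, hV'⟩ := hev
  have hV : ∀ x ∈ t, ∀ y ∈ t, ∀ d : κ → ℤ, (∀ j, |d j| ≤ (K : ℤ)) →
      L (B (zr d)) ≠ 0 → ‖Φ x - Φ y - L (x - y)‖ ≤
        ‖L (B (zr d))‖ / (2 * (‖B (zr d)‖ + 1)) * ‖x - y‖ := by
    intro x hx y hy d hd hne
    exact hV' (Set.mk_mem_prod hx hy) d hd hne
  refine ⟨t ∩ {x | f x = 0 → Φ x = 0}, Filter.inter_mem ht h2, ?_⟩
  intro N hN y A hA hAK
  rcases A.eq_empty_or_nonempty with rfl | ⟨n0, hn0⟩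
  · simp
  have hN' : (0 : ℝ) < N := by exact_mod_cast hN
  have key : ∀ n ∈ A, ∀ n' ∈ A, L (B (zr (n - n'))) = 0 := by
    intro n hn n' hn'
    by_contra hne
    obtain ⟨⟨hx, hx'⟩, hfx⟩ := hA n hn
    obtain ⟨⟨hy, hy'⟩, hfy⟩ := hA n' hn'
    have h5 := hV (gp B N y n) hx (gp B N y n') hy (n - n') (fun j => hAK n hn n' hn' j) hne
    have hdiff : gp B N y n - gp B N y n' = ((N : ℝ)⁻¹ : ℝ) • B (zr (n - n')) := by
      unfold gp
      rw [← map_sub, ← map_smul]
      congr 1
      funext i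
      simp only [Pi.sub_apply, Pi.smul_apply, zr, smul_eq_mul, Int.cast_sub]
      field_simp
      ring
    rw [hx' hfx, hy' hfy, hdiff] at h5
    have hLs : L (((N : ℝ)⁻¹ : ℝ) • B (zr (n - n'))) = ((N : ℝ)⁻¹ : ℝ) • L (B (zr (n - n'))) := by
      rw [← Complex.coe_smul, ← Complex.coe_smul, map_smul]
    rw [hLs] at h5
    simp only [sub_self, zero_sub, norm_neg, norm_smul, Real.norm_eq_abs] at h5
    have hNi : 0 < |((N : ℝ)⁻¹)| := by positivity
    set a := ‖L (B (zr (n - n')))‖ with ha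
    set b := ‖B (zr (n - n'))‖ with hb
    have hb0 : 0 ≤ b := norm_nonneg _
    have ha0 : 0 < a := norm_pos_iff.2 hne
    have h6 : |((N : ℝ)⁻¹)| * a ≤ |((N : ℝ)⁻¹)| * (a / (2 * (b + 1)) * b) := by
      calc |((N : ℝ)⁻¹)| * a ≤ a / (2 * (b + 1)) * (|((N : ℝ)⁻¹)| * b) := h5
        _ = _ := by ring
    have h7 : a ≤ a / (2 * (b + 1)) * b := le_of_mul_le_mul_left h6 hNi
    have h8 : a / (2 * (b + 1)) * b < a := by
      rw [div_mul_eq_mul_div, div_lt_iff₀ (by positivity)]
      nlinarith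
    linarith
  -- the differences
  have hcard : A.card = (A.image (fun n => n - n0)).card := by
    rw [Finset.card_image_of_injective]
    intro p q hpq
    simpa using hpq
  rw [hcard]
  refine card_box_le (A.image (fun n => n - n0)) K (2 * Fintype.card ι - 3) ?_ ?_
  · intro n hn j
    obtain ⟨m, hm, rfl⟩ := Finset.mem_image.1 hn
    exact hAK m hm n0 hn0 j
  · intro n hn hli
    have hbox : ∀ i j, |n i j| ≤ (K : ℤ) := by
      intro i j
      obtain ⟨m, hm, hmn⟩ := Finset.mem_image.1 (hn i)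
      rw [← hmn]
      exact hAK m hm n0 hn0 j
    have hzero : ∀ i, L (B (zr (n i))) = 0 := by
      intro i
      obtain ⟨m, hm, hmn⟩ := Finset.mem_image.1 (hn i)
      rw [← hmn]
      exact key m hm n0 hn0
    rcases Nat.lt_or_ge 1 (Fintype.card ι) with hc | hc
    · have he : 2 * Fintype.card ι - 2 = 2 * Fintype.card ι - 3 + 1 := by omega
      obtain ⟨i, hi⟩ := h3 (fun i => n (Fin.cast he i))
        (hli.comp _ (Fin.cast_injective he)) (fun i j => hbox _ j)
      exact hi (hzero _)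
    · have he : 2 * Fintype.card ι - 2 = 0 := by omega
      have : IsEmpty (Fin (2 * Fintype.card ι - 2)) := by rw [he]; infer_instance
      obtain ⟨i, _⟩ := h3 (fun i => (this.false i).elim) linearIndependent_empty_type
        (fun i => (this.false i).elim)
      exact this.false i

end DF
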