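import Pool.Agent.helper32.DF.Defs

/-!
# F7 : zero sets of holomorphic functions of several variables are null

PROOF. Step 1 (identity theorem): for every `x0 ∈ Ω`, `g` is not identically zero near `x0`.  The set
of `x ∈ Ω` near which `g = 0` is open; it is closed in `Ω`: if `x` is a limit of such points, take a
ball `ball x ρ ⊂ Ω` and such a point `x1 ∈ ball x (ρ/2)`; for `x2 ∈ ball x1 (ρ/2)` the function
`t ↦ g (x1 + t (x2 - x1))` is holomorphic for `|t| < 1 + ε` (a disc) and zero near `0`, so it is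
zero at `t = 1`; so `g = 0` on `ball x1 (ρ/2) ∋ x`, a neighbourhood of `x`.  `Ω` is preconnected and
`g ≠ 0` somewhere, so the set is empty.
Step 2: locally null.  Let `x0 ∈ Ω`, choose `ρ` with `ball x0 (3ρ) ⊂ Ω` and `u`, `‖u‖ < ρ`, with
`g (x0 + u) ≠ 0`; by continuity `g (x + u) ≠ 0` for `‖x - x0‖ ≤ δ`, `δ < ρ` small.  For
such `x`, `t ↦ g (x + t u)` is holomorphic on `|t| < 2` and nonzero at `t = 1`, so its zero set in
`|t| < 2` is countable (isolated zeros), hence null in `ℂ`.  Let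
`Z = {x : ‖x - x0‖ < δ/2, g x = 0}` and `T = {t ∈ ℂ : |t| ≤ η}`, `η ‖u‖ ≤ δ/2`, `η ≤ 1`.  Then
`vol Z · area T = ∫_T ∫ 1_Z(x + t u) dx dt = ∫ area {t ∈ T : x + t u ∈ Z} dx = 0` (Tonelli, translation
invariance; `Z` is measurable: a relatively closed subset of an open ball; for the points `x` with
`x + t u ∈ Z` for some `t ∈ T` one has `‖x - x0‖ ≤ δ`, so the inner area is `0`).
Step 3: countable cover (`measure_null_of_locally_null` or Lindelöf).
-/

set_option linter.unusedSectionVars false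

namespace DF
open MeasureTheory Filter Topology
variable {ι : Type} [Fintype ι] [DecidableEq ι]

/-- the parameters of a line in a convex open set form a convex open set -/
theorem convex_line (W : Set (ι → ℂ)) (hWc : Convex ℝ W) (y u : ι → ℂ) :
    Convex ℝ {t : ℂ | y + t • u ∈ W} := by
  intro t1 h1 t2 h2 a b ha hb hab
  have h := hWc h1 h2 ha hb hab
  have e : y + (a • t1 + b • t2) • u = a • (y + t1 • u) + b • (y + t2 • u) := by
    ext i
    simp only [Pi.add_apply, Pi.smul_apply, smul_eq_mul, Complex.real_smul]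
    have : (a : ℂ) + b = 1 := by exact_mod_cast hab
    linear_combination -(y i) * this
  show y + (a • t1 + b • t2) • u ∈ W
  rw [e]; exact h

theorem analytic_line (W : Set (ι → ℂ)) (hW : IsOpen W) (g : (ι → ℂ) → ℂ)
    (hg : DifferentiableOn ℂ g W) (y u : ι → ℂ) :
    AnalyticOnNhd ℂ (fun t : ℂ => g (y + t • u)) {t : ℂ | y + t • u ∈ W} := by
  have hc : Continuous fun t : ℂ => y + t • u := by fun_prop
  apply DifferentiableOn.analyticOnNhd _ (hW.preimage hc)
  intro t ht
  have h1 : DifferentiableAt ℂ g (y + t • u) := (hg _ ht).differentiableAt (hW.mem_nhds ht)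
  have h2 : DifferentiableAt ℂ (fun t : ℂ => y + t • u) t := by fun_prop
  exact (DifferentiableAt.comp t h1 h2).differentiableWithinAt

/-- identity theorem on a line of a convex open set -/
theorem line_identity (W : Set (ι → ℂ)) (hW : IsOpen W) (hWc : Convex ℝ W) (g : (ι → ℂ) → ℂ)
    (hg : DifferentiableOn ℂ g W) (y u : ι → ℂ) (t0 t1 : ℂ) (h0 : y + t0 • u ∈ W)
    (h1 : y + t1 • u ∈ W) (h : ∀ᶠ t in 𝓝 t0, g (y + t • u) = 0) : g (y + t1 • u) = 0 := by
  have := (analytic_line W hW g hg y u).eqOn_zero_of_preconnected_of_eventuallyEq_zero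
    (convex_line W hWc y u).isPreconnected h0 h
  exact this h1

/-- identity theorem in a convex open set -/
theorem convex_identity (W : Set (ι → ℂ)) (hW : IsOpen W) (hWc : Convex ℝ W) (g : (ι → ℂ) → ℂ)
    (hg : DifferentiableOn ℂ g W) (x1 : ι → ℂ) (hx1 : x1 ∈ W) (h : ∀ᶠ x in 𝓝 x1, g x = 0) :
    ∀ x ∈ W, g x = 0 := by
  intro x hx
  have hc : Tendsto (fun t : ℂ => x1 + t • (x - x1)) (𝓝 0) (𝓝 x1) := by
    have := (show Continuous fun t : ℂ => x1 + t • (x - x1) by fun_prop).tendsto 0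
    simpa using this
  have := line_identity W hW hWc g hg x1 (x - x1) 0 1 (by simpa using hx1) (by simpa using hx)
    (hc.eventually h)
  simpa using this

/-- Step 1: the identity theorem -/
theorem not_eventually_zero (Ω : Set (ι → ℂ)) (hΩ : IsOpen Ω) (hc : IsPreconnected Ω)
    (g : (ι → ℂ) → ℂ) (hg : DifferentiableOn ℂ g Ω) (hne : ∃ x ∈ Ω, g x ≠ 0) (x0 : ι → ℂ)
    (hx0 : x0 ∈ Ω) : ¬ ∀ᶠ x in 𝓝 x0, g x = 0 := by
  intro h0
  obtain ⟨x, hx, hgx⟩ := hne
  have hsub : Ω ⊆ {x | ∀ᶠ y in 𝓝 x, g y = 0} := by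
    apply hc.subset_of_closure_inter_subset isOpen_setOfPred_eventually_nhds ⟨x0, hx0, h0⟩
    rintro y ⟨hy, hyΩ⟩
    obtain ⟨ρ, hρ, hball⟩ := Metric.isOpen_iff.1 hΩ y hyΩ
    obtain ⟨y1, hy1, hd⟩ := Metric.mem_closure_iff.1 hy ρ hρ
    have h1 := convex_identity (Metric.ball y ρ) Metric.isOpen_ball (convex_ball y ρ) g
      (hg.mono hball) y1 (by rw [Metric.mem_ball, dist_comm]; exact hd) hy1
    exact Filter.mem_of_superset (Metric.ball_mem_nhds y hρ) fun w hw => h1 w hw
  exact hgx (hsub hx).self_of_nhds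

theorem null_zeros (Ω : Set (ι → ℂ)) (hΩ : IsOpen Ω) (hc : IsPreconnected Ω) (g : (ι → ℂ) → ℂ)
    (hg : DifferentiableOn ℂ g Ω) (hne : ∃ x ∈ Ω, g x ≠ 0) :
    volume {x | x ∈ Ω ∧ g x = 0} = 0 := by
  apply measure_null_of_locally_null
  rintro x0 ⟨hx0, -⟩
  obtain ⟨ρ, hρ, hball⟩ := Metric.isOpen_iff.1 hΩ x0 hx0
  -- a point `x0 + u` close to `x0` with `g (x0 + u) ≠ 0`
  obtain ⟨x1, hx1g, hx1⟩ : ∃ x1, g x1 ≠ 0 ∧ x1 ∈ Metric.ball x0 (ρ / 3) := by
    have h := not_eventually_zero Ω hΩ hc g hg hne x0 hx0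
    rw [Filter.not_eventually] at h
    obtain ⟨x, hx⟩ := (h.and_eventually (Metric.ball_mem_nhds x0 (show 0 < ρ / 3 by linarith))).exists
    exact ⟨x, hx.1, hx.2⟩
  set u := x1 - x0 with hu
  have hun : ‖u‖ < ρ / 3 := by rw [hu, ← dist_eq_norm]; exact hx1
  -- continuity
  have hcont : ContinuousAt g x1 := (hg x1 (hball (Metric.ball_subset_ball (by linarith) hx1))
    |>.differentiableAt (hΩ.mem_nhds (hball (Metric.ball_subset_ball (by linarith) hx1)))).continuousAt
  obtain ⟨δ, hδ, hδg⟩ : ∃ δ > 0, ∀ x, dist x x1 < δ → g x ≠ 0 := by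
    have := hcont.eventually_ne hx1g
    obtain ⟨δ, hδ, h⟩ := Metric.eventually_nhds_iff.1 this
    exact ⟨δ, hδ, fun x hx => h hx⟩
  set r := min δ (ρ / 3) with hr
  have hr0 : 0 < r := lt_min hδ (by linarith)
  refine ⟨{x | x ∈ Metric.ball x0 r ∧ g x = 0}, ?_, ?_⟩
  · rw [mem_nhdsWithin]
    refine ⟨Metric.ball x0 r, Metric.isOpen_ball, Metric.mem_ball_self hr0, ?_⟩
    rintro x ⟨h1, h2, h3⟩
    exact ⟨h1, h3⟩
  -- the local zero set is null
  set Z := {x | x ∈ Metric.ball x0 r ∧ g x = 0} with hZ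
  have hZm : MeasurableSet Z := by
    have h1 : ContinuousOn g (Metric.ball x0 r) := (hg.mono ((Metric.ball_subset_ball
      ((min_le_right _ _).trans (by linarith))).trans hball)).continuousOn
    have h2 : IsOpen (Metric.ball x0 r ∩ g ⁻¹' {0}ᶜ) :=
      h1.isOpen_inter_preimage Metric.isOpen_ball isClosed_singleton.isOpen_compl
    have h3 : Z = Metric.ball x0 r \ (Metric.ball x0 r ∩ g ⁻¹' {0}ᶜ) := by
      ext x
      simp only [hZ, Set.mem_ofPred_eq, Set.mem_sdiff, Set.mem_inter_iff, Set.mem_preimage,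
        Set.mem_compl_iff, Set.mem_singleton_iff, not_and, not_not]
      tauto
    rw [h3]
    exact measurableSet_ball.diff h2.measurableSet
  have key : ∀ y : ι → ℂ, volume {t : ℂ | y + t • u ∈ Z} = 0 := by
    intro y
    apply measure_null_of_locally_null
    intro t0 ht0
    refine ⟨{t0}, ?_, by simp⟩
    have hW := analytic_line (Metric.ball x0 ρ) Metric.isOpen_ball g (hg.mono hball) y u
    have hsub : Metric.ball x0 r ⊆ Metric.ball x0 ρ :=
      Metric.ball_subset_ball ((min_le_right _ _).trans (by linarith))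
    have hin : y + t0 • u ∈ Metric.ball x0 ρ := hsub ht0.1
    rcases (hW t0 hin).eventually_eq_zero_or_eventually_ne_zero with h | h
    · exfalso
      have e1 : y + (t0 + 1) • u = (y + t0 • u) + u := by rw [add_smul, one_smul, add_assoc]
      have hd : dist (y + t0 • u) x0 < r := ht0.1
      have e2 : y + (t0 + 1) • u ∈ Metric.ball x0 ρ := by
        rw [e1, Metric.mem_ball]
        calc dist (y + t0 • u + u) x0 ≤ dist (y + t0 • u + u) (y + t0 • u) + dist (y + t0 • u) x0 :=
              dist_triangle _ _ _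
          _ < ρ / 3 + r := by
              rw [dist_eq_norm, add_sub_cancel_left]; exact add_lt_add hun hd
          _ ≤ ρ := by have := min_le_right δ (ρ / 3); linarith
      have e3 := line_identity (Metric.ball x0 ρ) Metric.isOpen_ball (convex_ball x0 ρ) g
        (hg.mono hball) y u t0 (t0 + 1) hin e2 h
      rw [e1] at e3
      refine hδg _ ?_ e3
      have e4 : x1 = x0 + u := by rw [hu]; abel
      rw [e4, dist_add_right]
      exact hd.trans_le (min_le_left _ _)
    · rw [mem_nhdsWithin]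
      rw [eventually_nhdsWithin_iff, eventually_nhds_iff] at h
      obtain ⟨V, hV, hVo, hVt⟩ := h
      refine ⟨V, hVo, hVt, ?_⟩
      rintro t ⟨ht1, ht2⟩
      by_contra hne'
      exact hV t ht1 hne' ht2.2
  have := ae_mem_of_ae_add_linearMap_mem (LinearMap.toSpanSingleton ℂ (ι → ℂ) u)
    (volume : Measure ℂ) (volume : Measure (ι → ℂ)) (s := Zᶜ) hZm.compl (fun y => by
      rw [ae_iff]
      simpa [LinearMap.toSpanSingleton_apply] using key y)
  rw [ae_iff] at this
  simpa using this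

end DF
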