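import Pool.Agent.helper32.DF.F0

/-!
# F8a : the chart

PROOF. Let `Ψ x = x - lam x • u + Φ x • u`.  It is differentiable near `y` with
`Ψ'(y) v = v - lam v • u + Φ'(y) v • u`, which is injective (if it is `0`, then `v = s u`, and then
`Φ'(y) (s u) = 0` gives `s = 0`), so invertible (finite dimension).  `Ψ` is strictly differentiable at
`y` (`holo_strict` of F0).  Inverse function theorem
(`HasStrictFDerivAt.toOpenPartialHomeomorph`/`to_localInverse`, and to get differentiability of the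
inverse on a whole ball: `Φ` is differentiable everywhere and the derivative stays invertible near
`y`; `OpenPartialHomeomorph` + `HasFDerivAt` of the local inverse at each point
`OpenPartialHomeomorph.hasFDerivAt_symm`).  `Ψ y = y - lam y • u =: y1` since `Φ y = 0`.  Let `χ` be
the inverse near `y1`, `χ y1 = y`.  For `ξ` near `y1` with `lam ξ = 0`: `Ψ (χ ξ) = ξ`; apply `lam`
(`lam u = 1`): `Φ (χ ξ) = lam ξ = 0`, so `χ ξ - lam (χ ξ) • u = ξ`.
If `x` is near `y` and `Φ x = 0` then `Ψ x = x - lam x • u` and `χ (Ψ x) = x`.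
-/

set_option linter.unusedSectionVars false

namespace DF
variable {ι : Type} [Fintype ι] [DecidableEq ι]

theorem chart (Φ : (ι → ℂ) → ℂ) (hΦ : Differentiable ℂ Φ) (lam : (ι → ℂ) →L[ℂ] ℂ) (u y : ι → ℂ)
    (hlu : lam u = 1) (hy : Φ y = 0) (hu : fderiv ℂ Φ y u ≠ 0) :
    ∃ η > 0, ∃ χ : (ι → ℂ) → (ι → ℂ),
      DifferentiableOn ℂ χ (Metric.ball (y - lam y • u) η) ∧ χ (y - lam y • u) = y ∧
      (∀ ξ ∈ Metric.ball (y - lam y • u) η, lam ξ = 0 →
        Φ (χ ξ) = 0 ∧ χ ξ - lam (χ ξ) • u = ξ) ∧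
      ∃ V ∈ nhds y, ∀ x ∈ V, x - lam x • u ∈ Metric.ball (y - lam y • u) η ∧
        (Φ x = 0 → χ (x - lam x • u) = x) := by
  classical
  -- the map `Ψ` and its derivative
  set Ψ : (ι → ℂ) → (ι → ℂ) := fun x => x - lam x • u + Φ x • u with hΨ
  let D : (ι → ℂ) → ((ι → ℂ) →L[ℂ] (ι → ℂ)) := fun x =>
    ContinuousLinearMap.id ℂ (ι → ℂ) - lam.smulRight u + (fderiv ℂ Φ x).smulRight u
  have hDapp : ∀ x v, D x v = v - lam v • u + fderiv ℂ Φ x v • u := by
    intro x v
    simp [D]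
  have hstrict : ∀ x, HasStrictFDerivAt Ψ (D x) x := by
    intro x
    have h1 : HasStrictFDerivAt Φ (fderiv ℂ Φ x) x :=
      holo_strict Set.univ isOpen_univ Φ hΦ.differentiableOn x (Set.mem_univ x)
    have h2 : HasStrictFDerivAt (fun x => Φ x • u) ((fderiv ℂ Φ x).smulRight u) x :=
      h1.smul_const u
    have h3 : HasStrictFDerivAt (fun x => lam x • u) (lam.smulRight u) x :=
      lam.hasStrictFDerivAt.smul_const u
    exact ((hasStrictFDerivAt_id x).sub h3).add h2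
  -- injectivity of the derivative
  have hinj : ∀ x, fderiv ℂ Φ x u ≠ 0 → Function.Injective (D x) := by
    intro x hx
    rw [injective_iff_map_eq_zero]
    intro v hv
    rw [hDapp] at hv
    have h1 : lam (v - lam v • u + fderiv ℂ Φ x v • u) = 0 := by rw [hv, map_zero]
    rw [map_add, map_sub, map_smul, map_smul, hlu] at h1
    simp only [smul_eq_mul, mul_one, sub_self, zero_add] at h1
    rw [h1, zero_smul, add_zero, sub_eq_zero] at hv
    have h2 : fderiv ℂ Φ x (lam v • u) = 0 := by rw [← hv, h1]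
    rw [map_smul, smul_eq_mul] at h2
    rcases mul_eq_zero.1 h2 with h3 | h3
    · rw [hv, h3, zero_smul]
    · exact absurd h3 hx
  -- as an equivalence
  let e : ∀ x, fderiv ℂ Φ x u ≠ 0 → ((ι → ℂ) ≃L[ℂ] (ι → ℂ)) := fun x hx =>
    (LinearEquiv.ofInjectiveEndo (D x : (ι → ℂ) →ₗ[ℂ] (ι → ℂ)) (hinj x hx)).toContinuousLinearEquiv
  have he : ∀ x hx, ((e x hx : (ι → ℂ) ≃L[ℂ] (ι → ℂ)) : (ι → ℂ) →L[ℂ] (ι → ℂ)) = D x := by
    intro x hx
    ext v : 1
    rfl
  have hs : HasStrictFDerivAt Ψ ((e y hu : (ι → ℂ) ≃L[ℂ] (ι → ℂ)) : (ι → ℂ) →L[ℂ] (ι → ℂ)) y := by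
    rw [he y hu]; exact hstrict y
  set φ := hs.toOpenPartialHomeomorph Ψ with hφ
  have hφc : (φ : (ι → ℂ) → (ι → ℂ)) = Ψ := hs.toOpenPartialHomeomorph_coe
  have hysrc : y ∈ φ.source := hs.mem_toOpenPartialHomeomorph_source
  have hΨy : Ψ y = y - lam y • u := by simp [hΨ, hy]
  have hytgt : y - lam y • u ∈ φ.target := by
    have := hs.image_mem_toOpenPartialHomeomorph_target
    rwa [hΨy] at this
  have hχy : φ.symm (y - lam y • u) = y := by
    have := φ.left_inv hysrc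
    rw [hφc, hΨy] at this
    exact this
  -- the set where the derivative stays invertible
  have hcont : Continuous (fun x => fderiv ℂ Φ x u) := by
    have h := holo_cont Set.univ isOpen_univ Φ hΦ.differentiableOn
    have h' : Continuous (fun x => fderiv ℂ Φ x) := continuousOn_univ.1 h
    exact h'.clm_apply continuous_const
  have hUo : IsOpen {x | fderiv ℂ Φ x u ≠ 0} := isOpen_ne_fun hcont continuous_const
  have hopen : IsOpen (φ.target ∩ φ.symm ⁻¹' {x | fderiv ℂ Φ x u ≠ 0}) :=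
    φ.isOpen_inter_preimage_symm hUo
  have hmem : y - lam y • u ∈ φ.target ∩ φ.symm ⁻¹' {x | fderiv ℂ Φ x u ≠ 0} := by
    refine ⟨hytgt, ?_⟩
    change fderiv ℂ Φ (φ.symm (y - lam y • u)) u ≠ 0
    rw [hχy]; exact hu
  obtain ⟨η, hη, hball⟩ := Metric.isOpen_iff.1 hopen _ hmem
  refine ⟨η, hη, φ.symm, ?_, hχy, ?_, ?_⟩
  · intro ξ hξ
    have h1 := hball hξ
    have h2 : HasFDerivAt φ ((e (φ.symm ξ) h1.2 : (ι → ℂ) ≃L[ℂ] (ι → ℂ)) :
        (ι → ℂ) →L[ℂ] (ι → ℂ)) (φ.symm ξ) := by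
      rw [he _ h1.2, hφc]
      exact (hstrict _).hasFDerivAt
    exact (φ.hasFDerivAt_symm h1.1 h2).differentiableAt.differentiableWithinAt
  · intro ξ hξ hlξ
    have h1 := hball hξ
    have h2 : Ψ (φ.symm ξ) = ξ := by
      have := φ.right_inv h1.1
      rwa [hφc] at this
    have h3 : lam (Ψ (φ.symm ξ)) = 0 := by rw [h2, hlξ]
    simp only [hΨ, map_add, map_sub, map_smul, hlu, smul_eq_mul, mul_one, sub_self,
      zero_add] at h3
    refine ⟨h3, ?_⟩
    have h4 := h2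
    simp only [hΨ, h3, zero_smul, add_zero] at h4
    exact h4
  · have hc2 : Continuous (fun x : ι → ℂ => x - lam x • u) := by fun_prop
    refine ⟨φ.source ∩ (fun x : ι → ℂ => x - lam x • u) ⁻¹' Metric.ball (y - lam y • u) η,
      Filter.inter_mem (φ.open_source.mem_nhds hysrc)
        ((Metric.isOpen_ball.preimage hc2).mem_nhds (Metric.mem_ball_self hη)), ?_⟩
    intro x hx
    refine ⟨hx.2, fun hx0 => ?_⟩
    have h1 := φ.left_inv hx.1
    rw [hφc] at h1
    simpa [hΨ, hx0] using h1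

end DF
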