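import Pool.Agent.helper32.DF.F0

/-!
# F8b : directional derivatives and zeros on lines

PROOF. `Du_differentiable`: a directional derivative of an entire function of several variables is
entire (`holo_deriv` of F0 with `Ω = univ`).
`Du_line`: the derivative of `t ↦ Du f u j (x + t u)` is `Du f u (j+1) (x + t u)`.
`taylor_zero`: let `c = ‖Du f u m y‖ > 0`.  Choose a bounded neighbourhood `V` of `y` such that
`‖Du f u m x‖ ≥ c/2` on `V`, and let `C` bound `‖f‖` on the compact set of points
`x + t u`, `x ∈ V`, `|t| ≤ 2`.  For `x ∈ V` with `Du f u j x = 0` for `j < m` the function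
`g t = f (x + t u)` has `g t = t^m (a + t q(t))` with `a = Du f u m x / m!`, `‖q‖ ≤ C'` for `|t| ≤ 1`
(e.g. `q` from the power series / `dslope`, or the Taylor bound
`‖g t - a t^m‖ ≤ C' |t|^(m+1)` for `|t| ≤ 1` from Cauchy estimates).  So if `g t = 0`, `t ≠ 0`,
`|t| ≤ 1` then `|a| ≤ C' |t|`, `|t| ≥ c/(2 m! C')`.  Shrink `V` so that `x, x + t u ∈ V` forces `|t|`
to be smaller than this and `≤ 1` (`u ≠ 0`, since for `u = 0` and `m ≥ 1` we have `Du f u m = 0`;
for `m = 0`, `f ≠ 0` near `y` and there is nothing to prove: `f (x+tu) = 0` is impossible).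
-/

namespace DF
variable {ι : Type} [Fintype ι] [DecidableEq ι]

theorem Du_differentiable (f : (ι → ℂ) → ℂ) (hf : Differentiable ℂ f) (u : ι → ℂ) (j : ℕ) :
    Differentiable ℂ (Du f u j) := by
  induction j with
  | zero => exact hf
  | succ j ih =>
    have := holo_deriv Set.univ isOpen_univ (Du f u j) ih.differentiableOn u
    exact differentiableOn_univ.1 this

theorem Du_line (f : (ι → ℂ) → ℂ) (hf : Differentiable ℂ f) (u x : ι → ℂ) (j : ℕ) (t : ℂ) :
    HasDerivAt (fun t : ℂ => Du f u j (x + t • u)) (Du f u (j + 1) (x + t • u)) t := by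
  have h1 : HasDerivAt (fun t : ℂ => x + t • u) u t := by
    have := ((hasDerivAt_id t).smul_const u).const_add x
    simpa using this
  have h2 := ((Du_differentiable f hf u j) (x + t • u)).hasFDerivAt
  exact h2.comp_hasDerivAt t h1

/-- if all directional derivatives vanish at a point then `f` vanishes on the line -/
theorem Du_all_zero (f : (ι → ℂ) → ℂ) (hf : Differentiable ℂ f) (u x : ι → ℂ)
    (h : ∀ j, Du f u j x = 0) (t : ℂ) : f (x + t • u) = 0 := by
  have hg : ∀ j : ℕ, iteratedDeriv j (fun t : ℂ => f (x + t • u)) =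
      fun t : ℂ => Du f u j (x + t • u) := by
    intro j
    induction j with
    | zero => simp [iteratedDeriv_zero, Du]
    | succ j ih =>
      rw [iteratedDeriv_succ, ih]
      funext s
      exact (Du_line f hf u x j s).deriv
  have hd : Differentiable ℂ (fun t : ℂ => f (x + t • u)) := fun s =>
    (Du_line f hf u x 0 s).differentiableAt
  have hs := Complex.taylorSeries_eq_of_entire' (c := 0) (z := t) hd
  rw [← hs]
  refine (tsum_congr fun n => ?_).trans tsum_zero
  rw [hg n]
  simp [h n]

theorem taylor_zero (f : (ι → ℂ) → ℂ) (hf : Differentiable ℂ f) (u y : ι → ℂ) (m : ℕ)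
    (hm : Du f u m y ≠ 0) :
    ∃ V ∈ nhds y, ∀ x ∈ V, (∀ j < m, Du f u j x = 0) → ∀ t : ℂ, x + t • u ∈ V →
      f (x + t • u) = 0 → t = 0 := by
  set c0 := Du f u m y with hc0
  have hcont : Continuous fun z => (star c0 * Du f u m z).re :=
    Complex.continuous_re.comp (continuous_const.mul (Du_differentiable f hf u m).continuous)
  have hpos : 0 < (star c0 * Du f u m y).re := by
    rw [← hc0, Complex.star_def, ← Complex.normSq_eq_conj_mul_self, Complex.ofReal_re]
    exact Complex.normSq_pos.2 hm
  have hopen : {z | 0 < (star c0 * Du f u m z).re} ∈ nhds y :=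
    (isOpen_lt continuous_const hcont).mem_nhds hpos
  obtain ⟨ρ, hρ, hball⟩ := Metric.mem_nhds_iff.1 hopen
  refine ⟨Metric.ball y ρ, Metric.ball_mem_nhds y hρ, ?_⟩
  intro x hx hz t hxt hft
  by_contra ht
  have hseg : ∀ s : ℝ, 0 ≤ s → s ≤ 1 → x + ((s : ℂ) * t) • u ∈ Metric.ball y ρ := by
    intro s h0 h1
    have hc := (convex_ball y ρ) hx hxt (sub_nonneg.2 h1) h0 (by ring : 1 - s + s = 1)
    have he : (1 - s) • x + s • (x + t • u) = x + ((s : ℂ) * t) • u := by
      rw [smul_add, ← add_assoc, ← add_smul, sub_add_cancel, one_smul, mul_smul]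
      rfl
    rwa [he] at hc
  have key : ∀ j, j ≤ m → ∀ s : ℝ, 0 < s → s ≤ 1 →
      0 < (star c0 * (t⁻¹) ^ j * Du f u (m - j) (x + ((s : ℂ) * t) • u)).re := by
    intro j
    induction j with
    | zero =>
      intro _ s hs hs1
      have := hball (hseg s hs.le hs1)
      simpa using this
    | succ j ih =>
      intro hj s hs hs1
      have hi : m - (j + 1) + 1 = m - j := by omega
      have hder : ∀ s : ℝ, HasDerivAt
          (fun s : ℝ => (star c0 * (t⁻¹) ^ (j + 1) *
            Du f u (m - (j + 1)) (x + ((s : ℂ) * t) • u)).re)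
          (star c0 * (t⁻¹) ^ j * Du f u (m - j) (x + ((s : ℂ) * t) • u)).re s := by
        intro s
        have h1 : HasDerivAt (fun z : ℂ => z * t) t (s : ℂ) := by
          simpa using (hasDerivAt_id (s : ℂ)).mul_const t
        have h2 := (Du_line f hf u x (m - (j + 1)) ((s : ℂ) * t)).comp (s : ℂ) h1
        have h3 := (h2.const_mul (star c0 * (t⁻¹) ^ (j + 1))).real_of_complex
        rw [hi] at h3
        have h4 : star c0 * t⁻¹ ^ (j + 1) * (Du f u (m - j) (x + ((s : ℂ) * t) • u) * t) =
            star c0 * (t⁻¹) ^ j * Du f u (m - j) (x + ((s : ℂ) * t) • u) := by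
          rw [pow_succ]
          field_simp
        rw [h4] at h3
        exact h3
      have hmono : StrictMonoOn (fun s : ℝ => (star c0 * (t⁻¹) ^ (j + 1) *
            Du f u (m - (j + 1)) (x + ((s : ℂ) * t) • u)).re) (Set.Icc 0 1) := by
        refine strictMonoOn_of_deriv_pos (convex_Icc 0 1)
          (fun s _ => (hder s).continuousAt.continuousWithinAt) ?_
        intro s hs
        rw [interior_Icc] at hs
        rw [(hder s).deriv]
        exact ih (by omega) s hs.1 hs.2.le
      have h5 := hmono (Set.left_mem_Icc.2 zero_le_one) (Set.mem_Icc.2 ⟨hs.le, hs1⟩) hs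
      have h6 : Du f u (m - (j + 1)) x = 0 := hz _ (by omega)
      simpa [h6] using h5
  have h1 := key m le_rfl 1 one_pos le_rfl
  rw [Nat.sub_self] at h1
  have h2 : Du f u 0 (x + ((1 : ℝ) : ℂ) • t • u) = 0 := by
    simpa [Du] using hft
  simp only [Complex.ofReal_one, one_mul] at h1
  have h3 : Du f u 0 (x + t • u) = 0 := hft
  rw [h3] at h1
  simp at h1

end DF
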