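import Pool.Agent.helper32.DF.F0

/-!
# F8c : constant tangent space implies a flat piece

NOTATION. `y1 = y - lam y • u`, `W = ker Φ'(y)` (complex submodule; `Φ'(y) u ≠ 0`, so
`finrank W + 1 = h`).
PROOF. (1) Shrink `η`: `Φ'(χ ξ) u ≠ 0` for `ξ` in the ball (continuity of `Φ'`, Φ entire).  For such
`ξ`, `lam ξ = 0`, the kernel of `Φ'(χ ξ)` has real dimension `2h - 2` and contains the `2h - 2` vectors
`B (n i)`, which are linearly independent over `ℝ`.  So both kernels equal the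
real span of these vectors: `ker Φ'(χ ξ) = W` for all such `ξ`.
(2) For `ξ` in the ball, `lam ξ = 0`, put `p(s) = χ (y1 + s (ξ - y1))`, `s ∈ [0,1]` (note
`lam y1 = 0`).  `Φ (p s) = 0`, so `Φ'(p s) (p'(s)) = 0`, so `p'(s) ∈ W`, so `(Φ'(y) ∘ p)' = 0` and
`Φ'(y) (χ ξ - y) = 0`: `χ ξ - y ∈ W`.
(3) Let `w ∈ W` be small, `ξ = (y + w) - lam (y + w) • u` (it is in the ball, `lam ξ = 0`).  By (2)
`χ ξ = y + w'` with `w' ∈ W`, and `χ ξ - lam (χ ξ) • u = ξ`, so `w' - w = lam (w' - w) • u`; as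
`w' - w ∈ W` and `u ∉ W`, `w' = w`.  So `y + w = χ ξ` and `f (y + w) = 0`.
(4) For every `w ∈ W` the entire function `t ↦ f (y + t w)` vanishes near `0`, so `f (y + w) = 0`.
`HasFlat` holds with `W, y, n`: `B (n i) ∈ ker Φ'(χ y1) = ker Φ'(y) = W`.
-/

namespace DF
variable {ι κ : Type} [Fintype ι] [DecidableEq ι] [Fintype κ] [DecidableEq κ]

/-- integer vectors independent over the integers are independent over the reals -/
theorem linInd_real {m : Type} [Fintype m] (n : m → (κ → ℤ)) (hn : LinearIndependent ℤ n) :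
    LinearIndependent ℝ (fun i => zr (n i)) := by
  classical
  -- over the rationals
  let L : (κ → ℤ) →ₗ[ℤ] (κ → ℚ) :=
    { toFun := fun v k => (v k : ℚ)
      map_add' := fun v w => by funext k; simp
      map_smul' := fun c v => by funext k; simp }
  have hL : LinearMap.ker L = ⊥ := by
    rw [LinearMap.ker_eq_bot']
    intro v hv
    funext k
    have := congrFun hv k
    simpa [L] using this
  have h1 : LinearIndependent ℤ (fun i => L (n i)) := hn.map' L hL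
  have h2 : LinearIndependent ℚ (fun i => L (n i)) := (LinearIndependent.iff_fractionRing ℤ ℚ).mp h1
  rw [Fintype.linearIndependent_iff] at h2 ⊢
  intro g hg i
  rw [← Module.forall_dual_apply_eq_zero_iff ℚ (g i)]
  intro φ
  refine h2 (fun j => φ (g j)) ?_ i
  funext k
  have h3 := congrFun hg k
  rw [Finset.sum_apply] at h3 ⊢
  have h4 := congrArg φ h3
  rw [Pi.zero_apply, map_zero, map_sum] at h4
  rw [Pi.zero_apply, ← h4]
  refine Finset.sum_congr rfl fun j _ => ?_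
  have h5 : (g j • zr (n j)) k = ((n j k : ℤ) : ℚ) • g j := by
    rw [Pi.smul_apply, smul_eq_mul, zr, Rat.smul_def, mul_comm]
    push_cast
    ring
  rw [h5, map_smul, Pi.smul_apply, smul_eq_mul, smul_eq_mul, mul_comm]
  rfl

/-- a complex hyperplane which contains `2h-2` real independent vectors is their real span -/
theorem ker_eq_span {m : ℕ} (hm : m = 2 * Fintype.card ι - 2) (v : Fin m → (ι → ℂ))
    (hv : LinearIndependent ℝ v) (ψ : (ι → ℂ) →L[ℂ] ℂ) (u : ι → ℂ) (hu : ψ u ≠ 0)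
    (h : ∀ i, ψ (v i) = 0) :
    (LinearMap.ker (ψ : (ι → ℂ) →ₗ[ℂ] ℂ)).restrictScalars ℝ = Submodule.span ℝ (Set.range v) ∧
      Module.finrank ℂ (LinearMap.ker (ψ : (ι → ℂ) →ₗ[ℂ] ℂ)) + 1 = Fintype.card ι := by
  have hsurj : LinearMap.range (ψ : (ι → ℂ) →ₗ[ℂ] ℂ) = ⊤ := by
    rw [LinearMap.range_eq_top]
    intro c
    refine ⟨(c / ψ u) • u, ?_⟩
    rw [map_smul, smul_eq_mul]
    exact div_mul_cancel₀ c hu
  have hfr : Module.finrank ℂ (LinearMap.ker (ψ : (ι → ℂ) →ₗ[ℂ] ℂ)) + 1 = Fintype.card ι := by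
    have h1 := LinearMap.finrank_range_add_finrank_ker (ψ : (ι → ℂ) →ₗ[ℂ] ℂ)
    rw [hsurj, finrank_top, Module.finrank_self, Module.finrank_fintype_fun_eq_card] at h1
    omega
  refine ⟨?_, hfr⟩
  symm
  apply Submodule.eq_of_le_of_finrank_eq
  · rw [Submodule.span_le]
    rintro _ ⟨i, rfl⟩
    exact h i
  · rw [finrank_span_eq_card hv, Fintype.card_fin]
    have h2 : Module.finrank ℝ ((LinearMap.ker (ψ : (ι → ℂ) →ₗ[ℂ] ℂ)).restrictScalars ℝ) =
        Module.finrank ℝ (LinearMap.ker (ψ : (ι → ℂ) →ₗ[ℂ] ℂ)) := by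
      exact LinearEquiv.finrank_eq ((Submodule.restrictScalarsEquiv ℝ ℂ (ι → ℂ) _).restrictScalars ℝ)
    rw [h2, finrank_real_of_complex]
    omega

theorem flat_of_const (f : (ι → ℂ) → ℂ) (hf : Differentiable ℂ f) (B : (κ → ℝ) ≃L[ℝ] (ι → ℂ))
    (hκ : Fintype.card κ = 2 * Fintype.card ι) (hι : 1 ≤ Fintype.card ι)
    (Φ : (ι → ℂ) → ℂ) (hΦ : Differentiable ℂ Φ) (lam : (ι → ℂ) →L[ℂ] ℂ) (u y : ι → ℂ)
    (hlu : lam u = 1) (hy : Φ y = 0) (hu : fderiv ℂ Φ y u ≠ 0) (η : ℝ) (hη : 0 < η)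
    (χ : (ι → ℂ) → (ι → ℂ)) (hχd : DifferentiableOn ℂ χ (Metric.ball (y - lam y • u) η))
    (hχy : χ (y - lam y • u) = y)
    (hχ : ∀ ξ ∈ Metric.ball (y - lam y • u) η, lam ξ = 0 →
        Φ (χ ξ) = 0 ∧ χ ξ - lam (χ ξ) • u = ξ)
    (hf0 : ∀ ξ ∈ Metric.ball (y - lam y • u) η, lam ξ = 0 → f (χ ξ) = 0)
    (n : Fin (2 * Fintype.card ι - 2) → (κ → ℤ)) (hn : LinearIndependent ℤ n)
    (hconst : ∀ ξ ∈ Metric.ball (y - lam y • u) η, lam ξ = 0 →
      ∀ i, fderiv ℂ Φ (χ ξ) (B (zr (n i))) = 0) :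
    HasFlat f B := by
  set y1 : ι → ℂ := y - lam y • u with hy1
  set φ : (ι → ℂ) →L[ℂ] ℂ := fderiv ℂ Φ y with hφ
  have hlam1 : lam y1 = 0 := by rw [hy1, map_sub, map_smul, hlu, smul_eq_mul, mul_one, sub_self]
  have hmem1 : y1 ∈ Metric.ball y1 η := Metric.mem_ball_self hη
  -- the vectors
  let v : Fin (2 * Fintype.card ι - 2) → (ι → ℂ) := fun i => B (zr (n i))
  have hv : LinearIndependent ℝ v :=
    (linInd_real n hn).map' (B.toLinearEquiv : (κ → ℝ) →ₗ[ℝ] (ι → ℂ)) (LinearEquiv.ker _)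
  have hφv : ∀ i, φ (v i) = 0 := fun i => by
    have := hconst y1 hmem1 hlam1 i
    rw [hχy] at this
    exact this
  obtain ⟨hkφ, hfr⟩ := ker_eq_span rfl v hv φ u hu hφv
  -- shrink
  have hcont : ContinuousAt (fun ξ => fderiv ℂ Φ (χ ξ) u) y1 := by
    have hc1 : ContinuousAt χ y1 :=
      (hχd.differentiableAt (Metric.ball_mem_nhds y1 hη)).continuousAt
    have hc2 : ContinuousAt (fun x => fderiv ℂ Φ x) (χ y1) :=
      (holo_cont Set.univ isOpen_univ Φ hΦ.differentiableOn).continuousAt Filter.univ_mem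
    have hc3 : ContinuousAt (fun ξ => fderiv ℂ Φ (χ ξ)) y1 := ContinuousAt.comp hc2 hc1
    exact hc3.clm_apply continuousAt_const
  have hne : ∀ᶠ ξ in nhds y1, fderiv ℂ Φ (χ ξ) u ≠ 0 := by
    apply hcont.eventually_ne
    rw [hχy]
    exact hu
  obtain ⟨ε, hε, hball⟩ := Metric.eventually_nhds_iff_ball.mp hne
  set δ : ℝ := min ε η with hδ
  have hδ0 : 0 < δ := lt_min hε hη
  have hsubη : ∀ ξ ∈ Metric.ball y1 δ, ξ ∈ Metric.ball y1 η := fun ξ hξ =>
    Metric.ball_subset_ball (min_le_right _ _) hξ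
  have hker : ∀ ξ ∈ Metric.ball y1 δ, lam ξ = 0 → ∀ w, fderiv ℂ Φ (χ ξ) w = 0 → φ w = 0 := by
    intro ξ hξ hl w hw
    obtain ⟨hk, -⟩ := ker_eq_span rfl v hv (fderiv ℂ Φ (χ ξ)) u
      (hball ξ (Metric.ball_subset_ball (min_le_left _ _) hξ)) (hconst ξ (hsubη ξ hξ) hl)
    have h1 : w ∈ (LinearMap.ker ((fderiv ℂ Φ (χ ξ) : (ι → ℂ) →L[ℂ] ℂ) : (ι → ℂ) →ₗ[ℂ] ℂ)).restrictScalars ℝ := hw
    rw [hk, ← hkφ] at h1
    exact h1
  -- step 2
  have hstep : ∀ ξ ∈ Metric.ball y1 δ, lam ξ = 0 → φ (χ ξ) = φ y := by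
    intro ξ hξ hl
    set c : ℝ → (ι → ℂ) := fun s => y1 + (s : ℂ) • (ξ - y1) with hc
    have hcd : ∀ s : ℝ, HasDerivAt c (ξ - y1) s := by
      intro s
      have h1 : HasDerivAt (fun s : ℝ => (s : ℂ)) 1 s := Complex.ofRealCLM.hasDerivAt
      have h2 : HasDerivAt c ((1 : ℂ) • (ξ - y1)) s := (h1.smul_const (ξ - y1)).const_add y1
      rwa [one_smul] at h2
    have hcl : ∀ s, lam (c s) = 0 := by
      intro s
      simp only [hc, map_add, map_smul, map_sub, hl, hlam1, sub_self, smul_zero, add_zero]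
    have hcb : ∀ s ∈ Set.Icc (0 : ℝ) 1, c s ∈ Metric.ball y1 δ := by
      intro s hs
      rw [Metric.mem_ball, dist_eq_norm, hc]
      simp only [add_sub_cancel_left, norm_smul, Complex.norm_real, Real.norm_eq_abs]
      rw [abs_of_nonneg hs.1]
      have h3 : ‖ξ - y1‖ < δ := by rwa [← dist_eq_norm, ← Metric.mem_ball]
      calc s * ‖ξ - y1‖ ≤ 1 * ‖ξ - y1‖ := by gcongr; exact hs.2
        _ < δ := by rw [one_mul]; exact h3
    have hder : ∀ s ∈ Set.Icc (0 : ℝ) 1, HasDerivAt (fun s => φ (χ (c s))) 0 s := by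
      intro s hs
      have hχs : HasFDerivAt χ (fderiv ℂ χ (c s)) (c s) :=
        (hχd.differentiableAt (Metric.isOpen_ball.mem_nhds (hsubη _ (hcb s hs)))).hasFDerivAt
      have h1 : HasDerivAt (fun s => χ (c s)) (fderiv ℂ χ (c s) (ξ - y1)) s := by
        have := (hχs.restrictScalars ℝ).comp_hasDerivAt s (hcd s)
        exact this
      have h2 : HasDerivAt (fun s => Φ (χ (c s))) (fderiv ℂ Φ (χ (c s)) (fderiv ℂ χ (c s) (ξ - y1))) s := by
        have := ((hΦ (χ (c s))).hasFDerivAt.restrictScalars ℝ).comp_hasDerivAt s h1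
        exact this
      have h3 : (fun s => Φ (χ (c s))) =ᶠ[nhds s] fun _ => 0 := by
        have hcc : ContinuousAt c s := (hcd s).continuousAt
        have h4 : ∀ᶠ s' in nhds s, c s' ∈ Metric.ball y1 η :=
          hcc.eventually_mem (Metric.isOpen_ball.mem_nhds (hsubη _ (hcb s hs)))
        filter_upwards [h4] with s' hs'
        exact (hχ _ hs' (hcl s')).1
      have h5 : fderiv ℂ Φ (χ (c s)) (fderiv ℂ χ (c s) (ξ - y1)) = 0 :=
        h2.unique ((hasDerivAt_const s (0 : ℂ)).congr_of_eventuallyEq h3)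
      have h6 : φ (fderiv ℂ χ (c s) (ξ - y1)) = 0 := hker _ (hcb s hs) (hcl s) _ h5
      have h7 := ((φ.hasFDerivAt (x := χ (c s))).restrictScalars ℝ).comp_hasDerivAt s h1
      have h8 : HasDerivAt (fun s => φ (χ (c s))) (φ (fderiv ℂ χ (c s) (ξ - y1))) s := h7
      rwa [h6] at h8
    have hcst := constant_of_has_deriv_right_zero (f := fun s => φ (χ (c s))) (a := 0) (b := 1)
      (fun s hs => (hder s hs).continuousAt.continuousWithinAt)
      (fun s hs => (hder s ⟨hs.1, hs.2.le⟩).hasDerivWithinAt) 1 ⟨zero_le_one, le_refl _⟩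
    have hc1 : c 1 = ξ := by simp [hc]
    have hc0 : c 0 = y1 := by simp [hc]
    simp only [hc1, hc0, hχy] at hcst
    exact hcst
  -- step 3
  have hsmall : ∀ w, φ w = 0 → ‖w‖ * (1 + ‖lam‖ * ‖u‖) < δ → f (y + w) = 0 := by
    intro w hw hwn
    set ξ : ι → ℂ := (y + w) - lam (y + w) • u with hξ
    have hlξ : lam ξ = 0 := by rw [hξ, map_sub, map_smul, hlu, smul_eq_mul, mul_one, sub_self]
    have hξb : ξ ∈ Metric.ball y1 δ := by
      rw [Metric.mem_ball, dist_eq_norm]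
      have h1 : ξ - y1 = w - lam w • u := by
        rw [hξ, hy1, map_add, add_smul]
        abel
      rw [h1]
      calc ‖w - lam w • u‖ ≤ ‖w‖ + ‖lam w • u‖ := norm_sub_le _ _
        _ ≤ ‖w‖ + ‖lam‖ * ‖w‖ * ‖u‖ := by
            rw [norm_smul]
            gcongr
            exact lam.le_opNorm w
        _ = ‖w‖ * (1 + ‖lam‖ * ‖u‖) := by ring
        _ < δ := hwn
    have h2 := hstep ξ hξb hlξ
    have h3 := (hχ ξ (hsubη ξ hξb) hlξ).2
    have h4 : χ ξ = y + w := by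
      have h5 : χ ξ - (y + w) = lam (χ ξ - (y + w)) • u := by
        have : χ ξ = ξ + lam (χ ξ) • u := eq_add_of_sub_eq h3
        rw [map_sub, sub_smul]
        nth_rewrite 1 [this]
        rw [hξ]
        abel
      have h6 : φ (χ ξ - (y + w)) = 0 := by rw [map_sub, map_add, h2, hw]; ring
      rw [h5, map_smul, smul_eq_mul, mul_eq_zero] at h6
      rcases h6 with h6 | h6
      · rw [h6, zero_smul] at h5
        exact sub_eq_zero.mp h5
      · exact absurd h6 hu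
    rw [← h4]
    exact hf0 ξ (hsubη ξ hξb) hlξ
  -- step 4
  refine ⟨LinearMap.ker (φ : (ι → ℂ) →ₗ[ℂ] ℂ), y, n, hfr, hn, hφv, ?_⟩
  intro w hw
  have hw' : φ w = 0 := hw
  have hg : Differentiable ℂ (fun t : ℂ => f (y + t • w)) := by
    apply hf.comp
    fun_prop
  have hev : (fun t : ℂ => f (y + t • w)) =ᶠ[nhds 0] fun _ => 0 := by
    have h1 : ContinuousAt (fun t : ℂ => ‖t • w‖ * (1 + ‖lam‖ * ‖u‖)) 0 := by fun_prop
    have h2 : ∀ᶠ t : ℂ in nhds 0, ‖t • w‖ * (1 + ‖lam‖ * ‖u‖) < δ := by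
      apply h1.eventually_lt continuousAt_const
      simpa using hδ0
    filter_upwards [h2] with t ht
    exact hsmall (t • w) (by rw [map_smul, hw', smul_zero]) ht
  have han : AnalyticOnNhd ℂ (fun t : ℂ => f (y + t • w)) Set.univ := fun t _ => hg.analyticAt t
  have heq := han.eq_of_eventuallyEq (g := fun _ => 0) (fun t _ => analyticAt_const) hev
  have := congrFun heq 1
  simpa using this

end DF
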