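import Pool.Agent.helper32.DF.F7
import Pool.Agent.helper32.DF.F8a
import Pool.Agent.helper32.DF.F8b
import Pool.Agent.helper32.DF.F8c

/-!
# F8d : bad points have null projections

PROOF. `bad_null_local`: if `m = 0` then `f y ≠ 0`... (then near `y` there are no zeros of `f`, the
set is empty for small `V`).  Let `m ≥ 1`, `Φ = Du f u (m-1)`; `Φ y = 0` and
`fderiv Φ y u = Du f u m y ≠ 0`; so `u ≠ 0`; choose `lam` with `lam u = 1`
(a multiple of a coordinate).  Take `η, χ, V0` from `chart`, `y1 = y - lam y • u`, `D = ball y1 η`,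
`Ω = {x | x - lam x • u ∈ D}`: open, convex (so preconnected).
Write `ζ x = x - lam x • u` (so `lam (ζ x) = 0`, `ζ (x + t u) = ζ x`).
CASE 1: some `j < m` has `Du f u j (χ ξ) ≠ 0` for some `ξ ∈ D`, `lam ξ = 0`.  Then
`G x = Du f u j (χ (ζ x))` is holomorphic on `Ω`, `G ξ ≠ 0`, so `{x ∈ Ω : G x = 0}` is null
(`null_zeros`).  With `V = V0`: if `x + t u ∈ V`, and `Du f u i (x + t u) = 0` for all `i < m` then
`Φ (x + t u) = 0`, so `x + t u = χ (ζ x)`, `x ∈ Ω`, `G x = 0`.
CASE 2: `Du f u j (χ ξ) = 0` for all `j < m` and all `ξ ∈ D` with `lam ξ = 0`.  Let `V1` be from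
`taylor_zero` at `y` (`m`).  There is a neighbourhood `V ⊂ V0 ∩ V1` of `y` such that `χ (ζ x) ∈ V1` for
`x ∈ V` (continuity of `χ` at `y1`, `χ y1 = y`).  Then for `x ∈ V`: `f x = 0 → Φ x = 0`
(`x = χ (ζ x) + t u` for some `t` since `ζ (χ (ζ x)) = ζ x`; `taylor_zero` at the point
`χ (ζ x) ∈ V1` gives `t = 0`, so `Φ x = Φ (χ (ζ x)) = 0`).  Take `V` open.  So if `z ∈ V`, `f z = 0`
and `¬ KGood f B K z`, the witness `Φ` must fail the last condition: there is a tuple `n` (one of
finitely many with entries `|n i j| ≤ K`), independent, with `fderiv Φ z (B (n i)) = 0` for all `i`.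
For each independent tuple `n` with entries `≤ K`: by `flat_of_const` and `hflat` the hypothesis
`hconst` fails, so for some `i` the holomorphic function `G x = fderiv Φ (χ (ζ x)) (B (n i))`
(`= Du Φ (B (n i)) 1 (χ (ζ x))`, holomorphic by `Du_differentiable`) is not identically zero on `Ω`;
its zero set is null; and if `x + t u = z` is as above with this `n` then `z = χ (ζ x)` and `G x = 0`.
The set is contained in a finite union of null sets.

`bad_null`: for `x` in the set let `z = x + t u` be the zero; not all `Du f u j z` vanish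
(`Du_all_zero`: otherwise `f = 0` on the line through `x`, contradicting `hu`), so there is
`m` with `Du f u j z = 0` for `j < m` and `Du f u m z ≠ 0`.  The set `X_m` of all `z` with `f z = 0`,
not `KGood`, order `m`: every `y ∈ X_m` has the neighbourhood `V_y` of `bad_null_local`; countably
many of them cover `X_m` (second countable: `TopologicalSpace.countable_cover_nhdsWithin`).
Countable union of null sets.
-/

namespace DF
open MeasureTheory
variable {ι κ : Type} [Fintype ι] [DecidableEq ι] [Fintype κ] [DecidableEq κ]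

theorem F8d_lam (u : ι → ℂ) (hu : u ≠ 0) : ∃ lam : (ι → ℂ) →L[ℂ] ℂ, lam u = 1 := by
  obtain ⟨i, hi⟩ := Function.ne_iff.mp hu
  refine ⟨(u i)⁻¹ • ContinuousLinearMap.proj (R := ℂ) (φ := fun _ : ι => ℂ) i, ?_⟩
  simp only [ContinuousLinearMap.coe_smul', Pi.smul_apply, ContinuousLinearMap.proj_apply, smul_eq_mul]
  exact inv_mul_cancel₀ hi

theorem bad_null_local (f : (ι → ℂ) → ℂ) (hf : Differentiable ℂ f) (B : (κ → ℝ) ≃L[ℝ] (ι → ℂ))
    (hκ : Fintype.card κ = 2 * Fintype.card ι) (hι : 1 ≤ Fintype.card ι) (hflat : ¬ HasFlat f B)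
    (K : ℕ) (u y : ι → ℂ) (m : ℕ) (h0 : ∀ j < m, Du f u j y = 0) (hm : Du f u m y ≠ 0) :
    ∃ V ∈ nhds y, volume {x : ι → ℂ | ∃ t : ℂ, x + t • u ∈ V ∧ f (x + t • u) = 0 ∧
      (∀ j < m, Du f u j (x + t • u) = 0) ∧ Du f u m (x + t • u) ≠ 0 ∧
      ¬ KGood f B K (x + t • u)} = 0 := by
  rcases m with _ | m
  · refine ⟨{x | f x ≠ 0}, ?_, ?_⟩
    · exact hf.continuous.continuousAt.eventually_ne hm
    · have : {x : ι → ℂ | ∃ t : ℂ, x + t • u ∈ {x | f x ≠ 0} ∧ f (x + t • u) = 0 ∧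
        (∀ j < 0, Du f u j (x + t • u) = 0) ∧ Du f u 0 (x + t • u) ≠ 0 ∧
        ¬ KGood f B K (x + t • u)} = ∅ := by
        ext x
        simp only [Set.mem_setOf_eq, Set.mem_empty_iff_false, iff_false]
        rintro ⟨t, h1, h2, -⟩
        exact h1 h2
      rw [this]
      exact measure_empty
  · -- `m + 1`
    set Φ : (ι → ℂ) → ℂ := Du f u m with hΦdef
    have hΦ : Differentiable ℂ Φ := Du_differentiable f hf u m
    have hΦy : Φ y = 0 := h0 m (Nat.lt_succ_self m)
    have hfd : fderiv ℂ Φ y u ≠ 0 := hm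
    have hu0 : u ≠ 0 := by
      rintro rfl
      exact hfd (map_zero _)
    obtain ⟨lam, hlu⟩ := F8d_lam u hu0
    obtain ⟨η, hη, χ, hχd, hχy, hχ, V0, hV0, hV0'⟩ := chart Φ hΦ lam u y hlu hΦy hfd
    set y1 : ι → ℂ := y - lam y • u with hy1
    -- projection along `u`
    set ζ : (ι → ℂ) →L[ℂ] (ι → ℂ) := ContinuousLinearMap.id ℂ (ι → ℂ) - lam.smulRight u with hζ
    have hζa : ∀ x, ζ x = x - lam x • u := fun x => by simp [hζ]
    have hζu : ∀ (x : ι → ℂ) (t : ℂ), ζ (x + t • u) = ζ x := by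
      intro x t
      rw [hζa, hζa, map_add, map_smul, hlu, smul_eq_mul, mul_one, add_smul]
      abel
    have hζlam : ∀ x, lam (ζ x) = 0 := by
      intro x
      rw [hζa, map_sub, map_smul, hlu, smul_eq_mul, mul_one, sub_self]
    have hζfix : ∀ x, lam x = 0 → ζ x = x := by
      intro x hx
      rw [hζa, hx, zero_smul, sub_zero]
    set Ω : Set (ι → ℂ) := ζ ⁻¹' (Metric.ball y1 η) with hΩ
    have hΩo : IsOpen Ω := Metric.isOpen_ball.preimage ζ.continuous
    have hΩc : IsPreconnected Ω := by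
      have h1 : Convex ℝ Ω :=
        (convex_ball y1 η).is_linear_preimage ((ζ.restrictScalars ℝ).toLinearMap.isLinear)
      exact h1.isPreconnected
    have hmaps : Set.MapsTo ζ Ω (Metric.ball y1 η) := fun x hx => hx
    have hχζ : DifferentiableOn ℂ (fun x => χ (ζ x)) Ω :=
      hχd.comp ζ.differentiable.differentiableOn hmaps
    by_cases hcase : ∃ j < m + 1, ∃ ξ ∈ Metric.ball y1 η, lam ξ = 0 ∧ Du f u j (χ ξ) ≠ 0
    · -- case 1
      obtain ⟨j, hj, ξ, hξ, hlξ, hne⟩ := hcase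
      refine ⟨V0, hV0, ?_⟩
      have hG : DifferentiableOn ℂ (fun x => Du f u j (χ (ζ x))) Ω :=
        (Du_differentiable f hf u j).comp_differentiableOn hχζ
      have hnull := null_zeros Ω hΩo hΩc _ hG
        ⟨ξ, by show ζ ξ ∈ Metric.ball y1 η; rw [hζfix ξ hlξ]; exact hξ, by rw [hζfix ξ hlξ]; exact hne⟩
      refine measure_mono_null ?_ hnull
      rintro x ⟨t, hxV, hfz, hDz, -, -⟩
      obtain ⟨hb, hc⟩ := hV0' _ hxV
      rw [← hζa, hζu] at hb hc
      refine ⟨hb, ?_⟩
      show Du f u j (χ (ζ x)) = 0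
      rw [hc (hDz m (Nat.lt_succ_self m))]
      exact hDz j hj
    · -- case 2
      push Not at hcase
      obtain ⟨V1, hV1, hV1'⟩ := taylor_zero f hf u y (m + 1) hm
      have hcont : ContinuousAt (fun x => χ (ζ x)) y := by
        have h1 : ContinuousAt χ (ζ y) := by
          rw [hζa]
          exact (hχd.differentiableAt (Metric.ball_mem_nhds _ hη)).continuousAt
        exact ContinuousAt.comp (f := ζ) (g := χ) h1 ζ.continuous.continuousAt
      have hχζy : χ (ζ y) = y := by rw [hζa]; exact hχy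
      have hV2 : (fun x => χ (ζ x)) ⁻¹' V1 ∈ nhds y := by
        apply hcont
        show V1 ∈ nhds (χ (ζ y))
        rw [hχζy]
        exact hV1
      set V : Set (ι → ℂ) := interior (V0 ∩ V1 ∩ (fun x => χ (ζ x)) ⁻¹' V1) with hV
      have hVo : IsOpen V := isOpen_interior
      have hVy : V ∈ nhds y := interior_mem_nhds.mpr
        (Filter.inter_mem (Filter.inter_mem hV0 hV1) hV2)
      -- zeros of f in V lie on the chart
      have hzero : ∀ z ∈ V, f z = 0 → Φ z = 0 ∧ ζ z ∈ Metric.ball y1 η ∧ χ (ζ z) = z := by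
        intro z hz hfz
        have hz' := interior_subset hz
        obtain ⟨⟨hz0, hz1⟩, hz2⟩ := hz'
        obtain ⟨hb, -⟩ := hV0' z hz0
        rw [← hζa] at hb
        have hχz := hχ (ζ z) hb (hζlam z)
        set w := χ (ζ z) with hw
        have hwD : ∀ j < m + 1, Du f u j w = 0 := fun j hj => hcase j hj (ζ z) hb (hζlam z)
        have hzw : w + (lam z - lam w) • u = z := by
          have h1 : w - lam w • u = ζ z := hχz.2
          have h2 : ζ z = z - lam z • u := hζa z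
          rw [h2] at h1
          rw [sub_smul]
          have h3 : w + (lam z • u - lam w • u) = (w - lam w • u) + lam z • u := by abel
          rw [h3, h1]
          abel
        have ht : lam z - lam w = 0 := by
          apply hV1' w hz2 hwD
          · rw [hzw]; exact hz1
          · rw [hzw]; exact hfz
        have hzw' : w = z := by
          rw [ht, zero_smul, add_zero] at hzw
          exact hzw
        exact ⟨by rw [← hzw']; exact hχz.1, hb, hzw'⟩
      -- the null sets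
      have hnull : ∀ n : Fin (2 * Fintype.card ι - 2) → (κ → ℤ), LinearIndependent ℤ n →
          volume {x : ι → ℂ | ∃ t : ℂ, x + t • u ∈ V ∧ f (x + t • u) = 0 ∧
            ∀ i, fderiv ℂ Φ (x + t • u) (B (zr (n i))) = 0} = 0 := by
        intro n hn
        have hex : ∃ i, ∃ ξ ∈ Metric.ball y1 η, lam ξ = 0 ∧ fderiv ℂ Φ (χ ξ) (B (zr (n i))) ≠ 0 := by
          by_contra hcon
          push Not at hcon
          apply hflat
          exact flat_of_const f hf B hκ hι Φ hΦ lam u y hlu hΦy hfd η hη χ hχd hχy hχ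
            (fun ξ hξ hlξ => hcase 0 (Nat.succ_pos m) ξ hξ hlξ) n hn
            (fun ξ hξ hlξ i => hcon i ξ hξ hlξ)
        obtain ⟨i, ξ, hξ, hlξ, hne⟩ := hex
        have hG : DifferentiableOn ℂ (fun x => Du Φ (B (zr (n i))) 1 (χ (ζ x))) Ω :=
          (Du_differentiable Φ hΦ (B (zr (n i))) 1).comp_differentiableOn hχζ
        have hnull := null_zeros Ω hΩo hΩc _ hG
          ⟨ξ, by show ζ ξ ∈ Metric.ball y1 η; rw [hζfix ξ hlξ]; exact hξ, by rw [hζfix ξ hlξ]; exact hne⟩
        refine measure_mono_null ?_ hnull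
        rintro x ⟨t, hxV, hfz, hDz⟩
        obtain ⟨-, hb, hc⟩ := hzero _ hxV hfz
        rw [hζu] at hb hc
        refine ⟨hb, ?_⟩
        show fderiv ℂ Φ (χ (ζ x)) (B (zr (n i))) = 0
        rw [hc]
        exact hDz i
      refine ⟨V, hVy, ?_⟩
      have hU : volume (⋃ n : {n : Fin (2 * Fintype.card ι - 2) → (κ → ℤ) // LinearIndependent ℤ n},
          {x : ι → ℂ | ∃ t : ℂ, x + t • u ∈ V ∧ f (x + t • u) = 0 ∧
            ∀ i, fderiv ℂ Φ (x + t • u) (B (zr (n.1 i))) = 0}) = 0 := by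
        rw [measure_iUnion_null_iff]
        intro n
        exact hnull n.1 n.2
      refine measure_mono_null ?_ hU
      rintro x ⟨t, hxV, hfz, -, -, hbad⟩
      have hnot : ¬ ∀ n : Fin (2 * Fintype.card ι - 2) → (κ → ℤ), LinearIndependent ℤ n →
          (∀ i j, |n i j| ≤ (K : ℤ)) → ∃ i, fderiv ℂ Φ (x + t • u) (B (zr (n i))) ≠ 0 := by
        intro hall
        apply hbad
        refine ⟨Φ, Filter.Eventually.of_forall fun z => hΦ z, ?_, hall⟩
        filter_upwards [hVo.mem_nhds hxV] with z hz hfz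
        exact (hzero z hz hfz).1
      push Not at hnot
      obtain ⟨n, hn, -, hn0⟩ := hnot
      rw [Set.mem_iUnion]
      exact ⟨⟨n, hn⟩, t, hxV, hfz, hn0⟩

theorem bad_null (f : (ι → ℂ) → ℂ) (hf : Differentiable ℂ f) (B : (κ → ℝ) ≃L[ℝ] (ι → ℂ))
    (hκ : Fintype.card κ = 2 * Fintype.card ι) (hι : 1 ≤ Fintype.card ι) (hflat : ¬ HasFlat f B)
    (K : ℕ) (z0 u : ι → ℂ) (δ : ℝ) (hu : ∀ x, ‖x - z0‖ ≤ δ → ∃ t : ℂ, f (x + t • u) ≠ 0) :
    volume (Sh f u {z | ¬ KGood f B K z} z0 δ 1) = 0 := by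
  classical
  set X : ℕ → Set (ι → ℂ) := fun m => {z | f z = 0 ∧ (∀ j < m, Du f u j z = 0) ∧ Du f u m z ≠ 0 ∧
    ¬ KGood f B K z} with hX
  have hloc : ∀ m, ∀ y ∈ X m, ∃ V ∈ nhds y, volume {x : ι → ℂ | ∃ t : ℂ, x + t • u ∈ V ∧
      f (x + t • u) = 0 ∧ (∀ j < m, Du f u j (x + t • u) = 0) ∧ Du f u m (x + t • u) ≠ 0 ∧
      ¬ KGood f B K (x + t • u)} = 0 := fun m y hy =>
    bad_null_local f hf B hκ hι hflat K u y m hy.2.1 hy.2.2.1
  choose! V hV hVn using hloc
  have hcov : ∀ m, ∃ t ⊆ X m, t.Countable ∧ X m ⊆ ⋃ y ∈ t, V m y := fun m =>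
    TopologicalSpace.countable_cover_nhdsWithin (fun y hy => mem_nhdsWithin_of_mem_nhds (hV m y hy))
  choose c hcX hcc hcov using hcov
  have hU : volume (⋃ m, ⋃ y ∈ c m, {x : ι → ℂ | ∃ t : ℂ, x + t • u ∈ V m y ∧
      f (x + t • u) = 0 ∧ (∀ j < m, Du f u j (x + t • u) = 0) ∧ Du f u m (x + t • u) ≠ 0 ∧
      ¬ KGood f B K (x + t • u)}) = 0 := by
    rw [measure_iUnion_null_iff]
    intro m
    rw [measure_biUnion_null_iff (hcc m)]
    intro y hy
    exact hVn m y (hcX m hy)
  refine measure_mono_null ?_ hU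
  rintro x ⟨hx, t, -, hbad, hfz⟩
  obtain ⟨t', ht'⟩ := hu x hx
  have hex : ∃ m, Du f u m (x + t • u) ≠ 0 := by
    by_contra hcon
    push Not at hcon
    apply ht'
    have := Du_all_zero f hf u (x + t • u) hcon (t' - t)
    rw [← this]
    congr 1
    rw [sub_smul]
    abel
  set m := Nat.find hex with hmdef
  have hm1 : Du f u m (x + t • u) ≠ 0 := Nat.find_spec hex
  have hm2 : ∀ j < m, Du f u j (x + t • u) = 0 := fun j hj => by
    have := Nat.find_min hex hj
    push Not at this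
    exact this
  have hz : x + t • u ∈ X m := ⟨hfz, hm2, hm1, hbad⟩
  obtain ⟨y, hy, hzV⟩ := Set.mem_iUnion₂.mp (hcov m hz)
  rw [Set.mem_iUnion]
  refine ⟨m, ?_⟩
  rw [Set.mem_iUnion₂]
  exact ⟨y, hy, t, hzV, hfz, hm2, hm1, hbad⟩

end DF
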