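import Pool.Agent.helper32.DF.F4
import Pool.Agent.helper32.DF.F5
import Pool.Agent.helper32.DF.F6
import Pool.Agent.helper32.DF.F8d

/-!
# F9 : few grid points on a zero set without flat pieces

PROOF of `local_count`.  `h = card ι`.
If `h = 1`, `¬ HasFlat` says that `f` has no zero (`W = ⊥`, empty tuple): `A = ∅`.
Let `h ≥ 2`.  Take `U, δ, C, ρ, L` from `block_count`; the `δ` of the claim is `δ/8`.
Let `V0 = ∑_{u∈U} vol (Sh f u univ z0 δ 1)` (finite).  Given `ε`, choose `K ≥ 1` with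
`C V0 (2K+1)^(2h-3) ≤ (ε/2) K^(2h-2)`.
Let `F = {z | ¬ KGood f B K z}` (closed, `isOpen_KGood`).  By `bad_null`, `vol (Sh f u F z0 δ 1) = 0`
for all `u ∈ U`.  By `shadow_tendsto` there is `η > 0` with
`C K^2 ∑_u vol (Sh f u (cthickening η F) z0 δ 1) ≤ ε/2`.  (Take the minimum of the `η_u`; the shadow is
monotone in the set.)
The compact set `X = {‖x - z0‖ ≤ δ/4} \ {x | infDist x F < η/2}` (if `F = ∅`: the whole ball) consists
of KGood points; by `block_good` and the Lebesgue number lemma there is `η' > 0` such that for every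
`x ∈ X` the ball `B(x, η')` is contained in one of the neighbourhoods `V_z` of `block_good`.
Let `N` be large: with `r = K/N`, `b = ‖B‖`: `r ≤ ρ`, `L r ≤ η/2`, `b r < η'`, `b r ≤ δ/8`.
Shift `s i = y i / N`.  A grid point `gp B N y n` lies in the block `m` iff `K m i ≤ n i < K (m i + 1)`;
so each block contains at most `K^(2h)` grid points, and differences of two `n` in the same block
have entries `≤ K`.  Split `A` by blocks.
(a) blocks which contain a point of `A` in `E = {x | infDist x F ≤ η/2}` (empty if `F = ∅`): by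
`block_count` with `E' = cthickening η F` their number is at most
`C r^(2-2h) ∑ vol(...) `, together at most `K^(2h) C (N/K)^(2h-2) ∑ vol = C K² N^(2h-2) ∑ vol
≤ (ε/2) N^(2h-2)` points.
(b) the other blocks which contain a point of `A`: their number is at most `C (N/K)^(2h-2) V0`
(`block_count` with `E = E' = univ`); all points of `A` in such a block have mutual distance `≤ b r <
η'` and lie in `X`, so they lie in one `V_z`: at most `(2K+1)^(2h-3)` points.  Together at most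
`C V0 (N/K)^(2h-2) (2K+1)^(2h-3) ≤ (ε/2) N^(2h-2)`.

PROOF of `count_small`: all points `gp B N y n` (`0 ≤ n i < N`, `0 ≤ y i ≤ 1`, `N ≥ 1`) lie in the
compact set `B '' [0,2]^κ`.  Cover it by finitely many (`q`) balls `‖x - z_j‖ < δ_j` from
`local_count`, use `ε/q` for each.
-/

namespace DF
open MeasureTheory Filter
variable {ι κ : Type} [Fintype ι] [DecidableEq ι] [Fintype κ] [DecidableEq κ]

/-- counting property of a set -/
def F9P (f : (ι → ℂ) → ℂ) (B : (κ → ℝ) ≃L[ℝ] (ι → ℂ)) (K c : ℕ) (V : Set (ι → ℂ)) : Prop :=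
  ∀ N : ℕ, 1 ≤ N → ∀ (y : κ → ℝ) (A : Finset (κ → ℤ)),
      (∀ n ∈ A, gp B N y n ∈ V ∧ f (gp B N y n) = 0) →
      (∀ n ∈ A, ∀ n' ∈ A, ∀ j, |n j - n' j| ≤ (K : ℤ)) → A.card ≤ c

theorem F9_lebesgue (f : (ι → ℂ) → ℂ) (B : (κ → ℝ) ≃L[ℝ] (ι → ℂ)) (hι : 1 ≤ Fintype.card ι)
    (K : ℕ) (X : Set (ι → ℂ)) (hX : IsCompact X) (hg : ∀ x ∈ X, KGood f B K x) :
    ∃ η > 0, ∀ x ∈ X, F9P f B K ((2 * K + 1) ^ (2 * Fintype.card ι - 3)) (Metric.ball x η) := by
  choose V hV hP using fun (x : X) => block_good f B hι K x.1 (hg x.1 x.2)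
  obtain ⟨η, hη, h⟩ := lebesgue_number_lemma_of_metric (c := fun x : X => interior (V x)) hX
    (fun _ => isOpen_interior) (by
      intro x hx
      rw [Set.mem_iUnion]
      exact ⟨⟨x, hx⟩, mem_interior_iff_mem_nhds.2 (hV ⟨x, hx⟩)⟩)
  refine ⟨η, hη, fun x hx => ?_⟩
  obtain ⟨i, hi⟩ := h x hx
  intro N hN y A h1 h2
  exact hP i N hN y A (fun n hn => ⟨interior_subset (hi (h1 n hn).1), (h1 n hn).2⟩) h2

theorem F9_fin (f : (ι → ℂ) → ℂ) (u : ι → ℂ) (E : Set (ι → ℂ)) (z0 : ι → ℂ) (δ r : ℝ) :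
    volume (Sh f u E z0 δ r) ≠ ⊤ := by
  have h : Sh f u E z0 δ r ⊆ Metric.closedBall z0 δ := fun x hx => by
    rw [Metric.mem_closedBall, dist_eq_norm]
    exact hx.1
  exact ((measure_mono h).trans_lt measure_closedBall_lt_top).ne

theorem F9_mono (f : (ι → ℂ) → ℂ) (u : ι → ℂ) {E E' : Set (ι → ℂ)} (h : E ⊆ E') (z0 : ι → ℂ)
    (δ r : ℝ) : (volume (Sh f u E z0 δ r)).toReal ≤ (volume (Sh f u E' z0 δ r)).toReal := by
  refine ENNReal.toReal_mono (F9_fin _ _ _ _ _ _) (measure_mono fun x hx => ⟨hx.1, ?_⟩)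
  obtain ⟨t, h1, h2, h3⟩ := hx.2
  exact ⟨t, h1, h h2, h3⟩

theorem F9_eta (f : (ι → ℂ) → ℂ) (hf : Continuous f) (U : Finset (ι → ℂ)) (z0 : ι → ℂ) (δ : ℝ)
    (F : Set (ι → ℂ)) (hF : IsClosed F) (hnull : ∀ u ∈ U, volume (Sh f u F z0 δ 1) = 0) :
    ∀ ε : ℝ, 0 < ε →
      ∃ η > 0, ∑ u ∈ U, (volume (Sh f u (Metric.cthickening η F) z0 δ 1)).toReal ≤ ε := by
  induction U using Finset.induction_on with
  | empty =>
    intro ε hε
    exact ⟨1, one_pos, by simpa using hε.le⟩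
  | insert a s ha ih =>
    intro ε hε
    obtain ⟨η1, hη1, h1⟩ := shadow_tendsto f hf a z0 δ F hF (hnull a (Finset.mem_insert_self _ _))
      (ε / 2) (by positivity)
    obtain ⟨η2, hη2, h2⟩ := ih (fun u hu => hnull u (Finset.mem_insert_of_mem hu)) (ε / 2)
      (by positivity)
    refine ⟨min η1 η2, lt_min hη1 hη2, ?_⟩
    rw [Finset.sum_insert ha]
    have e1 : (volume (Sh f a (Metric.cthickening (min η1 η2) F) z0 δ 1)).toReal ≤ ε / 2 :=
      (F9_mono f a (Metric.cthickening_mono (min_le_left _ _) F) z0 δ 1).trans h1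
    have e2 : ∑ u ∈ s, (volume (Sh f u (Metric.cthickening (min η1 η2) F) z0 δ 1)).toReal ≤ ε / 2 :=
      (Finset.sum_le_sum fun u _ =>
        F9_mono f u (Metric.cthickening_mono (min_le_right _ _) F) z0 δ 1).trans h2
    linarith

theorem F9_block (B : (κ → ℝ) ≃L[ℝ] (ι → ℂ)) (N K : ℕ) (hN : 1 ≤ N) (hK : 1 ≤ K) (y : κ → ℝ)
    (n : κ → ℤ) : gp B N y n ∈ Blk B (fun i => y i / N) ((K : ℝ) / N) (fun i => n i / (K : ℤ)) := by
  have hN' : (0 : ℝ) < N := by exact_mod_cast hN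
  have hK' : (0 : ℤ) < K := by exact_mod_cast hK
  intro i
  have e : B.symm (gp B N y n) i - y i / N = (n i : ℝ) / N := by
    rw [gp, ContinuousLinearEquiv.symm_apply_apply]
    field_simp
    ring
  simp only [e]
  have h1 : (K : ℤ) * (n i / (K : ℤ)) ≤ n i := Int.mul_ediv_self_le hK'.ne'
  have h2 : n i < (K : ℤ) * (n i / (K : ℤ) + 1) := by
    have := Int.lt_mul_ediv_self_add (x := n i) (k := (K : ℤ)) hK'
    linarith
  have h1' : (K : ℝ) * ((n i / (K : ℤ) : ℤ) : ℝ) ≤ (n i : ℝ) := by exact_mod_cast h1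
  have h2' : (n i : ℝ) < (K : ℝ) * (((n i / (K : ℤ) : ℤ) : ℝ) + 1) := by exact_mod_cast h2
  constructor
  · rw [div_mul_eq_mul_div]
    exact (div_le_div_iff_of_pos_right hN').2 h1'
  · rw [div_mul_eq_mul_div]
    exact (div_lt_div_iff_of_pos_right hN').2 h2'

theorem F9_dist (B : (κ → ℝ) ≃L[ℝ] (ι → ℂ)) (N K : ℕ) (y : κ → ℝ)
    (n n' : κ → ℤ) (h : ∀ j, |n j - n' j| ≤ (K : ℤ)) :
    ‖gp B N y n - gp B N y n'‖ ≤ ‖(B : (κ → ℝ) →L[ℝ] (ι → ℂ))‖ * ((K : ℝ) / N) := by
  have e : gp B N y n - gp B N y n' =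
      (B : (κ → ℝ) →L[ℝ] (ι → ℂ)) (fun i => ((n i : ℝ) - n' i) / N) := by
    rw [gp, gp, ContinuousLinearEquiv.coe_coe, ← map_sub]
    congr 1
    funext i
    rw [Pi.sub_apply]
    ring
  rw [e]
  refine (ContinuousLinearMap.le_opNorm _ _).trans ?_
  refine mul_le_mul_of_nonneg_left ?_ (norm_nonneg _)
  refine (pi_norm_le_iff_of_nonneg (by positivity)).2 fun i => ?_
  rw [norm_div, Real.norm_natCast]
  have h1 : ‖(n i : ℝ) - n' i‖ ≤ K := by
    rw [Real.norm_eq_abs]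
    exact_mod_cast h i
  gcongr

theorem F9_fiber (K : ℕ) (hK : 1 ≤ K) (m : κ → ℤ) (s : Finset (κ → ℤ))
    (hs : ∀ n ∈ s, ∀ i, n i / (K : ℤ) = m i) : s.card ≤ K ^ Fintype.card κ := by
  have hK' : (0 : ℤ) < K := by exact_mod_cast hK
  have h : s ⊆ Fintype.piFinset (fun i => Finset.Ico ((K : ℤ) * m i) ((K : ℤ) * m i + K)) := by
    intro n hn
    rw [Fintype.mem_piFinset]
    intro i
    rw [Finset.mem_Ico]
    have h1 : (K : ℤ) * (n i / (K : ℤ)) ≤ n i := Int.mul_ediv_self_le hK'.ne'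
    have h2 : n i < (K : ℤ) * (n i / (K : ℤ)) + K := Int.lt_mul_ediv_self_add hK'
    rw [hs n hn i] at h1 h2
    exact ⟨h1, h2⟩
  refine (Finset.card_le_card h).trans ?_
  rw [Fintype.card_piFinset]
  simp

theorem F9_fiber_diff (K : ℕ) (hK : 1 ≤ K) (a b : ℤ) (h : a / (K : ℤ) = b / (K : ℤ)) :
    |a - b| ≤ (K : ℤ) := by
  have hK' : (0 : ℤ) < K := by exact_mod_cast hK
  have h1 : (K : ℤ) * (a / (K : ℤ)) ≤ a := Int.mul_ediv_self_le hK'.ne'
  have h2 : a < (K : ℤ) * (a / (K : ℤ)) + K := Int.lt_mul_ediv_self_add hK'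
  have h3 : (K : ℤ) * (b / (K : ℤ)) ≤ b := Int.mul_ediv_self_le hK'.ne'
  have h4 : b < (K : ℤ) * (b / (K : ℤ)) + K := Int.lt_mul_ediv_self_add hK'
  rw [h] at h1 h2
  rw [abs_le]
  constructor <;> linarith

theorem F9_K (X ε : ℝ) (hX : 0 ≤ X) (hε : 0 < ε) (q : ℕ) (hq : 1 ≤ q) :
    ∃ K : ℕ, 1 ≤ K ∧ X * (2 * (K : ℝ) + 1) ^ (q - 1) ≤ ε / 2 * (K : ℝ) ^ q := by
  obtain ⟨K, hK⟩ := exists_nat_ge (2 * (X * 3 ^ (q - 1)) / ε)
  refine ⟨K + 1, by omega, ?_⟩
  push_cast
  have h3 : (2 * ((K : ℝ) + 1) + 1) ^ (q - 1) ≤ (3 * ((K : ℝ) + 1)) ^ (q - 1) := by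
    have : (0 : ℝ) ≤ K := Nat.cast_nonneg K
    refine pow_le_pow_left₀ (by positivity) ?_ _
    linarith
  have h4 : ((K : ℝ) + 1) ^ q = ((K : ℝ) + 1) * ((K : ℝ) + 1) ^ (q - 1) := by
    rw [← pow_succ']
    congr 1
    omega
  have h5 : X * 3 ^ (q - 1) ≤ ε / 2 * ((K : ℝ) + 1) := by
    rw [div_le_iff₀ hε] at hK
    nlinarith
  calc X * (2 * ((K : ℝ) + 1) + 1) ^ (q - 1) ≤ X * (3 * ((K : ℝ) + 1)) ^ (q - 1) :=
        mul_le_mul_of_nonneg_left h3 hX
    _ = (X * 3 ^ (q - 1)) * ((K : ℝ) + 1) ^ (q - 1) := by rw [mul_pow]; ring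
    _ ≤ (ε / 2 * ((K : ℝ) + 1)) * ((K : ℝ) + 1) ^ (q - 1) :=
        mul_le_mul_of_nonneg_right h5 (by positivity)
    _ = _ := by rw [h4]; ring

theorem local_count (f : (ι → ℂ) → ℂ) (hf : Differentiable ℂ f) (hne : ∃ z, f z ≠ 0)
    (B : (κ → ℝ) ≃L[ℝ] (ι → ℂ)) (hκ : Fintype.card κ = 2 * Fintype.card ι)
    (hι : 1 ≤ Fintype.card ι) (hflat : ¬ HasFlat f B) (z0 : ι → ℂ) :
    ∃ δ > 0, ∀ ε > 0, ∃ N0 : ℕ, ∀ N ≥ N0, ∀ (y : κ → ℝ) (A : Finset (κ → ℤ)),
      (∀ n ∈ A, ‖gp B N y n - z0‖ ≤ δ ∧ f (gp B N y n) = 0) →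
      (A.card : ℝ) ≤ ε * (N : ℝ) ^ (2 * Fintype.card ι - 2) := by
  classical
  rcases Nat.lt_or_ge 1 (Fintype.card ι) with h2 | h1
  swap
  · -- card = 1
    have hc : Fintype.card ι = 1 := le_antisymm h1 hι
    refine ⟨1, one_pos, fun ε hε => ⟨0, fun N _ y A hA => ?_⟩⟩
    have hA0 : A = ∅ := by
      rw [Finset.eq_empty_iff_forall_notMem]
      intro n hn
      apply hflat
      haveI : IsEmpty (Fin (2 * Fintype.card ι - 2)) := ⟨fun i => by have := i.2; omega⟩
      refine ⟨⊥, gp B N y n, isEmptyElim, ?_, linearIndependent_empty_type, fun i => isEmptyElim i, ?_⟩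
      · rw [finrank_bot, hc]
      · intro w hw
        rw [Submodule.mem_bot] at hw
        rw [hw, add_zero]
        exact (hA n hn).2
    rw [hA0, Finset.card_empty, Nat.cast_zero]
    positivity
  · obtain ⟨U, δ, C, ρ, L, hδ, hC, hρ, hL, hU, hcount⟩ := block_count f hf hne z0 B hκ
    refine ⟨δ / 8, by positivity, fun ε hε => ?_⟩
    obtain ⟨q, hq⟩ : ∃ q, 2 * Fintype.card ι = q + 2 := ⟨2 * Fintype.card ι - 2, by omega⟩
    have hq1 : 1 ≤ q := by omega
    have e2 : 2 * Fintype.card ι - 2 = q := by omega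
    have e3 : 2 * Fintype.card ι - 3 = q - 1 := by omega
    set V0 : ℝ := ∑ u ∈ U, (volume (Sh f u Set.univ z0 δ 1)).toReal with hV0
    have hV0' : 0 ≤ V0 := Finset.sum_nonneg fun _ _ => ENNReal.toReal_nonneg
    obtain ⟨K, hK1, hK⟩ := F9_K (C * V0) ε (by positivity) hε q hq1
    have hK0 : (0 : ℝ) < K := by exact_mod_cast hK1
    set F : Set (ι → ℂ) := {z | ¬ KGood f B K z} with hF
    have hFc : IsClosed F := (isOpen_KGood f B K).isClosed_compl
    obtain ⟨η, hη, hηs⟩ := F9_eta f hf.continuous U z0 δ F hFc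
      (fun u hu => bad_null f hf B hκ hι hflat K z0 u δ (hU u hu)) (ε / (2 * (C * (K : ℝ) ^ 2)))
      (by positivity)
    obtain ⟨η', hη', hX⟩ := F9_lebesgue f B hι K
      (Metric.closedBall z0 (δ / 4) \ Metric.thickening (η / 2) F)
      ((isCompact_closedBall _ _).diff Metric.isOpen_thickening) (by
        intro x hx
        by_contra hc
        exact hx.2 (Metric.self_subset_thickening (by positivity) F hc))
    rw [e3] at hX
    set b : ℝ := ‖(B : (κ → ℝ) →L[ℝ] (ι → ℂ))‖ with hb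
    have hb0 : 0 ≤ b := norm_nonneg _
    have hev : ∀ᶠ N : ℕ in atTop, (K : ℝ) / N < min ρ (min (η / (2 * L)) (η' / (b + 1))) :=
      (tendsto_const_div_atTop_nhds_zero_nat (K : ℝ)).eventually_lt_const (by positivity)
    obtain ⟨N0, hN0⟩ := Filter.eventually_atTop.1 hev
    refine ⟨max N0 1, fun N hN y A hA => ?_⟩
    have hN1 : 1 ≤ N := (le_max_right _ _).trans hN
    have hNp : (0 : ℝ) < N := by exact_mod_cast hN1
    have hr := hN0 N ((le_max_left _ _).trans hN)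
    set r : ℝ := (K : ℝ) / N with hrdef
    have hr0 : 0 < r := by positivity
    have hrρ : r ≤ ρ := (hr.le).trans (min_le_left _ _)
    have hrL : L * r ≤ η / 2 := by
      have h1 : r ≤ η / (2 * L) := (hr.le).trans ((min_le_right _ _).trans (min_le_left _ _))
      rw [le_div_iff₀ (by positivity)] at h1
      linarith
    have hrη : b * r < η' := by
      have h1 : r < η' / (b + 1) := hr.trans_le ((min_le_right _ _).trans (min_le_right _ _))
      rw [lt_div_iff₀ (by positivity)] at h1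
      nlinarith
    have hKr : (K : ℝ) = r * N := by
      rw [hrdef]
      field_simp
    set s : κ → ℝ := fun i => y i / N with hs
    set mm : (κ → ℤ) → (κ → ℤ) := fun n i => n i / (K : ℤ) with hmm
    -- the two families of blocks
    obtain ⟨hM1f, hM1⟩ := hcount (Metric.thickening (η / 2) F) (Metric.cthickening η F)
      Metric.isClosed_cthickening r hr0 hrρ (by
        intro x hx x' hx'
        refine Metric.thickening_subset_cthickening _ _ ?_
        rw [Metric.mem_thickening_iff] at hx ⊢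
        obtain ⟨w, hw, hxw⟩ := hx
        refine ⟨w, hw, ?_⟩
        have h1 : dist x' x ≤ η / 2 := by
          rw [dist_eq_norm]
          exact hx'.trans hrL
        calc dist x' w ≤ dist x' x + dist x w := dist_triangle _ _ _
          _ < η := by linarith) s
    obtain ⟨hM2f, hM2⟩ := hcount Set.univ Set.univ isClosed_univ r hr0 hrρ
      (fun _ _ _ _ => Set.mem_univ _) s
    set M1 : Set (κ → ℤ) := {m : κ → ℤ | ∃ x ∈ Blk B s r m, ‖x - z0‖ ≤ δ / 4 ∧
      x ∈ Metric.thickening (η / 2) F ∧ f x = 0} with hM1def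
    set M2 : Set (κ → ℤ) := {m : κ → ℤ | ∃ x ∈ Blk B s r m, ‖x - z0‖ ≤ δ / 4 ∧
      x ∈ Set.univ ∧ f x = 0} with hM2def
    have hblk : ∀ n, gp B N y n ∈ Blk B s r (mm n) := fun n => F9_block B N K hN1 hK1 y n
    have hA4 : ∀ n ∈ A, ‖gp B N y n - z0‖ ≤ δ / 4 := fun n hn => by
      have := (hA n hn).1
      linarith
    set A1 := A.filter (fun n => mm n ∈ M1) with hA1
    set A2 := A.filter (fun n => ¬ mm n ∈ M1) with hA2
    have hcard : A.card = A1.card + A2.card := (Finset.card_filter_add_card_filter_not _).symm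
    -- first part
    have b1 : (A1.card : ℝ) ≤ ε / 2 * (N : ℝ) ^ q := by
      have c1 : A1.card ≤ K ^ (q + 2) * (A1.image mm).card := by
        refine Finset.card_le_mul_card_image A1 _ fun m _ => ?_
        rw [← hq, ← hκ]
        refine F9_fiber K hK1 m _ fun n hn i => ?_
        have := (Finset.mem_filter.1 hn).2
        exact congrFun this i
      have c2 : (A1.image mm).card ≤ M1.ncard := by
        rw [← Set.ncard_coe_finset]
        refine Set.ncard_le_ncard ?_ hM1f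
        intro m hm
        rw [Finset.mem_coe, Finset.mem_image] at hm
        obtain ⟨n, hn, rfl⟩ := hm
        exact (Finset.mem_filter.1 hn).2
      have c3 : (A1.card : ℝ) ≤ (K : ℝ) ^ (q + 2) * M1.ncard := by
        have : A1.card ≤ K ^ (q + 2) * M1.ncard := c1.trans (Nat.mul_le_mul_left _ c2)
        exact_mod_cast this
      have c4 : (M1.ncard : ℝ) * r ^ q ≤
          C * ∑ u ∈ U, (volume (Sh f u (Metric.cthickening η F) z0 δ 1)).toReal := by
        rw [hq, pow_add] at hM1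
        have h5 : (M1.ncard : ℝ) * r ^ q * r ^ 2 ≤
          (C * ∑ u ∈ U, (volume (Sh f u (Metric.cthickening η F) z0 δ 1)).toReal) * r ^ 2 := by
          calc _ = (M1.ncard : ℝ) * (r ^ q * r ^ 2) := by ring
            _ ≤ _ := hM1
            _ = _ := by ring
        exact le_of_mul_le_mul_right h5 (by positivity)
      have c5 : (M1.ncard : ℝ) * r ^ q ≤ C * (ε / (2 * (C * (K : ℝ) ^ 2))) :=
        c4.trans (mul_le_mul_of_nonneg_left hηs hC.le)
      have c6 : C * (ε / (2 * (C * (K : ℝ) ^ 2))) * (K : ℝ) ^ 2 = ε / 2 := by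
        field_simp
      calc (A1.card : ℝ) ≤ (K : ℝ) ^ (q + 2) * M1.ncard := c3
        _ = ((M1.ncard : ℝ) * r ^ q) * (K : ℝ) ^ 2 * (N : ℝ) ^ q := by
            have : (K : ℝ) ^ q = r ^ q * (N : ℝ) ^ q := by rw [hKr, mul_pow]
            rw [pow_add, this]
            ring
        _ ≤ (C * (ε / (2 * (C * (K : ℝ) ^ 2)))) * (K : ℝ) ^ 2 * (N : ℝ) ^ q := by
            gcongr
        _ = ε / 2 * (N : ℝ) ^ q := by rw [c6]
    -- second part
    have b2 : (A2.card : ℝ) ≤ ε / 2 * (N : ℝ) ^ q := by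
      have c1 : A2.card ≤ (2 * K + 1) ^ (q - 1) * (A2.image mm).card := by
        refine Finset.card_le_mul_card_image A2 _ fun m hm => ?_
        rw [Finset.mem_image] at hm
        obtain ⟨n0, hn0, rfl⟩ := hm
        have hin : ∀ n ∈ A2, gp B N y n ∈ Metric.closedBall z0 (δ / 4) \ Metric.thickening (η / 2) F := by
          intro n hn
          rw [hA2, Finset.mem_filter] at hn
          constructor
          · rw [Metric.mem_closedBall, dist_eq_norm]
            exact hA4 n hn.1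
          · intro hth
            exact hn.2 ⟨gp B N y n, hblk n, hA4 n hn.1, hth, (hA n hn.1).2⟩
        have hdiff : ∀ n ∈ A2.filter (fun a => mm a = mm n0), ∀ n' ∈ A2.filter (fun a => mm a = mm n0),
            ∀ j, |n j - n' j| ≤ (K : ℤ) := by
          intro n hn n' hn' j
          refine F9_fiber_diff K hK1 _ _ ?_
          have h5 := (Finset.mem_filter.1 hn).2
          have h6 := (Finset.mem_filter.1 hn').2
          exact congrFun (h5.trans h6.symm) j
        refine hX _ (hin n0 hn0) N hN1 y _ ?_ hdiff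
        intro n hn
        have hnA2 := (Finset.mem_filter.1 hn).1
        have hnA : n ∈ A := (Finset.mem_filter.1 hnA2).1
        refine ⟨?_, (hA n hnA).2⟩
        rw [Metric.mem_ball, dist_eq_norm]
        refine (F9_dist B N K y n n0 (hdiff n hn n0 ?_)).trans_lt hrη
        exact Finset.mem_filter.2 ⟨hn0, rfl⟩
      have c2 : (A2.image mm).card ≤ M2.ncard := by
        rw [← Set.ncard_coe_finset]
        refine Set.ncard_le_ncard ?_ hM2f
        intro m hm
        rw [Finset.mem_coe, Finset.mem_image] at hm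
        obtain ⟨n, hn, rfl⟩ := hm
        have hnA : n ∈ A := (Finset.mem_filter.1 hn).1
        exact ⟨gp B N y n, hblk n, hA4 n hnA, Set.mem_univ _, (hA n hnA).2⟩
      have c3 : (A2.card : ℝ) ≤ (2 * (K : ℝ) + 1) ^ (q - 1) * M2.ncard := by
        have : A2.card ≤ (2 * K + 1) ^ (q - 1) * M2.ncard := c1.trans (Nat.mul_le_mul_left _ c2)
        exact_mod_cast this
      have c4 : (M2.ncard : ℝ) * r ^ q ≤ C * V0 := by
        rw [hq, pow_add] at hM2
        have h5 : (M2.ncard : ℝ) * r ^ q * r ^ 2 ≤ (C * V0) * r ^ 2 := by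
          calc _ = (M2.ncard : ℝ) * (r ^ q * r ^ 2) := by ring
            _ ≤ _ := hM2
            _ = _ := by ring
        exact le_of_mul_le_mul_right h5 (by positivity)
      have c5 : (A2.card : ℝ) * r ^ q ≤ (ε / 2 * (N : ℝ) ^ q) * r ^ q := by
        calc (A2.card : ℝ) * r ^ q ≤ ((2 * (K : ℝ) + 1) ^ (q - 1) * M2.ncard) * r ^ q := by
              gcongr
          _ = (2 * (K : ℝ) + 1) ^ (q - 1) * (M2.ncard * r ^ q) := by ring
          _ ≤ (2 * (K : ℝ) + 1) ^ (q - 1) * (C * V0) := by gcongr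
          _ = C * V0 * (2 * (K : ℝ) + 1) ^ (q - 1) := by ring
          _ ≤ ε / 2 * (K : ℝ) ^ q := hK
          _ = (ε / 2 * (N : ℝ) ^ q) * r ^ q := by
              have : (K : ℝ) ^ q = r ^ q * (N : ℝ) ^ q := by rw [hKr, mul_pow]
              rw [this]
              ring
      exact le_of_mul_le_mul_right c5 (by positivity)
    rw [e2, hcard, Nat.cast_add]
    linarith

theorem count_small (f : (ι → ℂ) → ℂ) (hf : Differentiable ℂ f) (hne : ∃ z, f z ≠ 0)
    (B : (κ → ℝ) ≃L[ℝ] (ι → ℂ)) (hκ : Fintype.card κ = 2 * Fintype.card ι)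
    (hι : 1 ≤ Fintype.card ι) (hflat : ¬ HasFlat f B) (ε : ℝ) (hε : 0 < ε) :
    ∃ N0 : ℕ, ∀ N ≥ N0, ∀ y : κ → ℝ, (∀ i, 0 ≤ y i ∧ y i ≤ 1) → ∀ A : Finset (κ → ℤ),
      (∀ n ∈ A, (∀ i, 0 ≤ n i ∧ n i < (N : ℤ)) ∧ f (gp B N y n) = 0) →
      (A.card : ℝ) ≤ ε * (N : ℝ) ^ (2 * Fintype.card ι - 2) := by
  classical
  choose δ hδ hloc using local_count f hf hne B hκ hι hflat
  have hT : IsCompact (B '' (Set.Icc (0 : κ → ℝ) 1)) := isCompact_Icc.image B.continuous
  obtain ⟨t, -, ht⟩ := hT.elim_nhds_subcover (fun z => Metric.closedBall z (δ z))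
    (fun z _ => Metric.closedBall_mem_nhds z (hδ z))
  have hε' : 0 < ε / ((t.card : ℝ) + 1) := by positivity
  choose N1 hN1 using fun z => hloc z (ε / ((t.card : ℝ) + 1)) hε'
  refine ⟨max (t.sup N1) 1, fun N hN y hy A hA => ?_⟩
  have hNp1 : 1 ≤ N := (le_max_right _ _).trans hN
  have hNp : (0 : ℝ) < N := by exact_mod_cast hNp1
  have hsub : A ⊆ t.biUnion (fun z => A.filter (fun n => ‖gp B N y n - z‖ ≤ δ z)) := by
    intro n hn
    have h1 : gp B N y n ∈ B '' (Set.Icc (0 : κ → ℝ) 1) := by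
      refine ⟨_, ⟨fun i => ?_, fun i => ?_⟩, rfl⟩
      · have h2 := ((hA n hn).1 i).1
        have h3 := (hy i).1
        have h2' : (0 : ℝ) ≤ n i := by exact_mod_cast h2
        show (0 : ℝ) ≤ ((n i : ℝ) + y i) / N
        positivity
      · have h2 := ((hA n hn).1 i).2
        have h3 := (hy i).2
        have h2' : (n i : ℝ) + 1 ≤ N := by exact_mod_cast h2
        show ((n i : ℝ) + y i) / N ≤ 1
        rw [div_le_one hNp]
        linarith
    have h4 := ht h1
    rw [Set.mem_iUnion₂] at h4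
    obtain ⟨z, hz, hz2⟩ := h4
    rw [Finset.mem_biUnion]
    refine ⟨z, hz, Finset.mem_filter.2 ⟨hn, ?_⟩⟩
    rwa [Metric.mem_closedBall, dist_eq_norm] at hz2
  have hcard : (A.card : ℝ) ≤ ∑ z ∈ t, ((A.filter (fun n => ‖gp B N y n - z‖ ≤ δ z)).card : ℝ) := by
    have := (Finset.card_le_card hsub).trans Finset.card_biUnion_le
    exact_mod_cast this
  have hone : ∀ z ∈ t, ((A.filter (fun n => ‖gp B N y n - z‖ ≤ δ z)).card : ℝ) ≤
      ε / ((t.card : ℝ) + 1) * (N : ℝ) ^ (2 * Fintype.card ι - 2) := by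
    intro z hz
    refine hN1 z N ((Finset.le_sup hz).trans ((le_max_left _ _).trans hN)) y _ ?_
    intro n hn
    rw [Finset.mem_filter] at hn
    exact ⟨hn.2, (hA n hn.1).2⟩
  refine hcard.trans ((Finset.sum_le_sum hone).trans ?_)
  rw [Finset.sum_const, nsmul_eq_mul, ← mul_assoc]
  refine mul_le_mul_of_nonneg_right ?_ (by positivity)
  rw [mul_div_assoc', div_le_iff₀ (by positivity)]
  nlinarith

end DF
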