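import Pool.Agent.helper32.DF.A9

/-!
# G1 : the quotient lattice

PROOF. Let `ψ : (ι ⊕ ι → ℤ) →ₗ[ℤ] ℂ`, `ψ μ = ℓ (lat τ (zr μ))`, `L` its range.  `L` is a finitely
generated torsion free `ℤ`-module, hence free; `finrank L = 2h - finrank (ker ψ)`
(`LinearMap.finrank_range_add_finrank_ker` over `ℤ`, or rank-nullity over `ℤ`:
`LinearMap.rank_range_add_rank_ker`), and `ker ψ` contains `2h-2` independent vectors, so
`finrank L ≤ 2`.  `L` spans `ℂ` over `ℝ`: `lat τ` is bijective (`exists_latE`), the integer vectors span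
`ι ⊕ ι → ℝ` over `ℝ`, and `ℓ` is surjective (`ℓ ≠ 0`).  So `L` is not contained in the `ℝ`-span of one
vector, its `ℤ`-basis has at least two elements: exactly two, `t1, t2`, and they are linearly independent
over `ℝ`, i.e. `im (conj t1 * t2) ≠ 0`.
(Case `h = 1`: `2h-2 = 0`, same proof.)
-/

namespace DF
open Matrix Complex
variable {ι : Type} [Fintype ι] [DecidableEq ι]

theorem g1_rank_le {ι' : Type} [Fintype ι'] (ψ : (ι' → ℤ) →ₗ[ℤ] ℂ) (r : ℕ)
    (n : Fin r → (ι' → ℤ)) (hn : LinearIndependent ℤ n) (h0 : ∀ i, ψ (n i) = 0) :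
    Module.finrank ℤ (LinearMap.range ψ) + r ≤ Fintype.card ι' := by
  have h1 := (LinearMap.ker ψ).finrank_quotient_add_finrank
  rw [Module.finrank_fintype_fun_eq_card, ψ.quotKerEquivRange.finrank_eq] at h1
  have h2 : r ≤ Module.finrank ℤ (LinearMap.ker ψ) := by
    let n' : Fin r → LinearMap.ker ψ := fun i => ⟨n i, LinearMap.mem_ker.mpr (h0 i)⟩
    have h3 : LinearIndependent ℤ n' := by
      refine LinearIndependent.of_comp (LinearMap.ker ψ).subtype ?_
      exact hn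
    have h4 := h3.fintype_card_le_finrank
    rwa [Fintype.card_fin] at h4
  omega

theorem quot_lattice (τ : Matrix ι ι ℂ) (hτ : τ ∈ Hg ι) (ℓ : (ι → ℂ) →ₗ[ℂ] ℂ) (hℓ : ℓ ≠ 0)
    (n : Fin (2 * Fintype.card ι - 2) → (ι ⊕ ι → ℤ)) (hn : LinearIndependent ℤ n)
    (h0 : ∀ i, ℓ (lat τ (zr (n i))) = 0) :
    ∃ l1 l2 : ι ⊕ ι → ℤ,
      ((starRingEnd ℂ) (ℓ (lat τ (zr l1))) * ℓ (lat τ (zr l2))).im ≠ 0 ∧
      ∀ μ : ι ⊕ ι → ℤ, ∃ m1 m2 : ℤ,
        ℓ (lat τ (zr μ)) = m1 * ℓ (lat τ (zr l1)) + m2 * ℓ (lat τ (zr l2)) := by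
  obtain ⟨B, hB⟩ := exists_latE τ hτ
  simp only [← hB] at h0 ⊢
  let ψ : (ι ⊕ ι → ℤ) →ₗ[ℤ] ℂ :=
    (AddMonoidHom.mk' (fun μ => ℓ (B (zr μ))) (by
      intro a b
      have h : (zr (a + b) : ι ⊕ ι → ℝ) = zr a + zr b := by
        funext i
        simp [zr]
      rw [h, map_add, map_add])).toIntLinearMap
  have hψ : ∀ μ, ψ μ = ℓ (B (zr μ)) := fun μ => rfl
  have hrank := g1_rank_le ψ _ n hn (fun i => by rw [hψ]; exact h0 i)
  rw [Fintype.card_sum] at hrank
  set r := Module.finrank ℤ (LinearMap.range ψ) with hr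
  have hr2 : r ≤ 2 := by omega
  let b : Module.Basis (Fin r) ℤ (LinearMap.range ψ) := Module.finBasis ℤ (LinearMap.range ψ)
  have hbm : ∀ i, ∃ μ, ψ μ = (b i : ℂ) := fun i => (b i).2
  choose l hl using hbm
  have hsum : ∀ μ, ∃ m : Fin r → ℤ, ψ μ = ∑ i, (m i : ℂ) * (b i : ℂ) := by
    intro μ
    refine ⟨fun i => b.repr ⟨ψ μ, LinearMap.mem_range_self ψ μ⟩ i, ?_⟩
    have h1 := b.sum_repr ⟨ψ μ, LinearMap.mem_range_self ψ μ⟩
    have h2 := congrArg (fun x : LinearMap.range ψ => (x : ℂ)) h1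
    refine h2.symm.trans ?_
    rw [Submodule.coe_sum]
    refine Finset.sum_congr rfl fun i _ => ?_
    simp
  -- the span over the reals
  have hspan : (⊤ : Submodule ℝ ℂ) ≤ Submodule.span ℝ (Set.range (fun i => (b i : ℂ))) := by
    intro z _
    obtain ⟨v, hv⟩ : ∃ v, ℓ v = z := LinearMap.surjective hℓ z
    have hψm : ∀ μ, ψ μ ∈ Submodule.span ℝ (Set.range (fun i => (b i : ℂ))) := by
      intro μ
      obtain ⟨m, hm⟩ := hsum μ
      rw [hm]
      refine Submodule.sum_mem _ fun i _ => ?_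
      have h3 : ((m i : ℤ) : ℂ) * (b i : ℂ) = ((m i : ℤ) : ℝ) • (b i : ℂ) := by
        simp
      rw [h3]
      exact Submodule.smul_mem _ _ (Submodule.subset_span ⟨i, rfl⟩)
    have hx : v = B (B.symm v) := (B.apply_symm_apply v).symm
    have hx2 : B.symm v = ∑ k, (B.symm v k) • (zr (Pi.single k 1) : ι ⊕ ι → ℝ) := by
      funext k
      rw [Finset.sum_apply, Finset.sum_eq_single k]
      · simp [zr]
      · intro j _ hj
        simp [zr, Pi.single_eq_of_ne (Ne.symm hj)]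
      · intro h
        exact absurd (Finset.mem_univ k) h
    rw [← hv, hx, hx2, map_sum, map_sum]
    refine Submodule.sum_mem _ fun k _ => ?_
    rw [map_smul]
    have h4 : ℓ ((B.symm v k) • B (zr (Pi.single k 1))) = (B.symm v k) • ψ (Pi.single k 1) := by
      rw [hψ]
      have h5 : (B.symm v k) • B (zr (Pi.single k 1)) =
          ((B.symm v k : ℝ) : ℂ) • B (zr (Pi.single k 1)) := by
        funext i
        simp
      rw [h5, map_smul]
      simp
    rw [h4]
    exact Submodule.smul_mem _ _ (hψm _)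
  have hr3 : 2 ≤ r := by
    have h1 := finrank_le_of_span_eq_top (R := ℝ) (v := fun i => (b i : ℂ)) (top_le_iff.mp hspan)
    rw [Complex.finrank_real_complex, Fintype.card_fin] at h1
    exact h1
  have hr4 : r = 2 := le_antisymm hr2 hr3
  have hli : LinearIndependent ℝ (fun i => (b i : ℂ)) := by
    refine linearIndependent_of_top_le_span_of_card_eq_finrank hspan ?_
    rw [Complex.finrank_real_complex, Fintype.card_fin, hr4]
  clear_value r b
  subst hr4
  refine ⟨l 0, l 1, ?_, fun μ => ?_⟩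
  · rw [← hψ, ← hψ, hl, hl]
    intro him
    have h1 : LinearIndependent ℝ ![(b 0 : ℂ), (b 1 : ℂ)] := by
      have : ![(b 0 : ℂ), (b 1 : ℂ)] = fun i => (b i : ℂ) := by
        funext i
        fin_cases i <;> rfl
      rw [this]
      exact hli
    rw [LinearIndependent.pair_iff] at h1
    have h2 : (-(((starRingEnd ℂ) (b 0 : ℂ) * (b 1 : ℂ)).re)) • (b 0 : ℂ) +
        (Complex.normSq (b 0 : ℂ)) • (b 1 : ℂ) = 0 := by
      have h3 : (starRingEnd ℂ) (b 0 : ℂ) * (b 1 : ℂ) =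
          ((((starRingEnd ℂ) (b 0 : ℂ) * (b 1 : ℂ)).re : ℝ) : ℂ) := by
        apply Complex.ext
        · simp
        · rw [him]
          simp
      rw [Complex.real_smul, Complex.real_smul, Complex.ofReal_neg, ← h3, Complex.normSq_eq_conj_mul_self]
      ring
    have h3 := (h1 _ _ h2).2
    rw [Complex.normSq_eq_zero] at h3
    have h4 := h1 1 0 (by rw [h3]; simp)
    exact one_ne_zero h4.1
  · obtain ⟨m, hm⟩ := hsum μ
    refine ⟨m 0, m 1, ?_⟩
    rw [← hψ, ← hψ, ← hψ, hl, hl, hm, Fin.sum_univ_two]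

end DF
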