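import Pool.Agent.helper32.DF.A2
import Pool.Agent.helper32.DF.A4
import Pool.Agent.helper32.DF.A5
import Pool.Agent.helper32.DF.J3

/-!
# G2 : Jensen on the orthogonal line

NOTATION. `Y = im τ`, `ℓ(z) = ∑ c i z i`, `p = Y (conj c)`, `κ = ∑_{i,j} c i Y i j conj(c j) = ℓ(p) > 0`
(real), `t1, t2 = ℓ (lat τ l1), ℓ (lat τ l2)`.
PROOF. Choose `z0` with `theta τ z0 ≠ 0` (`theta_ne`), `y0 = im z0` (real vector).
Let `A(t) = im (t p) = (t p - conj(t p))/(2i)`.  Then with `Q(t) = im(z0 + t p) · Y⁻¹ im(z0 + t p)`: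
`Q(t) = y0·Y⁻¹y0 + 2 im (t β) + ½ κ |t|² - ½ re (t² q)` with `β = y0·Y⁻¹p = y0·conj c`,
`q = p·Y⁻¹p = conj(c)·Y conj(c)` (as `p·Y⁻¹ conj p = κ`).
`g(t) = theta τ (z0 + t p) * exp ((π/2) q t² + 2πi β t)` satisfies
`‖g t‖ ≤ C exp (π Q(t) + (π/2) re (q t²) - 2π im (β t)) ≤ C' exp ((π/2) κ |t|²)` (`theta_growth`).
ZEROS: if `ℓ(z0) + κ t = ℓ(y) + m1 t1 + m2 t2` then with `μ = m1 l1 + m2 l2` and
`w = z0 + t p - y - lat τ (zr μ)` we have `ℓ w = 0`, so `theta τ (y + w) = 0` and by `theta_quasi`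
`theta τ (z0 + t p) = theta τ (y + w + lat τ (zr μ)) = 0`.
So `g` vanishes on `s + ℤ ω1 + ℤ ω2`, `s = (ℓ(y) - ℓ(z0))/κ`, `ω_i = t_i/κ`.
`jensen_density` with `k = 1`: `1 ≤ κ |im (conj ω1 * ω2)| = |im (conj t1 * t2)| / κ`.
-/

namespace DF
open Matrix Complex
variable {ι : Type} [Fintype ι] [DecidableEq ι]

/-- the hermitian norm of `c` -/
noncomputable def kap (τ : Matrix ι ι ℂ) (c : ι → ℂ) : ℝ :=
  (∑ i, ∑ j, c i * ((τ i j).im : ℂ) * (starRingEnd ℂ) (c j)).re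

theorem kap_eq (τ : Matrix ι ι ℂ) (c : ι → ℂ) :
    kap τ c = (fun i => (c i).re) ⬝ᵥ ((τ.map Complex.im) *ᵥ (fun i => (c i).re)) +
      (fun i => (c i).im) ⬝ᵥ ((τ.map Complex.im) *ᵥ (fun i => (c i).im)) := by
  simp only [kap, dotProduct, mulVec, Complex.re_sum, Matrix.map_apply]
  rw [← Finset.sum_add_distrib]
  refine Finset.sum_congr rfl fun i _ => ?_
  rw [Finset.mul_sum, Finset.mul_sum, ← Finset.sum_add_distrib]
  refine Finset.sum_congr rfl fun j _ => ?_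
  simp only [Complex.mul_re, Complex.mul_im, Complex.ofReal_re, Complex.ofReal_im,
    Complex.conj_re, Complex.conj_im]
  ring

theorem kap_pos (τ : Matrix ι ι ℂ) (hτ : τ ∈ Hg ι) (c : ι → ℂ) (hc : c ≠ 0) : 0 < kap τ c := by
  obtain ⟨d, hd, h⟩ := posdef_lower _ hτ.2
  have h1 := h fun i => (c i).re
  have h2 := h fun i => (c i).im
  rw [kap_eq]
  obtain ⟨i, hi⟩ := Function.ne_iff.1 hc
  have h3 : 0 < (∑ i, (c i).re ^ 2) + ∑ i, (c i).im ^ 2 := by
    rw [← Finset.sum_add_distrib]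
    have h4 : ∀ j, (c j).re ^ 2 + (c j).im ^ 2 = Complex.normSq (c j) := by
      intro j
      rw [Complex.normSq_apply]
      ring
    refine Finset.sum_pos' (fun j _ => by positivity) ⟨i, Finset.mem_univ i, ?_⟩
    rw [h4]
    exact Complex.normSq_pos.2 hi
  have h5 : 0 < d * ((∑ i, (c i).re ^ 2) + ∑ i, (c i).im ^ 2) := by positivity
  linarith

/-- `κ` as a complex number -/
theorem kap_coe (τ : Matrix ι ι ℂ) (hτ : τ ∈ Hg ι) (c : ι → ℂ) :
    (∑ i, c i * ∑ j, ((τ i j).im : ℂ) * (starRingEnd ℂ) (c j)) = (kap τ c : ℂ) := by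
  have hsym : ∀ i j, (τ i j).im = (τ j i).im := fun i j => by
    rw [show τ i j = τ j i from hτ.1.apply j i]
  have h1 : (∑ i, c i * ∑ j, ((τ i j).im : ℂ) * (starRingEnd ℂ) (c j)) =
      ∑ i, ∑ j, c i * ((τ i j).im : ℂ) * (starRingEnd ℂ) (c j) := by
    refine Finset.sum_congr rfl fun i _ => ?_
    rw [Finset.mul_sum]
    exact Finset.sum_congr rfl fun j _ => by ring
  have h2 : (starRingEnd ℂ) (∑ i, ∑ j, c i * ((τ i j).im : ℂ) * (starRingEnd ℂ) (c j)) =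
      ∑ i, ∑ j, c i * ((τ i j).im : ℂ) * (starRingEnd ℂ) (c j) := by
    simp only [map_sum, map_mul, Complex.conj_ofReal, Complex.conj_conj]
    rw [Finset.sum_comm]
    refine Finset.sum_congr rfl fun i _ => Finset.sum_congr rfl fun j _ => ?_
    rw [hsym j i]
    ring
  rw [h1, kap]
  exact (Complex.conj_eq_iff_re.1 h2).symm

theorem quad_expand (Y : Matrix ι ι ℝ) (hs : Yᵀ = Y) (hu : IsUnit Y.det) (y w : ι → ℝ) :
    (y + Y *ᵥ w) ⬝ᵥ (Y⁻¹ *ᵥ (y + Y *ᵥ w)) =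
      y ⬝ᵥ (Y⁻¹ *ᵥ y) + 2 * (y ⬝ᵥ w) + w ⬝ᵥ (Y *ᵥ w) := by
  have h1 : Y⁻¹ *ᵥ (y + Y *ᵥ w) = Y⁻¹ *ᵥ y + w := by
    rw [mulVec_add, mulVec_mulVec, nonsing_inv_mul _ hu, one_mulVec]
  have h2 : (Y *ᵥ w) ⬝ᵥ (Y⁻¹ *ᵥ y) = y ⬝ᵥ w := by
    have h3 : (Y *ᵥ w) = w ᵥ* Y := by
      conv_lhs => rw [← hs]
      rw [mulVec_transpose]
    rw [h3, ← dotProduct_mulVec, mulVec_mulVec, mul_nonsing_inv _ hu, one_mulVec,
      dotProduct_comm]
  have h3 : (Y *ᵥ w) ⬝ᵥ w = w ⬝ᵥ (Y *ᵥ w) := dotProduct_comm _ _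
  rw [h1, add_dotProduct, dotProduct_add, dotProduct_add, h2, h3]
  ring

theorem ww_eq (τ : Matrix ι ι ℂ) (c : ι → ℂ) (t : ℂ) :
    (fun i => (t * (starRingEnd ℂ) (c i)).im) ⬝ᵥ
      ((τ.map Complex.im) *ᵥ (fun i => (t * (starRingEnd ℂ) (c i)).im)) =
    1 / 2 * kap τ c * ‖t‖ ^ 2 - 1 / 2 *
      (t ^ 2 * ∑ i, ∑ j, (starRingEnd ℂ) (c i) * ((τ i j).im : ℂ) *
        (starRingEnd ℂ) (c j)).re := by
  have h0 : ‖t‖ ^ 2 = t.re ^ 2 + t.im ^ 2 := by
    rw [← Complex.normSq_eq_norm_sq, Complex.normSq_apply]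
    ring
  rw [h0]
  simp only [kap, dotProduct, mulVec, Complex.re_sum, Matrix.map_apply, Finset.mul_sum]
  rw [Finset.sum_mul, ← Finset.sum_sub_distrib]
  refine Finset.sum_congr rfl fun i _ => ?_
  rw [Finset.sum_mul, ← Finset.sum_sub_distrib]
  refine Finset.sum_congr rfl fun j _ => ?_
  simp only [Complex.mul_re, Complex.mul_im, Complex.ofReal_re, Complex.ofReal_im,
    Complex.conj_re, Complex.conj_im, pow_two]
  ring

theorem lat_zr_add (τ : Matrix ι ι ℂ) (l1 l2 : ι ⊕ ι → ℤ) (m n : ℤ) (i : ι) :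
    lat τ (zr (m • l1 + n • l2)) i = m * lat τ (zr l1) i + n * lat τ (zr l2) i := by
  simp only [lat, zr, Pi.add_apply, Pi.smul_apply, smul_eq_mul, Int.cast_add, Int.cast_mul,
    Complex.ofReal_add, Complex.ofReal_mul, Complex.ofReal_intCast, mul_add, Finset.mul_sum,
    Finset.sum_add_distrib]
  have h : ∀ (a : ℤ) (l : ι ⊕ ι → ℤ), ∑ x, τ i x * ((a : ℂ) * (l (Sum.inl x) : ℂ)) =
      ∑ x, (a : ℂ) * (τ i x * (l (Sum.inl x) : ℂ)) := fun a l =>
    Finset.sum_congr rfl fun x _ => by ring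
  rw [h, h]
  ring

theorem flat_covol (τ : Matrix ι ι ℂ) (hτ : τ ∈ Hg ι) (c : ι → ℂ) (hc : c ≠ 0) (y : ι → ℂ)
    (hflat : ∀ w : ι → ℂ, ∑ i, c i * w i = 0 → theta τ (y + w) = 0) (l1 l2 : ι ⊕ ι → ℤ)
    (hD : ((starRingEnd ℂ) (∑ i, c i * lat τ (zr l1) i) * (∑ i, c i * lat τ (zr l2) i)).im ≠ 0) :
    kap τ c ≤
      |((starRingEnd ℂ) (∑ i, c i * lat τ (zr l1) i) * (∑ i, c i * lat τ (zr l2) i)).im| := by
  have hκ := kap_pos τ hτ c hc
  set κ := kap τ c with hκdef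
  set t1 := ∑ i, c i * lat τ (zr l1) i with ht1
  set t2 := ∑ i, c i * lat τ (zr l2) i with ht2
  set p : ι → ℂ := fun i => ∑ j, ((τ i j).im : ℂ) * (starRingEnd ℂ) (c j) with hp
  have hℓp : ∑ i, c i * p i = (κ : ℂ) := kap_coe τ hτ c
  obtain ⟨z0, hz0⟩ := theta_ne τ hτ
  obtain ⟨C, hC, hgr⟩ := theta_growth τ hτ
  set Y := τ.map Complex.im with hY
  have hYs : Yᵀ = Y := by
    rw [hY]
    exact (congrArg (fun M : Matrix ι ι ℂ => M.map Complex.im) hτ.1.eq)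
  have hYu : IsUnit Y.det := (hτ.2.det_pos.ne').isUnit
  set y0 : ι → ℝ := fun i => (z0 i).im with hy0
  set q : ℂ := ∑ i, ∑ j, (starRingEnd ℂ) (c i) * ((τ i j).im : ℂ) * (starRingEnd ℂ) (c j) with hq
  set β : ℂ := ∑ i, (y0 i : ℂ) * (starRingEnd ℂ) (c i) with hβ
  set g : ℂ → ℂ := fun t => theta τ (z0 + t • p) *
    cexp (Real.pi / 2 * q * t ^ 2 + 2 * Real.pi * I * β * t) with hg
  have hgd : Differentiable ℂ g := by
    have h1 : Differentiable ℂ fun t : ℂ => theta τ (z0 + t • p) :=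
      (theta_differentiable τ hτ.2).comp (by fun_prop)
    exact h1.mul (by fun_prop)
  have hgne : ∃ t, g t ≠ 0 := ⟨0, by simpa [hg] using hz0⟩
  -- growth
  have himv : ∀ t : ℂ, (fun i => ((z0 + t • p) i).im) =
      y0 + Y *ᵥ (fun i => (t * (starRingEnd ℂ) (c i)).im) := by
    intro t
    funext i
    simp only [Pi.add_apply, Pi.smul_apply, smul_eq_mul, Complex.add_im, hy0, hp, mulVec,
      dotProduct, hY, Matrix.map_apply, Finset.mul_sum, Complex.im_sum]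
    congr 1
    refine Finset.sum_congr rfl fun j _ => ?_
    simp only [Complex.mul_re, Complex.mul_im, Complex.ofReal_re, Complex.ofReal_im,
      Complex.conj_re, Complex.conj_im]
    ring
  have hyw : ∀ t : ℂ, y0 ⬝ᵥ (fun i => (t * (starRingEnd ℂ) (c i)).im) = (β * t).im := by
    intro t
    simp only [hβ, dotProduct, Finset.sum_mul, Complex.im_sum]
    refine Finset.sum_congr rfl fun j _ => ?_
    simp only [Complex.mul_re, Complex.mul_im, Complex.ofReal_re, Complex.ofReal_im,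
      Complex.conj_re, Complex.conj_im]
    ring
  have hgrow : ∀ t : ℂ, ‖g t‖ ≤ (C * Real.exp (Real.pi * (y0 ⬝ᵥ (Y⁻¹ *ᵥ y0)))) *
      Real.exp (Real.pi / 2 * κ * ‖t‖ ^ 2) := by
    intro t
    have h1 := hgr (z0 + t • p)
    rw [himv t, quad_expand Y hYs hYu, hyw t, ww_eq τ c t, ← hκdef, ← hq] at h1
    have h2 : ‖cexp (Real.pi / 2 * q * t ^ 2 + 2 * Real.pi * I * β * t)‖ =
        Real.exp (Real.pi / 2 * (t ^ 2 * q).re - 2 * Real.pi * (β * t).im) := by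
      rw [Complex.norm_exp]
      congr 1
      have e1 : (Real.pi : ℂ) / 2 * q * t ^ 2 = ((Real.pi / 2 : ℝ) : ℂ) * (t ^ 2 * q) := by
        push_cast; ring
      have e2 : 2 * (Real.pi : ℂ) * I * β * t = ((2 * Real.pi : ℝ) : ℂ) * (I * (β * t)) := by
        push_cast; ring
      rw [Complex.add_re, e1, e2, Complex.re_ofReal_mul, Complex.re_ofReal_mul,
        Complex.I_mul_re]
      ring
    calc ‖g t‖ = ‖theta τ (z0 + t • p)‖ *
          ‖cexp (Real.pi / 2 * q * t ^ 2 + 2 * Real.pi * I * β * t)‖ := norm_mul _ _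
      _ ≤ (C * Real.exp (Real.pi * (y0 ⬝ᵥ (Y⁻¹ *ᵥ y0) + 2 * (β * t).im +
            (1 / 2 * κ * ‖t‖ ^ 2 - 1 / 2 * (t ^ 2 * q).re)))) *
          Real.exp (Real.pi / 2 * (t ^ 2 * q).re - 2 * Real.pi * (β * t).im) := by
          rw [h2]
          exact mul_le_mul_of_nonneg_right h1 (Real.exp_pos _).le
      _ = _ := by
          rw [mul_assoc C, mul_assoc C, ← Real.exp_add, ← Real.exp_add]
          congr 2
          ring
  -- zeros
  have hκ0 : (κ : ℂ) ≠ 0 := by exact_mod_cast hκ.ne'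
  have hzero : ∀ m n : ℤ, g ((∑ i, c i * y i - ∑ i, c i * z0 i) / κ + m * (t1 / κ) +
      n * (t2 / κ)) = 0 := by
    intro m n
    set t : ℂ := (∑ i, c i * y i - ∑ i, c i * z0 i) / κ + m * (t1 / κ) + n * (t2 / κ) with ht
    have htκ : t * κ = ∑ i, c i * y i - ∑ i, c i * z0 i + m * t1 + n * t2 := by
      rw [ht]
      field_simp
    set w : ι → ℂ := z0 + t • p - y - lat τ (zr (m • l1 + n • l2)) with hw
    have hlw : ∑ i, c i * w i = 0 := by
      have e : ∀ i, c i * w i = c i * z0 i + t * (c i * p i) - c i * y i -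
          (m * (c i * lat τ (zr l1) i) + n * (c i * lat τ (zr l2) i)) := by
        intro i
        simp only [hw, Pi.sub_apply, Pi.add_apply, Pi.smul_apply, smul_eq_mul, lat_zr_add]
        ring
      simp only [e, Finset.sum_sub_distrib, Finset.sum_add_distrib, ← Finset.mul_sum]
      rw [hℓp, htκ, ← ht1, ← ht2]
      ring
    have h1 := hflat w hlw
    have h2 := theta_quasi τ hτ.1 (m • l1 + n • l2) (y + w)
    rw [h1, mul_zero] at h2
    have h3 : y + w + lat τ (zr (m • l1 + n • l2)) = z0 + t • p := by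
      rw [hw]
      abel
    rw [h3] at h2
    simp only [hg, h2, zero_mul]
  have him : ((starRingEnd ℂ) (t1 / κ) * (t2 / κ)).im = ((starRingEnd ℂ) t1 * t2).im / κ ^ 2 := by
    have e : (starRingEnd ℂ) (t1 / κ) * (t2 / κ) = (starRingEnd ℂ) t1 * t2 / ((κ ^ 2 : ℝ) : ℂ) := by
      rw [map_div₀, Complex.conj_ofReal]
      push_cast
      field_simp
    rw [e, Complex.div_ofReal_im]
  have hω : ((starRingEnd ℂ) (t1 / κ) * (t2 / κ)).im ≠ 0 := by
    rw [him]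
    exact div_ne_zero hD (by positivity)
  have hfin := jensen_density g hgd hgne _ κ hgrow (t1 / κ) (t2 / κ) hω 1
    (fun _ => (∑ i, c i * y i - ∑ i, c i * z0 i) / κ)
    (fun i j hij => absurd (Subsingleton.elim i j) hij) (fun _ m n => hzero m n)
  rw [him, abs_div, abs_of_pos (by positivity : (0 : ℝ) < κ ^ 2), Nat.cast_one] at hfin
  have h4 : κ * (|((starRingEnd ℂ) t1 * t2).im| / κ ^ 2) = |((starRingEnd ℂ) t1 * t2).im| / κ := by
    field_simp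
  rw [h4, le_div_iff₀ hκ, one_mul] at hfin
  exact hfin

end DF
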