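import Pool.Agent.helper32.DF.A9
import Pool.Agent.helper32.DF.G2

/-!
# G3 : the dual pair

NOTATION as in G2; `D = im (conj t1 * t2) ≠ 0`, `κ = kap τ c ≤ |D|`.
For `z, z' ∈ ℂ^h` let `H(z,z') = conj(z)·Y⁻¹ z'`, `E(z,z') = im H(z,z')`.  For real `x, x'`:
`E (lat τ x) (lat τ x') = ∑_i (x (inr i) x' (inl i) - x (inl i) x' (inr i))` (compute: `im z = Y a`,
`re z = X a + b`, `im H = re(z)·Y⁻¹ im(z') - im(z)·Y⁻¹ re(z') = (Xa+b)·a' - a·(Xa'+b')`, `X` symmetric);
so for integral vectors it is `-Ep x x'`.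
Let `p = Y conj(c)`: `H(s p, z) = conj(s) ℓ(z)` (`conj(p)·Y⁻¹z = c·z`), so
`E(s p, z) = im (conj s * ℓ z)`.
Put `s1 = -t2/D`, `s2 = t1/D`.  Then `E(s1 p, z) = -im (conj t2 * ℓ z)/D` and for
`ℓ z = m1 t1 + m2 t2`: `= -m1 im(conj t2 * t1)/D = m1`; `E(s2 p, z) = im (conj t1 * (m1 t1 + m2 t2))/D = m2`.
By hypothesis `hL` these are integers for all lattice vectors `z = lat τ (zr μ)`.  Let `x_i` be the real
vector with `lat τ x_i = s_i p` (`exists_latE`).  `E (lat τ x_i) (lat τ (e))` for the basis vectors `e` of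
`ℤ^(ι⊕ι)` are `± ` the coordinates of `x_i`; so `x_i` is integral, `x_i = zr ν_i`.
`E(s1 p, s2 p) = im (conj s1 * s2 * κ) = -κ im (conj t2 * t1)/D² = κ/D`.  So `-Ep ν1 ν2 = κ/D` is a nonzero
integer (`κ > 0`) of absolute value `≤ 1`: it is `±1`.  If `Ep ν1 ν2 = 1` take `(μ1, μ2) = (ν1, ν2)`,
otherwise `(ν2, ν1)`.  `s1 p` and `s2 p` are proportional over `ℂ` (`s1, s2 ≠ 0`).
-/

set_option linter.unusedSectionVars false

namespace DF
open Matrix Complex
variable {ι : Type} [Fintype ι] [DecidableEq ι]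

/-- the real vector `x` with `lat τ x = s • (Y conj c)` -/
noncomputable def xv (τ : Matrix ι ι ℂ) (c : ι → ℂ) (s : ℂ) : ι ⊕ ι → ℝ :=
  Sum.elim (fun i => (s * (starRingEnd ℂ) (c i)).im)
    (fun i => (∑ j, (τ i j).im * (s * (starRingEnd ℂ) (c j)).re) -
      ∑ j, (τ i j).re * (s * (starRingEnd ℂ) (c j)).im)

theorem lat_xv (τ : Matrix ι ι ℂ) (c : ι → ℂ) (s : ℂ) (i : ι) :
    lat τ (xv τ c s) i = s * ∑ j, ((τ i j).im : ℂ) * (starRingEnd ℂ) (c j) := by
  apply Complex.ext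
  · simp only [lat, xv, Sum.elim_inl, Sum.elim_inr, Complex.add_re, Complex.re_sum, Finset.mul_sum,
      Complex.mul_re, Complex.ofReal_re, Complex.ofReal_im, mul_zero, sub_zero, zero_mul,
      Complex.mul_im, add_zero, Complex.conj_re, Complex.conj_im]
    rw [add_sub_cancel]
    refine Finset.sum_congr rfl fun j _ => ?_
    ring
  · simp only [lat, xv, Sum.elim_inl, Sum.elim_inr, Complex.add_im, Complex.im_sum, Finset.mul_sum,
      Complex.mul_re, Complex.ofReal_re, Complex.ofReal_im, mul_zero, sub_zero, zero_mul,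
      Complex.mul_im, add_zero, zero_add, Complex.conj_re, Complex.conj_im]
    refine Finset.sum_congr rfl fun j _ => ?_
    ring

theorem E_xv (τ : Matrix ι ι ℂ) (hτ : τ ∈ Hg ι) (c : ι → ℂ) (s : ℂ) (x : ι ⊕ ι → ℝ) :
    ∑ i, (xv τ c s (Sum.inr i) * x (Sum.inl i) - xv τ c s (Sum.inl i) * x (Sum.inr i)) =
      ((starRingEnd ℂ) s * ∑ i, c i * lat τ x i).im := by
  have hsym : ∀ i j, τ i j = τ j i := fun i j => (hτ.1.apply i j).symm
  have e1 : ((starRingEnd ℂ) s * ∑ i, c i * lat τ x i).im =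
      ∑ i, ((s * (starRingEnd ℂ) (c i)).re * (lat τ x i).im -
        (s * (starRingEnd ℂ) (c i)).im * (lat τ x i).re) := by
    rw [Finset.mul_sum, Complex.im_sum]
    refine Finset.sum_congr rfl fun i _ => ?_
    simp only [Complex.mul_re, Complex.mul_im, Complex.conj_re, Complex.conj_im]
    ring
  have e2 : ∀ i, (lat τ x i).im = ∑ j, (τ i j).im * x (Sum.inl j) := by
    intro i
    simp [lat, Complex.im_sum, Complex.mul_im]
  have e3 : ∀ i, (lat τ x i).re = (∑ j, (τ i j).re * x (Sum.inl j)) + x (Sum.inr i) := by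
    intro i
    simp [lat, Complex.re_sum, Complex.mul_re]
  rw [e1]
  simp only [e2, e3, xv, Sum.elim_inl, Sum.elim_inr]
  set r : ι → ℝ := fun i => (s * (starRingEnd ℂ) (c i)).re with hr
  set m : ι → ℝ := fun i => (s * (starRingEnd ℂ) (c i)).im with hm
  have f1 : ∑ i, (∑ j, (τ i j).im * r j) * x (Sum.inl i) =
      ∑ i, r i * ∑ j, (τ i j).im * x (Sum.inl j) := by
    simp only [Finset.sum_mul, Finset.mul_sum]
    rw [Finset.sum_comm]
    refine Finset.sum_congr rfl fun i _ => Finset.sum_congr rfl fun j _ => ?_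
    rw [hsym j i]; ring
  have f2 : ∑ i, (∑ j, (τ i j).re * m j) * x (Sum.inl i) =
      ∑ i, m i * ∑ j, (τ i j).re * x (Sum.inl j) := by
    simp only [Finset.sum_mul, Finset.mul_sum]
    rw [Finset.sum_comm]
    refine Finset.sum_congr rfl fun i _ => Finset.sum_congr rfl fun j _ => ?_
    rw [hsym j i]; ring
  simp only [sub_mul, mul_add, Finset.sum_sub_distrib, Finset.sum_add_distrib]
  rw [f1, f2]
  ring

theorem ell_p (τ : Matrix ι ι ℂ) (hτ : τ ∈ Hg ι) (c : ι → ℂ) :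
    ∑ i, c i * ∑ j, ((τ i j).im : ℂ) * (starRingEnd ℂ) (c j) = (kap τ c : ℂ) := by
  have hsym : ∀ i j, τ i j = τ j i := fun i j => (hτ.1.apply i j).symm
  have h0 : ∑ i, c i * ∑ j, ((τ i j).im : ℂ) * (starRingEnd ℂ) (c j) =
      ∑ i, ∑ j, c i * ((τ i j).im : ℂ) * (starRingEnd ℂ) (c j) := by
    refine Finset.sum_congr rfl fun i _ => ?_
    rw [Finset.mul_sum]
    refine Finset.sum_congr rfl fun j _ => ?_
    ring
  rw [h0]
  unfold kap
  symm
  rw [← Complex.conj_eq_iff_re]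
  rw [map_sum]
  simp only [map_sum, map_mul, Complex.conj_conj, Complex.conj_ofReal]
  rw [Finset.sum_comm]
  refine Finset.sum_congr rfl fun i _ => Finset.sum_congr rfl fun j _ => ?_
  rw [hsym j i]; ring

theorem dual_pair (τ : Matrix ι ι ℂ) (hτ : τ ∈ Hg ι) (c : ι → ℂ) (hc : c ≠ 0)
    (l1 l2 : ι ⊕ ι → ℤ)
    (hD : ((starRingEnd ℂ) (∑ i, c i * lat τ (zr l1) i) * (∑ i, c i * lat τ (zr l2) i)).im ≠ 0)
    (hL : ∀ μ : ι ⊕ ι → ℤ, ∃ m1 m2 : ℤ, ∑ i, c i * lat τ (zr μ) i =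
      m1 * (∑ i, c i * lat τ (zr l1) i) + m2 * (∑ i, c i * lat τ (zr l2) i))
    (hκ : kap τ c ≤
      |((starRingEnd ℂ) (∑ i, c i * lat τ (zr l1) i) * (∑ i, c i * lat τ (zr l2) i)).im|) :
    ∃ μ1 μ2 : ι ⊕ ι → ℤ, Ep μ1 μ2 = 1 ∧ ∃ t : ℂ, lat τ (zr μ1) = t • lat τ (zr μ2) := by
  classical
  set t1 : ℂ := ∑ i, c i * lat τ (zr l1) i with ht1
  set t2 : ℂ := ∑ i, c i * lat τ (zr l2) i with ht2
  set D : ℝ := ((starRingEnd ℂ) t1 * t2).im with hDdef
  have hκ0 : 0 < kap τ c := kap_pos τ hτ c hc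
  have ht1' : t1 ≠ 0 := by
    intro h; apply hD; rw [hDdef, h]; simp
  have ht2' : t2 ≠ 0 := by
    intro h; apply hD; rw [hDdef, h]; simp
  have hDc : (D : ℂ) ≠ 0 := by exact_mod_cast hD
  set s1 : ℂ := -t2 / D with hs1
  set s2 : ℂ := t1 / D with hs2
  have hs1' : s1 ≠ 0 := div_ne_zero (neg_ne_zero.2 ht2') hDc
  have hs2' : s2 ≠ 0 := div_ne_zero ht1' hDc
  have im12 : t1.re * t2.im - t1.im * t2.re = D := by
    rw [hDdef]; simp [Complex.mul_im]; ring
  -- im of conj s times an integral combination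
  have key1 : ∀ m1 m2 : ℤ, ((starRingEnd ℂ) s1 * (m1 * t1 + m2 * t2)).im = m1 := by
    intro m1 m2
    have : (starRingEnd ℂ) s1 * (m1 * t1 + m2 * t2) =
        ((D⁻¹ : ℝ) : ℂ) * (-(starRingEnd ℂ) t2 * (m1 * t1 + m2 * t2)) := by
      rw [hs1]
      simp only [map_div₀, map_neg, Complex.conj_ofReal, Complex.ofReal_inv]
      field_simp
    rw [this, Complex.im_ofReal_mul]
    have h2 : (-(starRingEnd ℂ) t2 * ((m1 : ℂ) * t1 + (m2 : ℂ) * t2)).im = m1 * D := by
      simp only [Complex.mul_im, Complex.neg_re, Complex.neg_im, Complex.conj_re, Complex.conj_im,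
        Complex.add_re, Complex.add_im, Complex.mul_re, Complex.intCast_re, Complex.intCast_im]
      rw [← im12]; ring
    rw [h2]
    field_simp
  have key2 : ∀ m1 m2 : ℤ, ((starRingEnd ℂ) s2 * (m1 * t1 + m2 * t2)).im = m2 := by
    intro m1 m2
    have : (starRingEnd ℂ) s2 * (m1 * t1 + m2 * t2) =
        ((D⁻¹ : ℝ) : ℂ) * ((starRingEnd ℂ) t1 * (m1 * t1 + m2 * t2)) := by
      rw [hs2]
      simp only [map_div₀, Complex.conj_ofReal, Complex.ofReal_inv]
      field_simp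
    rw [this, Complex.im_ofReal_mul]
    have h2 : ((starRingEnd ℂ) t1 * ((m1 : ℂ) * t1 + (m2 : ℂ) * t2)).im = m2 * D := by
      simp only [Complex.mul_im, Complex.conj_re, Complex.conj_im,
        Complex.add_re, Complex.add_im, Complex.mul_re, Complex.intCast_re, Complex.intCast_im]
      rw [← im12]; ring
    rw [h2]
    field_simp
  -- integrality
  have hint : ∀ s : ℂ, (∀ m1 m2 : ℤ, ∃ m : ℤ,
      ((starRingEnd ℂ) s * (m1 * t1 + m2 * t2)).im = m) → ∃ ν : ι ⊕ ι → ℤ, xv τ c s = zr ν := by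
    intro s hs
    have hE : ∀ μ : ι ⊕ ι → ℤ, ∃ m : ℤ,
        ∑ i, (xv τ c s (Sum.inr i) * zr μ (Sum.inl i) - xv τ c s (Sum.inl i) * zr μ (Sum.inr i)) =
          m := by
      intro μ
      obtain ⟨m1, m2, h⟩ := hL μ
      obtain ⟨m, hm⟩ := hs m1 m2
      refine ⟨m, ?_⟩
      rw [E_xv τ hτ, h, hm]
    have hcoord : ∀ k : ι ⊕ ι, ∃ m : ℤ, xv τ c s k = m := by
      intro k
      rcases k with k | k
      · obtain ⟨m, hm⟩ := hE (Pi.single (Sum.inr k) 1)
        refine ⟨-m, ?_⟩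
        have h1 : ∀ i, zr (Pi.single (Sum.inr k) 1 : ι ⊕ ι → ℤ) (Sum.inl i) = 0 := by
          intro i; simp [zr]
        have h2 : ∀ i, zr (Pi.single (Sum.inr k) 1 : ι ⊕ ι → ℤ) (Sum.inr i) =
            if i = k then 1 else 0 := by
          intro i
          by_cases h : i = k <;> simp [zr, h]
        simp only [h1, h2, mul_zero, zero_sub, mul_ite, mul_one, Finset.sum_neg_distrib,
          Finset.sum_ite_eq', Finset.mem_univ, if_true] at hm
        push_cast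
        linarith
      · obtain ⟨m, hm⟩ := hE (Pi.single (Sum.inl k) 1)
        refine ⟨m, ?_⟩
        have h1 : ∀ i, zr (Pi.single (Sum.inl k) 1 : ι ⊕ ι → ℤ) (Sum.inr i) = 0 := by
          intro i; simp [zr]
        have h2 : ∀ i, zr (Pi.single (Sum.inl k) 1 : ι ⊕ ι → ℤ) (Sum.inl i) =
            if i = k then 1 else 0 := by
          intro i
          by_cases h : i = k <;> simp [zr, h]
        simp only [h1, h2, mul_zero, sub_zero, mul_ite, mul_one,
          Finset.sum_ite_eq', Finset.mem_univ, if_true] at hm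
        exact hm
    choose ν hν using hcoord
    exact ⟨ν, funext fun k => hν k⟩
  obtain ⟨ν1, hν1⟩ := hint s1 fun m1 m2 => ⟨m1, key1 m1 m2⟩
  obtain ⟨ν2, hν2⟩ := hint s2 fun m1 m2 => ⟨m2, key2 m1 m2⟩
  -- the pairing of `ν1` and `ν2`
  have hpair : ∑ i, (xv τ c s1 (Sum.inr i) * xv τ c s2 (Sum.inl i) -
      xv τ c s1 (Sum.inl i) * xv τ c s2 (Sum.inr i)) = kap τ c / D := by
    rw [E_xv τ hτ]
    have h1 : ∑ i, c i * lat τ (xv τ c s2) i = s2 * (kap τ c : ℂ) := by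
      rw [← ell_p τ hτ c, Finset.mul_sum]
      refine Finset.sum_congr rfl fun i _ => ?_
      rw [lat_xv]; ring
    rw [h1]
    have h2 : (starRingEnd ℂ) s1 * (s2 * (kap τ c : ℂ)) =
        ((kap τ c * D⁻¹ * D⁻¹ : ℝ) : ℂ) * (-(starRingEnd ℂ) t2 * t1) := by
      rw [hs1, hs2]
      simp only [map_div₀, map_neg, Complex.conj_ofReal, Complex.ofReal_inv, Complex.ofReal_mul]
      field_simp
    rw [h2, Complex.im_ofReal_mul]
    have h3 : (-(starRingEnd ℂ) t2 * t1).im = D := by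
      simp only [Complex.mul_im, Complex.neg_re, Complex.neg_im, Complex.conj_re, Complex.conj_im]
      rw [← im12]; ring
    rw [h3]
    field_simp
  have hEp : (-(Ep ν1 ν2 : ℤ) : ℝ) = kap τ c / D := by
    rw [← hpair, hν1, hν2]
    simp only [Ep, zr]
    push_cast
    rw [← Finset.sum_neg_distrib]
    refine Finset.sum_congr rfl fun i _ => ?_
    ring
  have hne : Ep ν1 ν2 ≠ 0 := by
    intro h
    rw [h] at hEp
    simp only [Int.cast_zero, neg_zero] at hEp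
    have := div_ne_zero hκ0.ne' hD
    exact this hEp.symm
  have habs : |Ep ν1 ν2| ≤ 1 := by
    have h1 : |(Ep ν1 ν2 : ℝ)| ≤ 1 := by
      rw [← abs_neg, hEp, abs_div, abs_of_pos hκ0]
      rw [div_le_one (abs_pos.2 hD)]
      exact hκ
    exact_mod_cast h1
  have hl1 : lat τ (zr ν1) = fun i => s1 * ∑ j, ((τ i j).im : ℂ) * (starRingEnd ℂ) (c j) := by
    rw [← hν1]; funext i; exact lat_xv τ c s1 i
  have hl2 : lat τ (zr ν2) = fun i => s2 * ∑ j, ((τ i j).im : ℂ) * (starRingEnd ℂ) (c j) := by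
    rw [← hν2]; funext i; exact lat_xv τ c s2 i
  rw [abs_le] at habs
  rcases lt_trichotomy (Ep ν1 ν2) 0 with h | h | h
  · refine ⟨ν2, ν1, ?_, s2 / s1, ?_⟩
    · have h1 : Ep ν2 ν1 = - Ep ν1 ν2 := by
        simp only [Ep]
        rw [← Finset.sum_neg_distrib]
        refine Finset.sum_congr rfl fun i _ => ?_
        ring
      omega
    · rw [hl1, hl2]
      funext i
      simp only [Pi.smul_apply, smul_eq_mul]
      field_simp
  · exact absurd h hne
  · refine ⟨ν1, ν2, by omega, s1 / s2, ?_⟩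
    rw [hl1, hl2]
    funext i
    simp only [Pi.smul_apply, smul_eq_mul]
    field_simp

end DF
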