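import Pool.Agent.helper32.DF.G1
import Pool.Agent.helper32.DF.G3

/-!
# G4 : a flat piece gives a hyperbolic pair on a complex line

PROOF. `HasFlat` gives `W, y, n`.  `W` has codimension one, so it is the kernel of a nonzero linear
form `ℓ` (`Submodule.exists_le_ker_of_lt_top` and dimensions, or a basis of the quotient), and
`ℓ z = ∑ c i z i` with `c i = ℓ (Pi.single i 1)`, `c ≠ 0`.  Apply `quot_lattice`, `flat_covol`,
`dual_pair`.
-/

namespace DF
open Matrix Complex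
variable {ι : Type} [Fintype ι] [DecidableEq ι]

theorem flat_pair (τ : Matrix ι ι ℂ) (hτ : τ ∈ Hg ι) (B : (ι ⊕ ι → ℝ) ≃L[ℝ] (ι → ℂ))
    (hB : ∀ x, B x = lat τ x) (hι : 1 ≤ Fintype.card ι) (hflat : HasFlat (theta τ) B) :
    ∃ μ1 μ2 : ι ⊕ ι → ℤ, Ep μ1 μ2 = 1 ∧ ∃ t : ℂ, lat τ (zr μ1) = t • lat τ (zr μ2) := by
  classical
  obtain ⟨W, y, n, hW, hn, hnW, hz⟩ := hflat
  have hfr : Module.finrank ℂ (ι → ℂ) = Fintype.card ι := Module.finrank_fintype_fun_eq_card ℂ
  have hne : W < ⊤ := by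
    rw [lt_top_iff_ne_top]
    rintro rfl
    rw [finrank_top, hfr] at hW
    omega
  obtain ⟨ℓ, hℓ, hker⟩ := Submodule.exists_le_ker_of_lt_top W hne
  have hsurj : Function.Surjective ℓ := LinearMap.surjective hℓ
  have hrk := LinearMap.finrank_range_add_finrank_ker ℓ
  rw [LinearMap.range_eq_top.2 hsurj, finrank_top, hfr, Module.finrank_self] at hrk
  have hWk : W = LinearMap.ker ℓ :=
    Submodule.eq_of_le_of_finrank_eq hker (by omega)
  set c : ι → ℂ := fun i => ℓ (fun j => if i = j then 1 else 0) with hc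
  have hℓc : ∀ z : ι → ℂ, ℓ z = ∑ i, c i * z i := by
    intro z
    rw [LinearMap.pi_apply_eq_sum_univ ℓ z]
    refine Finset.sum_congr rfl fun i _ => ?_
    rw [smul_eq_mul, mul_comm]
  have hc0 : c ≠ 0 := by
    intro h
    apply hℓ
    refine LinearMap.ext fun z => ?_
    rw [hℓc]
    simp [h]
  have h0 : ∀ i, ℓ (lat τ (zr (n i))) = 0 := by
    intro i
    have := hker (hnW i)
    rw [hB] at this
    exact this
  obtain ⟨l1, l2, hD, hL⟩ := quot_lattice τ hτ ℓ hℓ n hn h0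
  simp only [hℓc] at hD hL
  refine dual_pair τ hτ c hc0 l1 l2 hD hL (flat_covol τ hτ c hc0 y ?_ l1 l2 hD)
  intro w hw
  apply hz
  rw [hWk, LinearMap.mem_ker, hℓc]
  exact hw

end DF
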