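import Pool.Agent.helper32.DF.A4
import Pool.Agent.helper32.DF.A5
import Pool.Agent.helper32.DF.A7
import Pool.Agent.helper32.DF.A8
import Pool.Agent.helper32.DF.A9
import Pool.Agent.helper32.DF.C5
import Pool.Agent.helper32.DF.D3
import Pool.Agent.helper32.DF.F9
import Pool.Agent.helper32.DF.G4

/-!
# H1 : the main property `PP`

`PP_empty`: `ι` empty: `Ch` has one element, `thN = thc` is a sum with the one term `exp 0 = 1`; `Good`
is vacuous (no odd coordinate).
`PP_nonflat`: `B` from `exists_latE`, `count_small` with `f = theta τ`, `ε = 1`, `y = 0`,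
`κ = ι ⊕ ι`.  For `N = 2^s ≥ N0`, `s ≥ 1`, let `Z` be the finite set of `x : Ch N ι` with `thN N x τ = 0`.
By `thc_eq`, `thN N x τ = 0` iff `theta τ (lat τ (val/N)) = 0`, i.e. the grid point `gp B N 0 n` with
`n = Sum.elim (fun i => (x.1 i).val) (fun i => (x.2 i).val)` is a zero; `x ↦ n` is injective, so
`card Z ≤ N^(2h-2)`.  Take `S = univ \ Z`: good by `Good_compl`; nonempty as
`N^(2h-2) < N^(2h) = card (Ch N ι)`.
`PP_block`: let `τ i0 j = 0` for `j ≠ i0` and `PP` for the restriction of `τ`.  For `s ≥ s0, 1` take `S'`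
for the restriction and the set `S` of `Good_prod`.  For `x ∈ S`, `thN_prod` and `thN_unit_zero`
(contrapositive) give `thN x τ ≠ 0`.  Nonempty: `x' ∈ S'` and `x.1 i0 = x.2 i0 = 0`
(`0 ≠ N/2` in `ZMod N`, as `0 < N/2 < N`).
`PP_all`: induction on `card ι`.  `card ι = 0`: `PP_empty`.  Otherwise choose `i0`; if not `HasFlat`:
`PP_nonflat`.  If `HasFlat`: `flat_pair`, `block_form` give `γ`, `act γ τ` is of block form, its
restriction (`Hg_rest`) satisfies `PP` by induction (`card {j // j ≠ i0} = card ι - 1`), so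
`PP (act γ τ)` by `PP_block` and `PP τ` by `PP_inv`.
-/

namespace DF
open Matrix Complex

theorem PP_empty (ι : Type) [Fintype ι] [DecidableEq ι] [IsEmpty ι] (τ : Matrix ι ι ℂ) : PP τ := by
  refine ⟨0, fun s _ => ⟨Finset.univ, ⟨(fun i => isEmptyElim i, fun i => isEmptyElim i),
    Finset.mem_univ _⟩, ?_, ?_⟩⟩
  · intro c w hw
    rcases hw with ⟨i, _⟩ | ⟨i, _⟩
    · exact isEmptyElim i
    · exact isEmptyElim i
  · intro x _
    rw [thN, thc, (hasSum_unique _).tsum_eq]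
    exact Complex.exp_ne_zero _

/-- the grid point of a characteristic -/
def H1n (N : ℕ) {ι : Type} (x : Ch N ι) : ι ⊕ ι → ℤ :=
  Sum.elim (fun i => ((x.1 i).val : ℤ)) (fun i => ((x.2 i).val : ℤ))

theorem H1n_inj (N : ℕ) [NeZero N] {ι : Type} : Function.Injective (H1n N (ι := ι)) := by
  intro x y h
  have h1 : ∀ i, x.1 i = y.1 i := by
    intro i
    have := congrFun h (Sum.inl i)
    simp only [H1n, Sum.elim_inl] at this
    exact ZMod.val_injective N (by exact_mod_cast this)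
  have h2 : ∀ i, x.2 i = y.2 i := by
    intro i
    have := congrFun h (Sum.inr i)
    simp only [H1n, Sum.elim_inr] at this
    exact ZMod.val_injective N (by exact_mod_cast this)
  exact Prod.ext (funext h1) (funext h2)

theorem H1_zero {ι : Type} [Fintype ι] [DecidableEq ι] (τ : Matrix ι ι ℂ) (hτ : τ ∈ Hg ι)
    (B : (ι ⊕ ι → ℝ) ≃L[ℝ] (ι → ℂ)) (hB : ∀ x, B x = lat τ x) (N : ℕ) (x : Ch N ι)
    (h : thN N x τ = 0) : theta τ (gp B N 0 (H1n N x)) = 0 := by
  rw [thN, thc_eq τ hτ.1] at h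
  have h1 := (mul_eq_zero.1 h).resolve_left (Complex.exp_ne_zero _)
  have e : gp B N 0 (H1n N x) = lat τ (Sum.elim (fun i => ((x.1 i).val : ℝ) / N)
      (fun i => ((x.2 i).val : ℝ) / N)) := by
    rw [gp, hB]
    congr 1
    funext i
    rcases i with i | i
    · simp [H1n]
    · simp [H1n]
  rw [e]
  exact h1

theorem PP_nonflat {ι : Type} [Fintype ι] [DecidableEq ι] (hι : 1 ≤ Fintype.card ι)
    (τ : Matrix ι ι ℂ) (hτ : τ ∈ Hg ι) (B : (ι ⊕ ι → ℝ) ≃L[ℝ] (ι → ℂ)) (hB : ∀ x, B x = lat τ x)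
    (hflat : ¬ HasFlat (theta τ) B) : PP τ := by
  classical
  obtain ⟨N0, hN0⟩ := count_small (theta τ) (theta_differentiable τ hτ.2) (theta_ne τ hτ) B
    (by rw [Fintype.card_sum]; ring) hι hflat 1 one_pos
  refine ⟨max N0 1, fun s hs => ?_⟩
  have hs1 : 1 ≤ s := (le_max_right _ _).trans hs
  have hsN : N0 ≤ 2 ^ s := ((le_max_left _ _).trans hs).trans (Nat.lt_two_pow_self).le
  set Z : Finset (Ch (2 ^ s) ι) := Finset.univ.filter (fun x => thN (2 ^ s) x τ = 0) with hZ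
  have hcard : (Z.card : ℝ) ≤ ((2 ^ s : ℕ) : ℝ) ^ (2 * Fintype.card ι - 2) := by
    have h1 := hN0 (2 ^ s) hsN 0 (fun i => ⟨le_refl _, zero_le_one⟩) (Z.image (H1n (2 ^ s))) (by
      intro n hn
      rw [Finset.mem_image] at hn
      obtain ⟨x, hx, rfl⟩ := hn
      refine ⟨?_, H1_zero τ hτ B hB (2 ^ s) x (Finset.mem_filter.1 hx).2⟩
      rintro (i | i)
      · simp only [H1n, Sum.elim_inl]
        refine ⟨by positivity, ?_⟩
        exact_mod_cast ZMod.val_lt (x.1 i)
      · simp only [H1n, Sum.elim_inr]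
        refine ⟨by positivity, ?_⟩
        exact_mod_cast ZMod.val_lt (x.2 i))
    rw [Finset.card_image_of_injective _ (H1n_inj (2 ^ s)), one_mul] at h1
    exact h1
  refine ⟨Finset.univ \ Z, ?_, Good_compl s hs1 hι Z hcard, ?_⟩
  · rw [Finset.sdiff_nonempty]
    intro hsub
    have h1 : Fintype.card (Ch (2 ^ s) ι) ≤ Z.card := Finset.card_le_card hsub
    have h2 : Fintype.card (Ch (2 ^ s) ι) = (2 ^ s) ^ (2 * Fintype.card ι) := by
      rw [Fintype.card_prod, Fintype.card_fun, ZMod.card, two_mul, pow_add]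
    have h3 : (2 ^ s) ^ (2 * Fintype.card ι - 2) < (2 ^ s) ^ (2 * Fintype.card ι) := by
      refine Nat.pow_lt_pow_right ?_ (by omega)
      exact Nat.one_lt_two_pow (by omega)
    have h4 : Z.card ≤ (2 ^ s) ^ (2 * Fintype.card ι - 2) := by exact_mod_cast hcard
    omega
  · intro x hx
    rw [Finset.mem_sdiff] at hx
    intro h0
    exact hx.2 (Finset.mem_filter.2 ⟨Finset.mem_univ _, h0⟩)

theorem PP_block {ι : Type} [Fintype ι] [DecidableEq ι] (i0 : ι) (τ : Matrix ι ι ℂ)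
    (hτ : τ ∈ Hg ι) (h0 : ∀ j, j ≠ i0 → τ i0 j = 0)
    (hP : PP (τ.submatrix Subtype.val Subtype.val : Matrix {j // j ≠ i0} {j // j ≠ i0} ℂ)) :
    PP τ := by
  obtain ⟨s0, hs0⟩ := hP
  refine ⟨max s0 1, fun s hs => ?_⟩
  have hs1 : 1 ≤ s := (le_max_right _ _).trans hs
  obtain ⟨S', hS'n, hS'g, hS'0⟩ := hs0 s ((le_max_left _ _).trans hs)
  refine ⟨_, ?_, Good_prod s hs1 i0 S' hS'g, ?_⟩
  · obtain ⟨x', hx'⟩ := hS'n
    refine ⟨(fun j => if h : j = i0 then 0 else x'.1 ⟨j, h⟩,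
      fun j => if h : j = i0 then 0 else x'.2 ⟨j, h⟩), ?_⟩
    rw [Finset.mem_filter]
    refine ⟨Finset.mem_univ _, ?_, ?_⟩
    · rintro ⟨h1, -⟩
      simp only [dite_true] at h1
      have h2 := h1.symm
      rw [ZMod.natCast_eq_zero_iff] at h2
      have h3 : 2 ^ s / 2 = 2 ^ (s - 1) := by
        obtain ⟨t, rfl⟩ : ∃ t, s = t + 1 := ⟨s - 1, by omega⟩
        rw [pow_succ, Nat.mul_div_cancel _ (by norm_num)]
        rfl
      rw [h3] at h2
      have h4 := Nat.le_of_dvd (by positivity) h2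
      have h5 : 2 ^ (s - 1) < 2 ^ s := Nat.pow_lt_pow_right (by norm_num) (by omega)
      omega
    · convert hx' using 1
      refine Prod.ext (funext fun j => ?_) (funext fun j => ?_)
      · simp only [dif_neg j.2]
      · simp only [dif_neg j.2]
  · intro x hx
    rw [Finset.mem_filter] at hx
    rw [thN_prod (2 ^ s) i0 τ hτ h0 x]
    refine mul_ne_zero ?_ (hS'0 _ hx.2.2)
    intro hz
    exact hx.2.1 (thN_unit_zero s hs1 _ (Hg_unit i0 τ hτ) _ hz)

theorem PP_all (n : ℕ) : ∀ (ι : Type) [Fintype ι] [DecidableEq ι], Fintype.card ι = n →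
    ∀ τ : Matrix ι ι ℂ, τ ∈ Hg ι → PP τ := by
  induction n with
  | zero =>
    intro ι _ _ h τ hτ
    have : IsEmpty ι := Fintype.card_eq_zero_iff.mp h
    exact PP_empty ι τ
  | succ n ih =>
    intro ι _ _ h τ hτ
    have hι : 1 ≤ Fintype.card ι := by omega
    obtain ⟨i0⟩ : Nonempty ι := Fintype.card_pos_iff.mp (by omega)
    obtain ⟨B, hB⟩ := exists_latE τ hτ
    by_cases hflat : HasFlat (theta τ) B
    · obtain ⟨μ1, μ2, hE, hl⟩ := flat_pair τ hτ B hB hι hflat
      obtain ⟨γ, hγ, hH, hb⟩ := block_form i0 τ hτ μ1 μ2 hE hl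
      refine PP_inv γ hγ τ hτ (PP_block i0 (act γ τ) hH hb ?_)
      refine ih {j // j ≠ i0} ?_ _ (Hg_rest i0 _ hH)
      rw [Fintype.card_subtype_compl]
      simp [h]
    · exact PP_nonflat hι τ hτ B hB hflat

end DF
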