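import Pool.Agent.helper32.DF.A3
import Pool.Agent.helper32.DF.A6
import Pool.Agent.helper32.DF.B3
import Pool.Agent.helper32.DF.C5
import Pool.Agent.helper32.DF.D2

/-!
# I1 : the modular forms

NOTATION. `N = 2^s`, `s ≥ 1`, `GG s q` = the good subsets of `Ch N ι` with `q` elements,
`FF s q j τ = ∑_{T ∈ GG s q} (∏_{x∈T} pwN N x τ)^j`, `m = 2 N² q j`; weight `12 m = 24 N² q j`.

`power_sum`: if complex numbers `z i` (`i` in a finite set) are not all zero then
`∑ z i ^ j ≠ 0` for some `j ≥ 1`.  PROOF: otherwise `∑ P(z i) = 0` for all polynomials `P` without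
constant term; take `P` with `P(0) = 0`, `P = 1` at the value `z i0 ≠ 0` and `0` at the other values
(Lagrange): the sum is the multiplicity of this value, a positive integer.
`FF_T, FF_U, FF_J`: `∏_{x∈T} pwN x (mT S τ) = ∏_{x∈T} pwN (cT x) τ = ∏_{y ∈ T.image cT} pwN y τ`
(`pwN_T`, injectivity `cT_inj`), and `T ↦ T.image (cT ..)` maps `GG s q` injectively into itself (`Good_T`,
`Finset.card_image_of_injective`), hence bijectively (finite set); reindex the sum.  For `mJ` the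
product over the `q` elements of `T` gives the factor `(τ i i)^(24 N² q)`, to the power `j`.
`FF_holo`: finite sums, products, powers of `thc_differentiableOn`.
`FF_cusp`: for `T ∈ GG s q`, `v` with an odd coordinate, `w = (v, 0)`, `c = 0`: by `thc_cusp` and `dZ_phi`:
`‖∏_{x∈T} thN x (τ_l)^(48N²)‖ ≤ C exp(-π l 48 N² ∑_{x∈T} (φ(ell w x) + 1/12)) ≤ C exp(-π l 4 N² q)`
(goodness of `T`), to the power `j`: `C exp(-4π l N² q j) = C exp (-2π m l)`.
General `v ≠ 0`: `v = 2^e v'` with `v'` having an odd coordinate; `τ + i l v vᵀ = τ + i (4^e l) v' v'ᵀ`, and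
`exp(-2π m 4^e l) ≤ exp(-2π m l)`.
-/

set_option linter.unusedSectionVars false
set_option linter.unusedVariables false

namespace DF
open Matrix Complex
variable {ι : Type} [Fintype ι] [DecidableEq ι]

theorem power_sum {α : Type} (T : Finset α) (z : α → ℂ) (h : ∃ a ∈ T, z a ≠ 0) :
    ∃ j : ℕ, 1 ≤ j ∧ ∑ a ∈ T, z a ^ j ≠ 0 := by
  classical
  by_contra hcon
  push Not at hcon
  obtain ⟨a0, ha0, hz0⟩ := h
  -- sums of polynomials without constant term vanish
  have hP : ∀ P : Polynomial ℂ, P.coeff 0 = 0 → ∑ a ∈ T, P.eval (z a) = 0 := by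
    intro P hP0
    simp only [Polynomial.eval_eq_sum_range]
    rw [Finset.sum_comm]
    refine Finset.sum_eq_zero fun j _ => ?_
    rw [← Finset.mul_sum]
    rcases Nat.eq_zero_or_pos j with rfl | hj
    · rw [hP0, zero_mul]
    · rw [hcon j hj, mul_zero]
  set P : Polynomial ℂ := Polynomial.X * ∏ w ∈ (T.image z).erase (z a0),
    (Polynomial.X - Polynomial.C w) with hPdef
  have h0 : P.coeff 0 = 0 := by
    rw [hPdef, Polynomial.coeff_X_mul_zero]
  have h1 := hP P h0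
  have heval : ∀ w, P.eval w = w * ∏ u ∈ (T.image z).erase (z a0), (w - u) := by
    intro w
    rw [hPdef]
    simp [Polynomial.eval_prod]
  have hne : P.eval (z a0) ≠ 0 := by
    rw [heval]
    refine mul_ne_zero hz0 (Finset.prod_ne_zero_iff.2 fun u hu => ?_)
    rw [Finset.mem_erase] at hu
    exact sub_ne_zero.2 (Ne.symm hu.1)
  have h2 : ∑ a ∈ T, P.eval (z a) = ∑ a ∈ T, if z a = z a0 then P.eval (z a0) else 0 := by
    refine Finset.sum_congr rfl fun a ha => ?_
    by_cases hza : z a = z a0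
    · rw [if_pos hza, hza]
    · rw [if_neg hza, heval]
      have : z a ∈ (T.image z).erase (z a0) :=
        Finset.mem_erase.2 ⟨hza, Finset.mem_image_of_mem z ha⟩
      rw [Finset.prod_eq_zero this (sub_self _), mul_zero]
  rw [h2, ← Finset.sum_filter, Finset.sum_const, nsmul_eq_mul] at h1
  rcases mul_eq_zero.1 h1 with h3 | h3
  · rw [Nat.cast_eq_zero, Finset.card_eq_zero] at h3
    have : a0 ∈ T.filter (fun a => z a = z a0) := Finset.mem_filter.2 ⟨ha0, rfl⟩
    rw [h3] at this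
    exact absurd this (Finset.notMem_empty _)
  · exact hne h3

open Classical in
/-- good sets of size `q` -/
noncomputable def GG (ι : Type) [Fintype ι] [DecidableEq ι] (s q : ℕ) :
    Finset (Finset (Ch (2 ^ s) ι)) :=
  Finset.univ.filter (fun T => Good (2 ^ s) T ∧ T.card = q)

/-- the modular form -/
noncomputable def FF (s q j : ℕ) (τ : Matrix ι ι ℂ) : ℂ :=
  ∑ T ∈ GG ι s q, (∏ x ∈ T, pwN (2 ^ s) x τ) ^ j

theorem mem_GG {s q : ℕ} {T : Finset (Ch (2 ^ s) ι)} :
    T ∈ GG ι s q ↔ Good (2 ^ s) T ∧ T.card = q := by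
  classical
  simp [GG]

theorem sum_GG (s q : ℕ) (g : Ch (2 ^ s) ι → Ch (2 ^ s) ι) (hg : Function.Injective g)
    (hG : ∀ X : Finset (Ch (2 ^ s) ι), Good (2 ^ s) X → Good (2 ^ s) (X.image g))
    (F : Finset (Ch (2 ^ s) ι) → ℂ) :
    ∑ T ∈ GG ι s q, F (T.image g) = ∑ T ∈ GG ι s q, F T := by
  classical
  have hinj : Function.Injective (fun T : Finset (Ch (2 ^ s) ι) => T.image g) :=
    Finset.image_injective hg
  have himg : (GG ι s q).image (fun T : Finset (Ch (2 ^ s) ι) => T.image g) = GG ι s q := by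
    apply Finset.eq_of_subset_of_card_le
    · intro T hT
      obtain ⟨X, hX, rfl⟩ := Finset.mem_image.1 hT
      rw [mem_GG] at hX ⊢
      exact ⟨hG X hX.1, by rw [Finset.card_image_of_injective X hg]; exact hX.2⟩
    · rw [Finset.card_image_of_injective _ hinj]
  conv_rhs => rw [← himg]
  rw [Finset.sum_image (fun a _ b _ h => hinj h)]

theorem FF_T (s q j : ℕ) (hs : 1 ≤ s) (S : Matrix ι ι ℤ) (hS : S.IsSymm) (τ : Matrix ι ι ℂ)
    (hτ : τ ∈ Hg ι) : FF s q j (mT S τ) = FF s q j τ := by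
  classical
  have hN : 0 < 2 ^ s := by positivity
  have hE : Even (2 ^ s) := (Nat.even_pow' (by omega)).2 even_two
  unfold FF
  rw [← sum_GG s q (cT (2 ^ s) S) (cT_inj _ S) (fun X hX => Good_T s hs S hS X hX)
    (fun T => (∏ x ∈ T, pwN (2 ^ s) x τ) ^ j)]
  refine Finset.sum_congr rfl fun T _ => ?_
  rw [Finset.prod_image (fun a _ b _ h => cT_inj _ S h)]
  congr 1
  exact Finset.prod_congr rfl fun x _ => pwN_T (2 ^ s) hN hE S hS x τ

theorem FF_U (s q j : ℕ) (hs : 1 ≤ s) (U V : Matrix ι ι ℤ) (hUV : U * V = 1) (τ : Matrix ι ι ℂ)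
    (hτ : τ ∈ Hg ι) : FF s q j (mU U τ) = FF s q j τ := by
  classical
  have hN : 0 < 2 ^ s := by positivity
  have hE : Even (2 ^ s) := (Nat.even_pow' (by omega)).2 even_two
  unfold FF
  rw [← sum_GG s q (cU (2 ^ s) U V) (cU_inj _ U V hUV) (fun X hX => Good_U s hs U V hUV X hX)
    (fun T => (∏ x ∈ T, pwN (2 ^ s) x τ) ^ j)]
  refine Finset.sum_congr rfl fun T _ => ?_
  rw [Finset.prod_image (fun a _ b _ h => cU_inj _ U V hUV h)]
  congr 1
  exact Finset.prod_congr rfl fun x _ => pwN_U (2 ^ s) hN hE U V hUV x τ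

theorem FF_J (s q j : ℕ) (hs : 1 ≤ s) (i : ι) (τ : Matrix ι ι ℂ) (hτ : τ ∈ Hg ι) :
    FF s q j (mJ i τ) = (τ i i) ^ (24 * (2 ^ s) ^ 2 * q * j) * FF s q j τ := by
  classical
  have hN : 0 < 2 ^ s := by positivity
  have hE : Even (2 ^ s) := (Nat.even_pow' (by omega)).2 even_two
  unfold FF
  rw [← sum_GG s q (cJ (2 ^ s) i) (cJ_inj _ i) (fun X hX => Good_J s hs i X hX)
    (fun T => (∏ x ∈ T, pwN (2 ^ s) x τ) ^ j), Finset.mul_sum]
  refine Finset.sum_congr rfl fun T hT => ?_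
  rw [mem_GG] at hT
  rw [Finset.prod_image (fun a _ b _ h => cJ_inj _ i h)]
  have h1 : ∏ x ∈ T, pwN (2 ^ s) x (mJ i τ) =
      (τ i i) ^ (24 * (2 ^ s) ^ 2 * q) * ∏ x ∈ T, pwN (2 ^ s) (cJ (2 ^ s) i x) τ := by
    rw [Finset.prod_congr rfl fun x _ => pwN_J (2 ^ s) hN hE i x τ hτ, Finset.prod_mul_distrib,
      Finset.prod_const, hT.2, ← pow_mul]
  rw [h1, mul_pow, ← pow_mul]

theorem FF_holo (s q j : ℕ) : DifferentiableOn ℂ (fun M : ι → ι → ℂ => FF s q j (Matrix.of M))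
    {M | Matrix.of M ∈ Hg ι} := by
  classical
  have h1 : ∀ x : Ch (2 ^ s) ι, DifferentiableOn ℂ
      (fun M : ι → ι → ℂ => pwN (2 ^ s) x (Matrix.of M)) {M | Matrix.of M ∈ Hg ι} := by
    intro x
    unfold pwN thN
    exact DifferentiableOn.fun_pow (thc_differentiableOn _ _) _
  unfold FF
  refine DifferentiableOn.fun_sum fun T hT => ?_
  clear hT
  refine DifferentiableOn.fun_pow ?_ j
  induction T using Finset.induction_on with
  | empty => simp
  | insert x T hx ih =>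
    simp only [Finset.prod_insert hx]
    exact (h1 x).fun_mul ih

/-- a nonzero integer vector is `2 ^ e` times a vector with an odd coordinate -/
theorem odd_part (v : ι → ℤ) (hv : v ≠ 0) :
    ∃ (e : ℕ) (v' : ι → ℤ), (∃ i, Odd (v' i)) ∧ ∀ i, v i = 2 ^ e * v' i := by
  -- induction on the size
  have key : ∀ n : ℕ, ∀ v : ι → ℤ, v ≠ 0 → (∑ i, (v i).natAbs) ≤ n →
      ∃ (e : ℕ) (v' : ι → ℤ), (∃ i, Odd (v' i)) ∧ ∀ i, v i = 2 ^ e * v' i := by
    intro n
    induction n with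
    | zero =>
      intro v hv hn
      exfalso
      apply hv
      funext i
      have := (Finset.sum_eq_zero_iff.1 (Nat.le_zero.1 hn)) i (Finset.mem_univ i)
      simpa using this
    | succ n ih =>
      intro v hv hn
      by_cases hodd : ∃ i, Odd (v i)
      · exact ⟨0, v, hodd, fun i => by simp⟩
      · push Not at hodd
        have heven : ∀ i, ∃ w, v i = 2 * w := by
          intro i
          have := hodd i
          rw [Int.not_odd_iff_even] at this
          exact this.two_dvd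
        choose w hw using heven
        have hw0 : w ≠ 0 := by
          intro h
          apply hv
          funext i
          rw [hw i, h]; simp
        have hsum : (∑ i, (v i).natAbs) = 2 * ∑ i, (w i).natAbs := by
          rw [Finset.mul_sum]
          refine Finset.sum_congr rfl fun i _ => ?_
          rw [hw i, Int.natAbs_mul]; rfl
        have hpos : 0 < ∑ i, (w i).natAbs := by
          rw [Nat.pos_iff_ne_zero]
          intro h
          apply hw0
          funext i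
          have := (Finset.sum_eq_zero_iff.1 h) i (Finset.mem_univ i)
          simpa using this
        obtain ⟨e, v', h1, h2⟩ := ih w hw0 (by omega)
        refine ⟨e + 1, v', h1, fun i => ?_⟩
        rw [hw i, h2 i]; ring
  exact key _ v hv le_rfl

/-- the bound for one good set -/
theorem cusp_one (s q : ℕ) (τ : Matrix ι ι ℂ) (hτ : τ ∈ Hg ι) (v : ι → ℤ)
    (hv : ∃ i, Odd (v i)) (T : Finset (Ch (2 ^ s) ι)) (hT : T ∈ GG ι s q) :
    ∃ C : ℝ, 0 ≤ C ∧ ∀ l : ℝ, 0 ≤ l →
      ‖∏ x ∈ T, pwN (2 ^ s) x (τ + ((l : ℂ) * I) • Matrix.of (fun i j => (v i : ℂ) * v j))‖ ≤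
        C * Real.exp (-Real.pi * l * (4 * (2 ^ s : ℝ) ^ 2 * q)) := by
  classical
  have hN : 0 < 2 ^ s := by positivity
  rw [mem_GG] at hT
  choose C hC0 hC using fun x : Ch (2 ^ s) ι => thc_cusp τ hτ
    (fun i => ((x.1 i).val : ℝ) / ((2 ^ s : ℕ) : ℝ)) (fun i => ((x.2 i).val : ℝ) / ((2 ^ s : ℕ) : ℝ)) v
  refine ⟨∏ x ∈ T, C x ^ (48 * (2 ^ s) ^ 2), Finset.prod_nonneg fun x _ => by
    have := (hC0 x).le; positivity, ?_⟩
  intro l hl
  rw [norm_prod]
  have h1 : ∀ x ∈ T, ‖pwN (2 ^ s) x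
      (τ + ((l : ℂ) * I) • Matrix.of (fun i j => (v i : ℂ) * v j))‖ ≤
      C x ^ (48 * (2 ^ s) ^ 2) * Real.exp (-Real.pi * l *
        ((48 * (2 ^ s : ℝ) ^ 2) * (phiN (2 ^ s) (0 + ell (2 ^ s) (v, 0) x) + 1 / 12))) := by
    intro x _
    unfold pwN thN
    rw [norm_pow]
    have h2 := hC x l hl
    rw [dZ_phi (2 ^ s) hN x v] at h2
    refine (pow_le_pow_left₀ (norm_nonneg _) h2 _).trans (le_of_eq ?_)
    rw [mul_pow, ← Real.exp_nat_mul, zero_add]
    congr 2
    push_cast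
    ring
  refine (Finset.prod_le_prod (fun x _ => norm_nonneg _) h1).trans ?_
  rw [Finset.prod_mul_distrib, ← Real.exp_sum]
  apply mul_le_mul_of_nonneg_left _ (Finset.prod_nonneg fun x _ => by
    have := (hC0 x).le; positivity)
  apply Real.exp_le_exp.2
  rw [← Finset.mul_sum, ← Finset.mul_sum, Finset.sum_add_distrib, Finset.sum_const, hT.2]
  have hgood := hT.1 0 (v, 0) (Or.inl hv)
  have hpil : 0 ≤ Real.pi * l := mul_nonneg Real.pi_pos.le hl
  have h3 : 4 * (2 ^ s : ℝ) ^ 2 * q ≤ 48 * (2 ^ s : ℝ) ^ 2 *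
      (∑ x ∈ T, phiN (2 ^ s) (0 + ell (2 ^ s) (v, 0) x) + q • (1 / 12 : ℝ)) := by
    rw [nsmul_eq_mul]
    have h4 : (0 : ℝ) ≤ 48 * (2 ^ s : ℝ) ^ 2 := by positivity
    nlinarith [mul_nonneg h4 hgood]
  have h5 := mul_le_mul_of_nonneg_left h3 hpil
  linarith

theorem FF_cusp (s q j : ℕ) (hs : 1 ≤ s) (τ : Matrix ι ι ℂ) (hτ : τ ∈ Hg ι) (v : ι → ℤ)
    (hv : v ≠ 0) : ∃ C : ℝ, ∀ l : ℝ, 0 ≤ l →
      ‖FF s q j (τ + ((l : ℂ) * I) • Matrix.of (fun i j => (v i : ℂ) * v j))‖ ≤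
        C * Real.exp (-2 * Real.pi * ((2 * (2 ^ s) ^ 2 * q * j : ℕ) : ℝ) * l) := by
  classical
  obtain ⟨e, v', hv', hvv⟩ := odd_part v hv
  choose! C hC0 hC using fun (T : Finset (Ch (2 ^ s) ι)) (hT : T ∈ GG ι s q) =>
    cusp_one s q τ hτ v' hv' T hT
  refine ⟨∑ T ∈ GG ι s q, C T ^ j, ?_⟩
  intro l hl
  have hmat : (τ + ((l : ℂ) * I) • Matrix.of (fun i j => (v i : ℂ) * v j)) =
      τ + (((4 ^ e * l : ℝ) : ℂ) * I) • Matrix.of (fun i j => (v' i : ℂ) * v' j) := by
    congr 1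
    ext a b
    simp only [Matrix.smul_apply, Matrix.of_apply, smul_eq_mul, hvv]
    push_cast
    have : (4 : ℂ) ^ e = 2 ^ e * 2 ^ e := by
      rw [← mul_pow]; norm_num
    rw [this]; ring
  rw [hmat]
  have hl' : 0 ≤ 4 ^ e * l := by positivity
  have hll : l ≤ 4 ^ e * l := by
    have : (1 : ℝ) ≤ 4 ^ e := one_le_pow₀ (by norm_num)
    nlinarith
  unfold FF
  rw [Finset.sum_mul]
  refine (norm_sum_le _ _).trans (Finset.sum_le_sum fun T hT => ?_)
  rw [norm_pow]
  refine (pow_le_pow_left₀ (norm_nonneg _) (hC T hT _ hl') _).trans ?_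
  rw [mul_pow, ← Real.exp_nat_mul]
  apply mul_le_mul_of_nonneg_left _ (pow_nonneg (hC0 T hT) _)
  apply Real.exp_le_exp.2
  have h6 : (0 : ℝ) ≤ Real.pi * (4 * (2 ^ s : ℝ) ^ 2 * q * j) := by positivity
  have h7 := mul_le_mul_of_nonneg_left hll h6
  push_cast
  nlinarith [h7]

end DF
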