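import Pool.Agent.helper32.DF.H1
import Pool.Agent.helper32.DF.I1

/-!
# I2 : the theorem
-/

namespace DF
open Matrix Complex

/-- `f` is a Siegel modular form of degree `g` and weight `k` for `Sp_2g(ℤ)` which vanishes to order at
least `m` along the boundary divisor `D`. -/
structure IsSection (g k m : ℕ) (f : Matrix (Fin g) (Fin g) ℂ → ℂ) : Prop where
  holo : DifferentiableOn ℂ (fun M : Fin g → Fin g → ℂ => f (Matrix.of M))
    {M | Matrix.of M ∈ Hg (Fin g)}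
  modular : ∀ γ ∈ Matrix.symplecticGroup (Fin g) ℤ, ∀ τ ∈ Hg (Fin g),
    f (act γ τ) = (den γ τ).det ^ k * f τ
  vanish : ∀ τ ∈ Hg (Fin g), ∀ v : Fin g → ℤ, v ≠ 0 → ∃ C : ℝ, ∀ l : ℝ, 0 ≤ l →
    ‖f (τ + ((l : ℂ) * I) • Matrix.of (fun i j => (v i : ℂ) * v j))‖ ≤
      C * Real.exp (-2 * Real.pi * (m : ℝ) * l)

theorem result (g : ℕ) (hg : 1 ≤ g) (τ : Matrix (Fin g) (Fin g) ℂ) (hτ : τ ∈ Hg (Fin g)) :
    ∃ m : ℕ, 1 ≤ m ∧ ∃ f : Matrix (Fin g) (Fin g) ℂ → ℂ, IsSection g (12 * m) m f ∧ f τ ≠ 0 := by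
  obtain ⟨s0, h⟩ := PP_all g (Fin g) (by simp) τ hτ
  obtain ⟨s, hs, hs0⟩ : ∃ s, 1 ≤ s ∧ s0 ≤ s := ⟨max s0 1, le_max_right _ _, le_max_left _ _⟩
  obtain ⟨S, hne, hgood, hz⟩ := h s hs0
  have hS : S ∈ GG (Fin g) s S.card := by
    simp [GG, hgood]
  obtain ⟨j, hj, hne'⟩ := power_sum (GG (Fin g) s S.card)
    (fun T => ∏ x ∈ T, pwN (2 ^ s) x τ) ⟨S, hS, by
      refine Finset.prod_ne_zero_iff.mpr fun x hx => ?_
      exact pow_ne_zero _ (hz x hx)⟩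
  have hcard : 1 ≤ S.card := hne.card_pos
  refine ⟨2 * (2 ^ s) ^ 2 * S.card * j, ?_, FF s S.card j, ⟨FF_holo s _ j, ?_, ?_⟩, hne'⟩
  · have : 0 < 2 * (2 ^ s) ^ 2 * S.card * j := by positivity
    omega
  · intro γ hγ τ' hτ'
    have hk : 12 * (2 * (2 ^ s) ^ 2 * S.card * j) = 24 * (2 ^ s) ^ 2 * S.card * j := by ring
    rw [hk]
    refine (coc_all (FF s S.card j) (24 * (2 ^ s) ^ 2 * S.card * j) ?_ ?_ ?_ ?_ γ hγ τ' hτ').2.2
    · exact ⟨12 * (2 ^ s) ^ 2 * S.card * j, by ring⟩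
    · intro S' hS' τ'' h''
      exact FF_T s _ j hs S' hS' τ'' h''
    · intro U V hUV τ'' h''
      exact FF_U s _ j hs U V hUV τ'' h''
    · intro i τ'' h''
      exact FF_J s _ j hs i τ'' h''
  · intro τ' hτ' v hv
    exact FF_cusp s _ j hs τ' hτ' v hv

end DF
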