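import Pool.Agent.helper32.DF.Defs

/-!
# J1 : Jensen's inequality

PROOF. `g` entire, `g 0 ≠ 0`, `Z` a finite set of zeros with `0 < ‖t‖ < R`.  Induction on `Z`:
write `g = (s - t) q` with `q = dslope g t` entire and replace `g` by the entire function
`q s * (R² - conj t * s) / R`, which has the same norm on `‖s‖ = R`, the same other zeros, and
norm `‖g 0‖ * R / ‖t‖` at `0`.  The empty case is the maximum principle.
-/

namespace DF

theorem jensen_prod (R M : ℝ) (hR : 0 < R) (Z : Finset ℂ) :
    ∀ g : ℂ → ℂ, Differentiable ℂ g → g 0 ≠ 0 → (∀ t : ℂ, ‖t‖ = R → ‖g t‖ ≤ M) →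
      (∀ t ∈ Z, ‖t‖ < R ∧ g t = 0) → ‖g 0‖ * ∏ t ∈ Z, (R / ‖t‖) ≤ M := by
  classical
  induction Z using Finset.induction_on with
  | empty =>
    intro g hg h0 hM _
    simp only [Finset.prod_empty, mul_one]
    refine Complex.norm_le_of_forall_mem_frontier_norm_le (U := Metric.ball 0 R)
      Metric.isBounded_ball hg.diffContOnCl ?_ ?_
    · intro z hz
      rw [frontier_ball (0 : ℂ) hR.ne'] at hz
      exact hM z (by simpa using hz)
    · rw [closure_ball (0 : ℂ) hR.ne']
      exact Metric.mem_closedBall_self hR.le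
  | insert t Z ht ih =>
    intro g hg h0 hM hZ
    obtain ⟨htR, hgt⟩ := hZ t (Finset.mem_insert_self t Z)
    have ht0 : t ≠ 0 := by
      rintro rfl
      exact h0 hgt
    have htn : 0 < ‖t‖ := norm_pos_iff.mpr ht0
    set q : ℂ → ℂ := dslope g t with hq
    have hqd : Differentiable ℂ q := by
      have := (Complex.differentiableOn_dslope (f := g) (c := t) (s := Set.univ)
        Filter.univ_mem).2 hg.differentiableOn
      exact differentiableOn_univ.1 this
    have hgq : ∀ s, g s = (s - t) * q s := by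
      intro s
      have := sub_smul_dslope g t s
      rw [hgt, sub_zero, smul_eq_mul] at this
      exact this.symm
    set g1 : ℂ → ℂ := fun s => q s * ((R : ℂ) ^ 2 - (starRingEnd ℂ) t * s) / R with hg1
    have hRc : (R : ℂ) ≠ 0 := by exact_mod_cast hR.ne'
    have hg1d : Differentiable ℂ g1 := by
      intro s
      simp only [hg1]
      have h1 := hqd s
      fun_prop
    have hq0 : q 0 ≠ 0 := by
      intro h
      apply h0
      rw [hgq 0, h, mul_zero]
    have hg10 : g1 0 = q 0 * R := by
      simp only [hg1, mul_zero, sub_zero]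
      field_simp
    have hg1ne : g1 0 ≠ 0 := by
      rw [hg10]
      exact mul_ne_zero hq0 hRc
    have hnorm : ∀ s : ℂ, ‖s‖ = R → ‖g1 s‖ = ‖g s‖ := by
      intro s hs
      have h1 : (R : ℂ) ^ 2 = (starRingEnd ℂ) s * s := by
        rw [mul_comm, Complex.mul_conj, Complex.normSq_eq_norm_sq, hs]
        push_cast
        ring
      have h2 : (R : ℂ) ^ 2 - (starRingEnd ℂ) t * s = (starRingEnd ℂ) (s - t) * s := by
        rw [h1, map_sub]
        ring
      simp only [hg1]
      rw [h2, hgq s, norm_div, norm_mul, norm_mul, norm_mul, Complex.norm_conj, hs,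
        Complex.norm_real, Real.norm_eq_abs, abs_of_pos hR]
      field_simp
    have key := ih g1 hg1d hg1ne (fun s hs => (hnorm s hs).le.trans (hM s hs)) (by
      intro s hs
      obtain ⟨h1, h2⟩ := hZ s (Finset.mem_insert_of_mem hs)
      refine ⟨h1, ?_⟩
      have hst : s - t ≠ 0 := by
        intro h
        apply ht
        rw [← sub_eq_zero.mp h]
        exact hs
      have h3 : q s = 0 := by
        have := hgq s
        rw [h2] at this
        rcases mul_eq_zero.mp this.symm with h | h
        · exact absurd h hst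
        · exact h
      simp only [hg1, h3, zero_mul, zero_div])
    have h5 : ‖g 0‖ * (R / ‖t‖) = ‖g1 0‖ := by
      rw [hg10, hgq 0, norm_mul, norm_mul, zero_sub, norm_neg, Complex.norm_real, Real.norm_eq_abs,
        abs_of_pos hR]
      field_simp
    rw [Finset.prod_insert ht, ← mul_assoc, h5]
    exact key

theorem jensen_ineq (g : ℂ → ℂ) (hg : Differentiable ℂ g) (h0 : g 0 ≠ 0) (R M : ℝ) (hR : 0 < R)
    (hM : ∀ t : ℂ, ‖t‖ = R → ‖g t‖ ≤ M) (Z : Finset ℂ) (hZ : ∀ t ∈ Z, ‖t‖ < R ∧ g t = 0) :
    ∑ t ∈ Z, Real.log (R / ‖t‖) ≤ Real.log M - Real.log ‖g 0‖ := by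
  have key := jensen_prod R M hR Z g hg h0 hM hZ
  have hpos : ∀ t ∈ Z, 0 < R / ‖t‖ := by
    intro t ht
    have ht0 : t ≠ 0 := by
      rintro rfl
      exact h0 (hZ 0 ht).2
    exact div_pos hR (norm_pos_iff.mpr ht0)
  have hp : 0 < ∏ t ∈ Z, (R / ‖t‖) := Finset.prod_pos hpos
  have hg0 : 0 < ‖g 0‖ := norm_pos_iff.mpr h0
  have h1 := Real.log_le_log (mul_pos hg0 hp) key
  rw [Real.log_mul hg0.ne' hp.ne', Real.log_prod (fun t ht => (hpos t ht).ne')] at h1
  linarith

end DF
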